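import Pool.Agent.Lib_MP_3ea2ac_kn.Bez

/-! The algebraic end of the proof. -/

open MeasureTheory Complex Set Topology Filter MvPolynomial

namespace KN

/-- `R` depends on the variable `i`: then `R ∤ ∂_i R` for `R` irreducible. -/
theorem not_dvd_pderiv {n : ℕ} {R : MvPolynomial (Fin n) ℂ} {i : Fin n}
    (hi : R.degreeOf i ≠ 0) : ¬ R ∣ pderiv i R := by
  classical
  have hR0 : R ≠ 0 := ne_zero_of_degreeOf_ne_zero hi
  have hlt : ∀ m ∈ (pderiv i R).support, m i < R.degreeOf i := by
    intro m hm
    rw [mem_support_iff, coeff_pderiv] at hm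
    have h1 : m + Finsupp.single i 1 ∈ R.support := by
      rw [mem_support_iff]
      exact left_ne_zero_of_mul hm
    have h2 := monomial_le_degreeOf i h1
    rw [Finsupp.add_apply, Finsupp.single_eq_same] at h2
    omega
  have hlt' : (pderiv i R).degreeOf i < R.degreeOf i := (degreeOf_lt_iff (by omega)).mpr hlt
  have hne : pderiv i R ≠ 0 := by
    obtain ⟨m, hm, hmi⟩ : ∃ m ∈ R.support, m i ≠ 0 := by
      by_contra hcon
      push Not at hcon
      apply hi
      have : R.degreeOf i ≤ 0 := degreeOf_le_iff.mpr (fun m hm => (hcon m hm).le)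
      omega
    intro h0
    have h3 := coeff_pderiv (i := i) R (m - Finsupp.single i 1)
    rw [h0, coeff_zero] at h3
    have h4 : m - Finsupp.single i 1 + Finsupp.single i 1 = m := by
      apply tsub_add_cancel_of_le
      rw [Finsupp.single_le_iff]
      omega
    rw [h4] at h3
    rcases mul_eq_zero.mp h3.symm with h5 | h5
    · exact mem_support_iff.mp hm h5
    · exact Nat.cast_add_one_ne_zero _ h5
  rintro ⟨c, hc⟩
  have hc0 : c ≠ 0 := by
    rintro rfl
    rw [mul_zero] at hc
    exact hne hc
  have h6 := degreeOf_mul_eq (n := i) hR0 hc0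
  rw [← hc] at h6
  omega

/-- the polynomial on a line in the direction `i` -/
private noncomputable def algn_line {n : ℕ} (i : Fin n) (y : Fin n → ℂ) :
    MvPolynomial (Fin n) ℂ →ₐ[ℂ] Polynomial ℂ :=
  aeval (fun j => if j = i then Polynomial.X else Polynomial.C (y j))

private theorem algn_line_eval {n : ℕ} (i : Fin n) (y : Fin n → ℂ) (w : ℂ)
    (R : MvPolynomial (Fin n) ℂ) :
    (algn_line i y R).eval w = eval (fun j => if j = i then w else y j) R := by
  have h : ((Polynomial.evalRingHom w).comp (algn_line i y : MvPolynomial (Fin n) ℂ →+* _))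
      = eval (fun j => if j = i then w else y j) := by
    apply MvPolynomial.ringHom_ext
    · intro r
      simp [algn_line]
    · intro j
      by_cases hj : j = i
      · simp [algn_line, hj]
      · simp [algn_line, hj]
  exact congrArg (fun F => F R) h

private theorem algn_line_deriv {n : ℕ} (i : Fin n) (y : Fin n → ℂ)
    (R : MvPolynomial (Fin n) ℂ) :
    Polynomial.derivative (algn_line i y R) = algn_line i y (pderiv i R) := by
  induction R using MvPolynomial.induction_on with
  | C a => simp [algn_line]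
  | add p q hp hq => rw [map_add, Polynomial.derivative_add, hp, hq, map_add, map_add]
  | mul_X p j hp =>
    have hX : Polynomial.derivative (algn_line i y (X j)) = algn_line i y (pderiv i (X j)) := by
      by_cases hj : j = i
      · subst hj
        simp [algn_line]
      · rw [pderiv_X_of_ne hj]
        simp [algn_line, hj]
    rw [map_mul, Polynomial.derivative_mul, hp, pderiv_mul, map_add, map_mul, map_mul, hX]

private theorem algn_ins_eq {n : ℕ} (i : Fin (n + 1)) (y : Fin (n + 1) → ℂ) (w : ℂ) :
    (fun j => if j = i then w else y j) = ins i w (del i y) := by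
  funext j
  rcases Fin.eq_self_or_eq_succAbove i j with h | ⟨k, h⟩
  · subst h
    simp
  · subst h
    simp [del, Fin.succAbove_ne]

/-- a polynomial which vanishes on the line has zero derivative there -/
private theorem algn_exists_ne {n : ℕ} {i : Fin (n + 1)} {y : Fin (n + 1) → ℂ}
    {R : MvPolynomial (Fin (n + 1)) ℂ} (h : eval y (pderiv i R) ≠ 0) :
    ∃ w, eval (ins i w (del i y)) R ≠ 0 := by
  by_contra hcon
  push Not at hcon
  apply h
  have h0 : algn_line i y R = 0 := by
    apply Polynomial.funext
    intro w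
    rw [algn_line_eval, algn_ins_eq, hcon w, Polynomial.eval_zero]
  have h1 := algn_line_deriv i y R
  rw [h0, Polynomial.derivative_zero] at h1
  have h2 := congrArg (fun p => Polynomial.eval (y i) p) h1
  simp only [Polynomial.eval_zero] at h2
  rw [algn_line_eval, algn_ins_eq, ins_del] at h2
  exact h2.symm

/-- a polynomial without the variable `i` -/
private theorem algn_indep {n : ℕ} {i : Fin (n + 1)} {R : MvPolynomial (Fin (n + 1)) ℂ}
    (h : R.degreeOf i = 0) (x : Fin n → ℂ) (w w' : ℂ) :
    eval (ins i w x) R = eval (ins i w' x) R := by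
  have hv : i ∉ R.vars := by
    intro hi
    rw [mem_vars_iff_mem_support] at hi
    obtain ⟨d, hd, hdi⟩ := hi
    have h1 := monomial_le_degreeOf i hd
    rw [Finsupp.mem_support_iff] at hdi
    omega
  apply hom_congr_vars _ _ rfl
  · ext r
    simp
  · intro j hj _
    rw [eval_X, eval_X]
    rcases Fin.eq_self_or_eq_succAbove i j with h1 | ⟨k, h1⟩
    · subst h1
      exact absurd hj hv
    · subst h1
      simp

/-- `P i` describes `M` on almost every line in the direction `i`. Let `Q` be the product over `i` of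
the irreducible factors `R` of `P i` which depend on `x_i`.

`Q x = 0 → x ∉ M`: otherwise a ball around `x` lies in `M`; by `zeros_not_subset` and
`not_dvd_pderiv` there is a point `y` of the ball with `R(y) = 0`, `∂_i R(y) ≠ 0`, so `R` does not
vanish identically on the line in the direction `i` through `y`; by `hurwitzN` there are zeros of `R`
in the ball on all lines near this one, also on one of the lines where `P i` describes `M`.

`x ∉ M → Q x = 0`: otherwise on a ball around `x` the factors of `P i` which depend on `x_i` do not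
vanish, the others are nonzero on almost every line (`ae_eval_ne`), so almost every line in the
direction `i` does not meet the complement of `M` in the ball: `H2`. -/
theorem alg_main {n : ℕ} {M : Set (Fin (n + 1) → ℂ)} (hM : IsOpen M)
    (H1 : ∀ i : Fin (n + 1), ∃ P : MvPolynomial (Fin (n + 1)) ℂ, P ≠ 0 ∧
      ∀ᵐ x : Fin n → ℂ, ∀ w, ins i w x ∈ M ↔ eval (ins i w x) P ≠ 0)
    (H2 : ∀ x₀ ∉ M, ∀ r > 0, (∀ i, ∀ᵐ x : Fin n → ℂ, x ∈ Metric.ball (del i x₀) r →
      ∀ w ∈ Metric.ball (x₀ i) r, ins i w x ∈ M) → False) :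
    ∃ Q : MvPolynomial (Fin (n + 1)) ℂ, Q ≠ 0 ∧ ∀ x, x ∈ M ↔ eval x Q ≠ 0 := by
  classical
  choose P hP0 hP using H1
  set Fc : Fin (n + 1) → Multiset (MvPolynomial (Fin (n + 1)) ℂ) := fun i =>
    UniqueFactorizationMonoid.factors (P i) with hFc
  have hirr : ∀ i, ∀ R ∈ Fc i, Irreducible R := fun i R hR =>
    UniqueFactorizationMonoid.irreducible_of_factor R hR
  have hprod : ∀ i, Associated (Fc i).prod (P i) := fun i =>
    UniqueFactorizationMonoid.factors_prod (hP0 i)
  -- the zeros of `P i`
  have hzero : ∀ i x, eval x (P i) = 0 ↔ ∃ R ∈ Fc i, eval x R = 0 := by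
    intro i x
    obtain ⟨u, hu⟩ := hprod i
    rw [← hu, map_mul]
    have hue : eval x (u : MvPolynomial (Fin (n + 1)) ℂ) ≠ 0 :=
      (u.isUnit.map (eval x)).ne_zero
    rw [mul_eq_zero, or_iff_left hue, map_multiset_prod, Multiset.prod_eq_zero_iff,
      Multiset.mem_map]
  set Q : MvPolynomial (Fin (n + 1)) ℂ :=
    ∏ i, ((Fc i).filter fun R => R.degreeOf i ≠ 0).prod with hQ
  have hQzero : ∀ x, eval x Q = 0 ↔ ∃ i, ∃ R ∈ Fc i, R.degreeOf i ≠ 0 ∧ eval x R = 0 := by
    intro x
    rw [hQ, map_prod, Finset.prod_eq_zero_iff]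
    simp only [Finset.mem_univ, true_and, map_multiset_prod, Multiset.prod_eq_zero_iff,
      Multiset.mem_map, Multiset.mem_filter, and_assoc]
  refine ⟨Q, ?_, fun x => ⟨?_, ?_⟩⟩
  · rw [hQ, Finset.prod_ne_zero_iff]
    intro i _
    rw [Ne, Multiset.prod_eq_zero_iff, Multiset.mem_filter]
    intro h
    exact (hirr i 0 h.1).ne_zero rfl
  · -- a zero of `Q` is not in `M`
    intro hxM hx0
    obtain ⟨i, R, hR, hdeg, hRx⟩ := (hQzero x).mp hx0
    obtain ⟨ε, hε, hball⟩ := Metric.isOpen_iff.mp hM x hxM
    obtain ⟨y, hy, hRy, hdy⟩ := zeros_not_subset (hirr i R hR) (not_dvd_pderiv hdeg) hRx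
      (half_pos hε)
    have hcont : Continuous fun p : (Fin n → ℂ) × ℂ => eval (ins i p.2 p.1) R :=
      (continuous_evalN R).comp ((continuous_ins i).comp
        (Continuous.prodMk continuous_snd continuous_fst))
    have hhol : ∀ x' : Fin n → ℂ, Differentiable ℂ fun w : ℂ => eval (ins i w x') R := by
      intro x'
      have h1 : Differentiable ℂ fun w : ℂ => ins i w x' := by
        have h2 : Differentiable ℂ fun w : ℂ => insL i (w, x') :=
          (insL i).differentiable.comp (differentiable_id.prodMk (differentiable_const x'))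
        exact h2
      exact (differentiable_evalN R).comp h1
    have h0 : eval (ins i (y i) (del i y)) R = 0 := by rw [ins_del]; exact hRy
    have hev := hurwitzN (F := fun (x' : Fin n → ℂ) (w : ℂ) => eval (ins i w x') R) hcont hhol h0
      (algn_exists_ne hdy) (half_pos hε)
    have hev2 : ∀ᶠ x' in 𝓝 (del i y), x' ∈ Metric.ball (del i y) (ε / 2) :=
      Metric.ball_mem_nhds _ (half_pos hε)
    have hdense : Dense {x' : Fin n → ℂ | ∀ w, ins i w x' ∈ M ↔ eval (ins i w x') (P i) ≠ 0} :=
      Measure.dense_of_ae (hP i)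
    obtain ⟨x', hx'1, hx'2, hx'3⟩ := hdense.inter_nhds_nonempty (hev.and hev2)
    obtain ⟨w, hw, hRw⟩ := hx'2
    have h3 : ins i w x' ∈ M := by
      apply hball
      rw [Metric.mem_ball]
      calc dist (ins i w x') x ≤ dist (ins i w x') y + dist y x := dist_triangle _ _ _
        _ < ε / 2 + ε / 2 := by
            apply add_lt_add _ (Metric.mem_ball.mp hy)
            conv_lhs => rw [← ins_del i y]
            rw [dist_ins]
            exact max_lt (Metric.mem_ball.mp hw) (Metric.mem_ball.mp hx'3)
        _ = ε := by ring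
    have h4 := (hx'1 w).mp h3
    exact h4 ((hzero i _).mpr ⟨R, hR, hRw⟩)
  · -- a point outside `M` is a zero of `Q`
    intro hx0
    by_contra hxM
    have hnear : ∀ᶠ z in 𝓝 x, eval z Q ≠ 0 :=
      (continuous_evalN Q).continuousAt.eventually_ne hx0
    obtain ⟨r, hr, hball⟩ := Metric.eventually_nhds_iff_ball.mp hnear
    refine H2 x hxM r hr fun i => ?_
    set S : MvPolynomial (Fin (n + 1)) ℂ := ((Fc i).filter fun R => R.degreeOf i = 0).prod with hS
    have hS0 : S ≠ 0 := by
      rw [hS, Ne, Multiset.prod_eq_zero_iff, Multiset.mem_filter]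
      intro h
      exact (hirr i 0 h.1).ne_zero rfl
    filter_upwards [hP i, ae_line i (ae_eval_ne hS0)] with x' h1 h2 hx' w hw
    obtain ⟨w₀, hw₀⟩ : ∃ w₀, eval (ins i w₀ x') S ≠ 0 := h2.exists
    rw [h1 w, Ne, hzero]
    rintro ⟨R, hR, hRw⟩
    by_cases hdeg : R.degreeOf i = 0
    · apply hw₀
      rw [hS, map_multiset_prod, Multiset.prod_eq_zero_iff, Multiset.mem_map]
      refine ⟨R, Multiset.mem_filter.mpr ⟨hR, hdeg⟩, ?_⟩
      rw [algn_indep hdeg x' w₀ w]
      exact hRw
    · refine hball (ins i w x') ?_ ((hQzero _).mpr ⟨i, R, hR, hdeg, hRw⟩)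
      rw [Metric.mem_ball]
      conv_lhs => rw [← ins_del i x]
      rw [dist_ins]
      exact max_lt (Metric.mem_ball.mp hw) (Metric.mem_ball.mp hx')

end KN
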