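import Pool.Agent.Lib_MP_3ea2ac_kn.Defs

/-! The pointwise matrix computation behind the Bochner inequality for the holomorphic 1-form
`dz_k`. Notation: `H = (g_{i\bar j})`, `A i = ∂_i H`, `B i = ∂_{\bar i} H`, `S i j = ∂_i ∂_{\bar j} H`,
`K = H⁻¹`, `u = K_{kk} = |dz_k|²`, `T = ∂∂̄ log det H`. -/

open Complex Matrix
open scoped ComplexConjugate ComplexOrder

namespace KN

variable {n : ℕ}

/-- `tr_g` of a hermitian form: `∑ g^{i\bar j} Q_{i\bar j}`. -/
noncomputable def trg (H : Matrix (Fin n) (Fin n) ℂ) (Q : Fin n → Fin n → ℂ) : ℂ :=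
  ∑ i, ∑ j, H⁻¹ j i * Q i j

open scoped Kronecker in
private theorem BAlg_pos {K : Matrix (Fin n) (Fin n) ℂ} (hK : K.PosSemidef) (R : Fin n → Fin n → ℂ) :
    0 ≤ (∑ i, ∑ j, K j i * ∑ l, ∑ m, conj (R j l) * K l m * R i m).re := by
  have h := (hK.kronecker hK).re_dotProduct_nonneg fun p => R p.1 p.2
  have e : star (fun p : Fin n × Fin n => R p.1 p.2) ⬝ᵥ ((K ⊗ₖ K) *ᵥ fun p => R p.1 p.2) =
      ∑ i, ∑ j, K j i * ∑ l, ∑ m, conj (R j l) * K l m * R i m := by
    simp only [dotProduct, Matrix.mulVec, Pi.star_apply, Matrix.kroneckerMap_apply,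
      Fintype.sum_prod_type, Finset.mul_sum]
    refine (Finset.sum_congr rfl fun j _ => Finset.sum_comm).trans ?_
    refine Finset.sum_comm.trans ?_
    refine Finset.sum_congr rfl fun i _ => Finset.sum_congr rfl fun j _ =>
      Finset.sum_congr rfl fun l _ => Finset.sum_congr rfl fun m _ => ?_
    rw [Complex.star_def]
    ring
  rw [e] at h
  exact h

private theorem BAlg_kk (K M : Matrix (Fin n) (Fin n) ℂ) (k : Fin n) :
    (K * M * K) k k = ∑ l, ∑ m, K k l * M l m * K m k := by
  rw [Matrix.mul_apply]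
  simp only [Matrix.mul_apply, Finset.sum_mul]
  exact Finset.sum_comm

private theorem BAlg_tr (K X : Matrix (Fin n) (Fin n) ℂ) :
    ∑ i, ∑ j, K j i * X i j = (K * X).trace := by
  rw [Matrix.trace]
  simp only [Matrix.diag_apply, Matrix.mul_apply]
  exact Finset.sum_comm

/-- second order terms -/
private theorem BAlg_second {K : Matrix (Fin n) (Fin n) ℂ}
    {A B : Fin n → Matrix (Fin n) (Fin n) ℂ} {S : Fin n → Fin n → Matrix (Fin n) (Fin n) ℂ}
    {T : Matrix (Fin n) (Fin n) ℂ}
    (hB : ∀ i, B i = (A i)ᴴ) (hA : ∀ i j l, A i j l = A j i l)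
    (hS : ∀ i j l m, S i j l m = S l m i j)
    (hT : ∀ l m, T l m = (K * S l m).trace - (K * A l * K * B m).trace) (k : Fin n) :
    (∑ i, ∑ j, K j i * (K * A i * K * B j * K - K * S i j * K) k k) =
      - ∑ l, ∑ m, T l m * K k l * K m k := by
  have h1 : ∀ i j, (K * A i * K * B j * K - K * S i j * K) k k =
      ∑ l, ∑ m, K k l * ((A l * K * B m) i j - S l m i j) * K m k := by
    intro i j
    have e1 : K * A i * K * B j * K = K * (A i * K * B j) * K := by
      simp only [Matrix.mul_assoc]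
    rw [e1, Matrix.sub_apply, BAlg_kk, BAlg_kk, ← Finset.sum_sub_distrib]
    refine Finset.sum_congr rfl fun l _ => ?_
    rw [← Finset.sum_sub_distrib]
    refine Finset.sum_congr rfl fun m _ => ?_
    have e2 : (A i * K * B j) l m = (A l * K * B m) i j := by
      simp only [Matrix.mul_apply, hB, Matrix.conjTranspose_apply]
      refine Finset.sum_congr rfl fun q _ => ?_
      rw [hA j m q]
      congr 1
      refine Finset.sum_congr rfl fun p _ => ?_
      rw [hA i l p]
    rw [e2, hS i j l m]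
    ring
  simp only [h1]
  have h2 : ∀ l m, ∑ i, ∑ j, K j i * ((A l * K * B m) i j - S l m i j) = - T l m := by
    intro l m
    have e3 := BAlg_tr K (A l * K * B m)
    have e4 := BAlg_tr K (S l m)
    rw [hT l m, neg_sub, ← e4]
    have e5 : (K * A l * K * B m).trace = (K * (A l * K * B m)).trace := by
      simp only [Matrix.mul_assoc]
    rw [e5, ← e3, ← Finset.sum_sub_distrib]
    refine Finset.sum_congr rfl fun i _ => ?_
    rw [← Finset.sum_sub_distrib]
    exact Finset.sum_congr rfl fun j _ => by ring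
  have h3 : (∑ i, ∑ j, K j i * ∑ l, ∑ m, K k l * ((A l * K * B m) i j - S l m i j) * K m k) =
      ∑ l, ∑ m, (∑ i, ∑ j, K j i * ((A l * K * B m) i j - S l m i j)) * K k l * K m k := by
    simp only [Finset.mul_sum, Finset.sum_mul]
    -- i j l m  ->  l m i j
    refine (Finset.sum_congr rfl fun i _ => Finset.sum_comm).trans ?_
    refine Finset.sum_comm.trans ?_
    refine Finset.sum_congr rfl fun l _ => ?_
    refine (Finset.sum_congr rfl fun i _ => Finset.sum_comm).trans ?_
    refine Finset.sum_comm.trans ?_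
    refine Finset.sum_congr rfl fun m _ => Finset.sum_congr rfl fun i _ =>
      Finset.sum_congr rfl fun j _ => ?_
    ring
  rw [h3, ← Finset.sum_neg_distrib]
  refine Finset.sum_congr rfl fun l _ => ?_
  rw [← Finset.sum_neg_distrib]
  refine Finset.sum_congr rfl fun m _ => ?_
  rw [h2]
  ring

/-- completing the square -/
private theorem BAlg_square {K : Matrix (Fin n) (Fin n) ℂ} (hKh : ∀ i j, conj (K i j) = K j i) (k : Fin n)
    (hk : K k k ≠ 0) (W : Fin n → Fin n → ℂ) (c : Fin n → ℂ) (hc : ∀ i, c i = ∑ m, K k m * W i m) (i j : Fin n) :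
    (∑ l, ∑ m, conj (W j l - c j / K k k * (if l = k then 1 else 0)) * K l m *
      (W i m - c i / K k k * (if m = k then 1 else 0))) =
      (∑ l, ∑ m, conj (W j l) * K l m * W i m) - c i * conj (c j) / K k k := by
  have hkk : conj (K k k) = K k k := hKh k k
  have h1 : ∀ l, (∑ m, conj (W j l - c j / K k k * (if l = k then 1 else 0)) * K l m *
      (W i m - c i / K k k * (if m = k then 1 else 0))) =
      (∑ m, conj (W j l) * K l m * W i m) - conj (W j l) * K l k * (c i / K k k) -
        (if l = k then conj (c j) / K k k * (c i - c i) else 0) := by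
    intro l
    have e1 : ∀ m, conj (W j l - c j / K k k * (if l = k then 1 else 0)) * K l m *
        (W i m - c i / K k k * (if m = k then 1 else 0)) =
        conj (W j l) * K l m * W i m
          - (if m = k then conj (W j l) * K l m * (c i / K k k) else 0)
          - (if l = k then conj (c j) / K k k * (K l m * W i m) else 0)
          + (if m = k then (if l = k then conj (c j) / K k k * (K l m * (c i / K k k)) else 0) else 0) := by
      intro m
      have e0 : conj (c j / K k k) = conj (c j) / K k k := by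
        rw [map_div₀, hkk]
      by_cases hl : l = k
      · by_cases hm : m = k
        · simp only [if_pos hl, if_pos hm, map_sub, map_mul, e0, map_one]
          ring
        · simp only [if_pos hl, if_neg hm, map_sub, map_mul, e0, map_one]
          ring
      · by_cases hm : m = k
        · simp only [if_neg hl, if_pos hm, map_sub, map_mul, e0, map_zero]
          ring
        · simp only [if_neg hl, if_neg hm, map_sub, map_mul, e0, map_zero]
          ring
    rw [Finset.sum_congr rfl fun m _ => e1 m, Finset.sum_add_distrib, Finset.sum_sub_distrib,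
      Finset.sum_sub_distrib, Finset.sum_ite_eq' Finset.univ k, Finset.sum_ite_eq' Finset.univ k,
      if_pos (Finset.mem_univ k), if_pos (Finset.mem_univ k)]
    by_cases hl : l = k
    · simp only [if_pos hl]
      rw [← Finset.mul_sum, hl, ← hc i]
      have e2 : K k k * (c i / K k k) = c i := by field_simp
      rw [e2]
      ring
    · simp only [if_neg hl]
      simp
  rw [Finset.sum_congr rfl fun l _ => h1 l, Finset.sum_sub_distrib, Finset.sum_sub_distrib]
  have h2 : ∑ l, conj (W j l) * K l k * (c i / K k k) = c i * conj (c j) / K k k := by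
    rw [← Finset.sum_mul]
    have e3 : ∑ l, conj (W j l) * K l k = conj (c j) := by
      rw [hc j, map_sum]
      refine Finset.sum_congr rfl fun l _ => ?_
      rw [map_mul, hKh]
      ring
    rw [e3]
    ring
  rw [h2]
  simp

/-- `u Δu - |∂u|² ≥ -a u²` for `u = |dz_k|²`.

Proof. `ξ = K e_k` (column), `W i = A i *ᵥ ξ`. By the Kähler symmetries (`hA`, `hS`) and `hT`
`∑_{ij} K_{ji} (K B_j K A_i K)_{kk} = ∑_{ij} K_{ji} (W_j)^* K W_i =: I ≥ 0` and
`∑_{ij} K_{ji} (K A_i K B_j K - K S_{ij} K)_{kk} = - ∑_{lm} \bar ξ_l ξ_m T_{lm} ≥ - a ξ^* H ξ = - a u`.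
Moreover `u_i = - ξ^* A_i ξ = - ⟨e_k, W_i⟩_K` where `⟨x,y⟩_K = x^* K y`, and `⟨e_k,e_k⟩_K = u`, so by
Cauchy-Schwarz (write `K = S^* S`) `∑ K_{ji} u_i \bar u_j ≤ u I`. -/
theorem boch_alg {H : Matrix (Fin n) (Fin n) ℂ} (hH : H.PosDef)
    {A B : Fin n → Matrix (Fin n) (Fin n) ℂ} {S : Fin n → Fin n → Matrix (Fin n) (Fin n) ℂ}
    {T : Matrix (Fin n) (Fin n) ℂ} {a : ℝ}
    (hB : ∀ i, B i = (A i)ᴴ) (hA : ∀ i j l, A i j l = A j i l)
    (hS : ∀ i j l m, S i j l m = S l m i j)
    (hT : ∀ l m, T l m = (H⁻¹ * S l m).trace - (H⁻¹ * A l * H⁻¹ * B m).trace)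
    (hTle : ∀ v, hq T v ≤ a * hq H v) (k : Fin n) :
    - a * (H⁻¹ k k).re ^ 2 ≤
      (H⁻¹ k k).re * (trg H fun i j => (H⁻¹ * B j * H⁻¹ * A i * H⁻¹ + H⁻¹ * A i * H⁻¹ * B j * H⁻¹
        - H⁻¹ * S i j * H⁻¹) k k).re
      - (trg H fun i j => (H⁻¹ * A i * H⁻¹) k k * conj ((H⁻¹ * A j * H⁻¹) k k)).re := by
  have hK : (H⁻¹).PosDef := hH.inv
  have hKH : H⁻¹ * H * H⁻¹ = H⁻¹ := by
    rw [Matrix.nonsing_inv_mul _ ((Matrix.isUnit_iff_isUnit_det _).1 hH.isUnit), one_mul]
  unfold trg
  generalize H⁻¹ = K at hK hKH hT ⊢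
  have hKh : ∀ i j, conj (K i j) = K j i := fun i j => hK.isHermitian.apply j i
  have hkk : K k k = ((K k k).re : ℂ) := (Complex.conj_eq_iff_real.1 (hKh k k)).elim fun r hr => by
    rw [hr, Complex.ofReal_re]
  have hupos : 0 < (K k k).re := (Complex.pos_iff.1 (hK.diag_pos (i := k))).1
  have hk0 : K k k ≠ 0 := fun h => by
    rw [h, Complex.zero_re] at hupos
    exact lt_irrefl _ hupos
  set W : Fin n → Fin n → ℂ := fun i l => (A i * K) l k with hW
  set c : Fin n → ℂ := fun i => (K * A i * K) k k with hcdef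
  have hc : ∀ i, c i = ∑ m, K k m * W i m := by
    intro i
    show (K * A i * K) k k = _
    rw [Matrix.mul_assoc, Matrix.mul_apply]
  have hfirst : ∀ i j, (K * B j * K * A i * K) k k = ∑ l, ∑ m, conj (W j l) * K l m * W i m := by
    intro i j
    have e1 : K * B j * K * A i * K = (A j * K)ᴴ * K * (A i * K) := by
      rw [Matrix.conjTranspose_mul, hK.isHermitian.eq, hB j]
      simp only [Matrix.mul_assoc]
    rw [e1, Matrix.mul_apply]
    have e2 : ∀ m, ((A j * K)ᴴ * K) k m = ∑ l, conj ((A j * K) l k) * K l m := fun m => by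
      rw [Matrix.mul_apply]
      rfl
    simp only [e2, Finset.sum_mul]
    exact Finset.sum_comm
  have hsq := BAlg_pos hK.posSemidef fun i l => W i l - c i / K k k * (if l = k then 1 else 0)
  have hsq' : (∑ i, ∑ j, K j i * ∑ l, ∑ m, conj (W j l - c j / K k k * (if l = k then 1 else 0)) * K l m *
      (W i m - c i / K k k * (if m = k then 1 else 0))) =
      (∑ i, ∑ j, K j i * ∑ l, ∑ m, conj (W j l) * K l m * W i m) -
        (∑ i, ∑ j, K j i * (c i * conj (c j))) / K k k := by
    rw [Finset.sum_div, ← Finset.sum_sub_distrib]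
    refine Finset.sum_congr rfl fun i _ => ?_
    rw [Finset.sum_div, ← Finset.sum_sub_distrib]
    refine Finset.sum_congr rfl fun j _ => ?_
    rw [BAlg_square hKh k hk0 W c hc i j]
    ring
  rw [hsq', Complex.sub_re] at hsq
  have hD : ((∑ i, ∑ j, K j i * (c i * conj (c j))) / K k k).re =
      (∑ i, ∑ j, K j i * (c i * conj (c j))).re / (K k k).re := by
    rw [hkk, Complex.div_ofReal_re, Complex.ofReal_re]
  rw [hD] at hsq
  have hsecond := BAlg_second hB hA hS hT k
  have hv := hTle fun l => K k l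
  have hv1 : hq T (fun l => K k l) = (∑ l, ∑ m, T l m * K k l * K m k).re := by
    unfold hq
    simp only [hKh]
  have hv2 : hq H (fun l => K k l) = (K k k).re := by
    unfold hq
    simp only [hKh]
    rw [← hKH, BAlg_kk, hKH]
    congr 1
    exact Finset.sum_congr rfl fun l _ => Finset.sum_congr rfl fun m _ => by ring
  rw [hv1, hv2] at hv
  have hsplit : (∑ i, ∑ j, K j i * (K * B j * K * A i * K + K * A i * K * B j * K - K * S i j * K) k k) =
      (∑ i, ∑ j, K j i * ∑ l, ∑ m, conj (W j l) * K l m * W i m) -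
        ∑ l, ∑ m, T l m * K k l * K m k := by
    rw [sub_eq_add_neg, ← hsecond, ← Finset.sum_add_distrib]
    refine Finset.sum_congr rfl fun i _ => ?_
    rw [← Finset.sum_add_distrib]
    refine Finset.sum_congr rfl fun j _ => ?_
    rw [← hfirst i j, ← mul_add]
    congr 1
    simp only [Matrix.add_apply, Matrix.sub_apply]
    ring
  rw [hsplit, Complex.sub_re]
  generalize (∑ i, ∑ j, K j i * ∑ l, ∑ m, conj (W j l) * K l m * W i m).re = I1 at hsq ⊢
  show _ ≤ _ - (∑ i, ∑ j, K j i * (c i * conj (c j))).re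
  generalize (∑ i, ∑ j, K j i * (c i * conj (c j))).re = D1 at hsq ⊢
  generalize (∑ l, ∑ m, T l m * K k l * K m k).re = T1 at hv ⊢
  generalize (K k k).re = u at hupos hsq hv ⊢
  have h1 : D1 ≤ u * I1 := by
    have h2 : D1 / u ≤ I1 := by linarith
    rw [div_le_iff₀ hupos] at h2
    linarith
  have h3 : u * T1 ≤ u * (a * u) := mul_le_mul_of_nonneg_left hv hupos.le
  nlinarith

/-- The cofactor matrix is divergence free (pointwise identity). -/
theorem div_alg {H : Matrix (Fin n) (Fin n) ℂ} {A : Fin n → Matrix (Fin n) (Fin n) ℂ}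
    (hA : ∀ i j l, A i j l = A j i l) (j : Fin n) :
    ∑ i, ((H⁻¹ * A i).trace * H⁻¹ j i - (H⁻¹ * A i * H⁻¹) j i) = 0 := by
  rw [Finset.sum_sub_distrib, sub_eq_zero]
  simp only [Matrix.trace, Matrix.diag_apply, Matrix.mul_apply, Finset.sum_mul]
  generalize H⁻¹ = K
  -- left: i p q, right: i p q
  have e1 : (∑ i, ∑ p, ∑ q, K p q * A i q p * K j i) = ∑ q, ∑ p, ∑ i, K p q * A i q p * K j i := by
    refine (Finset.sum_congr rfl fun i _ => Finset.sum_comm).trans ?_
    refine Finset.sum_comm.trans ?_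
    exact Finset.sum_congr rfl fun q _ => Finset.sum_comm
  rw [e1]
  refine Finset.sum_congr rfl fun q _ => Finset.sum_congr rfl fun p _ => Finset.sum_congr rfl fun i _ => ?_
  rw [hA i q p]
  ring

end KN
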