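import Mathlib

open MeasureTheory Complex Set Topology Filter

namespace KN

/-- Zeros persist (Hurwitz), parameter in any topological space. See Hur.lean of
`Lib_MP_3ea2ac_kq`. -/
theorem hurwitzN {X : Type*} [TopologicalSpace X] {F : X → ℂ → ℂ} {x₀ : X} {y₀ : ℂ}
    (hcont : Continuous fun p : X × ℂ => F p.1 p.2) (hhol : ∀ x, Differentiable ℂ (F x))
    (h0 : F x₀ y₀ = 0) (hne : ∃ y, F x₀ y ≠ 0) {ε : ℝ} (hε : 0 < ε) :
    ∀ᶠ x in 𝓝 x₀, ∃ y ∈ Metric.ball y₀ ε, F x y = 0 := by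
  have hcat : ∀ y, ContinuousAt (fun p : X × ℂ => F p.1 p.2) (x₀, y) := fun y => hcont.continuousAt
  -- the zero is isolated
  have hiso : ∀ᶠ z in 𝓝[≠] y₀, F x₀ z ≠ 0 := by
    by_contra hcon
    rw [Filter.not_eventually] at hcon
    have hcon' : ∃ᶠ z in 𝓝[≠] y₀, F x₀ z = 0 := hcon.mono fun z hz => not_not.1 hz
    obtain ⟨y, hyne⟩ := hne
    have han : AnalyticOnNhd ℂ (F x₀) Set.univ :=
      (hhol x₀).differentiableOn.analyticOnNhd isOpen_univ
    exact hyne (han.eqOn_zero_of_preconnected_of_frequently_eq_zero isPreconnected_univ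
      (Set.mem_univ _) hcon' (Set.mem_univ y))
  rw [eventually_nhdsWithin_iff, Metric.eventually_nhds_iff] at hiso
  obtain ⟨ρ₀, hρ₀, hiso⟩ := hiso
  obtain ⟨ρ, hρ, hρ1, hρ3⟩ : ∃ ρ : ℝ, 0 < ρ ∧ ρ < ρ₀ ∧ ρ < ε := by
    refine ⟨min ρ₀ ε / 2, ?_, ?_, ?_⟩
    · have : 0 < min ρ₀ ε := lt_min hρ₀ hε
      linarith
    · have h1 : min ρ₀ ε ≤ ρ₀ := min_le_left _ _
      linarith
    · have h1 : min ρ₀ ε ≤ ε := min_le_right _ _
      linarith
  have hsne : (Metric.sphere y₀ ρ).Nonempty := NormedSpace.sphere_nonempty.2 hρ.le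
  have hsc : IsCompact (Metric.sphere y₀ ρ) := isCompact_sphere y₀ ρ
  -- the minimum on the circle
  obtain ⟨δ, hδ, hmin⟩ : ∃ δ : ℝ, 0 < δ ∧ ∀ z ∈ Metric.sphere y₀ ρ, δ ≤ ‖F x₀ z‖ := by
    have hc : ContinuousOn (fun z => ‖F x₀ z‖) (Metric.sphere y₀ ρ) :=
      (hhol x₀).continuous.continuousOn.norm
    obtain ⟨z, hz, hzm⟩ := hsc.exists_isMinOn hsne hc
    refine ⟨‖F x₀ z‖, ?_, fun w hw => hzm hw⟩
    apply norm_pos_iff.2
    apply hiso
    · rw [Metric.mem_sphere] at hz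
      rw [hz]
      exact hρ1
    · intro hzy
      rw [Set.mem_singleton_iff] at hzy
      rw [hzy, Metric.mem_sphere, dist_self] at hz
      linarith
  have e1 : ∀ᶠ x in 𝓝 x₀, ∀ z ∈ Metric.sphere y₀ ρ, δ / 2 < ‖F x z‖ := by
    apply hsc.eventually_forall_of_forall_eventually
    intro z hz
    apply (hcat z).norm.eventually (lt_mem_nhds _)
    have := hmin z hz
    linarith
  have e2 : ∀ᶠ x in 𝓝 x₀, ‖F x y₀‖ < δ / 8 := by
    have h1 : ContinuousAt (fun x : X => (x, y₀)) x₀ := by fun_prop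
    have h2 : Tendsto (fun x => F x y₀) (𝓝 x₀) (𝓝 (F x₀ y₀)) := (hcat y₀).tendsto.comp h1
    rw [h0] at h2
    have h3 := h2.norm
    rw [norm_zero] at h3
    exact h3.eventually (gt_mem_nhds (by linarith))
  filter_upwards [e1, e2] with x h1 h2
  have hdiff : ∀ z ∈ Metric.sphere y₀ ρ, δ / 4 ≤ ‖F x z - F x y₀‖ := by
    intro z hz
    have h4 := h1 z hz
    have h5 := norm_sub_norm_le (F x z) (F x y₀)
    linarith
  have hfreq : ∃ᶠ z in 𝓝 y₀, F x z ≠ F x y₀ := by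
    intro hcon
    have hcon' : F x =ᶠ[𝓝 y₀] fun _ => F x y₀ := hcon.mono fun z hz => not_not.1 hz
    have han : AnalyticOnNhd ℂ (F x) Set.univ :=
      (hhol x).differentiableOn.analyticOnNhd isOpen_univ
    have heq := han.eqOn_of_preconnected_of_eventuallyEq analyticOnNhd_const isPreconnected_univ
      (Set.mem_univ _) hcon'
    obtain ⟨z, hz⟩ := hsne
    have h4 := hdiff z hz
    have h5 : F x z = F x y₀ := heq (Set.mem_univ z)
    rw [h5, sub_self, norm_zero] at h4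
    linarith
  have himg := (hhol x).diffContOnCl.ball_subset_image_closedBall hρ hdiff hfreq
  have hmem : (0 : ℂ) ∈ Metric.ball (F x y₀) (δ / 4 / 2) := by
    rw [Metric.mem_ball, dist_zero_left]
    linarith
  obtain ⟨y, hy, hy0⟩ := himg hmem
  exact ⟨y, Metric.closedBall_subset_ball hρ3 hy, hy0⟩

end KN
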