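import Pool.Agent.Lib_MP_3ea2ac_kn.Poly
import Pool.Agent.Lib_MP_3ea2ac_kn.HurN

/-! The zeros of an irreducible polynomial are not locally contained in the zeros of another
polynomial. -/

open MeasureTheory Complex Set Topology Filter MvPolynomial

namespace KN

/-- Bezout: for `R` irreducible of positive degree in `T`, not dividing `c`, some nonzero polynomial
without `T` is a combination of `R` and `c` (Gauss lemma and the Bezout identity over the fraction
field). -/
theorem bezout {A : Type*} [CommRing A] [IsDomain A] [UniqueFactorizationMonoid A]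
    {R c : Polynomial A} (hR : Irreducible R) (hdeg : 0 < R.natDegree) (hc : ¬ R ∣ c) :
    ∃ (r : A) (U V : Polynomial A), r ≠ 0 ∧ U * R + V * c = Polynomial.C r := by
  have hp : R.IsPrimitive := hR.isPrimitive hdeg.ne'
  have hirr : Irreducible (R.map (algebraMap A (FractionRing A))) :=
    hp.irreducible_iff_irreducible_map_fraction_map.1 hR
  have hnd : ¬ R.map (algebraMap A (FractionRing A)) ∣ c.map (algebraMap A (FractionRing A)) :=
    fun h => hc (hp.dvd_of_fraction_map_dvd_fraction_map h)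
  obtain ⟨u, v, huv⟩ := hirr.coprime_iff_not_dvd.2 hnd
  obtain ⟨b1, hb1, h1⟩ := IsLocalization.integerNormalization_spec (nonZeroDivisors A) u
  obtain ⟨b2, hb2, h2⟩ := IsLocalization.integerNormalization_spec (nonZeroDivisors A) v
  refine ⟨b1 * b2, Polynomial.C b2 * IsLocalization.integerNormalization (nonZeroDivisors A) u,
    Polynomial.C b1 * IsLocalization.integerNormalization (nonZeroDivisors A) v,
    mul_ne_zero (nonZeroDivisors.ne_zero hb1) (nonZeroDivisors.ne_zero hb2), ?_⟩
  apply Polynomial.map_injective (algebraMap A (FractionRing A)) (IsFractionRing.injective A _)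
  rw [Algebra.smul_def, Polynomial.algebraMap_apply] at h1 h2
  rw [Polynomial.map_add, Polynomial.map_mul, Polynomial.map_mul, Polynomial.map_mul,
    Polynomial.map_mul, Polynomial.map_C, Polynomial.map_C, Polynomial.map_C, h1, h2, map_mul,
    map_mul]
  linear_combination (Polynomial.C (algebraMap A (FractionRing A) b1) *
    Polynomial.C (algebraMap A (FractionRing A) b2)) * huv

/-- The values of the shear of coefficients `v` with translation `x`. -/
private noncomputable def Bez_f {m : ℕ} (x v : Fin (m + 1) → ℂ) (i : Fin (m + 1)) :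
    MvPolynomial (Fin (m + 1)) ℂ :=
  Fin.cases (X 0 + C (x 0)) (fun i => X i.succ + C (v i.succ) * X 0 + C (x i.succ)) i

private noncomputable def Bez_g {m : ℕ} (x v : Fin (m + 1) → ℂ) (i : Fin (m + 1)) :
    MvPolynomial (Fin (m + 1)) ℂ :=
  Fin.cases (X 0 - C (x 0)) (fun i => X i.succ - C (x i.succ) - C (v i.succ) * (X 0 - C (x 0))) i

/-- The change of coordinates. -/
private noncomputable def Bez_equiv {m : ℕ} (x v : Fin (m + 1) → ℂ) :
    MvPolynomial (Fin (m + 1)) ℂ ≃ₐ[ℂ] MvPolynomial (Fin (m + 1)) ℂ :=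
  AlgEquiv.ofAlgHom (aeval (Bez_f x v)) (aeval (Bez_g x v))
    (by
      refine algHom_ext fun i => ?_
      refine Fin.cases ?_ (fun i => ?_) i
      · simp [Bez_f, Bez_g]
      · simp [Bez_f, Bez_g])
    (by
      refine algHom_ext fun i => ?_
      refine Fin.cases ?_ (fun i => ?_) i
      · simp [Bez_f, Bez_g]
      · simp [Bez_f, Bez_g])

private noncomputable def Bez_phi {m : ℕ} (x v : Fin (m + 1) → ℂ) (z : Fin (m + 1) → ℂ) :
    Fin (m + 1) → ℂ := fun i => eval z (Bez_f x v i)

private theorem Bez_eval {m : ℕ} (x v z : Fin (m + 1) → ℂ) (p : MvPolynomial (Fin (m + 1)) ℂ) :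
    eval z (Bez_equiv x v p) = eval (Bez_phi x v z) p := by
  have h : Bez_equiv x v p = aeval (Bez_f x v) p := rfl
  rw [h]
  clear h
  induction p using MvPolynomial.induction_on with
  | C a => simp
  | add p q hp hq => rw [map_add, map_add, map_add, hp, hq]
  | mul_X p i hp => rw [map_mul, map_mul, map_mul, hp, aeval_X, eval_X]; rfl

private theorem Bez_phi_cons {m : ℕ} (x v : Fin (m + 1) → ℂ) (hv : v 0 = 1) (t : ℂ) (s : Fin m → ℂ)
    (i : Fin (m + 1)) : Bez_phi x v (Fin.cons t s) i = x i + t * v i + (Fin.cons 0 s : Fin (m + 1) → ℂ) i := by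
  refine Fin.cases ?_ (fun i => ?_) i
  · simp [Bez_phi, Bez_f, hv]
    ring
  · simp [Bez_phi, Bez_f]
    ring

private theorem Bez_core {m n : ℕ} {R c : MvPolynomial (Fin n) ℂ} {x : Fin n → ℂ} {ε : ℝ} (hε : 0 < ε)
    (φ : (Fin m → ℂ) × ℂ → Fin n → ℂ) (hφ : Continuous φ) (hφd : ∀ s, Differentiable ℂ fun t => φ (s, t))
    (h0 : φ (0, 0) = x) (hx : eval x R = 0) (t₁ : ℂ) (h1 : eval (φ (0, t₁)) R ≠ 0)
    (r : MvPolynomial (Fin m) ℂ) (hr : r ≠ 0)
    (hnz : ∀ s t, eval s r ≠ 0 → eval (φ (s, t)) R = 0 → eval (φ (s, t)) c ≠ 0) :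
    ∃ y ∈ Metric.ball x ε, eval y R = 0 ∧ eval y c ≠ 0 := by
  have hball : ∀ᶠ q : (Fin m → ℂ) × ℂ in 𝓝 (0, 0), φ q ∈ Metric.ball x ε := by
    have h2 : Tendsto φ (𝓝 (0, 0)) (𝓝 (φ (0, 0))) := hφ.tendsto (0, 0)
    rw [h0] at h2
    exact h2.eventually (Metric.ball_mem_nhds x hε)
  rw [Metric.eventually_nhds_iff] at hball
  obtain ⟨δ, hδ, hball⟩ := hball
  have hH2 := hurwitzN (X := Fin m → ℂ) (F := fun s t => eval (φ (s, t)) R) (x₀ := 0) (y₀ := 0)
    ((continuous_evalN R).comp hφ) (fun s => (differentiable_evalN R).comp (hφd s))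
    (by
      show eval (φ (0, 0)) R = 0
      rw [h0]
      exact hx) ⟨t₁, h1⟩ hδ
  have hs : ∀ᶠ s : Fin m → ℂ in 𝓝 0, s ∈ Metric.ball (0 : Fin m → ℂ) δ :=
    Metric.ball_mem_nhds 0 hδ
  have hdense : Dense {s : Fin m → ℂ | eval s r ≠ 0} := Measure.dense_of_ae (ae_eval_ne hr)
  obtain ⟨s, hs1, hs2⟩ := mem_closure_iff_nhds.1 (hdense 0) _ (hH2.and hs)
  obtain ⟨⟨t, ht1, ht2⟩, hs3⟩ := hs1
  refine ⟨φ (s, t), hball ?_, ht2, hnz s t hs2 ht2⟩
  rw [Prod.dist_eq]
  exact max_lt hs3 ht1

/-- Near a zero of the irreducible `R` there are zeros of `R` where `c` does not vanish. Choose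
`v` with `R(x + t v) ≢ 0`, an affine change of coordinates with `x = 0`, `v = e_0`
(`MvPolynomial` algebra equivalence), `finSuccEquiv`, `bezout`: for `s` near `0` with `r(s) ≠ 0` the
polynomials `R(·,s)` and `c(·,s)` have no common zero, but `R(·,s)` has a zero near `0`
(`hurwitzN`). -/
theorem zeros_not_subset {n : ℕ} {R c : MvPolynomial (Fin n) ℂ} (hR : Irreducible R)
    (hc : ¬ R ∣ c) {x : Fin n → ℂ} (hx : eval x R = 0) {ε : ℝ} (hε : 0 < ε) :
    ∃ y ∈ Metric.ball x ε, eval y R = 0 ∧ eval y c ≠ 0 := by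
  -- the number of variables is positive
  obtain ⟨m, rfl⟩ : ∃ m, n = m + 1 := by
    cases n with
    | zero =>
      exfalso
      have h0 : R ≠ 0 := hR.ne_zero
      have h1 : R = C (eval x R) := by
        have h2 := MvPolynomial.eq_C_of_isEmpty R
        rw [h2]
        simp
      rw [hx, map_zero] at h1
      exact h0 h1
    | succ m => exact ⟨m, rfl⟩
  -- a direction in which R does not vanish identically
  obtain ⟨p, hp⟩ : ∃ p : Fin (m + 1) → ℂ, eval p (R * (X 0 - C (x 0))) ≠ 0 := by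
    by_contra hcon
    push Not at hcon
    have h1 : R * (X 0 - C (x 0)) = 0 := MvPolynomial.funext fun p => by rw [hcon p, map_zero]
    rcases mul_eq_zero.1 h1 with h2 | h2
    · exact hR.ne_zero h2
    · have h3 := congrArg (eval (fun _ => x 0 + 1)) h2
      simp at h3
  rw [map_mul, map_sub, eval_X, eval_C] at hp
  have hp1 : eval p R ≠ 0 := left_ne_zero_of_mul hp
  have hp2 : p 0 - x 0 ≠ 0 := right_ne_zero_of_mul hp
  set v : Fin (m + 1) → ℂ := fun i => (p i - x i) / (p 0 - x 0) with hvdef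
  have hv : v 0 = 1 := div_self hp2
  -- the polynomials in the new coordinates
  obtain ⟨R1, hR1⟩ : ∃ R1 : Polynomial (MvPolynomial (Fin m) ℂ), R1 = finSuccEquiv ℂ m (Bez_equiv x v R) :=
    ⟨_, rfl⟩
  obtain ⟨c1, hc1⟩ : ∃ c1 : Polynomial (MvPolynomial (Fin m) ℂ), c1 = finSuccEquiv ℂ m (Bez_equiv x v c) :=
    ⟨_, rfl⟩
  have hev : ∀ (q : MvPolynomial (Fin (m + 1)) ℂ) (t : ℂ) (s : Fin m → ℂ),
      Polynomial.eval t (Polynomial.map (eval s) (finSuccEquiv ℂ m (Bez_equiv x v q))) =
        eval (Bez_phi x v (Fin.cons t s)) q := by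
    intro q t s
    rw [← eval_eq_eval_mv_eval', Bez_eval]
  have hirr : Irreducible R1 := by
    rw [hR1]
    exact (MulEquiv.irreducible_iff (finSuccEquiv ℂ m)).2
      ((MulEquiv.irreducible_iff (Bez_equiv x v)).2 hR)
  have hnd : ¬ R1 ∣ c1 := by
    intro h
    rw [hR1, hc1] at h
    exact hc ((map_dvd_iff (Bez_equiv x v)).1 ((map_dvd_iff (finSuccEquiv ℂ m)).1 h))
  have hphi0 : Bez_phi x v (Fin.cons 0 0) = x := by
    funext i
    rw [Bez_phi_cons x v hv]
    refine Fin.cases ?_ (fun i => ?_) i <;> simp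
  have hphi1 : Bez_phi x v (Fin.cons (p 0 - x 0) 0) = p := by
    funext i
    rw [Bez_phi_cons x v hv]
    have h1 : (p 0 - x 0) * v i = p i - x i := mul_div_cancel₀ _ hp2
    have h2 : (Fin.cons 0 0 : Fin (m + 1) → ℂ) i = 0 := by
      refine Fin.cases ?_ (fun i => ?_) i <;> simp
    rw [h1, h2]
    ring
  have hdeg : 0 < R1.natDegree := by
    rw [Nat.pos_iff_ne_zero]
    intro h0
    have h1 := Polynomial.eq_C_of_natDegree_eq_zero h0
    have h2 := hev R 0 0
    have h3 := hev R (p 0 - x 0) 0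
    rw [← hR1, h1, Polynomial.map_C, Polynomial.eval_C] at h2 h3
    rw [hphi0, hx] at h2
    rw [hphi1, h2] at h3
    exact hp1 h3.symm
  obtain ⟨r, U, V, hr, hUV⟩ := bezout hirr hdeg hnd
  -- Hurwitz
  have hcont : Continuous fun q : (Fin m → ℂ) × ℂ => Bez_phi x v (Fin.cons q.2 q.1) := by
    refine continuous_pi fun i => ?_
    simp only [Bez_phi_cons x v hv]
    refine ((continuous_const.add (continuous_snd.mul continuous_const))).add ?_
    refine Fin.cases ?_ (fun i => ?_) i
    · simpa using continuous_const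
    · have h1 : Continuous fun a : (Fin m → ℂ) × ℂ => a.1 i := (continuous_apply i).comp continuous_fst
      simpa using h1
  refine Bez_core hε (fun q => Bez_phi x v (Fin.cons q.2 q.1)) hcont (fun s => ?_) hphi0 hx (p 0 - x 0)
    (by rw [hphi1]; exact hp1) r hr (fun s t hs ht hc0 => ?_)
  · refine differentiable_pi.2 fun i => ?_
    simp only [Bez_phi_cons x v hv]
    fun_prop
  · have h1 := congrArg (fun P => Polynomial.eval t (Polynomial.map (eval s) P)) hUV
    simp only [Polynomial.map_add, Polynomial.map_mul, Polynomial.eval_add, Polynomial.eval_mul,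
      Polynomial.map_C, Polynomial.eval_C] at h1
    rw [hR1, hc1, hev, hev, ht, hc0, mul_zero, mul_zero, add_zero] at h1
    exact hs h1.symm

end KN
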