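import Pool.Agent.Lib_MP_3ea2ac_kn.Lin
import Pool.Agent.Lib_MP_3ea2ac_kn.BAlg

/-! The Bochner inequality and the divergence form of the Laplacian. -/

open MeasureTheory Complex Set Topology Filter
open scoped ComplexConjugate ContDiff ComplexOrder

namespace KN

variable {n : ℕ} {M : Set (Fin n → ℂ)} {g : (Fin n → ℂ) → Matrix (Fin n) (Fin n) ℂ} {a : ℝ}
  {α β : Fin n → ℂ} {x : Fin n → ℂ}

private theorem bo_smooth (h : IsKahler M g) : MSmooth M g := fun l m => h.smooth l m

private theorem bo_det (h : IsKahler M g) : ∀ y ∈ M, (g y).det ≠ 0 := by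
  intro y hy h0
  have h1 := (det_re (h.posDef y hy)).2
  rw [h0] at h1
  simp at h1

private theorem bo_herm (h : IsKahler M g) {y : Fin n → ℂ} (hy : y ∈ M) (l m : Fin n) :
    conj (g y m l) = g y l m := by
  have h1 := (h.posDef y hy).isHermitian.apply l m
  rw [starRingEnd_apply]
  exact h1

private theorem bo_B (hM : IsOpen M) (h : IsKahler M g) (hx : x ∈ M) (e e' : Fin n → ℂ) :
    mwdb e e' g x = (mwd e e' g x).conjTranspose := by
  ext l m
  rw [Matrix.conjTranspose_apply, ← starRingEnd_apply]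
  change KQ.wdb e e' (fun y => g y l m) x = conj (KQ.wd e e' (fun y => g y m l) x)
  rw [← KQ.wdb_conj]
  apply KQ.wdb_congr
  filter_upwards [hM.mem_nhds hx] with y hy
  exact (bo_herm h hy l m).symm

private theorem bo_closed' (hM : IsOpen M) (h : IsKahler M g) (hx : x ∈ M) (i j k : Fin n) :
    pdb i (fun z => g z j k) x = pdb k (fun z => g z j i) x := by
  have h1 : pdb i (fun z => g z j k) x = conj (pd i (fun z => g z k j) x) := by
    unfold pdb pd
    rw [← KQ.wdb_conj]
    apply KQ.wdb_congr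
    filter_upwards [hM.mem_nhds hx] with y hy
    exact (bo_herm h hy j k).symm
  have h2 : pdb k (fun z => g z j i) x = conj (pd k (fun z => g z i j) x) := by
    unfold pdb pd
    rw [← KQ.wdb_conj]
    apply KQ.wdb_congr
    filter_upwards [hM.mem_nhds hx] with y hy
    exact (bo_herm h hy j i).symm
  rw [h1, h2, h.closed x hx i k j]

private theorem bo_S (hM : IsOpen M) (h : IsKahler M g) (hx : x ∈ M) (i j l m : Fin n) :
    pd i (pdb j (fun y => g y l m)) x = pd l (pdb m (fun y => g y i j)) x := by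
  calc pd i (pdb j (fun y => g y l m)) x = pd i (pdb m (fun y => g y l j)) x := by
        apply KQ.wd_congr
        filter_upwards [hM.mem_nhds hx] with y hy
        exact bo_closed' hM h hy j l m
    _ = pdb m (pd i (fun y => g y l j)) x := KQ.wd_wdb_comm hM (h.smooth l j) hx
    _ = pdb m (pd l (fun y => g y i j)) x := by
        apply KQ.wdb_congr
        filter_upwards [hM.mem_nhds hx] with y hy
        exact h.closed y hy i l j
    _ = pd l (pdb m (fun y => g y i j)) x := (KQ.wd_wdb_comm hM (h.smooth i j) hx).symm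

private theorem bo_dU (hM : IsOpen M) (h : IsKahler M g) (hx : x ∈ M) (k i : Fin n) :
    pd i (fun y => ((uK g k y : ℝ) : ℂ)) x
      = - ((g x)⁻¹ * mwd (ux i) (uy i) g x * (g x)⁻¹) k k := by
  have h1 : pd i (fun y => ((uK g k y : ℝ) : ℂ)) x = pd i (fun y => (g y)⁻¹ k k) x := by
    apply KQ.wd_congr
    filter_upwards [hM.mem_nhds hx] with y hy
    exact (inv_self h hy k).symm
  rw [h1]
  exact congrFun (congrFun (mwd_inv hM (bo_smooth h) (bo_det h) hx) k) k

private theorem bo_dbU (hM : IsOpen M) (h : IsKahler M g) (hx : x ∈ M) (k j : Fin n) :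
    pdb j (fun y => ((uK g k y : ℝ) : ℂ)) x
      = - conj (((g x)⁻¹ * mwd (ux j) (uy j) g x * (g x)⁻¹) k k) := by
  have h1 : pdb j (fun y => ((uK g k y : ℝ) : ℂ)) x
      = conj (pd j (fun y => ((uK g k y : ℝ) : ℂ)) x) := by
    unfold pdb pd
    rw [← KQ.wdb_conj]
    simp only [conj_ofReal]
  rw [h1, bo_dU hM h hx, map_neg]

private theorem bo_ddU (hM : IsOpen M) (h : IsKahler M g) (hx : x ∈ M) (k i j : Fin n) :
    pd i (pdb j (fun y => ((uK g k y : ℝ) : ℂ))) x
      = ((g x)⁻¹ * mwdb (ux j) (uy j) g x * (g x)⁻¹ * mwd (ux i) (uy i) g x * (g x)⁻¹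
        + (g x)⁻¹ * mwd (ux i) (uy i) g x * (g x)⁻¹ * mwdb (ux j) (uy j) g x * (g x)⁻¹
        - (g x)⁻¹ * mwd (ux i) (uy i) (mwdb (ux j) (uy j) g) x * (g x)⁻¹) k k := by
  have h1 : pd i (pdb j (fun y => ((uK g k y : ℝ) : ℂ))) x
      = pd i (pdb j (fun y => (g y)⁻¹ k k)) x := by
    apply KQ.wd_congr
    filter_upwards [hM.mem_nhds hx] with y hy
    apply KQ.wdb_congr
    filter_upwards [hM.mem_nhds hy] with z hz
    exact (inv_self h hz k).symm
  rw [h1]
  exact congrFun (congrFun (mwd_mwdb_inv hM (bo_smooth h) h.posDef hx) k) k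

private theorem bo_log (hM : IsOpen M) (h : IsKahler M g) (hx : x ∈ M) (k i j : Fin n) :
    pd i (pdb j (fun y => ((Real.log (uK g k y) : ℝ) : ℂ))) x
      = ((uK g k x : ℝ) : ℂ)⁻¹ * pd i (pdb j (fun y => ((uK g k y : ℝ) : ℂ))) x
        - (((uK g k x : ℝ) : ℂ)⁻¹) ^ 2 * (pd i (fun y => ((uK g k y : ℝ) : ℂ)) x
          * pdb j (fun y => ((uK g k y : ℝ) : ℂ)) x) := by
  have hd : ∀ y ∈ M, DifferentiableAt ℝ (uK g k) y := fun y hy =>
    ((uK_smooth h k).contDiffAt (hM.mem_nhds hy)).differentiableAt (by simp)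
  have hU : ContDiffOn ℝ ∞ (fun y => ((uK g k y : ℝ) : ℂ)) M :=
    ofRealCLM.contDiff.comp_contDiffOn (uK_smooth h k)
  have hdb : DifferentiableAt ℝ (pdb j (fun y => ((uK g k y : ℝ) : ℂ))) x :=
    ((KQ.contDiffOn_wdb hM hU).contDiffAt (hM.mem_nhds hx)).differentiableAt (by simp)
  have hne : uK g k x ≠ 0 := (uK_pos h hx k).ne'
  have h1 : pd i (pdb j (fun y => ((Real.log (uK g k y) : ℝ) : ℂ))) x
      = pd i (fun y => (((uK g k y)⁻¹ : ℝ) : ℂ) * pdb j (fun y => ((uK g k y : ℝ) : ℂ)) y) x := by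
    apply KQ.wd_congr
    filter_upwards [hM.mem_nhds hx] with y hy
    exact KQ.wdb_ofReal_comp (hd y hy) (Real.hasDerivAt_log (uK_pos h hy k).ne')
  have hdi : DifferentiableAt ℝ (fun y => (((uK g k y)⁻¹ : ℝ) : ℂ)) x := by
    have h2 : DifferentiableAt ℝ (fun y => (uK g k y)⁻¹) x := (hd x hx).inv hne
    exact ofRealCLM.differentiableAt.comp x h2
  have h3 : pd i (fun y => (((uK g k y)⁻¹ : ℝ) : ℂ)) x
      = ((-((uK g k x) ^ 2)⁻¹ : ℝ) : ℂ) * pd i (fun y => ((uK g k y : ℝ) : ℂ)) x :=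
    KQ.wd_ofReal_comp (hd x hx) (hasDerivAt_inv hne)
  rw [h1]
  unfold pd
  rw [KQ.wd_mul hdi hdb]
  unfold pd at h3
  rw [h3]
  push_cast
  ring

/-- `D · Δ_g v = ∑ c^{i\bar j} v_{i\bar j}` for a real function `v`. -/
noncomputable def cL (g : (Fin n → ℂ) → Matrix (Fin n) (Fin n) ℂ) (v : (Fin n → ℂ) → ℝ)
    (x : Fin n → ℂ) : ℝ :=
  (∑ i, ∑ j, (g x).adjugate j i * pd i (pdb j (fun y => ((v y : ℝ) : ℂ))) x).re

/-- `Δ log |dz_k|² ≥ -a` (times `D`): `boch_alg`, `mwd_mwdb_inv`, `wd_wdb_logdet` and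
`∂∂̄ log u = ∂∂̄u / u - ∂u ∂̄u / u²`. -/
theorem bochner (H : Hyp M g a α β) (hx : x ∈ M) (k : Fin n) :
    - a * gD g x ≤ cL g (fun y => Real.log (uK g k y)) x := by
  have hM := H.isOpen
  have h := H.kahler
  have hu := uK_pos h hx k
  have hD := gD_pos h hx
  have key := boch_alg (n := n) (H := g x) (h.posDef x hx)
    (A := fun i => mwd (ux i) (uy i) g x) (B := fun i => mwdb (ux i) (uy i) g x)
    (S := fun i j => mwd (ux i) (uy i) (mwdb (ux j) (uy j) g) x)
    (T := fun i j => TN (gD g) i j x) (a := a)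
    (fun i => bo_B hM h hx _ _) (fun i j l => h.closed x hx i j l)
    (fun i j l m => bo_S hM h hx i j l m)
    (fun l m => wd_wdb_logdet hM (bo_smooth h) h.posDef hx)
    (fun v => (hq_TN H hx v).2) k
  set V : Fin n → Fin n → ℂ := fun i j =>
    ((g x)⁻¹ * mwdb (ux j) (uy j) g x * (g x)⁻¹ * mwd (ux i) (uy i) g x * (g x)⁻¹
        + (g x)⁻¹ * mwd (ux i) (uy i) g x * (g x)⁻¹ * mwdb (ux j) (uy j) g x * (g x)⁻¹
        - (g x)⁻¹ * mwd (ux i) (uy i) (mwdb (ux j) (uy j) g) x * (g x)⁻¹) k k with hV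
  set P : Fin n → Fin n → ℂ := fun i j =>
    ((g x)⁻¹ * mwd (ux i) (uy i) g x * (g x)⁻¹) k k
      * conj (((g x)⁻¹ * mwd (ux j) (uy j) g x * (g x)⁻¹) k k) with hP
  have key' : - a * (uK g k x) ^ 2 ≤ uK g k x * (trg (g x) V).re - (trg (g x) P).re := key
  have hc : cL g (fun y => Real.log (uK g k y)) x
      = gD g x * (uK g k x)⁻¹ * (trg (g x) V).re
        - gD g x * ((uK g k x)⁻¹) ^ 2 * (trg (g x) P).re := by
    have h1 : (∑ i, ∑ j, (g x).adjugate j i
        * pd i (pdb j (fun y => ((Real.log (uK g k y) : ℝ) : ℂ))) x)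
        = ((gD g x * (uK g k x)⁻¹ : ℝ) : ℂ) * trg (g x) V
          - ((gD g x * ((uK g k x)⁻¹) ^ 2 : ℝ) : ℂ) * trg (g x) P := by
      unfold trg
      simp only [Finset.mul_sum, ← Finset.sum_sub_distrib]
      refine Finset.sum_congr rfl fun i _ => Finset.sum_congr rfl fun j _ => ?_
      rw [adj_eq h hx, bo_log hM h hx, bo_ddU hM h hx, bo_dU hM h hx, bo_dbU hM h hx]
      simp only [hV, hP]
      push_cast
      ring
    unfold cL
    rw [h1, Complex.sub_re, Complex.re_ofReal_mul, Complex.re_ofReal_mul]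
  rw [hc]
  have hu' : 0 < (uK g k x)⁻¹ := inv_pos.2 hu
  have h2 : 0 ≤ gD g x * ((uK g k x)⁻¹) ^ 2 *
      (uK g k x * (trg (g x) V).re - (trg (g x) P).re - (- a * (uK g k x) ^ 2)) := by
    have : 0 ≤ gD g x * ((uK g k x)⁻¹) ^ 2 := by positivity
    exact mul_nonneg this (sub_nonneg.2 key')
  have h3 : gD g x * ((uK g k x)⁻¹) ^ 2 *
      (uK g k x * (trg (g x) V).re - (trg (g x) P).re - (- a * (uK g k x) ^ 2))
      = gD g x * (uK g k x)⁻¹ * (trg (g x) V).re
        - gD g x * ((uK g k x)⁻¹) ^ 2 * (trg (g x) P).re - (- a * gD g x) := by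
    field_simp
  rw [h3] at h2
  linarith

private theorem bo_int {f p q : (Fin n → ℂ) → ℂ} (hc : HasCompactSupport f)
    (hs : tsupport f ⊆ M) (hp : ContinuousOn p M) (hq : ContinuousOn q M)
    (hps : Function.support p ⊆ tsupport f) : Integrable (fun x => p x * q x) := by
  have h1 : IntegrableOn (fun x => p x * q x) (tsupport f) := by
    apply ContinuousOn.integrableOn_compact hc
    exact (hp.mul hq).mono hs
  rw [← integrableOn_iff_integrable_of_support_subset (s := tsupport f)]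
  · exact h1
  · intro y hy
    apply hps
    rw [Function.mem_support] at hy ⊢
    exact fun h0 => hy (by simp [h0])

private theorem bo_div (hM : IsOpen M) (h : IsKahler M g) (hx : x ∈ M) (j : Fin n) :
    ∑ i, pd i (fun y => (g y).adjugate j i) x = 0 := by
  have h0 := div_alg (H := g x) (A := fun i => mwd (ux i) (uy i) g x)
    (fun i j l => h.closed x hx i j l) j
  have hs := bo_smooth h
  have hd := bo_det h
  have h1 : ∀ i, pd i (fun y => (g y).adjugate j i) x
      = (g x).det * (((g x)⁻¹ * mwd (ux i) (uy i) g x).trace * (g x)⁻¹ j i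
        - ((g x)⁻¹ * mwd (ux i) (uy i) g x * (g x)⁻¹) j i) := by
    intro i
    have h2 : pd i (fun y => (g y).adjugate j i) x = pd i (fun y => (g y).det * (g y)⁻¹ j i) x := by
      apply KQ.wd_congr
      filter_upwards [hM.mem_nhds hx] with y hy
      rw [adj_eq h hy, (det_re (h.posDef y hy)).1]
      rfl
    have h3 : DifferentiableAt ℝ (fun y => (g y).det) x :=
      (hs.det.contDiffAt (hM.mem_nhds hx)).differentiableAt (by simp)
    have h4 : DifferentiableAt ℝ (fun y => (g y)⁻¹ j i) x :=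
      (((hs.inv hd) j i).contDiffAt (hM.mem_nhds hx)).differentiableAt (by simp)
    have h5 : KQ.wd (ux i) (uy i) (fun y => (g y)⁻¹ j i) x
        = - ((g x)⁻¹ * mwd (ux i) (uy i) g x * (g x)⁻¹) j i :=
      congrFun (congrFun (mwd_inv hM hs hd hx) j) i
    rw [h2]
    unfold pd
    rw [KQ.wd_mul h3 h4, wd_det hM hs hd hx, h5]
    ring
  simp only [h1]
  rw [← Finset.mul_sum, h0, mul_zero]

/-- Divergence form: `∫ φ D Δ v = - ∫ c(∂φ, ∂v)` for `φ` of compact support in `M`
(`div_alg`: `∑_i ∂_i c^{i\bar j} = 0`). -/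
theorem ibp_cL (hM : IsOpen M) (h : IsKahler M g) {φ v : (Fin n → ℂ) → ℝ} (hφ : ContDiff ℝ 1 φ)
    (hc : HasCompactSupport φ) (hs : tsupport φ ⊆ M) (hv : ContDiffOn ℝ ∞ v M) :
    ∫ x, φ x * cL g v x = - ∫ x, (cform (g x) (fun i => pd i (fun y => ((φ y : ℝ) : ℂ)) x)
      (fun i => pd i (fun y => ((v y : ℝ) : ℂ)) x)).re := by
  set Φ : (Fin n → ℂ) → ℂ := fun y => ((φ y : ℝ) : ℂ) with hΦdef
  set V : (Fin n → ℂ) → ℂ := fun y => ((v y : ℝ) : ℂ) with hVdef
  have hΦ : ContDiff ℝ 1 Φ := ofRealCLM.contDiff.comp hφ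
  have hΦsup : Function.support Φ ⊆ Function.support φ := by
    intro y hy
    rw [Function.mem_support] at hy ⊢
    exact fun h0 => hy (by simp [hΦdef, h0])
  have hΦt : tsupport Φ ⊆ tsupport φ := closure_mono hΦsup
  have hΦc : HasCompactSupport Φ := IsCompact.of_isClosed_subset hc (isClosed_tsupport _) hΦt
  have hΦs : tsupport Φ ⊆ M := hΦt.trans hs
  have hV : ContDiffOn ℝ ∞ V M := ofRealCLM.contDiff.comp_contDiffOn hv
  have hsm := bo_smooth h
  have hVb : ∀ j, ContDiffOn ℝ ∞ (pdb j V) M := fun j => KQ.contDiffOn_wdb hM hV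
  have hh : ∀ i j, ContDiffOn ℝ ∞ (fun y => (g y).adjugate j i * pdb j V y) M := fun i j =>
    (hsm.adjugate j i).mul (hVb j)
  have hh1 : ∀ i j, ContDiffOn ℝ ∞ (pd i (fun y => (g y).adjugate j i * pdb j V y)) M :=
    fun i j => KQ.contDiffOn_wd hM (hh i j)
  have hF : ∀ i j, Integrable
      (fun x => Φ x * pd i (fun y => (g y).adjugate j i * pdb j V y) x) := fun i j =>
    bo_int hΦc hΦs hΦ.continuous.continuousOn (hh1 i j).continuousOn subset_closure
  have hpΦ : ∀ i, Continuous (pd i Φ) := by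
    intro i
    have e1 : Continuous (fun x => fderiv ℝ Φ x (ux i)) :=
      (hΦ.continuous_fderiv (by simp)).clm_apply continuous_const
    have e2 : Continuous (fun x => fderiv ℝ Φ x (uy i)) :=
      (hΦ.continuous_fderiv (by simp)).clm_apply continuous_const
    exact (e1.sub (continuous_const.mul e2)).div_const 2
  have hG : ∀ i j, Integrable
      (fun x => pd i Φ x * ((g x).adjugate j i * pdb j V x)) := fun i j =>
    bo_int hΦc hΦs (hpΦ i).continuousOn (hh i j).continuousOn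
      (subset_closure.trans KQ.tsupport_wd_subset)
  have heq : ∀ i j, ∫ x, Φ x * pd i (fun y => (g y).adjugate j i * pdb j V y) x
      = - ∫ x, pd i Φ x * ((g x).adjugate j i * pdb j V x) := fun i j =>
    KQ.ibp_wd volume hM hΦ hΦc hΦs ((hh i j).of_le (by exact_mod_cast le_top))
  have hA : ∀ x, ∑ i, ∑ j, Φ x * pd i (fun y => (g y).adjugate j i * pdb j V y) x
      = Φ x * ∑ i, ∑ j, (g x).adjugate j i * pd i (pdb j V) x := by
    intro x
    by_cases hx : x ∈ M
    · have h1 : ∀ i j, pd i (fun y => (g y).adjugate j i * pdb j V y) x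
          = pd i (fun y => (g y).adjugate j i) x * pdb j V x
            + (g x).adjugate j i * pd i (pdb j V) x := fun i j =>
        KQ.wd_mul (((hsm.adjugate j i).contDiffAt (hM.mem_nhds hx)).differentiableAt (by simp))
          (((hVb j).contDiffAt (hM.mem_nhds hx)).differentiableAt (by simp))
      have h2 : ∑ i, ∑ j, pd i (fun y => (g y).adjugate j i) x * pdb j V x = 0 := by
        rw [Finset.sum_comm]
        refine Finset.sum_eq_zero fun j _ => ?_
        rw [← Finset.sum_mul, bo_div hM h hx, zero_mul]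
      simp only [h1, ← Finset.mul_sum, Finset.sum_add_distrib]
      rw [h2, zero_add]
    · have h1 : Φ x = 0 := image_eq_zero_of_notMem_tsupport fun h1 => hx (hΦs h1)
      simp [h1]
  have hB : ∀ x, ∑ i, ∑ j, pd i Φ x * ((g x).adjugate j i * pdb j V x)
      = cform (g x) (fun i => pd i Φ x) (fun i => pd i V x) := by
    intro x
    unfold cform
    refine Finset.sum_congr rfl fun i _ => Finset.sum_congr rfl fun j _ => ?_
    have h1 : pdb j V x = conj (pd j V x) := by
      unfold pdb pd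
      rw [← KQ.wdb_conj]
      simp only [hVdef, conj_ofReal]
    rw [h1]
    ring
  have I1 : ∫ x, (∑ i, ∑ j, Φ x * pd i (fun y => (g y).adjugate j i * pdb j V y) x)
      = - ∫ x, (∑ i, ∑ j, pd i Φ x * ((g x).adjugate j i * pdb j V x)) := by
    rw [integral_finsetSum _ (fun i _ => integrable_finsetSum _ fun j _ => hF i j),
      integral_finsetSum _ (fun i _ => integrable_finsetSum _ fun j _ => hG i j),
      ← Finset.sum_neg_distrib]
    refine Finset.sum_congr rfl fun i _ => ?_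
    rw [integral_finsetSum _ (fun j _ => hF i j), integral_finsetSum _ (fun j _ => hG i j),
      ← Finset.sum_neg_distrib]
    exact Finset.sum_congr rfl fun j _ => heq i j
  have IF : Integrable
      (fun x => ∑ i, ∑ j, Φ x * pd i (fun y => (g y).adjugate j i * pdb j V y) x) :=
    integrable_finsetSum _ fun i _ => integrable_finsetSum _ fun j _ => hF i j
  have IG : Integrable
      (fun x => ∑ i, ∑ j, pd i Φ x * ((g x).adjugate j i * pdb j V x)) :=
    integrable_finsetSum _ fun i _ => integrable_finsetSum _ fun j _ => hG i j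
  have e1 : ∫ x, φ x * cL g v x
      = (∫ x, (∑ i, ∑ j, Φ x * pd i (fun y => (g y).adjugate j i * pdb j V y) x)).re := by
    rw [← reCLM_apply, ← reCLM.integral_comp_comm IF]
    congr 1
    funext x
    rw [hA x, reCLM_apply, hΦdef, Complex.re_ofReal_mul]
    rfl
  have e2 : ∫ x, (cform (g x) (fun i => pd i Φ x) (fun i => pd i V x)).re
      = (∫ x, (∑ i, ∑ j, pd i Φ x * ((g x).adjugate j i * pdb j V x))).re := by
    rw [← reCLM_apply, ← reCLM.integral_comp_comm IG]
    congr 1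
    funext x
    rw [hB x, reCLM_apply]
  rw [e1, e2, I1, Complex.neg_re]

end KN
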