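import Pool.Agent.Lib_MP_3ea2ac_kq.SD4

/-! Quantitative bounds for the complement of a slice. -/

open MeasureTheory Complex Set Topology Filter
open scoped ComplexConjugate ContDiff ComplexOrder

namespace KQ

variable {S : Set ℂ} {D G : ℂ → ℝ} {a C : ℝ} {η : ℕ → ℂ → ℝ}

/-- The mass of a ball around a point of the complement. -/
private theorem Card_ball (sd : SliceData S D G a C η) {p q : ℂ} (hp : p ∉ S) (hq : q ∉ S)
    (hpq : p ≠ q) :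
    Real.pi / 6400 ≤ ∫ w in S ∩ Metric.ball p (‖q - p‖ / 2), a * C * D w := by
  have hd : 0 < ‖q - p‖ := norm_pos_iff.2 (sub_ne_zero.2 hpq.symm)
  have hSm : MeasurableSet S := sd.isOpen.measurableSet
  have hvol : volume.real (S ∩ Metric.ball p (‖q - p‖ / 2)) = Real.pi * (‖q - p‖ / 2) ^ 2 := by
    have h1 : volume (S ∩ Metric.ball p (‖q - p‖ / 2)) = volume (Metric.ball p (‖q - p‖ / 2)) := by
      apply measure_congr
      have h2 : (S : Set ℂ) =ᵐ[volume] (univ : Set ℂ) := by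
        rw [ae_eq_univ]; exact sd.compl_null
      have := h2.inter (ae_eq_refl (Metric.ball p (‖q - p‖ / 2) : Set ℂ))
      simpa using this
    rw [measureReal_def, h1, Complex.volume_ball]
    rw [ENNReal.toReal_mul, ENNReal.toReal_pow, ENNReal.toReal_ofReal (by positivity)]
    rw [ENNReal.coe_toReal, NNReal.coe_real_pi]
    ring
  have hfin : volume (S ∩ Metric.ball p (‖q - p‖ / 2)) ≠ ⊤ :=
    ((measure_mono inter_subset_right).trans_lt measure_ball_lt_top).ne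
  have hlow : ∀ w ∈ S ∩ Metric.ball p (‖q - p‖ / 2), 1 / 1600 * (1 / ‖q - p‖ ^ 2) ≤ a * C * D w := by
    intro w hw
    have hwp : w ≠ p := fun h => hp (h ▸ hw.1)
    have h1 := sd.schwarz hp hq hpq (s := 1 / 5) (by norm_num) le_rfl hw.1
    have h2 : ‖w - p‖ ≤ ‖q - p‖ / 2 := by
      have := hw.2
      rw [Metric.mem_ball, dist_eq_norm] at this
      exact this.le
    have h3 := rhoPQ_near hpq (s := 1 / 5) (by norm_num) le_rfl hwp h2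
    have h4 : ((1 : ℝ) / 5) ^ 2 / 64 = 1 / 1600 := by norm_num
    rw [h4] at h1
    linarith
  have hintS : IntegrableOn (fun w => a * C * D w) S := sd.integrable.const_mul (a * C)
  have hint : IntegrableOn (fun w => a * C * D w) (S ∩ Metric.ball p (‖q - p‖ / 2)) :=
    hintS.mono_set inter_subset_left
  have h5 : ∫ w in S ∩ Metric.ball p (‖q - p‖ / 2), (1 / 1600 * (1 / ‖q - p‖ ^ 2) : ℝ) ≤
      ∫ w in S ∩ Metric.ball p (‖q - p‖ / 2), a * C * D w := by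
    apply setIntegral_mono_on _ hint (hSm.inter measurableSet_ball) hlow
    exact integrableOn_const hfin
  refine le_trans ?_ h5
  rw [setIntegral_const, hvol, smul_eq_mul]
  apply le_of_eq
  field_simp
  norm_num

/-- The number of points of the complement is at most `1 + 6400 a C ∫_S D`: for `m ≥ 2` points
`p_i ∉ S` let `q_i` be the nearest other point, `d_i = |p_i - q_i|`; the balls `B(p_i, d_i/2)` are
disjoint and `1600 a C D ≥ ρ_{p_i q_i} ≥ 1 / d_i²` there (`SliceData.schwarz` with `s = 1/5`,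
`rhoPQ_near`, `compl_null`). See SD3.lean. -/
theorem SliceData.card_le (sd : SliceData S D G a C η) (T : Finset ℂ) (hT : ∀ p ∈ T, p ∉ S) :
    (T.card : ℝ) ≤ 1 + 6400 * (a * C * ∫ w in S, D w) := by
  classical
  have hSm : MeasurableSet S := sd.isOpen.measurableSet
  have hI : 0 ≤ ∫ w in S, D w := setIntegral_nonneg hSm fun y hy => (sd.Dpos y hy).le
  have ha := sd.a_nonneg
  have hC := sd.C_nonneg
  rcases Nat.lt_or_ge T.card 2 with hc | hc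
  · have h1 : (T.card : ℝ) ≤ 1 := by exact_mod_cast Nat.lt_succ_iff.1 hc
    have h2 : 0 ≤ 6400 * (a * C * ∫ w in S, D w) := by positivity
    linarith
  have hint : IntegrableOn (fun w => a * C * D w) S := sd.integrable.const_mul (a * C)
  have hnn : 0 ≤ᵐ[volume.restrict S] fun w => a * C * D w := by
    refine (ae_restrict_iff' hSm).2 (Eventually.of_forall fun w hw => ?_)
    have h3 := (sd.Dpos w hw).le
    show 0 ≤ a * C * D w
    positivity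
  -- the nearest other point
  have hq : ∀ p ∈ T, ∃ q ∈ T, q ≠ p ∧ ∀ r ∈ T, r ≠ p → ‖q - p‖ ≤ ‖r - p‖ := by
    intro p hp
    have hne : (T.erase p).Nonempty := by
      rw [← Finset.card_pos, Finset.card_erase_of_mem hp]
      omega
    obtain ⟨q, hq, hmin⟩ := Finset.exists_min_image (T.erase p) (fun r => ‖r - p‖) hne
    exact ⟨q, (Finset.mem_erase.1 hq).2, (Finset.mem_erase.1 hq).1, fun r hr hrp =>
      hmin r (Finset.mem_erase.2 ⟨hrp, hr⟩)⟩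
  choose! q hqP hqne hqmin using hq
  have hdisj : Set.Pairwise (↑T) (Function.onFun Disjoint fun p =>
      S ∩ Metric.ball p (‖q p - p‖ / 2)) := by
    intro p hp p' hp' hne
    apply Disjoint.mono inter_subset_right inter_subset_right
    apply Metric.ball_disjoint_ball
    have h1 := hqmin p hp p' hp' hne.symm
    have h2 := hqmin p' hp' p hp hne
    rw [dist_eq_norm]
    rw [norm_sub_rev p' p] at h1
    linarith
  have hsum : ∑ p ∈ T, ∫ w in S ∩ Metric.ball p (‖q p - p‖ / 2), a * C * D w ≤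
      ∫ w in S, a * C * D w := by
    rw [← integral_biUnion_finset T (fun p _ => hSm.inter measurableSet_ball) hdisj
      (fun p _ => hint.mono_set inter_subset_left)]
    apply setIntegral_mono_set hint hnn
    apply Filter.Eventually.of_forall
    intro w hw
    have hw' : w ∈ ⋃ i ∈ T, S ∩ Metric.ball i (‖q i - i‖ / 2) := hw
    simp only [mem_iUnion] at hw'
    obtain ⟨i, _, hi⟩ := hw'
    exact hi.1
  have hlow : ∑ p ∈ T, Real.pi / 6400 ≤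
      ∑ p ∈ T, ∫ w in S ∩ Metric.ball p (‖q p - p‖ / 2), a * C * D w :=
    Finset.sum_le_sum fun p hp => Card_ball sd (hT p hp) (hT _ (hqP p hp)) (hqne p hp).symm
  rw [Finset.sum_const, nsmul_eq_mul] at hlow
  have htot : ∫ w in S, a * C * D w = a * C * ∫ w in S, D w := integral_const_mul _ _
  rw [htot] at hsum
  have hpi : (3 : ℝ) < Real.pi := Real.pi_gt_three
  have h1 : (T.card : ℝ) * (Real.pi / 6400) ≤ a * C * ∫ w in S, D w := hlow.trans hsum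
  have h2 : (0 : ℝ) ≤ T.card := Nat.cast_nonneg _
  nlinarith

/-- near zero, `s = 1/5` -/
private theorem Card_near0 {x : ℂ} (hx : x ≠ 0) (h : ‖x‖ ≤ 1 / 2) :
    4 / 9 * ‖x‖ ^ (-(8 / 5) : ℝ) ≤ rho (1 / 5) x := by
  have hX : 0 < ‖x‖ := norm_pos_iff.2 hx
  have hY : ‖x - 1‖ ≤ 3 / 2 := by
    calc ‖x - 1‖ ≤ ‖x‖ + ‖(1 : ℂ)‖ := norm_sub_le _ _
      _ ≤ 3 / 2 := by rw [norm_one]; linarith
  have hY0 : 0 < ‖x - 1‖ := by
    have : ‖(1 : ℂ)‖ ≤ ‖x‖ + ‖x - 1‖ := by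
      calc ‖(1 : ℂ)‖ = ‖x - (x - 1)‖ := by ring_nf
        _ ≤ ‖x‖ + ‖x - 1‖ := norm_sub_le _ _
    rw [norm_one] at this
    linarith
  have b0 : 0 < ‖x‖ ^ (2 * (1 / 5) : ℝ) := Real.rpow_pos_of_pos hX _
  have b1 : 0 < ‖x - 1‖ ^ (2 * (1 / 5) : ℝ) := Real.rpow_pos_of_pos hY0 _
  have b2 : 0 < (‖x‖ * ‖x - 1‖) ^ (2 - 2 * (1 / 5) : ℝ) := Real.rpow_pos_of_pos (by positivity) _
  have num : (1 : ℝ) ≤ (1 + ‖x‖ ^ (2 * (1 / 5) : ℝ)) * (1 + ‖x - 1‖ ^ (2 * (1 / 5) : ℝ)) := by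
    nlinarith
  have g : 1 / (‖x‖ * ‖x - 1‖) ^ (2 - 2 * (1 / 5) : ℝ) ≤ rho (1 / 5) x := by
    unfold rho
    exact div_le_div_of_nonneg_right num b2.le
  refine le_trans ?_ g
  have e1 : (2 - 2 * (1 / 5) : ℝ) = 8 / 5 := by norm_num
  rw [e1]
  have g1 : (‖x‖ * ‖x - 1‖) ^ (8 / 5 : ℝ) ≤ ‖x‖ ^ (8 / 5 : ℝ) * (9 / 4) := by
    rw [Real.mul_rpow hX.le hY0.le]
    refine mul_le_mul_of_nonneg_left ?_ (Real.rpow_nonneg hX.le _)
    calc ‖x - 1‖ ^ (8 / 5 : ℝ) ≤ (3 / 2 : ℝ) ^ (8 / 5 : ℝ) :=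
          Real.rpow_le_rpow hY0.le hY (by norm_num)
      _ ≤ (3 / 2 : ℝ) ^ (2 : ℝ) := Real.rpow_le_rpow_of_exponent_le (by norm_num) (by norm_num)
      _ = 9 / 4 := by
          rw [show (2 : ℝ) = ((2 : ℕ) : ℝ) by norm_num, Real.rpow_natCast]
          norm_num
  have g2 : 0 < ‖x‖ ^ (8 / 5 : ℝ) := Real.rpow_pos_of_pos hX _
  have g3 : 0 < (‖x‖ * ‖x - 1‖) ^ (8 / 5 : ℝ) := Real.rpow_pos_of_pos (by positivity) _
  rw [Real.rpow_neg hX.le, le_div_iff₀ g3]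
  calc 4 / 9 * (‖x‖ ^ (8 / 5 : ℝ))⁻¹ * (‖x‖ * ‖x - 1‖) ^ (8 / 5 : ℝ)
      ≤ 4 / 9 * (‖x‖ ^ (8 / 5 : ℝ))⁻¹ * (‖x‖ ^ (8 / 5 : ℝ) * (9 / 4)) :=
        mul_le_mul_of_nonneg_left g1 (by positivity)
    _ = 1 := by
        field_simp

/-- Blow up of `ρ_{pq}` at `p`, uniform in `p, q`. -/
theorem rhoPQ_near_unif {p q w : ℂ} (hpq : p ≠ q) (hw : w ≠ p) (h : ‖w - p‖ ≤ ‖q - p‖ / 2) :
    4 / 9 * ‖q - p‖ ^ (-(2 / 5) : ℝ) * ‖w - p‖ ^ (-(8 / 5) : ℝ) ≤ rhoPQ p q (1 / 5) w := by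
  have h0 : q - p ≠ 0 := sub_ne_zero.2 hpq.symm
  have hb : 0 < ‖q - p‖ := norm_pos_iff.2 h0
  have hx : (w - p) / (q - p) ≠ 0 := div_ne_zero (sub_ne_zero.2 hw) h0
  have hn : ‖(w - p) / (q - p)‖ ≤ 1 / 2 := by
    rw [norm_div, div_le_iff₀ hb]
    linarith
  have h1 := Card_near0 hx hn
  have h2 : rhoPQ p q (1 / 5) w = rho (1 / 5) ((w - p) / (q - p)) / ‖q - p‖ ^ 2 := rfl
  rw [h2, le_div_iff₀ (by positivity)]
  refine le_trans (le_of_eq ?_) h1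
  rw [norm_div, Real.div_rpow (norm_nonneg _) hb.le]
  have e1 : ‖q - p‖ ^ (-(2 / 5) : ℝ) * ‖q - p‖ ^ 2 = (‖q - p‖ ^ (-(8 / 5) : ℝ))⁻¹ := by
    rw [← Real.rpow_natCast ‖q - p‖ 2, ← Real.rpow_add hb, ← Real.rpow_neg hb.le]
    congr 1
    norm_num
  rw [div_eq_mul_inv (‖w - p‖ ^ (-(8 / 5) : ℝ)), ← e1]
  ring

/-- A point `w₁` of the slice cannot be closer to the complement than `D(w₁)` allows. If
`‖w₁ - p‖ ≤ ‖β - α‖/4` use `schwarz` for `p` and `q ∈ {α, β}` with `‖q - p‖ ≥ ‖β - α‖/2`. -/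
theorem dist_bound {α β : ℂ} (hαβ : α ≠ β) (a : ℝ) (w₁ : ℂ) :
    ∃ K > 0, ∀ (S : Set ℂ) (D G : ℂ → ℝ) (C : ℝ) (η : ℕ → ℂ → ℝ), SliceData S D G a C η →
      α ∉ S → β ∉ S → w₁ ∈ S → ∀ p ∉ S, 1 ≤ K * (1 + C * D w₁) * ‖w₁ - p‖ := by
  have hL : 0 < ‖β - α‖ := norm_pos_iff.2 (sub_ne_zero.2 hαβ.symm)
  set L : ℝ := ‖β - α‖ with hLd
  set R : ℝ := ‖α - w₁‖ + ‖β - w₁‖ + L / 4 with hR
  have hR0 : 0 < R := by positivity
  refine ⟨4 / L + 3600 * R ^ (2 / 5 : ℝ) * |a| * (L / 4) ^ (3 / 5 : ℝ), by positivity,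
    fun S D G C η sd hα hβ hw p hp => ?_⟩
  have hD := sd.Dpos w₁ hw
  have hC := sd.C_nonneg
  have ha := sd.a_nonneg
  have hCD : 0 ≤ C * D w₁ := by positivity
  have hwp : w₁ ≠ p := fun h => hp (h ▸ hw)
  have hn : 0 < ‖w₁ - p‖ := norm_pos_iff.2 (sub_ne_zero.2 hwp)
  have hK2 : 0 ≤ 3600 * R ^ (2 / 5 : ℝ) * |a| * (L / 4) ^ (3 / 5 : ℝ) := by positivity
  rcases lt_or_ge (L / 4) ‖w₁ - p‖ with hc | hc
  · have h1 : 1 ≤ 4 / L * ‖w₁ - p‖ := by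
      rw [div_mul_eq_mul_div, le_div_iff₀ hL]
      linarith
    have h2 : 4 / L ≤ (4 / L + 3600 * R ^ (2 / 5 : ℝ) * |a| * (L / 4) ^ (3 / 5 : ℝ)) * (1 + C * D w₁) := by
      have h3 : 0 < 4 / L := by positivity
      nlinarith [mul_nonneg hK2 hCD, mul_nonneg h3.le hCD]
    exact h1.trans (mul_le_mul_of_nonneg_right h2 hn.le)
  · obtain ⟨q, hqS, hq1, hq2⟩ : ∃ q : ℂ, q ∉ S ∧ L / 2 ≤ ‖q - p‖ ∧ ‖q - w₁‖ ≤ ‖α - w₁‖ + ‖β - w₁‖ := by
      have htri : L ≤ ‖β - p‖ + ‖α - p‖ := by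
        calc L = ‖(β - p) - (α - p)‖ := by rw [hLd]; congr 1; ring
          _ ≤ ‖β - p‖ + ‖α - p‖ := norm_sub_le _ _
      rcases le_total (L / 2) ‖α - p‖ with h1 | h1
      · exact ⟨α, hα, h1, by linarith [norm_nonneg (β - w₁)]⟩
      · exact ⟨β, hβ, by linarith, by linarith [norm_nonneg (α - w₁)]⟩
    have hqp : p ≠ q := by
      rintro rfl
      rw [sub_self, norm_zero] at hq1
      linarith
    have hqn : 0 < ‖q - p‖ := by linarith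
    have hqR : ‖q - p‖ ≤ R := by
      calc ‖q - p‖ = ‖(q - w₁) + (w₁ - p)‖ := by congr 1; ring
        _ ≤ ‖q - w₁‖ + ‖w₁ - p‖ := norm_add_le _ _
        _ ≤ R := by rw [hR]; linarith
    have h1 := sd.schwarz hp hqS hqp (s := 1 / 5) (by norm_num) le_rfl hw
    have h2 := rhoPQ_near_unif hqp hwp (by linarith)
    have h4 : ((1 : ℝ) / 5) ^ 2 / 64 = 1 / 1600 := by norm_num
    rw [h4] at h1
    have h5 : 4 / 9 * ‖q - p‖ ^ (-(2 / 5) : ℝ) * ‖w₁ - p‖ ^ (-(8 / 5) : ℝ) ≤ 1600 * (a * C * D w₁) := by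
      linarith
    have h6 : R ^ (-(2 / 5) : ℝ) ≤ ‖q - p‖ ^ (-(2 / 5) : ℝ) :=
      Real.rpow_le_rpow_of_nonpos hqn hqR (by norm_num)
    have h7 : 0 < ‖w₁ - p‖ ^ (-(8 / 5) : ℝ) := Real.rpow_pos_of_pos hn _
    have h8 : 4 / 9 * R ^ (-(2 / 5) : ℝ) * ‖w₁ - p‖ ^ (-(8 / 5) : ℝ) ≤ 1600 * (a * C * D w₁) := by
      refine le_trans ?_ h5
      exact mul_le_mul_of_nonneg_right (mul_le_mul_of_nonneg_left h6 (by norm_num)) h7.le
    have h9 : 0 < R ^ (2 / 5 : ℝ) := Real.rpow_pos_of_pos hR0 _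
    have h10 : R ^ (-(2 / 5) : ℝ) * R ^ (2 / 5 : ℝ) = 1 := by
      rw [← Real.rpow_add hR0]
      norm_num
    have h11 : ‖w₁ - p‖ ^ (-(8 / 5) : ℝ) ≤ 3600 * R ^ (2 / 5 : ℝ) * (a * C * D w₁) := by
      have h12 := mul_le_mul_of_nonneg_left h8 (by positivity : (0 : ℝ) ≤ 9 / 4 * R ^ (2 / 5 : ℝ))
      calc ‖w₁ - p‖ ^ (-(8 / 5) : ℝ) = (R ^ (-(2 / 5) : ℝ) * R ^ (2 / 5 : ℝ)) * ‖w₁ - p‖ ^ (-(8 / 5) : ℝ) := by
            rw [h10, one_mul]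
        _ = 9 / 4 * R ^ (2 / 5 : ℝ) * (4 / 9 * R ^ (-(2 / 5) : ℝ) * ‖w₁ - p‖ ^ (-(8 / 5) : ℝ)) := by ring
        _ ≤ 9 / 4 * R ^ (2 / 5 : ℝ) * (1600 * (a * C * D w₁)) := h12
        _ = 3600 * R ^ (2 / 5 : ℝ) * (a * C * D w₁) := by ring
    have h13 : ‖w₁ - p‖ ^ (3 / 5 : ℝ) ≤ (L / 4) ^ (3 / 5 : ℝ) := Real.rpow_le_rpow hn.le hc (by norm_num)
    have h14 : ‖w₁ - p‖ ^ (-(8 / 5) : ℝ) * ‖w₁ - p‖ ^ (3 / 5 : ℝ) * ‖w₁ - p‖ = 1 := by
      rw [← Real.rpow_add hn]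
      nth_rewrite 2 [← Real.rpow_one ‖w₁ - p‖]
      rw [← Real.rpow_add hn]
      norm_num
    have h15 : 0 ≤ 3600 * R ^ (2 / 5 : ℝ) * (a * C * D w₁) := by positivity
    have h16 : ‖w₁ - p‖ ^ (-(8 / 5) : ℝ) * ‖w₁ - p‖ ^ (3 / 5 : ℝ) ≤
        3600 * R ^ (2 / 5 : ℝ) * (a * C * D w₁) * (L / 4) ^ (3 / 5 : ℝ) :=
      mul_le_mul h11 h13 (Real.rpow_nonneg hn.le _) h15
    refine (le_of_eq h14.symm).trans (mul_le_mul_of_nonneg_right (h16.trans ?_) hn.le)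
    rw [abs_of_nonneg ha]
    have h17 : 0 ≤ 3600 * R ^ (2 / 5 : ℝ) * a * (L / 4) ^ (3 / 5 : ℝ) := by positivity
    have h18 : 0 ≤ 4 / L * (1 + C * D w₁) := by positivity
    calc 3600 * R ^ (2 / 5 : ℝ) * (a * C * D w₁) * (L / 4) ^ (3 / 5 : ℝ) =
          3600 * R ^ (2 / 5 : ℝ) * a * (L / 4) ^ (3 / 5 : ℝ) * (C * D w₁) := by ring
      _ ≤ 4 / L * (1 + C * D w₁) + 3600 * R ^ (2 / 5 : ℝ) * a * (L / 4) ^ (3 / 5 : ℝ) * (1 + C * D w₁) := by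
          nlinarith
      _ = (4 / L + 3600 * R ^ (2 / 5 : ℝ) * a * (L / 4) ^ (3 / 5 : ℝ)) * (1 + C * D w₁) := by ring

end KQ
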