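import Mathlib

/-! Newton's identities, for one sequence of power sums. -/

open Polynomial

namespace KN

/-- `c 0 = 1`, `(j+1) c (j+1) = - ∑_{k ≤ j} c (j-k) f (k+1)`. -/
noncomputable def nc (f : ℕ → ℂ) : ℕ → ℂ
  | 0 => 1
  | j + 1 => - (∑ k : Fin (j + 1), nc f (j - k) * f (k + 1)) / (j + 1)
  decreasing_by exact Nat.lt_succ_of_le (Nat.sub_le _ _)

open PowerSeries in
private theorem NewtN_geom (x : ℂ) :
    (1 - PowerSeries.C x * PowerSeries.X : PowerSeries ℂ) * (PowerSeries.mk fun k => x ^ k) = 1 := by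
  ext n
  rw [sub_mul, one_mul, map_sub, mul_assoc, PowerSeries.coeff_C_mul]
  cases n with
  | zero => simp
  | succ n =>
    rw [mul_comm PowerSeries.X, PowerSeries.coeff_succ_mul_X, PowerSeries.coeff_mk, PowerSeries.coeff_mk, pow_succ,
      PowerSeries.coeff_one]
    simp only [Nat.succ_ne_zero, if_false]
    ring

private theorem NewtN_deriv (s : Finset ℂ) (x : ℂ → ℂ) :
    PowerSeries.derivative ℂ (∏ p ∈ s, (1 - PowerSeries.C (x p) * PowerSeries.X : PowerSeries ℂ)) =
      -((∏ p ∈ s, (1 - PowerSeries.C (x p) * PowerSeries.X : PowerSeries ℂ)) *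
        PowerSeries.mk fun k => ∑ p ∈ s, x p ^ (k + 1)) := by
  classical
  induction s using Finset.induction_on with
  | empty =>
    simp only [Finset.prod_empty, Finset.sum_empty, one_mul]
    rw [PowerSeries.derivative_one]
    ext n
    simp
  | insert p s hp ih =>
    rw [Finset.prod_insert hp, Derivation.leibniz, ih]
    have h1 : PowerSeries.derivative ℂ (1 - PowerSeries.C (x p) * PowerSeries.X : PowerSeries ℂ) =
        -PowerSeries.C (x p) := by
      rw [map_sub, PowerSeries.derivative_one, Derivation.leibniz, PowerSeries.derivative_C,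
        PowerSeries.derivative_X]
      simp
    have h2 : (PowerSeries.mk fun k => ∑ q ∈ insert p s, x q ^ (k + 1) : PowerSeries ℂ) =
        PowerSeries.C (x p) * (PowerSeries.mk fun k => x p ^ k) +
          PowerSeries.mk fun k => ∑ q ∈ s, x q ^ (k + 1) := by
      ext n
      rw [map_add, PowerSeries.coeff_C_mul, PowerSeries.coeff_mk, PowerSeries.coeff_mk, PowerSeries.coeff_mk,
        Finset.sum_insert hp, pow_succ']
    rw [h1, h2, smul_eq_mul, smul_eq_mul]
    have h3 := NewtN_geom (x p)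
    generalize (PowerSeries.mk fun k => x p ^ k : PowerSeries ℂ) = G at *
    generalize (PowerSeries.mk fun k => ∑ q ∈ s, x q ^ (k + 1) : PowerSeries ℂ) = S at *
    generalize (∏ q ∈ s, (1 - PowerSeries.C (x q) * PowerSeries.X : PowerSeries ℂ)) = P at *
    linear_combination (PowerSeries.C (x p) * P) * h3

/-- the polynomial `∏ (1 - x_p t)` -/
private noncomputable def NewtN_P (s : Finset ℂ) (x : ℂ → ℂ) : Polynomial ℂ :=
  ∏ p ∈ s, (1 - Polynomial.C (x p) * Polynomial.X)

private theorem NewtN_coe (s : Finset ℂ) (x : ℂ → ℂ) :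
    ((NewtN_P s x : Polynomial ℂ) : PowerSeries ℂ) = ∏ p ∈ s, (1 - PowerSeries.C (x p) * PowerSeries.X) := by
  unfold NewtN_P
  rw [← Polynomial.coeToPowerSeries.ringHom_apply, map_prod]
  refine Finset.prod_congr rfl fun p _ => ?_
  rw [Polynomial.coeToPowerSeries.ringHom_apply]
  simp

private theorem NewtN_rec (s : Finset ℂ) (x : ℂ → ℂ) (k : ℕ) :
    ((k : ℂ) + 1) * (NewtN_P s x).coeff (k + 1) =
      -∑ i ∈ Finset.range (k + 1), (NewtN_P s x).coeff i * ∑ p ∈ s, x p ^ (k - i + 1) := by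
  have h := congrArg (PowerSeries.coeff k) (NewtN_deriv s x)
  rw [← NewtN_coe, PowerSeries.coeff_derivative, map_neg, PowerSeries.coeff_mul,
    Finset.Nat.sum_antidiagonal_eq_sum_range_succ_mk] at h
  simp only [Polynomial.coeff_coe, PowerSeries.coeff_mk] at h
  rw [mul_comm, h]

private theorem NewtN_coeff_zero (s : Finset ℂ) (x : ℂ → ℂ) : (NewtN_P s x).coeff 0 = 1 := by
  unfold NewtN_P
  rw [Polynomial.coeff_zero_eq_eval_zero, Polynomial.eval_prod]
  simp

private theorem NewtN_succ (f : ℕ → ℂ) (j : ℕ) :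
    nc f (j + 1) = - (∑ i ∈ Finset.range (j + 1), nc f i * f (j - i + 1)) / (j + 1) := by
  rw [nc]
  congr 2
  rw [Fin.sum_univ_eq_sum_range (fun k => nc f (j - k) * f (k + 1)) (j + 1),
    ← Finset.sum_range_reflect]
  refine Finset.sum_congr rfl fun i hi => ?_
  rw [Finset.mem_range] at hi
  have h1 : j - (j + 1 - 1 - i) = i := by omega
  have h2 : j + 1 - 1 - i = j - i := by omega
  rw [h1, h2]

/-- If `f k` are the power sums of the numbers `y p`, then `nc f j` are the coefficients of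
`∏ (1 - y_p X)`. See Newt.lean of `Lib_MP_3ea2ac_kq` (power series proof). -/
theorem nc_coeff (s : Finset ℂ) (y : ℂ → ℂ) {f : ℕ → ℂ}
    (hf : ∀ k, 1 ≤ k → f k = ∑ p ∈ s, y p ^ k) (j : ℕ) :
    nc f j = (∏ p ∈ s, (1 - C (y p) * X : ℂ[X])).coeff j := by
  show nc f j = (NewtN_P s y).coeff j
  induction j using Nat.strong_induction_on with
  | _ j ih =>
    cases j with
    | zero =>
      rw [NewtN_coeff_zero, nc]
    | succ k =>
      have h1 := NewtN_rec s y k
      have h2 : ∑ i ∈ Finset.range (k + 1), nc f i * f (k - i + 1) =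
          ∑ i ∈ Finset.range (k + 1), (NewtN_P s y).coeff i * ∑ p ∈ s, y p ^ (k - i + 1) := by
        refine Finset.sum_congr rfl fun i hi => ?_
        rw [ih i (Finset.mem_range.1 hi), hf _ (by omega)]
      rw [NewtN_succ, h2, ← h1]
      have h3 : ((k : ℂ) + 1) ≠ 0 := by exact_mod_cast Nat.succ_ne_zero k
      field_simp

/-- If all `y p ≠ 0` and the coefficients of index `> m` vanish then `∏ (1 - y_p u)` is the
polynomial with the first `m + 1` coefficients. -/
theorem nc_sum (s : Finset ℂ) (y : ℂ → ℂ) {f : ℕ → ℂ}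
    (hf : ∀ k, 1 ≤ k → f k = ∑ p ∈ s, y p ^ k) {m : ℕ} (hm : ∀ j, m < j → nc f j = 0) (u : ℂ) :
    ∑ j ∈ Finset.range (m + 1), nc f j * u ^ j = ∏ p ∈ s, (1 - y p * u) := by
  have hcoef : ∀ j, nc f j = (NewtN_P s y).coeff j := nc_coeff s y hf
  have hdeg : (NewtN_P s y).natDegree ≤ m := by
    rw [Polynomial.natDegree_le_iff_coeff_eq_zero]
    intro j hj
    rw [← hcoef]
    exact hm j hj
  have h1 : (NewtN_P s y).eval u = ∑ j ∈ Finset.range (m + 1), nc f j * u ^ j := by
    rw [Polynomial.eval_eq_sum_range' (Nat.lt_succ_of_le hdeg)]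
    exact Finset.sum_congr rfl fun j _ => by rw [hcoef]
  rw [← h1]
  unfold NewtN_P
  rw [Polynomial.eval_prod]
  refine Finset.prod_congr rfl fun p _ => ?_
  simp only [Polynomial.eval_sub, Polynomial.eval_one, Polynomial.eval_mul, Polynomial.eval_C, Polynomial.eval_X]

private def NewtN_R {ι : Type*} (Ω : Set ι) (q : ι → ℂ) (A : Subalgebra ℂ (ι → ℂ)) (G : ι → ℂ) : Prop :=
  ∃ m : ℕ, ∃ P ∈ A, ∀ x ∈ Ω, q x ^ m * G x = P x

private theorem NewtN_R_const {ι : Type*} {Ω : Set ι} {q : ι → ℂ} {A : Subalgebra ℂ (ι → ℂ)} (c : ℂ) :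
    NewtN_R Ω q A fun _ => c := by
  refine ⟨0, algebraMap ℂ (ι → ℂ) c, A.algebraMap_mem c, fun x _ => ?_⟩
  rw [pow_zero, one_mul]
  rfl

private theorem NewtN_R_mul {ι : Type*} {Ω : Set ι} {q : ι → ℂ} {A : Subalgebra ℂ (ι → ℂ)} {G H : ι → ℂ}
    (hG : NewtN_R Ω q A G) (hH : NewtN_R Ω q A H) : NewtN_R Ω q A fun x => G x * H x := by
  obtain ⟨m, P, hP, h1⟩ := hG
  obtain ⟨m', P', hP', h2⟩ := hH
  refine ⟨m + m', P * P', A.mul_mem hP hP', fun x hx => ?_⟩
  rw [Pi.mul_apply, ← h1 x hx, ← h2 x hx, pow_add]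
  ring

private theorem NewtN_R_add {ι : Type*} {Ω : Set ι} {q : ι → ℂ} {A : Subalgebra ℂ (ι → ℂ)} (hq : q ∈ A) {G H : ι → ℂ}
    (hG : NewtN_R Ω q A G) (hH : NewtN_R Ω q A H) : NewtN_R Ω q A fun x => G x + H x := by
  obtain ⟨m, P, hP, h1⟩ := hG
  obtain ⟨m', P', hP', h2⟩ := hH
  refine ⟨m + m', q ^ m' * P + q ^ m * P', A.add_mem (A.mul_mem (A.pow_mem hq m') hP)
    (A.mul_mem (A.pow_mem hq m) hP'), fun x hx => ?_⟩
  rw [Pi.add_apply, Pi.mul_apply, Pi.mul_apply, Pi.pow_apply, Pi.pow_apply, ← h1 x hx, ← h2 x hx, pow_add]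
  ring

private theorem NewtN_R_sum {ι : Type*} {Ω : Set ι} {q : ι → ℂ} {A : Subalgebra ℂ (ι → ℂ)} (hq : q ∈ A)
    (s : Finset ℕ) (G : ℕ → ι → ℂ) (hG : ∀ i ∈ s, NewtN_R Ω q A (G i)) : NewtN_R Ω q A fun x => ∑ i ∈ s, G i x := by
  classical
  induction s using Finset.induction_on with
  | empty =>
    simp only [Finset.sum_empty]
    exact NewtN_R_const 0
  | insert a s ha ih =>
    have h1 := NewtN_R_add hq (hG a (Finset.mem_insert_self a s))
      (ih fun i hi => hG i (Finset.mem_insert_of_mem hi))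
    simp only [Finset.sum_insert ha]
    exact h1

/-- Rationality is inherited by the coefficients. -/
theorem nc_rational {ι : Type*} {Ω : Set ι} {q : ι → ℂ} (A : Subalgebra ℂ (ι → ℂ)) (hq : q ∈ A)
    {F : ℕ → ι → ℂ} (hF : ∀ k, 1 ≤ k → ∃ m : ℕ, ∃ P ∈ A, ∀ x ∈ Ω, q x ^ m * F k x = P x) (j : ℕ) :
    ∃ m : ℕ, ∃ P ∈ A, ∀ x ∈ Ω, q x ^ m * nc (fun k => F k x) j = P x := by
  show NewtN_R Ω q A fun x => nc (fun k => F k x) j
  induction j using Nat.strong_induction_on with
  | _ j ih =>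
    cases j with
    | zero =>
      have h1 : (fun x => nc (fun k => F k x) 0) = fun _ : ι => (1 : ℂ) := by
        funext x
        rw [nc]
      rw [h1]
      exact NewtN_R_const 1
    | succ k =>
      have h1 : (fun x => nc (fun k => F k x) (k + 1)) = fun x =>
          (-1 / ((k : ℂ) + 1)) * ∑ i ∈ Finset.range (k + 1), nc (fun k => F k x) i * F (k - i + 1) x := by
        funext x
        rw [NewtN_succ]
        ring
      rw [h1]
      refine NewtN_R_mul (NewtN_R_const _) (NewtN_R_sum hq _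
        (fun i x => nc (fun k => F k x) i * F (k - i + 1) x) fun i hi => ?_)
      exact NewtN_R_mul (ih i (Finset.mem_range.1 hi)) (hF _ (by omega))

end KN
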