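import Pool.Agent.Lib_MP_3ea2ac_kn.Poly

/-! Functions which are polynomials in each variable; extension across the zero set of a
polynomial. -/

open MeasureTheory Complex Set Topology Filter MvPolynomial

namespace KN

/-- A function which is a polynomial of degree at most `d` in each variable is a polynomial.
Induction on `n`, Lagrange interpolation in the first variable. -/
theorem sep_poly (n : ℕ) {H : (Fin n → ℂ) → ℂ} {d : ℕ}
    (h : ∀ x i, ∃ p : Polynomial ℂ, p.natDegree ≤ d ∧
      ∀ w, H (Function.update x i w) = p.eval w) :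
    ∃ P : MvPolynomial (Fin n) ℂ, ∀ x, H x = eval x P := by
  induction n with
  | zero =>
    refine ⟨C (H 0), fun x => ?_⟩
    rw [eval_C]
    congr 1
    exact Subsingleton.elim _ _
  | succ n ih =>
    have h1 : ∀ a : ℕ, ∃ P : MvPolynomial (Fin n) ℂ, ∀ y, H (Fin.cons (a : ℂ) y) = eval y P := by
      intro a
      refine ih (H := fun y => H (Fin.cons (a : ℂ) y)) fun y i => ?_
      obtain ⟨p, hp, hp'⟩ := h (Fin.cons (a : ℂ) y) i.succ
      refine ⟨p, hp, fun w => ?_⟩
      rw [← hp' w, ← Fin.cons_update]
    choose P hP using h1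
    refine ⟨∑ a ∈ Finset.range (d + 1),
      Polynomial.aeval (X 0 : MvPolynomial (Fin (n + 1)) ℂ)
        (Lagrange.basis (Finset.range (d + 1)) (fun a : ℕ => (a : ℂ)) a) * rename Fin.succ (P a), fun x => ?_⟩
    obtain ⟨p, hp, hp'⟩ := h x 0
    have h2 : p = Lagrange.interpolate (Finset.range (d + 1)) (fun a : ℕ => (a : ℂ)) fun a => p.eval (a : ℂ) := by
      refine Lagrange.eq_interpolate (fun a _ b _ hab => Nat.cast_injective hab) ?_
      rw [Finset.card_range]
      exact lt_of_le_of_lt Polynomial.degree_le_natDegree (by exact_mod_cast Nat.lt_succ_of_le hp)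
    have h3 : H x = p.eval (x 0) := by
      rw [← hp' (x 0), Function.update_eq_self]
    have h4 : ∀ w : ℂ, Function.update x 0 w = Fin.cons w (Fin.tail x) := by
      intro w
      conv_lhs => rw [← Fin.cons_self_tail x]
      rw [Fin.update_cons_zero]
    rw [h3, h2, Lagrange.interpolate_apply, Polynomial.eval_finsetSum, map_sum]
    refine Finset.sum_congr rfl fun a _ => ?_
    have h5 : eval x (Polynomial.aeval (X 0 : MvPolynomial (Fin (n + 1)) ℂ)
        (Lagrange.basis (Finset.range (d + 1)) (fun a : ℕ => (a : ℂ)) a)) =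
        (Lagrange.basis (Finset.range (d + 1)) (fun a : ℕ => (a : ℂ)) a).eval (x 0) := by
      have h6 := Polynomial.hom_eval₂ (Lagrange.basis (Finset.range (d + 1)) (fun a : ℕ => (a : ℂ)) a)
        (algebraMap ℂ (MvPolynomial (Fin (n + 1)) ℂ)) (eval x) (X 0)
      rw [Polynomial.aeval_def, h6, eval_X, Polynomial.eval₂_eq_eval_map]
      congr 1
      have h7 : (eval x).comp (algebraMap ℂ (MvPolynomial (Fin (n + 1)) ℂ)) = RingHom.id ℂ := by
        ext z
        simp [algebraMap_eq]
      rw [h7, Polynomial.map_id]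
    rw [Polynomial.eval_mul, Polynomial.eval_C, map_mul, h5, eval_rename, mul_comm]
    congr 1
    rw [← hp' (a : ℂ), h4, hP a]
    rfl

/-- entire functions of polynomial growth -/
private theorem entire_poly (N : ℕ) : ∀ (F : ℂ → ℂ), Differentiable ℂ F →
    (∃ K R : ℝ, ∀ z, R ≤ ‖z‖ → ‖F z‖ ≤ K * ‖z‖ ^ N) →
    ∃ P : Polynomial ℂ, P.natDegree ≤ N ∧ ∀ z, F z = P.eval z := by
  induction N with
  | zero =>
    rintro F hF ⟨K, R, h⟩
    have hb : Bornology.IsBounded (range F) := by
      rw [isBounded_iff_forall_norm_le]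
      obtain ⟨C, hC⟩ := (isCompact_closedBall (0 : ℂ) R).exists_bound_of_continuousOn
        hF.continuous.continuousOn
      refine ⟨max C K, ?_⟩
      rintro _ ⟨z, rfl⟩
      rcases le_total ‖z‖ R with hz | hz
      · exact le_trans (hC z (by simpa using hz)) (le_max_left _ _)
      · exact le_trans (by simpa using h z hz) (le_max_right _ _)
    obtain ⟨c, hc⟩ := hF.exists_const_forall_eq_of_bounded hb
    exact ⟨Polynomial.C c, by simp, fun z => by simp [hc]⟩
  | succ N ih =>
    rintro F hF ⟨K, R, h⟩
    have hd : Differentiable ℂ (dslope F 0) := by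
      rw [← differentiableOn_univ]
      exact (Complex.differentiableOn_dslope univ_mem).2 hF.differentiableOn
    obtain ⟨P, hPd, hP⟩ := ih (dslope F 0) hd ⟨K + ‖F 0‖, max R 1, fun z hz => by
      have hz1 : 1 ≤ ‖z‖ := le_trans (le_max_right _ _) hz
      have hzR : R ≤ ‖z‖ := le_trans (le_max_left _ _) hz
      have hz0 : z ≠ 0 := by
        rintro rfl
        simp at hz1
        linarith
      have e : z * dslope F 0 z = F z - F 0 := by
        have := sub_smul_dslope F 0 z
        simpa using this
      have e2 : ‖z‖ * ‖dslope F 0 z‖ ≤ ‖z‖ * ((K + ‖F 0‖) * ‖z‖ ^ N) := by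
        rw [← norm_mul, e]
        have h1 := h z hzR
        have h2 : 1 ≤ ‖z‖ ^ (N + 1) := one_le_pow₀ hz1
        have h3 : ‖F 0‖ ≤ ‖F 0‖ * ‖z‖ ^ (N + 1) := le_mul_of_one_le_right (norm_nonneg _) h2
        calc ‖F z - F 0‖ ≤ ‖F z‖ + ‖F 0‖ := norm_sub_le _ _
          _ ≤ K * ‖z‖ ^ (N + 1) + ‖F 0‖ * ‖z‖ ^ (N + 1) := add_le_add h1 h3
          _ = ‖z‖ * ((K + ‖F 0‖) * ‖z‖ ^ N) := by ring
      exact le_of_mul_le_mul_left e2 (by linarith)⟩
    refine ⟨Polynomial.C (F 0) + Polynomial.X * P, ?_, fun z => ?_⟩
    · refine (Polynomial.natDegree_add_le _ _).trans (max_le (by simp) ?_)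
      refine Polynomial.natDegree_mul_le.trans ?_
      have := Polynomial.natDegree_X_le (R := ℂ)
      omega
    · have e : z * dslope F 0 z = F z - F 0 := by
        have := sub_smul_dslope F 0 z
        simpa using this
      simp only [Polynomial.eval_add, Polynomial.eval_C, Polynomial.eval_mul, Polynomial.eval_X]
      rw [← hP z, e]
      ring

private theorem norm_upd {n : ℕ} (x : Fin n → ℂ) (i : Fin n) (w : ℂ) : ‖Function.update x i w‖ ≤ ‖x‖ + ‖w‖ := by
  rw [pi_norm_le_iff_of_nonneg (by positivity)]
  intro j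
  by_cases hj : j = i
  · subst hj
    rw [Function.update_self]
    linarith [norm_nonneg x]
  · rw [Function.update_of_ne hj]
    linarith [norm_le_pi_norm x j, norm_nonneg w]

private theorem diff_upd {n : ℕ} (x : Fin n → ℂ) (i : Fin n) :
    Differentiable ℂ fun w : ℂ => Function.update x i w :=
  fun w => (hasDerivAt_update x i w).differentiableAt

/-- A holomorphic function on `{q ≠ 0}` of polynomial growth in `x` and `1/q` is a rational function
with denominator a power of `q`. The function `H = q^{A+1} F`, `H = 0` on `{q = 0}`, is continuous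
and on each coordinate line either zero or holomorphic outside a finite set, hence entire; its growth
makes it a polynomial of bounded degree; `sep_poly`. -/
theorem rational_of_growth {n : ℕ} {q : MvPolynomial (Fin n) ℂ} (hq : q ≠ 0)
    {F : (Fin n → ℂ) → ℂ} (hF : DifferentiableOn ℂ F {x | eval x q ≠ 0}) {K : ℝ} {A B : ℕ}
    (hb : ∀ x, eval x q ≠ 0 → ‖F x‖ * ‖eval x q‖ ^ A ≤ K * (1 + ‖x‖) ^ B) :
    ∃ (P : MvPolynomial (Fin n) ℂ) (m : ℕ), ∀ x, eval x q ≠ 0 → eval x q ^ m * F x = eval x P := by
  classical
  have _ := hq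
  obtain ⟨K', L, hK', hL⟩ := eval_growth q
  set H : (Fin n → ℂ) → ℂ := fun x => if eval x q = 0 then 0 else eval x q ^ (A + 1) * F x with hH
  have hb' : ∀ x, ‖H x‖ ≤ ‖eval x q‖ * (|K| * (1 + ‖x‖) ^ B) := by
    intro x
    by_cases hx : eval x q = 0
    · rw [hH]
      simp [hx]
    · have h1 : H x = eval x q ^ (A + 1) * F x := if_neg hx
      rw [h1, norm_mul, norm_pow, pow_succ]
      have h2 := hb x hx
      have h3 : K * (1 + ‖x‖) ^ B ≤ |K| * (1 + ‖x‖) ^ B :=
        mul_le_mul_of_nonneg_right (le_abs_self K) (by positivity)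
      calc ‖eval x q‖ ^ A * ‖eval x q‖ * ‖F x‖ = ‖eval x q‖ * (‖F x‖ * ‖eval x q‖ ^ A) := by ring
        _ ≤ _ := mul_le_mul_of_nonneg_left (h2.trans h3) (norm_nonneg _)
  have hopen : IsOpen {x : Fin n → ℂ | eval x q ≠ 0} :=
    isOpen_ne_fun (continuous_evalN q) continuous_const
  obtain ⟨P, hP⟩ := sep_poly n (H := H) (d := L + B) (fun x i => by
    set p : ℂ → ℂ := fun w => eval (Function.update x i w) q with hp
    set h : ℂ → ℂ := fun w => H (Function.update x i w) with hh
    have hpd : Differentiable ℂ p := (differentiable_evalN q).comp (diff_upd x i)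
    have hpt : ∀ w, p w ≠ 0 → DifferentiableAt ℂ h w := by
      intro w hw
      have h1 : ∀ᶠ v in 𝓝 w, p v ≠ 0 := hpd.continuous.continuousAt.eventually_ne hw
      have h2 : h =ᶠ[𝓝 w] fun v => p v ^ (A + 1) * F (Function.update x i v) := by
        filter_upwards [h1] with v hv
        exact if_neg hv
      refine DifferentiableAt.congr_of_eventuallyEq ?_ h2
      refine (hpd.differentiableAt.pow _).mul ?_
      exact DifferentiableAt.comp w (hF.differentiableAt (hopen.mem_nhds hw)) (diff_upd x i w)
    have hd : Differentiable ℂ h := by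
      by_cases hz : ∀ w, p w = 0
      · have h1 : h = fun _ => 0 := by
          funext w
          exact if_pos (hz w)
        rw [h1]
        exact differentiable_const _
      · push Not at hz
        obtain ⟨w₁, hw₁⟩ := hz
        intro w₀
        by_cases hw₀ : p w₀ = 0
        · refine (Complex.analyticAt_of_differentiable_on_punctured_nhds_of_continuousAt
            ?_ ?_).differentiableAt
          · rcases (hpd.analyticAt w₀).eventually_eq_zero_or_eventually_ne_zero with h1 | h1
            · exfalso
              have h2 : AnalyticOnNhd ℂ p univ := fun z _ => hpd.analyticAt z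
              have h3 := h2.eqOn_zero_of_preconnected_of_eventuallyEq_zero isPreconnected_univ
                (mem_univ w₀) h1
              exact hw₁ (h3 (mem_univ w₁))
            · filter_upwards [h1] with z hz
              exact hpt z hz
          · have h1 : h w₀ = 0 := if_pos hw₀
            rw [ContinuousAt, h1, tendsto_zero_iff_norm_tendsto_zero]
            have h2 : Continuous fun w : ℂ => ‖p w‖ * (|K| * (1 + ‖Function.update x i w‖) ^ B) := by
              have h3 := hpd.continuous
              have h4 := (diff_upd x i).continuous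
              fun_prop
            have h3 := h2.tendsto w₀
            simp only [hw₀, norm_zero, zero_mul] at h3
            exact squeeze_zero' (Eventually.of_forall fun w => norm_nonneg _)
              (Eventually.of_forall fun w => hb' _) h3
        · exact hpt w₀ hw₀
    refine entire_poly (L + B) h hd ⟨K' * |K| * (2 + ‖x‖) ^ (L + B), 1, fun w hw => ?_⟩
    have h1 : 1 + ‖Function.update x i w‖ ≤ (2 + ‖x‖) * ‖w‖ := by
      have h2 := norm_upd x i w
      nlinarith [norm_nonneg x]
    calc ‖h w‖ ≤ ‖p w‖ * (|K| * (1 + ‖Function.update x i w‖) ^ B) := hb' _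
      _ ≤ (K' * (1 + ‖Function.update x i w‖) ^ L) * (|K| * (1 + ‖Function.update x i w‖) ^ B) :=
          mul_le_mul_of_nonneg_right (hL _) (by positivity)
      _ = K' * |K| * (1 + ‖Function.update x i w‖) ^ (L + B) := by rw [pow_add]; ring
      _ ≤ K' * |K| * ((2 + ‖x‖) * ‖w‖) ^ (L + B) := by
          refine mul_le_mul_of_nonneg_left (pow_le_pow_left₀ (by positivity) h1 _) ?_
          have : 0 ≤ K' := by linarith
          positivity
      _ = K' * |K| * (2 + ‖x‖) ^ (L + B) * ‖w‖ ^ (L + B) := by rw [mul_pow]; ring)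
  refine ⟨P, A + 1, fun x hx => ?_⟩
  rw [← hP x]
  exact (if_neg hx).symm

end KN
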