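import Pool.Agent.Lib_MP_3ea2ac_kn.Growth
import Pool.Agent.Lib_MP_3ea2ac_kn.SepPoly
import Pool.Agent.Lib_MP_3ea2ac_kn.NewtN

/-! The polynomial which describes `M` on almost every line in the direction `i`. -/

open MeasureTheory Complex Set Topology Filter MvPolynomial
open scoped ComplexConjugate ContDiff ComplexOrder

namespace KN

variable {n : ℕ}

private noncomputable def chartN_alg (n : ℕ) : Subalgebra ℂ ((Fin n → ℂ) → ℂ) :=
  (AlgHom.pi (R := ℂ) (A := fun _ : Fin n → ℂ => ℂ) (fun x => MvPolynomial.aeval (R := ℂ) x)).range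

private theorem chartN_mem_alg (P : MvPolynomial (Fin n) ℂ) :
    (fun x : Fin n → ℂ => eval x P) ∈ chartN_alg n := by
  refine ⟨P, ?_⟩
  funext x
  simp

private theorem chartN_of_mem_alg {f : (Fin n → ℂ) → ℂ} (hf : f ∈ chartN_alg n) :
    ∃ P : MvPolynomial (Fin n) ℂ, ∀ x, f x = eval x P := by
  obtain ⟨P, hP⟩ := hf
  refine ⟨P, fun x => ?_⟩
  rw [← hP]
  simp

private theorem chartN_fsum {A : Set ℂ} (hA : A.Finite) (w₁ : ℂ) (k : ℕ) :
    ∑ᶠ (p : ℂ) (_ : p ∈ A), ((p - w₁) ^ k)⁻¹ = ∑ p ∈ hA.toFinset, ((p - w₁)⁻¹) ^ k := by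
  rw [finsum_mem_eq_finite_toFinset_sum _ hA]
  exact Finset.sum_congr rfl fun p _ => by rw [inv_pow]

private theorem chartN_coeff (s : Finset ℂ) (y : ℂ → ℂ) {j : ℕ} (hj : s.card < j) :
    (∏ p ∈ s, (1 - Polynomial.C (y p) * Polynomial.X : Polynomial ℂ)).coeff j = 0 := by
  apply Polynomial.coeff_eq_zero_of_natDegree_lt
  refine lt_of_le_of_lt (Polynomial.natDegree_prod_le _ _) (lt_of_le_of_lt ?_ hj)
  calc ∑ p ∈ s, (1 - Polynomial.C (y p) * Polynomial.X : Polynomial ℂ).natDegree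
      ≤ ∑ p ∈ s, 1 := by
        refine Finset.sum_le_sum fun p _ => ?_
        refine (Polynomial.natDegree_sub_le _ _).trans ?_
        simp only [Polynomial.natDegree_one]
        exact max_le (Nat.zero_le _) ((Polynomial.natDegree_C_mul_le _ _).trans Polynomial.natDegree_X_le)
    _ = s.card := by simp

private theorem chartN_prod_ne (A : Set ℂ) (hA : A.Finite) {w₁ : ℂ} (hw₁ : w₁ ∉ A) (w : ℂ) :
    w ∉ A ↔ ∏ p ∈ hA.toFinset, (1 - (p - w₁)⁻¹ * (w - w₁)) ≠ 0 := by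
  rw [Finset.prod_ne_zero_iff]
  constructor
  · intro hw p hp h0
    have hp' : p ∈ A := by simpa using hp
    have hpw : p - w₁ ≠ 0 := sub_ne_zero.2 fun h => hw₁ (h ▸ hp')
    have h1 : (p - w₁)⁻¹ * (w - w₁) = 1 := (sub_eq_zero.1 h0).symm
    have h2 : w - w₁ = p - w₁ := by
      field_simp at h1
      exact h1
    have h3 : w = p := sub_left_injective h2
    exact hw (h3 ▸ hp')
  · intro h hw
    refine h w (by simpa using hw) ?_
    have hpw : w - w₁ ≠ 0 := sub_ne_zero.2 fun h => hw₁ (h ▸ hw)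
    rw [inv_mul_cancel₀ hpw, sub_self]

/-- The algebraic part: `A x` finite without `w₁`, power sums `F k`, rational. There is `m` with
`#A x ≤ m` on a set of positive measure, so `nc (F · x) j = 0` there for `j > m`, hence (`ae_eval_ne`)
for all `x` with `q x ≠ 0`; `P = ∑_{j ≤ m} q^L c_j (X_i - w₁)^j`. -/
theorem chart_poly (i : Fin (n + 1)) (w₁ : ℂ) {q : MvPolynomial (Fin n) ℂ} (hq : q ≠ 0)
    {A : (Fin n → ℂ) → Set ℂ} {F : ℕ → (Fin n → ℂ) → ℂ}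
    (hA : ∀ᵐ x : Fin n → ℂ, eval x q ≠ 0 → (A x).Finite ∧ w₁ ∉ A x ∧
      ∀ k, 1 ≤ k → F k x = ∑ᶠ (p : ℂ) (_ : p ∈ A x), ((p - w₁) ^ k)⁻¹)
    (hF : ∀ k, 1 ≤ k → ∃ (P : MvPolynomial (Fin n) ℂ) (m : ℕ), ∀ x, eval x q ≠ 0 →
      eval x q ^ m * F k x = eval x P) :
    ∃ P : MvPolynomial (Fin (n + 1)) ℂ, P ≠ 0 ∧
      ∀ᵐ x : Fin n → ℂ, ∀ w, w ∉ A x ↔ eval (ins i w x) P ≠ 0 := by
  classical
  -- the good set
  have hgood : ∀ᵐ x : Fin n → ℂ, eval x q ≠ 0 ∧ (A x).Finite ∧ w₁ ∉ A x ∧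
      ∀ k, 1 ≤ k → F k x = ∑ᶠ (p : ℂ) (_ : p ∈ A x), ((p - w₁) ^ k)⁻¹ := by
    filter_upwards [hA, ae_eval_ne hq] with x hx hqx
    exact ⟨hqx, hx hqx⟩
  -- the coefficients
  have hnc : ∀ j, ∃ (P : MvPolynomial (Fin n) ℂ) (m : ℕ), ∀ x, eval x q ≠ 0 →
      eval x q ^ m * nc (fun k => F k x) j = eval x P := by
    intro j
    obtain ⟨m, P, hP, h⟩ := nc_rational (Ω := {x : Fin n → ℂ | eval x q ≠ 0})
      (q := fun x => eval x q) (chartN_alg n) (chartN_mem_alg q) (F := F) (by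
        intro k hk
        obtain ⟨P, m, hP⟩ := hF k hk
        exact ⟨m, fun x => eval x P, chartN_mem_alg P, fun x hx => hP x hx⟩) j
    obtain ⟨P', hP'⟩ := chartN_of_mem_alg hP
    exact ⟨P', m, fun x hx => by rw [← hP' x]; exact h x hx⟩
  choose Pj mj hPj using hnc
  -- a set of positive measure
  obtain ⟨m, hm⟩ : ∃ m : ℕ, volume {x : Fin n → ℂ | (A x).Finite ∧ (A x).ncard ≤ m} ≠ 0 := by
    by_contra hcon
    push Not at hcon
    have h0 : volume (⋃ m : ℕ, {x : Fin n → ℂ | (A x).Finite ∧ (A x).ncard ≤ m}) = 0 :=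
      measure_iUnion_null hcon
    have h1 : ∀ᵐ x : Fin n → ℂ, False := by
      have h2 : ∀ᵐ x : Fin n → ℂ,
          x ∉ ⋃ m : ℕ, {x : Fin n → ℂ | (A x).Finite ∧ (A x).ncard ≤ m} :=
        measure_eq_zero_iff_ae_notMem.1 h0
      filter_upwards [h2, hgood] with x hx hx'
      exact hx (mem_iUnion.2 ⟨(A x).ncard, hx'.2.1, le_rfl⟩)
    exact (h1.exists).elim fun _ h => h
  -- the coefficients of large index vanish
  have hvan : ∀ j, m < j → ∀ x, eval x q ≠ 0 → nc (fun k => F k x) j = 0 := by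
    intro j hj
    have hP0 : Pj j = 0 := by
      by_contra hne
      apply hm
      rw [measure_eq_zero_iff_ae_notMem]
      filter_upwards [hgood, ae_eval_ne hne] with x hx hPx hmem
      apply hPx
      rw [← hPj j x hx.1]
      have h1 : nc (fun k => F k x) j
          = (∏ p ∈ hx.2.1.toFinset,
              (1 - Polynomial.C ((p - w₁)⁻¹) * Polynomial.X : Polynomial ℂ)).coeff j := by
        refine nc_coeff hx.2.1.toFinset (fun p => (p - w₁)⁻¹) (fun k hk => ?_) j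
        show F k x = _
        rw [hx.2.2.2 k hk, chartN_fsum hx.2.1]
      have h2 : hx.2.1.toFinset.card < j := by
        rw [← Set.ncard_eq_toFinset_card _ hx.2.1]
        exact lt_of_le_of_lt hmem.2 hj
      rw [h1, chartN_coeff _ _ h2, mul_zero]
    intro x hx
    have h1 := hPj j x hx
    rw [hP0, map_zero] at h1
    exact (mul_eq_zero.1 h1).resolve_left (pow_ne_zero _ hx)
  -- the polynomial
  set L : ℕ := ∑ j ∈ Finset.range (m + 1), mj j with hL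
  have hmL : ∀ j ∈ Finset.range (m + 1), mj j ≤ L := fun j hj =>
    Finset.single_le_sum (f := mj) (fun _ _ => Nat.zero_le _) hj
  set P : MvPolynomial (Fin (n + 1)) ℂ := ∑ j ∈ Finset.range (m + 1),
    rename i.succAbove (q ^ (L - mj j) * Pj j) * (X i - C w₁) ^ j with hP
  have hcomp : ∀ (w : ℂ) (x : Fin n → ℂ), (ins i w x) ∘ i.succAbove = x := by
    intro w x
    funext j
    simp
  have heval : ∀ (x : Fin n → ℂ), eval x q ≠ 0 → ∀ w, eval (ins i w x) P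
      = eval x q ^ L * ∑ j ∈ Finset.range (m + 1), nc (fun k => F k x) j * (w - w₁) ^ j := by
    intro x hx w
    rw [hP, map_sum, Finset.mul_sum]
    refine Finset.sum_congr rfl fun j hj => ?_
    rw [map_mul, map_pow, map_sub, eval_X, eval_C, eval_rename, hcomp, map_mul, map_pow,
      ins_same, ← hPj j x hx]
    have h1 : eval x q ^ L = eval x q ^ (L - mj j) * eval x q ^ mj j := by
      rw [← pow_add, Nat.sub_add_cancel (hmL j hj)]
    rw [h1]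
    ring
  have hkey : ∀ᵐ x : Fin n → ℂ, eval x q ≠ 0 ∧ w₁ ∉ A x ∧
      ∀ w, w ∉ A x ↔ eval (ins i w x) P ≠ 0 := by
    filter_upwards [hgood] with x hx
    refine ⟨hx.1, hx.2.2.1, fun w => ?_⟩
    rw [heval x hx.1 w]
    have h1 : ∑ j ∈ Finset.range (m + 1), nc (fun k => F k x) j * (w - w₁) ^ j
        = ∏ p ∈ hx.2.1.toFinset, (1 - (p - w₁)⁻¹ * (w - w₁)) := by
      refine nc_sum hx.2.1.toFinset (fun p => (p - w₁)⁻¹) (fun k hk => ?_)
        (fun j hj => hvan j hj x hx.1) (w - w₁)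
      show F k x = _
      rw [hx.2.2.2 k hk, chartN_fsum hx.2.1]
    rw [h1, mul_ne_zero_iff, chartN_prod_ne (A x) hx.2.1 hx.2.2.1 w]
    exact ⟨fun h => ⟨pow_ne_zero _ hx.1, h⟩, fun h => h.2⟩
  refine ⟨P, ?_, ?_⟩
  · intro h0
    obtain ⟨x, hx⟩ := hkey.exists
    have h1 := (hx.2.2 w₁).1 hx.2.1
    rw [h0, map_zero] at h1
    exact h1 rfl
  · filter_upwards [hkey] with x hx using hx.2.2

variable {M : Set (Fin (n + 1) → ℂ)} {D : (Fin (n + 1) → ℂ) → ℝ}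
  {G : Fin (n + 1) → (Fin (n + 1) → ℂ) → ℝ} {a τ : ℝ} {t : Fin (n + 1) → ℂ → ℝ}
  {α β : Fin (n + 1) → ℂ} {η : ℕ → (Fin (n + 1) → ℂ) → ℝ}

/-- `hIH` is the induction hypothesis for the hyperplane slices. -/
theorem NData.chart (P : NData M D G a τ t α β η) (hne : M.Nonempty) (i : Fin (n + 1))
    (hIH : ∀ (N : Set (Fin n → ℂ)) (D' : (Fin n → ℂ) → ℝ) (G' : Fin n → (Fin n → ℂ) → ℝ)
      (τ' : ℝ) (t' : Fin n → ℂ → ℝ) (α' β' : Fin n → ℂ) (η' : ℕ → (Fin n → ℂ) → ℝ),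
      NData N D' G' a τ' t' α' β' η' → N.Nonempty →
      ∃ q : MvPolynomial (Fin n) ℂ, q ≠ 0 ∧ ∀ x, x ∈ N ↔ eval x q ≠ 0) :
    ∃ Q : MvPolynomial (Fin (n + 1)) ℂ, Q ≠ 0 ∧
      ∀ᵐ x : Fin n → ℂ, ∀ w, ins i w x ∈ M ↔ eval (ins i w x) Q ≠ 0 := by
  obtain ⟨x₀, hx₀⟩ := hne
  -- a good hyperplane
  obtain ⟨w₁, hw₁M, P'⟩ : ∃ w₁ : ℂ, ins i w₁ (del i x₀) ∈ M ∧
      NData (MH M i w₁) (fun x => D (ins i w₁ x))
        (fun j x => G (i.succAbove j) (ins i w₁ x)) a (τ * t i w₁) (fun j => t (i.succAbove j))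
        (del i α) (del i β) (fun k x => η k (ins i w₁ x)) := by
    have hd := Measure.dense_of_ae (P.hyper i)
    obtain ⟨w, hw, hw'⟩ := hd.exists_mem_open (isOpen_ML P.isOpen i (del i x₀))
      ⟨x₀ i, by show ins i (x₀ i) (del i x₀) ∈ M; rw [ins_del]; exact hx₀⟩
    exact ⟨w, hw', hw⟩
  obtain ⟨q, hq, hqM⟩ := hIH _ _ _ _ _ _ _ _ P' ⟨del i x₀, hw₁M⟩
  have hΩ : ∀ x : Fin n → ℂ, ins i w₁ x ∈ M ↔ eval x q ≠ 0 := hqM
  have hset : MH M i w₁ = {x | eval x q ≠ 0} := Set.ext hqM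
  -- the power sums
  have hk : ∀ k, ∃ F : (Fin n → ℂ) → ℂ, 1 ≤ k → (DifferentiableOn ℂ F (MH M i w₁) ∧
      ∀ᵐ x, x ∈ MH M i w₁ → psum M i w₁ k x = F x) := by
    intro k
    by_cases h : 1 ≤ k
    · obtain ⟨F, hF⟩ := P.psum_holo i w₁ h
      exact ⟨F, fun _ => hF⟩
    · exact ⟨0, fun h' => absurd h' h⟩
  choose F hF using hk
  have hrat : ∀ k, 1 ≤ k → ∃ (P : MvPolynomial (Fin n) ℂ) (m : ℕ), ∀ x, eval x q ≠ 0 →
      eval x q ^ m * F k x = eval x P := by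
    intro k hk
    obtain ⟨K, A, B, hb⟩ := P.growth i P' hΩ (hF k hk).1 (hF k hk).2
    exact rational_of_growth hq (hset ▸ (hF k hk).1) hb
  have hA : ∀ᵐ x : Fin n → ℂ, eval x q ≠ 0 → ((ML M i x)ᶜ).Finite ∧ w₁ ∉ (ML M i x)ᶜ ∧
      ∀ k, 1 ≤ k → F k x = ∑ᶠ (p : ℂ) (_ : p ∈ (ML M i x)ᶜ), ((p - w₁) ^ k)⁻¹ := by
    have h1 : ∀ᵐ x : Fin n → ℂ, ∀ k, 1 ≤ k → x ∈ MH M i w₁ → psum M i w₁ k x = F k x := by
      rw [ae_all_iff]
      intro k
      by_cases h : 1 ≤ k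
      · filter_upwards [(hF k h).2] with x hx _ using hx
      · exact Filter.Eventually.of_forall fun x h' => absurd h' h
    filter_upwards [h1, P.line i] with x hx hl hqx
    have hmem : w₁ ∈ ML M i x := (hΩ x).2 hqx
    refine ⟨(hl ⟨w₁, hmem⟩).finite, fun h => h hmem, fun k hk => ?_⟩
    rw [← hx k hk hmem]
    rfl
  obtain ⟨Q, hQ, hQ'⟩ := chart_poly i w₁ hq hA hrat
  refine ⟨Q, hQ, ?_⟩
  filter_upwards [hQ'] with x hx w
  rw [← hx w, Set.notMem_compl_iff]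
  rfl

end KN
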