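import Pool.Agent.Lib_MP_3ea2ac_kn.Setup

/-! Cutoff functions of a complete metric. -/

open MeasureTheory Complex Set Topology Filter
open scoped ComplexConjugate ContDiff ComplexOrder

namespace KN

variable {n : ℕ}

section aux

variable {M : Set (Fin n → ℂ)} {g : (Fin n → ℂ) → Matrix (Fin n) (Fin n) ℂ}

private theorem Cut_hq_pos (h : IsKahler M g) {x : Fin n → ℂ} (hx : x ∈ M) {v : Fin n → ℂ} (hv : v ≠ 0) :
    0 < hq (g x) v := by
  have hne : (fun j : Fin n => conj (v j)) ≠ 0 := by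
    intro h0
    apply hv
    funext j
    have h1 := congrFun h0 j
    simpa only [Pi.zero_apply, map_eq_zero] using h1
  have hp := (h.posDef x hx).dotProduct_mulVec_pos hne
  have e : star (fun j : Fin n => conj (v j)) ⬝ᵥ Matrix.mulVec (g x)
      (fun j : Fin n => conj (v j)) = ∑ i, ∑ j, g x i j * v i * conj (v j) := by
    simp only [dotProduct, Matrix.mulVec, Pi.star_apply, Finset.mul_sum]
    refine Finset.sum_congr rfl fun i _ => Finset.sum_congr rfl fun j _ => ?_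
    have : star (conj (v i)) = v i := by simp
    rw [this]
    ring
  rw [e] at hp
  unfold hq
  exact (Complex.lt_def.1 hp).1

private theorem Cut_hq_smul (H : Matrix (Fin n) (Fin n) ℂ) (t : ℝ) (v : Fin n → ℂ) :
    hq H (t • v) = t ^ 2 * hq H v := by
  unfold hq
  have e : ∀ i, (t • v) i = (t : ℂ) * v i := by
    intro i
    simp
  simp only [e]
  have : ∑ i, ∑ j, H i j * ((t : ℂ) * v i) * conj ((t : ℂ) * v j) =
      ((t ^ 2 : ℝ) : ℂ) * ∑ i, ∑ j, H i j * v i * conj (v j) := by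
    rw [Finset.mul_sum]
    refine Finset.sum_congr rfl fun i _ => ?_
    rw [Finset.mul_sum]
    refine Finset.sum_congr rfl fun j _ => ?_
    rw [map_mul, Complex.conj_ofReal]
    push_cast
    ring
  rw [this, Complex.re_ofReal_mul]

private theorem Cut_hq_nonneg (h : IsKahler M g) {x : Fin n → ℂ} (hx : x ∈ M) (v : Fin n → ℂ) :
    0 ≤ hq (g x) v := by
  by_cases hv : v = 0
  · subst hv
    have := Cut_hq_smul (g x) 0 0
    rw [smul_zero] at this
    rw [this]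
    simp
  · exact (Cut_hq_pos h hx hv).le

private theorem Cut_hq_cont (h : IsKahler M g) :
    ContinuousOn (fun p : (Fin n → ℂ) × (Fin n → ℂ) => hq (g p.1) p.2) (M ×ˢ univ) := by
  unfold hq
  refine Complex.continuous_re.comp_continuousOn ?_
  refine continuousOn_finsetSum _ fun i _ => continuousOn_finsetSum _ fun j _ => ?_
  have hg : ContinuousOn (fun p : (Fin n → ℂ) × (Fin n → ℂ) => g p.1 i j) (M ×ˢ univ) :=
    (h.smooth i j).continuousOn.comp continuousOn_fst fun p hp => hp.1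
  have hc : ∀ i, Continuous fun p : (Fin n → ℂ) × (Fin n → ℂ) => p.2 i := by
    intro i
    exact (continuous_apply i).comp continuous_snd
  exact (hg.mul (hc i).continuousOn).mul (Complex.continuous_conj.comp (hc j)).continuousOn

private theorem Cut_evt {X Y : Type*} [TopologicalSpace X] [TopologicalSpace Y] {F G : X → Y → ℝ}
    {x : X} {K : Set Y} (hK : IsCompact K)
    (hF : ∀ u ∈ K, ContinuousAt (fun q : X × Y => F q.1 q.2) (x, u))
    (hG : ∀ u ∈ K, ContinuousAt (fun q : X × Y => G q.1 q.2) (x, u))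
    (hlt : ∀ u ∈ K, F x u < G x u) : ∀ᶠ p in 𝓝 x, ∀ u ∈ K, F p u < G p u :=
  hK.eventually_forall_of_forall_eventually (P := fun p u => F p u < G p u) fun u hu =>
    (hF u hu).eventually_lt (hG u hu) (hlt u hu)

private theorem Cut_open (hM : IsOpen M) (h : IsKahler M g) :
    IsOpen {p : (Fin n → ℂ) × (Fin n → ℂ) | (p.1 ∈ M ∧ p.2 ∈ M) ∧
      ∀ u ∈ Metric.sphere (0 : (Fin n → ℂ)) 1, hq (g p.2) u < 4 * hq (g p.1) u} := by
  rw [isOpen_iff_mem_nhds]
  intro p hp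
  have hxy : (p.1 ∈ M ∧ p.2 ∈ M) ∧
      ∀ u ∈ Metric.sphere (0 : (Fin n → ℂ)) 1, hq (g p.2) u < 4 * hq (g p.1) u := hp
  have e1 : ∀ᶠ q : (Fin n → ℂ) × (Fin n → ℂ) in 𝓝 p, q.1 ∈ M ∧ q.2 ∈ M :=
    (hM.prod hM).mem_nhds hxy.1
  have hc : ∀ y ∈ M, ∀ u : (Fin n → ℂ),
      ContinuousAt (fun q : (Fin n → ℂ) × (Fin n → ℂ) => hq (g q.1) q.2) (y, u) := fun y hy u =>
    (Cut_hq_cont h).continuousAt ((hM.prod isOpen_univ).mem_nhds ⟨hy, mem_univ _⟩)
  have e2 : ∀ᶠ q : (Fin n → ℂ) × (Fin n → ℂ) in 𝓝 p, ∀ u ∈ Metric.sphere (0 : (Fin n → ℂ)) 1,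
      hq (g q.2) u < 4 * hq (g q.1) u := by
    apply Cut_evt (F := fun (q : (Fin n → ℂ) × (Fin n → ℂ)) u => hq (g q.2) u)
      (G := fun (q : (Fin n → ℂ) × (Fin n → ℂ)) u => 4 * hq (g q.1) u) (isCompact_sphere _ _)
    · intro u _
      exact ContinuousAt.comp (x := (p, u))
        (f := fun q : ((Fin n → ℂ) × (Fin n → ℂ)) × (Fin n → ℂ) => (q.1.2, q.2))
        (g := fun q : (Fin n → ℂ) × (Fin n → ℂ) => hq (g q.1) q.2) (hc p.2 hxy.1.2 u)
        (Continuous.continuousAt (by fun_prop))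
    · intro u _
      exact (ContinuousAt.comp (x := (p, u))
        (f := fun q : ((Fin n → ℂ) × (Fin n → ℂ)) × (Fin n → ℂ) => (q.1.1, q.2))
        (g := fun q : (Fin n → ℂ) × (Fin n → ℂ) => hq (g q.1) q.2) (hc p.1 hxy.1.1 u)
        (Continuous.continuousAt (by fun_prop))).const_mul 4
    · exact hxy.2
  exact e1.and e2

/-- Comparison of the metric at nearby points, uniformly on compact sets. -/
private theorem Cut_cmp (hM : IsOpen M) (h : IsKahler M g) {K : Set (Fin n → ℂ)} (hK : IsCompact K)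
    (hKM : K ⊆ M) : ∃ δ > 0, ∀ x ∈ K, ∀ y, dist y x < δ → y ∈ M ∧
      ∀ v, hq (g y) v ≤ 4 * hq (g x) v := by
  have hUo := Cut_open hM h
  set U : Set ((Fin n → ℂ) × (Fin n → ℂ)) := {p | (p.1 ∈ M ∧ p.2 ∈ M) ∧
    ∀ u ∈ Metric.sphere (0 : (Fin n → ℂ)) 1, hq (g p.2) u < 4 * hq (g p.1) u} with hU
  have hD : IsCompact ((fun x : (Fin n → ℂ) => (x, x)) '' K) :=
    hK.image (by fun_prop)
  have hDU : (fun x : (Fin n → ℂ) => (x, x)) '' K ⊆ U := by
    rintro _ ⟨x, hx, rfl⟩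
    refine ⟨⟨hKM hx, hKM hx⟩, fun u hu => ?_⟩
    have hu0 : u ≠ 0 := by
      rintro rfl
      simp at hu
    have := Cut_hq_pos h (hKM hx) hu0
    simp only
    linarith
  obtain ⟨δ, hδ, hsub⟩ := hD.exists_thickening_subset_open hUo hDU
  refine ⟨δ, hδ, fun x hx y hy => ?_⟩
  have hmem : (x, y) ∈ U := by
    apply hsub
    rw [Metric.mem_thickening_iff]
    refine ⟨(x, x), ⟨x, hx, rfl⟩, ?_⟩
    rw [Prod.dist_eq]
    simp only [dist_self]
    rw [max_eq_right dist_nonneg]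
    exact hy
  refine ⟨hmem.1.2, fun v => ?_⟩
  by_cases hv : v = 0
  · subst hv
    have e0 : ∀ H : Matrix (Fin n) (Fin n) ℂ, hq H 0 = 0 := by
      intro H
      have := Cut_hq_smul H 0 0
      simpa using this
    rw [e0, e0]
    simp
  · have hn : 0 < ‖v‖ := norm_pos_iff.2 hv
    have hu := hmem.2 (‖v‖⁻¹ • v) (by
      rw [mem_sphere_zero_iff_norm, norm_smul, norm_inv, norm_norm, inv_mul_cancel₀ hn.ne'])
    simp only at hu
    rw [Cut_hq_smul, Cut_hq_smul] at hu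
    have hp : 0 < ‖v‖⁻¹ ^ 2 := by positivity
    have : ‖v‖⁻¹ ^ 2 * hq (g y) v < ‖v‖⁻¹ ^ 2 * (4 * hq (g x) v) := by
      calc _ < 4 * (‖v‖⁻¹ ^ 2 * hq (g x) v) := hu
        _ = _ := by ring
    exact (lt_of_mul_lt_mul_left this hp.le).le

/-- The segment from `y` to `y'`. -/
private noncomputable def Cut_seg (y y' : (Fin n → ℂ)) (t : ℝ) : (Fin n → ℂ) := y + t • (y' - y)

private theorem Cut_deriv_seg (y y' : (Fin n → ℂ)) (t : ℝ) : deriv (Cut_seg y y') t = y' - y := by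
  unfold Cut_seg
  have : HasDerivAt (fun t : ℝ => y + t • (y' - y)) ((1 : ℝ) • (y' - y)) t :=
    ((hasDerivAt_id t).smul_const (y' - y)).const_add y
  rw [this.deriv, one_smul]

private theorem Cut_len_nonneg (γ : ℝ → (Fin n → ℂ)) : 0 ≤ len g γ := by
  unfold len
  exact intervalIntegral.integral_nonneg zero_le_one fun t _ => Real.sqrt_nonneg _

private theorem Cut_len_le {y y' : (Fin n → ℂ)} {B : ℝ}
    (hB : ∀ t ∈ Icc (0 : ℝ) 1, Real.sqrt (hq (g (Cut_seg y y' t)) (y' - y)) ≤ B) :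
    len g (Cut_seg y y') ≤ B := by
  unfold len
  have := intervalIntegral.norm_integral_le_of_norm_le_const (a := (0 : ℝ)) (b := 1) (C := B)
    (f := fun t => Real.sqrt (hq (g (Cut_seg y y' t)) (deriv (Cut_seg y y') t))) (by
      intro t ht
      rw [uIoc_of_le zero_le_one] at ht
      rw [Real.norm_of_nonneg (Real.sqrt_nonneg _), Cut_deriv_seg]
      exact hB t ⟨ht.1.le, ht.2⟩)
  refine (le_abs_self _).trans ?_
  rw [← Real.norm_eq_abs]
  simpa using this

private theorem Cut_step {x y y' : (Fin n → ℂ)} {L : ℝ} (hJ : Joined M g x y L)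
    (hs : ∀ t ∈ Icc (0 : ℝ) 1, Cut_seg y y' t ∈ M) :
    Joined M g x y' (L + len g (Cut_seg y y')) := by
  have := Joined.step y L (Cut_seg y y') hJ (by unfold Cut_seg; fun_prop)
    (by unfold Cut_seg; simp) hs
  have e : Cut_seg y y' 1 = y' := by unfold Cut_seg; simp
  rwa [e] at this

private theorem Cut_Joined_nonneg {x y : (Fin n → ℂ)} {L : ℝ} (hJ : Joined M g x y L) : 0 ≤ L := by
  induction hJ with
  | refl => exact le_rfl
  | step y L γ _ _ _ _ ih => exact add_nonneg ih (Cut_len_nonneg γ)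

/-- The distance from the base point. -/
private noncomputable def Cut_r (M : Set (Fin n → ℂ)) (g : (Fin n → ℂ) → Matrix (Fin n) (Fin n) ℂ)
    (x y : (Fin n → ℂ)) : ℝ := sInf {L | Joined M g x y L}

private theorem Cut_bdd (x y : (Fin n → ℂ)) : BddBelow {L | Joined M g x y L} :=
  ⟨0, fun _ hL => Cut_Joined_nonneg hL⟩

private theorem Cut_r_step {x₀ y y' : (Fin n → ℂ)} (hy : ∃ L, Joined M g x₀ y L)
    (hs : ∀ t ∈ Icc (0 : ℝ) 1, Cut_seg y y' t ∈ M) :
    Cut_r M g x₀ y' ≤ Cut_r M g x₀ y + len g (Cut_seg y y') := by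
  rw [← sub_le_iff_le_add]
  refine le_csInf hy fun L hL => ?_
  rw [sub_le_iff_le_add]
  exact csInf_le (Cut_bdd _ _) (Cut_step hL hs)

private theorem Cut_seg_mem {y y' x : (Fin n → ℂ)} {δ : ℝ} (hy : dist y x < δ) (hy' : dist y' x < δ)
    {t : ℝ} (ht : t ∈ Icc (0 : ℝ) 1) : dist (Cut_seg y y' t) x < δ := by
  have := (convex_ball x δ).add_smul_sub_mem (Metric.mem_ball.2 hy) (Metric.mem_ball.2 hy') ht
  exact Metric.mem_ball.1 this

private theorem Cut_joined (hM : IsOpen M) (hc : IsConnected M) {x₀ : (Fin n → ℂ)} (hx₀ : x₀ ∈ M) :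
    ∀ y ∈ M, ∃ L, Joined M g x₀ y L := by
  have key : M ⊆ {y | y ∈ M ∧ ∃ L, Joined M g x₀ y L} := by
    refine hc.isPreconnected.subset_of_closure_inter_subset ?_ ⟨x₀, hx₀, hx₀, 0, Joined.refl⟩ ?_
    · rw [Metric.isOpen_iff]
      rintro y ⟨hy, L, hL⟩
      obtain ⟨ε, hε, hb⟩ := Metric.isOpen_iff.1 hM y hy
      refine ⟨ε, hε, fun y' hy' => ⟨hb hy', _, Cut_step hL fun t ht => hb ?_⟩⟩
      exact Cut_seg_mem (by rwa [dist_self]) hy' ht
    · rintro y ⟨hcl, hy⟩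
      obtain ⟨ε, hε, hb⟩ := Metric.isOpen_iff.1 hM y hy
      obtain ⟨y', hy', hd⟩ := Metric.mem_closure_iff.1 hcl ε hε
      obtain ⟨_, L, hL⟩ := hy'
      refine ⟨hy, _, Cut_step hL fun t ht => hb ?_⟩
      exact Cut_seg_mem (by rwa [dist_comm] at hd) (by rwa [dist_self]) ht
  exact fun y hy => (key hy).2

private theorem Cut_sqrt_le {a b : ℝ} (hb : 0 ≤ b) (h : a ≤ 4 * b) :
    Real.sqrt a ≤ 2 * Real.sqrt b := by
  rw [show (2 : ℝ) * Real.sqrt b = Real.sqrt (4 * b) by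
    rw [Real.sqrt_mul (by norm_num), show (4 : ℝ) = 2 ^ 2 by norm_num, Real.sqrt_sq (by norm_num)]]
  exact Real.sqrt_le_sqrt h

private theorem Cut_hq_neg (H : Matrix (Fin n) (Fin n) ℂ) (v w : (Fin n → ℂ)) :
    hq H (v - w) = hq H (w - v) := by
  have := Cut_hq_smul H (-1) (w - v)
  rw [neg_one_smul, neg_sub] at this
  rw [this]
  ring

private theorem Cut_r_le {x₀ x y y' : (Fin n → ℂ)} {δ : ℝ} (h : IsKahler M g) (hx : x ∈ M)
    (hj : ∀ y ∈ M, ∃ L, Joined M g x₀ y L)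
    (hcmp : ∀ y, dist y x < δ → y ∈ M ∧ ∀ v, hq (g y) v ≤ 4 * hq (g x) v)
    (hy : dist y x < δ) (hy' : dist y' x < δ) :
    Cut_r M g x₀ y' - Cut_r M g x₀ y ≤ 2 * Real.sqrt (hq (g x) (y' - y)) := by
  have h1 := Cut_r_step (g := g) (hj y (hcmp y hy).1)
    (fun t ht => (hcmp _ (Cut_seg_mem hy hy' ht)).1)
  have h2 : len g (Cut_seg y y') ≤ 2 * Real.sqrt (hq (g x) (y' - y)) :=
    Cut_len_le fun t ht => Cut_sqrt_le (Cut_hq_nonneg h hx _)
      ((hcmp _ (Cut_seg_mem hy hy' ht)).2 _)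
  linarith

private theorem Cut_r_lip {x₀ x y y' : (Fin n → ℂ)} {δ : ℝ} (h : IsKahler M g) (hx : x ∈ M)
    (hj : ∀ y ∈ M, ∃ L, Joined M g x₀ y L)
    (hcmp : ∀ y, dist y x < δ → y ∈ M ∧ ∀ v, hq (g y) v ≤ 4 * hq (g x) v)
    (hy : dist y x < δ) (hy' : dist y' x < δ) :
    |Cut_r M g x₀ y' - Cut_r M g x₀ y| ≤ 2 * Real.sqrt (hq (g x) (y' - y)) := by
  rw [abs_le]
  have h1 := Cut_r_le h hx hj hcmp hy hy'
  have h2 := Cut_r_le h hx hj hcmp hy' hy
  rw [Cut_hq_neg] at h2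
  constructor <;> linarith

private theorem Cut_r_cont {x₀ : (Fin n → ℂ)} (hM : IsOpen M) (h : IsKahler M g)
    (hj : ∀ y ∈ M, ∃ L, Joined M g x₀ y L) {x : (Fin n → ℂ)} (hx : x ∈ M) :
    ContinuousAt (Cut_r M g x₀) x := by
  obtain ⟨δ, hδ, hcmp⟩ := Cut_cmp hM h (isCompact_singleton (x := x)) (by simpa using hx)
  have hcmp' := hcmp x rfl
  have hlim : Tendsto (fun y => 2 * Real.sqrt (hq (g x) (y - x))) (𝓝 x) (𝓝 0) := by
    have hc : ContinuousAt (fun y : (Fin n → ℂ) => hq (g x) (y - x)) x := by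
      have := (Cut_hq_cont h).continuousAt (x := (x, x - x))
        ((hM.prod isOpen_univ).mem_nhds ⟨hx, mem_univ _⟩)
      exact ContinuousAt.comp (f := fun y : (Fin n → ℂ) => (x, y - x)) this (by fun_prop)
    have h2 : Tendsto (fun y => 2 * Real.sqrt (hq (g x) (y - x))) (𝓝 x)
        (𝓝 (2 * Real.sqrt (hq (g x) (x - x)))) :=
      (hc.sqrt).const_mul 2
    have e0 : hq (g x) (x - x) = 0 := by
      have := Cut_hq_smul (g x) 0 (x - x)
      simpa using this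
    rw [e0, Real.sqrt_zero, mul_zero] at h2
    exact h2
  rw [ContinuousAt, tendsto_iff_dist_tendsto_zero]
  refine squeeze_zero' (Eventually.of_forall fun y => dist_nonneg) ?_ hlim
  filter_upwards [Metric.ball_mem_nhds x hδ] with y hy
  rw [Real.dist_eq]
  exact Cut_r_lip h hx hj hcmp' (by rwa [dist_self]) hy

open Classical in
/-- The cutoff of the distance. -/
private noncomputable def Cut_h (M : Set (Fin n → ℂ)) (g : (Fin n → ℂ) → Matrix (Fin n) (Fin n) ℂ)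
    (x₀ : (Fin n → ℂ)) (R : ℝ) (y : (Fin n → ℂ)) : ℝ :=
  if y ∈ M then max (min (2 - Cut_r M g x₀ y / R) 1) 0 else 0

private theorem Cut_h_nonneg (x₀ : (Fin n → ℂ)) (R : ℝ) (y : (Fin n → ℂ)) : 0 ≤ Cut_h M g x₀ R y := by
  unfold Cut_h
  split_ifs
  · exact le_max_right _ _
  · exact le_rfl

private theorem Cut_h_le_one (x₀ : (Fin n → ℂ)) (R : ℝ) (y : (Fin n → ℂ)) : Cut_h M g x₀ R y ≤ 1 := by
  unfold Cut_h
  split_ifs
  · exact max_le (min_le_right _ _) zero_le_one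
  · exact zero_le_one

private theorem Cut_h_one {x₀ y : (Fin n → ℂ)} {R : ℝ} (hR : 0 < R) (hy : y ∈ M)
    (hr : Cut_r M g x₀ y ≤ R) : Cut_h M g x₀ R y = 1 := by
  unfold Cut_h
  rw [if_pos hy]
  have : Cut_r M g x₀ y / R ≤ 1 := (div_le_one hR).2 hr
  rw [min_eq_right (by linarith)]
  exact max_eq_left zero_le_one

private theorem Cut_h_lip {x₀ y y' : (Fin n → ℂ)} {R : ℝ} (hR : 0 < R) (hy : y ∈ M) (hy' : y' ∈ M) :
    |Cut_h M g x₀ R y' - Cut_h M g x₀ R y| ≤ |Cut_r M g x₀ y' - Cut_r M g x₀ y| / R := by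
  unfold Cut_h
  rw [if_pos hy, if_pos hy']
  refine (abs_max_sub_max_le_abs _ _ _).trans ((abs_min_sub_min_le_max _ _ _ _).trans ?_)
  rw [sub_self, abs_zero, max_eq_left (abs_nonneg _)]
  rw [show 2 - Cut_r M g x₀ y' / R - (2 - Cut_r M g x₀ y / R) =
    -((Cut_r M g x₀ y' - Cut_r M g x₀ y) / R) by ring, abs_neg, abs_div, abs_of_pos hR]

private theorem Cut_h_zero {x₀ y : (Fin n → ℂ)} {R : ℝ} {K : Set (Fin n → ℂ)} (hR : 0 < R)
    (hj : ∀ y ∈ M, ∃ L, Joined M g x₀ y L)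
    (hK : ∀ y L, Joined M g x₀ y L → L ≤ 2 * R → y ∈ K) (hy : y ∉ K) : Cut_h M g x₀ R y = 0 := by
  unfold Cut_h
  split_ifs with hm
  · have h2 : 2 * R ≤ Cut_r M g x₀ y := by
      by_contra hlt
      rw [not_le] at hlt
      obtain ⟨L, hL, hL2⟩ := exists_lt_of_csInf_lt (hj y hm) hlt
      exact hy (hK y L hL hL2.le)
    have : 2 ≤ Cut_r M g x₀ y / R := (le_div_iff₀ hR).2 h2
    exact max_eq_right ((min_le_left _ _).trans (by linarith))
  · rfl

private theorem Cut_h_cont {x₀ : (Fin n → ℂ)} {R : ℝ} {K : Set (Fin n → ℂ)} (hM : IsOpen M)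
    (h : IsKahler M g) (hR : 0 < R) (hj : ∀ y ∈ M, ∃ L, Joined M g x₀ y L) (hKc : IsCompact K)
    (hKM : K ⊆ M) (hK : ∀ y L, Joined M g x₀ y L → L ≤ 2 * R → y ∈ K) :
    Continuous (Cut_h M g x₀ R) := by
  rw [continuous_iff_continuousAt]
  intro y
  by_cases hy : y ∈ M
  · have hc := Cut_r_cont hM h hj hy
    have h1 : ContinuousAt (fun y => max (min (2 - Cut_r M g x₀ y / R) 1) 0) y :=
      ((continuousAt_const.sub (hc.div_const R)).min continuousAt_const).max continuousAt_const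
    refine h1.congr ?_
    filter_upwards [hM.mem_nhds hy] with z hz
    unfold Cut_h
    rw [if_pos hz]
  · have hyK : y ∉ K := fun hk => hy (hKM hk)
    refine (continuousAt_const (y := (0 : ℝ))).congr ?_
    filter_upwards [hKc.isClosed.isOpen_compl.mem_nhds hyK] with z hz
    exact (Cut_h_zero hR hj hK hz).symm

private theorem Cut_deriv {f : (Fin n → ℂ) → ℝ} {x v : (Fin n → ℂ)} {C τ : ℝ} (hf : DifferentiableAt ℝ f x)
    (hC : 0 ≤ C) (hτ : 0 < τ) (hl : ∀ t : ℝ, |t| < τ → |f (x + t • v) - f x| ≤ C * |t|) :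
    |fderiv ℝ f x v| ≤ C := by
  have h2 : HasDerivAt (fun t : ℝ => x + t • v) v 0 := by
    simpa using ((hasDerivAt_id (0 : ℝ)).smul_const v).const_add x
  have h3 : HasFDerivAt f (fderiv ℝ f x) (x + (0 : ℝ) • v) := by
    simpa using hf.hasFDerivAt
  have h1 : HasDerivAt (fun t : ℝ => f (x + t • v)) (fderiv ℝ f x v) 0 :=
    h3.comp_hasDerivAt (0 : ℝ) h2
  rw [← Real.norm_eq_abs]
  refine h1.le_of_lip' hC ?_
  filter_upwards [Metric.ball_mem_nhds (0 : ℝ) hτ] with t ht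
  have ht' : |t| < τ := by simpa using ht
  simpa using hl t ht'

private theorem Cut_int_le {φ F : (Fin n → ℂ) → ℝ} {B : ℝ} (h0 : ∀ u, 0 ≤ φ u) (h1 : ∫ u, φ u = 1)
    (hφ : Integrable φ) (hF : ∀ u, φ u ≠ 0 → |F u| ≤ B) : |∫ u, φ u * F u| ≤ B := by
  have hb : ∀ u, ‖φ u * F u‖ ≤ φ u * B := by
    intro u
    rw [norm_mul, Real.norm_of_nonneg (h0 u), Real.norm_eq_abs]
    by_cases hu : φ u = 0
    · rw [hu, zero_mul, zero_mul]
    · exact mul_le_mul_of_nonneg_left (hF u hu) (h0 u)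
  have := norm_integral_le_of_norm_le (hφ.mul_const B) (Eventually.of_forall hb)
  rwa [integral_mul_const, h1, one_mul, Real.norm_eq_abs] at this

private theorem Cut_haar : (volume : Measure (Fin n → ℂ)).IsAddHaarMeasure := by
  infer_instance

private theorem Cut_moll {x₀ : (Fin n → ℂ)} {R ε : ℝ} {K : Set (Fin n → ℂ)} (hM : IsOpen M)
    (h : IsKahler M g) (hR : 0 < R) (hε : 0 < ε) (hj : ∀ y ∈ M, ∃ L, Joined M g x₀ y L)
    (hKc : IsCompact K) (hKM : K ⊆ M) (hK : ∀ y L, Joined M g x₀ y L → L ≤ 2 * R → y ∈ K) :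
    ∃ η : (Fin n → ℂ) → ℝ, ContDiff ℝ ∞ η ∧ HasCompactSupport η ∧ tsupport η ⊆ M ∧ (∀ x, 0 ≤ η x) ∧
      (∀ x, η x ≤ 1) ∧ (∀ x, (∀ y, dist y x < ε → y ∈ M ∧ Cut_r M g x₀ y ≤ R) → η x = 1) ∧
      ∀ x ∈ M, ∀ v, |fderiv ℝ η x v| ≤ 2 / R * Real.sqrt (hq (g x) v) := by
  haveI := Cut_haar (n := n)
  obtain ⟨ε₁, hε₁, hsub⟩ := hKc.exists_cthickening_subset_open hM hKM
  have hK1c : IsCompact (Metric.cthickening ε₁ K) := hKc.cthickening
  obtain ⟨δ₀, hδ₀, hcmp⟩ := Cut_cmp hM h hK1c hsub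
  obtain ⟨δ, hδ, hδε, hδε₁, hδδ₀⟩ : ∃ δ : ℝ, 0 < δ ∧ δ ≤ ε ∧ δ ≤ ε₁ ∧ δ ≤ δ₀ / 2 :=
    ⟨min (min ε ε₁) (δ₀ / 2), by positivity, (min_le_left _ _).trans (min_le_left _ _),
      (min_le_left _ _).trans (min_le_right _ _), min_le_right _ _⟩
  let φ : ContDiffBump (0 : (Fin n → ℂ)) := ⟨δ / 2, δ, half_pos hδ, half_lt_self hδ⟩
  have hcont := Cut_h_cont hM h hR hj hKc hKM hK
  set hh := Cut_h M g x₀ R with hhdef
  set φn : (Fin n → ℂ) → ℝ := φ.normed volume with hφn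
  have hφ0 : ∀ u, 0 ≤ φn u := fun u => φ.nonneg_normed u
  have hφ1 : ∫ u, φn u = 1 := φ.integral_normed
  have hφi : Integrable φn := φ.integrable_normed
  have hφs : ∀ u, φn u ≠ 0 → ‖u‖ < δ := by
    intro u hu
    have : u ∈ Function.support φn := hu
    rw [hφn, φ.support_normed_eq] at this
    simpa using this
  have hφc : HasCompactSupport φn := φ.hasCompactSupport_normed
  set η : (Fin n → ℂ) → ℝ := convolution φn hh (ContinuousLinearMap.lsmul ℝ ℝ) volume with hη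
  have hηx : ∀ x, η x = ∫ u, φn u * hh (x - u) := fun x => rfl
  have hint : ∀ x, Integrable fun u => φn u * hh (x - u) := fun x =>
    (hφc.convolutionExists_left_of_continuous_right (ContinuousLinearMap.lsmul ℝ ℝ)
      φ.continuous_normed.locallyIntegrable hcont) x
  have hsm : ContDiff ℝ ∞ η :=
    hφc.contDiff_convolution_left (ContinuousLinearMap.lsmul ℝ ℝ) φ.contDiff_normed
      hcont.locallyIntegrable
  have hts : tsupport η ⊆ Metric.cthickening ε₁ K := by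
    refine closure_minimal ?_ Metric.isClosed_cthickening
    refine (support_convolution_subset (ContinuousLinearMap.lsmul ℝ ℝ)).trans ?_
    rintro _ ⟨u, hu, y, hy, rfl⟩
    have hyK : y ∈ K := by
      by_contra hyK
      exact hy (Cut_h_zero hR hj hK hyK)
    have hd : dist (u + y) y ≤ ε₁ := by
      rw [dist_eq_norm, add_sub_cancel_right]
      exact (hφs u hu).le.trans hδε₁
    exact Metric.mem_cthickening_of_dist_le _ _ _ _ hyK hd
  refine ⟨η, hsm, hK1c.of_isClosed_subset isClosed_closure hts, hts.trans hsub, ?_, ?_, ?_, ?_⟩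
  · intro x
    rw [hηx]
    exact integral_nonneg fun u => mul_nonneg (hφ0 u) (Cut_h_nonneg _ _ _)
  · intro x
    rw [hηx]
    refine (le_abs_self _).trans (Cut_int_le hφ0 hφ1 hφi fun u _ => ?_)
    rw [abs_of_nonneg (Cut_h_nonneg _ _ _)]
    exact Cut_h_le_one _ _ _
  · intro x hx
    have e : ∀ y ∈ Metric.ball x δ, hh y = hh x := by
      intro y hy
      have h1 := hx y ((Metric.mem_ball.1 hy).trans_le hδε)
      have h2 := hx x (by rwa [dist_self])
      rw [hhdef, Cut_h_one hR h1.1 h1.2, Cut_h_one hR h2.1 h2.2]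
    have h2 := hx x (by rwa [dist_self])
    have := φ.normed_convolution_eq_right (μ := volume) (g := hh) (x₀ := x) e
    rw [hη, hφn, this, hhdef, Cut_h_one hR h2.1 h2.2]
  · intro x hx v
    by_cases hxt : x ∈ tsupport η
    · have hx1 := hts hxt
      have hc := hcmp x hx1
      have hs0 : 0 ≤ Real.sqrt (hq (g x) v) := Real.sqrt_nonneg _
      have hn : 0 < ‖v‖ + 1 := by positivity
      refine Cut_deriv (τ := δ₀ / 2 / (‖v‖ + 1)) (hsm.differentiable (by simp) x) (by positivity)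
        (by positivity) fun t ht => ?_
      have htv : ‖t • v‖ < δ₀ / 2 := by
        rw [norm_smul, Real.norm_eq_abs]
        have h1 : |t| * (‖v‖ + 1) < δ₀ / 2 := (lt_div_iff₀ hn).1 ht
        have h2 : |t| * ‖v‖ ≤ |t| * (‖v‖ + 1) :=
          mul_le_mul_of_nonneg_left (by linarith) (abs_nonneg t)
        linarith
      rw [hηx, hηx, ← integral_sub (hint _) (hint _)]
      have e : (fun u => φn u * hh (x + t • v - u) - φn u * hh (x - u)) =
          fun u => φn u * (hh (x + t • v - u) - hh (x - u)) := by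
        funext u
        ring
      rw [e]
      refine Cut_int_le hφ0 hφ1 hφi fun u hu => ?_
      have hu' := hφs u hu
      have hd1 : dist (x - u) x < δ₀ := by
        rw [dist_eq_norm, sub_sub_cancel_left, norm_neg]
        linarith
      have hd2 : dist (x + t • v - u) x < δ₀ := by
        rw [dist_eq_norm, show x + t • v - u - x = t • v - u by abel]
        have := norm_sub_le (t • v) u
        linarith
      have hl := Cut_h_lip (g := g) (x₀ := x₀) hR (hc _ hd1).1 (hc _ hd2).1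
      have hr := Cut_r_lip (x₀ := x₀) h hx hj hc hd1 hd2
      have e2 : x + t • v - u - (x - u) = t • v := by abel
      rw [e2, Cut_hq_smul, Real.sqrt_mul (sq_nonneg t), Real.sqrt_sq_eq_abs] at hr
      refine hl.trans ((div_le_div_of_nonneg_right hr hR.le).trans (le_of_eq ?_))
      ring
    · rw [fderiv_of_notMem_tsupport (𝕜 := ℝ) hxt]
      simp only [ContinuousLinearMap.zero_apply, abs_zero]
      positivity

end aux

/-- Same proof as `KQ.exists_cutoffs` (Cut.lean of `Lib_MP_3ea2ac_kq`). -/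
theorem exists_cutoffs {M : Set (Fin n → ℂ)} {g : (Fin n → ℂ) → Matrix (Fin n) (Fin n) ℂ}
    (hM : IsOpen M) (hc : IsConnected M) (h : IsKahler M g) (hcomp : IsComplete M g) :
    ∃ η, Cutoffs M g η := by
  obtain ⟨x₀, hx₀⟩ := hc.nonempty
  have hj := Cut_joined (g := g) hM hc hx₀
  have hex : ∀ k : ℕ, ∃ η : (Fin n → ℂ) → ℝ, ContDiff ℝ ∞ η ∧ HasCompactSupport η ∧ tsupport η ⊆ M ∧
      (∀ x, 0 ≤ η x) ∧ (∀ x, η x ≤ 1) ∧
      (∀ x, (∀ y, dist y x < 1 / ((k : ℝ) + 1) → y ∈ M ∧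
        Cut_r M g x₀ y ≤ 2 * ((k : ℝ) + 1)) → η x = 1) ∧
      ∀ x ∈ M, ∀ v, |fderiv ℝ η x v| ≤ 2 / (2 * ((k : ℝ) + 1)) * Real.sqrt (hq (g x) v) := by
    intro k
    obtain ⟨K, hKc, hKM, hK⟩ := hcomp x₀ hx₀ (2 * (2 * ((k : ℝ) + 1)))
    exact Cut_moll hM h (by positivity) (by positivity) hj hKc hKM hK
  choose η h1 h2 h3 h4 h5 h6 h7 using hex
  refine ⟨η, h1, h2, h3, h4, h5, ?_, ?_⟩
  · intro K hKc hKM
    obtain ⟨ε, hε, hsub⟩ := hKc.exists_cthickening_subset_open hM hKM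
    have hK1c : IsCompact (Metric.cthickening ε K) := hKc.cthickening
    obtain ⟨B, hB⟩ := hK1c.bddAbove_image
      (f := Cut_r M g x₀) fun x hx => (Cut_r_cont hM h hj (hsub hx)).continuousWithinAt
    have t1 : ∀ᶠ k : ℕ in atTop, 1 / ((k : ℝ) + 1) < ε :=
      (tendsto_one_div_add_atTop_nhds_zero_nat (𝕜 := ℝ)).eventually (gt_mem_nhds hε)
    have t2 : ∀ᶠ k : ℕ in atTop, B ≤ (k : ℝ) :=
      (tendsto_natCast_atTop_atTop (R := ℝ)).eventually (eventually_ge_atTop B)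
    filter_upwards [t1, t2] with k hk1 hk2 x hx
    refine h6 k x fun y hy => ?_
    have hy1 : y ∈ Metric.cthickening ε K :=
      Metric.mem_cthickening_of_dist_le _ _ _ _ hx (hy.trans hk1).le
    refine ⟨hsub hy1, ?_⟩
    have := hB (mem_image_of_mem _ hy1)
    have hk0 : (0 : ℝ) ≤ k := Nat.cast_nonneg k
    linarith
  · intro k x hx v
    have h8 := h7 k x hx v
    have hk : (0 : ℝ) < (k : ℝ) + 1 := by positivity
    have e : 2 / (2 * ((k : ℝ) + 1)) * Real.sqrt (hq (g x) v) =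
        Real.sqrt (hq (g x) v) / ((k : ℝ) + 1) := by
      field_simp
    rw [e] at h8
    have h9 := pow_le_pow_left₀ (abs_nonneg _) h8 2
    rw [sq_abs, div_pow, Real.sq_sqrt (Cut_hq_nonneg h hx v)] at h9
    exact h9

end KN
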