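import Pool.Agent.Lib_MP_3ea2ac_kn.Slice
import Pool.Agent.Lib_MP_3ea2ac_kq.LogP

/-! The null lemma in `ℂⁿ`. -/

open MeasureTheory Complex Set Topology Filter
open scoped ComplexConjugate ContDiff ComplexOrder ENNReal

namespace KN

private theorem DNN_lintegral {n : ℕ} (i : Fin (n + 1)) {f : (Fin (n + 1) → ℂ) → ℝ≥0∞}
    (hf : Measurable f) : ∫⁻ x, f x = ∫⁻ u : ℂ, ∫⁻ x : Fin n → ℂ, f (ins i u x) := by
  rw [← (mp_ins i).lintegral_comp hf]
  have h : (volume : Measure (ℂ × (Fin n → ℂ))) = volume.prod volume := rfl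
  have hm : AEMeasurable (fun p : ℂ × (Fin n → ℂ) => f (ins i p.1 p.2))
      ((volume : Measure ℂ).prod volume) :=
    (hf.comp (continuous_ins i).measurable).aemeasurable
  rw [h, lintegral_prod _ hm]

private theorem DNN_lintegral' {n : ℕ} (i : Fin (n + 1)) {f : (Fin (n + 1) → ℂ) → ℝ≥0∞}
    (hf : Measurable f) : ∫⁻ x, f x = ∫⁻ x : Fin n → ℂ, ∫⁻ u : ℂ, f (ins i u x) := by
  rw [← (mp_ins i).lintegral_comp hf]
  have h : (volume : Measure (ℂ × (Fin n → ℂ))) = volume.prod volume := rfl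
  have hm : AEMeasurable (fun p : ℂ × (Fin n → ℂ) => f (ins i p.1 p.2))
      ((volume : Measure ℂ).prod volume) :=
    (hf.comp (continuous_ins i).measurable).aemeasurable
  rw [h, lintegral_prod_symm _ hm]

private theorem DNN_comm {n : ℕ} (j : Fin (n + 1)) (u w : ℂ) (x : Fin n → ℂ) :
    ins j.succ w (ins 0 u x) = ins 0 u (ins j w x) := by
  funext k
  refine Fin.cases ?_ (fun k => ?_) k
  · rw [ins_same]
    have h : (0 : Fin (n + 2)) = j.succ.succAbove 0 := (Fin.succ_succAbove_zero j).symm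
    conv_lhs => rw [h]
    rw [ins_succAbove, ins_same]
  · have h0 : k.succ = (0 : Fin (n + 2)).succAbove k := (Fin.succAbove_zero_apply k).symm
    conv_rhs => rw [h0]
    rw [ins_succAbove]
    rcases Fin.eq_self_or_eq_succAbove j k with h | ⟨l, h⟩
    · rw [h, ins_same, ins_same]
    · rw [h, ins_succAbove]
      have h1 : (j.succAbove l).succ = j.succ.succAbove l.succ := (Fin.succ_succAbove_succ j l).symm
      rw [h1, ins_succAbove]
      have h2 : l.succ = (0 : Fin (n + 1)).succAbove l := (Fin.succAbove_zero_apply l).symm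
      rw [h2, ins_succAbove]

private theorem DNN_ball_del {n : ℕ} {x₀ : Fin (n + 1) → ℂ} {r : ℝ} (i : Fin (n + 1)) {w : ℂ}
    {x : Fin n → ℂ} : ins i w x ∈ Metric.ball x₀ r ↔
      w ∈ Metric.ball (x₀ i) r ∧ x ∈ Metric.ball (del i x₀) r := by
  have h : dist (ins i w x) x₀ = max (dist w (x₀ i)) (dist x (del i x₀)) := by
    conv_lhs => rw [← ins_del i x₀]
    exact dist_ins i _ _ _ _
  rw [Metric.mem_ball, Metric.mem_ball, Metric.mem_ball, h, max_lt_iff]

/-- Almost everywhere iterated mean value inequality. Induction on `n`: for almost every `u` the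
function `f (ins 0 u ·)` satisfies the hypotheses in `n` variables, so
`f (ins 0 u x) ≤ K^n φ(u)`, `φ(u) = ∫ f (ins 0 u ·)`, for almost all `x` in the small ball and almost
all `u`; then use the hypothesis for `i = 0`. -/
theorem ae_mean (n : ℕ) {K : ℝ≥0∞} {x₀ : Fin (n + 1) → ℂ} {r : ℝ}
    {f : (Fin (n + 1) → ℂ) → ℝ≥0∞} (hf : Measurable f)
    (h : ∀ i, ∀ᵐ x : Fin n → ℂ, ∀ w ∈ Metric.ball (x₀ i) r,
      f (ins i w x) ≤ K * ∫⁻ u, f (ins i u x)) :
    ∀ᵐ x, x ∈ Metric.ball x₀ r → f x ≤ K ^ (n + 1) * ∫⁻ y, f y := by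
  induction n with
  | zero =>
    obtain ⟨x, hx⟩ := (h 0).exists
    have h1 : ∫⁻ y, f y = ∫⁻ u, f (ins 0 u x) := by
      rw [DNN_lintegral 0 hf]
      refine lintegral_congr fun u => ?_
      rw [lintegral_unique]
      have h2 : (volume : Measure (Fin 0 → ℂ)) univ = 1 := by simp [volume_pi]
      rw [h2, mul_one]
      exact congrArg (fun z => f (ins 0 u z)) (Subsingleton.elim _ _)
    refine Eventually.of_forall fun y hy => ?_
    have h2 : y = ins 0 (y 0) x := by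
      conv_lhs => rw [← ins_del 0 y]
      rw [Subsingleton.elim (del 0 y) x]
    have h3 := hx (y 0) (by
      rw [h2, DNN_ball_del] at hy
      exact hy.1)
    rw [← h2] at h3
    have h4 : K ^ (0 + 1) = K := by simp
    rw [h4, h1]
    exact h3
  | succ n ih =>
    have hins : Measurable fun p : ℂ × (Fin (n + 1) → ℂ) => ins (0 : Fin (n + 2)) p.1 p.2 :=
      (continuous_ins 0).measurable
    have hfi : Measurable fun p : ℂ × (Fin (n + 1) → ℂ) => f (ins 0 p.1 p.2) := hf.comp hins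
    -- the restriction to the hyperplanes
    have step1 : ∀ᵐ u : ℂ, ∀ᵐ x : Fin (n + 1) → ℂ, x ∈ Metric.ball (del 0 x₀) r →
        f (ins 0 u x) ≤ K ^ (n + 1) * ∫⁻ y, f (ins 0 u y) := by
      have h1 : ∀ j : Fin (n + 1), ∀ᵐ u : ℂ, ∀ᵐ x : Fin n → ℂ,
          ∀ w ∈ Metric.ball (x₀ j.succ) r, f (ins 0 u (ins j w x)) ≤
            K * ∫⁻ v, f (ins 0 u (ins j v x)) := by
        intro j
        have h2 := ae_hyper 0 (h j.succ)
        filter_upwards [h2] with u hu
        filter_upwards [hu] with x hx w hw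
        have h3 := hx w hw
        simp only [DNN_comm] at h3
        exact h3
      have h2 : ∀ᵐ u : ℂ, ∀ j : Fin (n + 1), ∀ᵐ x : Fin n → ℂ,
          ∀ w ∈ Metric.ball (x₀ j.succ) r, f (ins 0 u (ins j w x)) ≤
            K * ∫⁻ v, f (ins 0 u (ins j v x)) := ae_all_iff.mpr h1
      filter_upwards [h2] with u hu
      refine ih (x₀ := del 0 x₀) (f := fun x => f (ins 0 u x))
        (hfi.comp (measurable_const.prodMk measurable_id)) fun j => ?_
      have h3 : del 0 x₀ j = x₀ j.succ := by simp [del]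
      rw [h3]
      exact hu j
    have hφ : Measurable fun u : ℂ => ∫⁻ y : Fin (n + 1) → ℂ, f (ins 0 u y) :=
      hfi.lintegral_prod_right'
    have step2 : ∀ᵐ x : Fin (n + 1) → ℂ, ∀ᵐ u : ℂ, x ∈ Metric.ball (del 0 x₀) r →
        f (ins 0 u x) ≤ K ^ (n + 1) * ∫⁻ y, f (ins 0 u y) := by
      refine (Measure.ae_ae_comm (μ := (volume : Measure ℂ))
        (ν := (volume : Measure (Fin (n + 1) → ℂ)))
        (p := fun u x => x ∈ Metric.ball (del 0 x₀) r →
          f (ins 0 u x) ≤ K ^ (n + 1) * ∫⁻ y, f (ins 0 u y)) ?_).mp step1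
      have h1 : MeasurableSet {p : ℂ × (Fin (n + 1) → ℂ) | p.2 ∈ Metric.ball (del 0 x₀) r} :=
        measurable_snd Metric.isOpen_ball.measurableSet
      have h2 : MeasurableSet {p : ℂ × (Fin (n + 1) → ℂ) | f (ins 0 p.1 p.2) ≤
          K ^ (n + 1) * ∫⁻ y, f (ins 0 p.1 y)} :=
        measurableSet_le hfi ((hφ.comp measurable_fst).const_mul _)
      exact h1.imp h2
    refine ae_of_ae_line 0 (s := {x | x ∈ Metric.ball x₀ r → f x ≤ K ^ (n + 1 + 1) * ∫⁻ y, f y})
      ?_ ?_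
    · have h1 : MeasurableSet {x : Fin (n + 1 + 1) → ℂ | x ∈ Metric.ball x₀ r} :=
        Metric.isOpen_ball.measurableSet
      have h2 : MeasurableSet {x : Fin (n + 1 + 1) → ℂ | f x ≤ K ^ (n + 1 + 1) * ∫⁻ y, f y} :=
        measurableSet_le hf measurable_const
      exact h1.imp h2
    · filter_upwards [step2, h 0] with x hx hx0
      refine Eventually.of_forall fun w hw => ?_
      rw [DNN_ball_del] at hw
      refine (hx0 w hw.1).trans ?_
      rw [pow_succ', mul_assoc, DNN_lintegral 0 hf]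
      gcongr
      rw [← lintegral_const_mul _ hφ]
      refine lintegral_mono_ae ?_
      filter_upwards [hx] with u hu
      exact hu hw.2

variable {n : ℕ} {M : Set (Fin (n + 1) → ℂ)} {D : (Fin (n + 1) → ℂ) → ℝ}
  {G : Fin (n + 1) → (Fin (n + 1) → ℂ) → ℝ} {a τ : ℝ} {t : Fin (n + 1) → ℂ → ℝ}
  {α β : Fin (n + 1) → ℂ} {η : ℕ → (Fin (n + 1) → ℂ) → ℝ}

/-- No segment in `M` with an end point outside `M` along which all `G i` are bounded. See
`KQ.PlaneData.no_escape`. -/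
theorem NData.no_escape (P : NData M D G a τ t α β η) {x y : Fin (n + 1) → ℂ}
    (hx : x ∈ M) (hy : y ∉ M) {C : ℝ}
    (hseg : ∀ s : ℝ, 0 ≤ s → s < 1 → x + s • (y - x) ∈ M → ∀ i, G i (x + s • (y - x)) ≤ C) :
    False := by
  set p : ℝ → Fin (n + 1) → ℂ := fun t => x + t • (y - x) with hp
  have hpc : Continuous p := by rw [hp]; fun_prop
  set Z : Set ℝ := {t | 0 ≤ t ∧ p t ∉ M} with hZ
  have hZc : IsClosed Z := by
    have h1 : Z = Ici 0 ∩ (p ⁻¹' M)ᶜ := by ext t; simp [hZ]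
    rw [h1]
    exact isClosed_Ici.inter (P.isOpen.preimage hpc).isClosed_compl
  have hp1 : p 1 = y := by simp [hp]
  have hp0 : p 0 = x := by simp [hp]
  have h1Z : (1 : ℝ) ∈ Z := ⟨zero_le_one, by rw [hp1]; exact hy⟩
  have hZb : BddBelow Z := ⟨0, fun t ht => ht.1⟩
  set t₀ : ℝ := sInf Z with ht₀
  have htZ : t₀ ∈ Z := hZc.csInf_mem ⟨1, h1Z⟩ hZb
  have ht1 : t₀ ≤ 1 := csInf_le hZb h1Z
  have ht0 : 0 < t₀ := by
    rcases htZ.1.lt_or_eq with h | h
    · exact h
    · exact absurd hx (by rw [← hp0, h]; exact htZ.2)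
  have hin : ∀ t, 0 ≤ t → t < t₀ → p t ∈ M := by
    intro t h0 h1
    by_contra h2
    exact absurd (csInf_le hZb (show t ∈ Z from ⟨h0, h2⟩)) (not_le.2 h1)
  -- the gradient in an arbitrary direction
  have hgrad : ∀ (k : ℕ) (q : Fin (n + 1) → ℂ), q ∈ M → (∀ i, G i q ≤ C) →
      ∀ v : Fin (n + 1) → ℂ, (fderiv ℝ (η k) q v) ^ 2 ≤
        (((n : ℝ) + 1) * ∑ i, C * ‖v i‖ ^ 2) / ((k : ℝ) + 1) ^ 2 := by
    intro k q hq hG v
    have h3 : fderiv ℝ (η k) q v = ∑ i, fderiv ℝ (η k) q (Pi.single i (v i)) := by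
      rw [← map_sum]
      congr 1
      exact (Finset.univ_sum_single v).symm
    have h4 := sq_sum_le_card_mul_sum_sq (s := (Finset.univ : Finset (Fin (n + 1))))
      (f := fun i => fderiv ℝ (η k) q (Pi.single i (v i)))
    have h5 : ((Finset.univ : Finset (Fin (n + 1))).card : ℝ) = (n : ℝ) + 1 := by simp
    rw [h5] at h4
    rw [h3]
    refine h4.trans ?_
    rw [mul_div_assoc, Finset.sum_div]
    refine mul_le_mul_of_nonneg_left ?_ (by positivity)
    refine Finset.sum_le_sum fun i _ => ?_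
    refine (P.ηgrad i k q hq (v i)).trans ?_
    have := hG i
    gcongr
  have hC : 0 ≤ C := by
    have h1 := hseg 0 le_rfl zero_lt_one (by simpa using hx) 0
    simp only [zero_smul, add_zero] at h1
    exact (P.Gnonneg 0 x hx).trans h1
  set C' : ℝ := ((n : ℝ) + 1) * ∑ i, C * ‖(y - x) i‖ ^ 2 with hC'
  -- the derivative of the cutoffs along the segment
  have hder : ∀ k : ℕ, ∀ t, 0 < t → t < t₀ →
      HasDerivAt (fun s => η k (p s)) (fderiv ℝ (η k) (p t) (y - x)) t := by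
    intro k t _ _
    have h1 : HasDerivAt p (y - x) t := by
      have := ((hasDerivAt_id t).smul_const (y - x)).const_add x
      rw [one_smul] at this
      exact this
    exact (((P.ηsmooth k).differentiable (by simp) (p t)).hasFDerivAt).comp_hasDerivAt t h1
  have hbound : ∀ k : ℕ, (η k x - η k (p t₀)) ^ 2 ≤ C' / ((k : ℝ) + 1) ^ 2 := by
    intro k
    obtain ⟨c, hc, hc'⟩ := exists_hasDerivAt_eq_slope (fun s => η k (p s))
      (fun t => fderiv ℝ (η k) (p t) (y - x)) ht0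
      (((P.ηsmooth k).continuous.comp hpc).continuousOn)
      (fun t ht => hder k t ht.1 ht.2)
    have h2 := hseg c hc.1.le (hc.2.trans_le ht1) (hin c hc.1.le hc.2)
    have h1 := hgrad k (p c) (hin c hc.1.le hc.2) h2 (y - x)
    have h3 : (η k (p t₀) - η k (p 0)) = (fderiv ℝ (η k) (p c) (y - x)) * t₀ := by
      rw [hc', sub_zero]
      field_simp
    have h4 : (η k x - η k (p t₀)) ^ 2 = (fderiv ℝ (η k) (p c) (y - x)) ^ 2 * t₀ ^ 2 := by
      rw [hp0] at h3
      rw [← mul_pow, ← h3]; ring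
    have h5 : t₀ ^ 2 ≤ 1 := by
      have : t₀ ^ 2 ≤ 1 ^ 2 := by gcongr
      simpa using this
    rw [h4]
    calc (fderiv ℝ (η k) (p c) (y - x)) ^ 2 * t₀ ^ 2
        ≤ (fderiv ℝ (η k) (p c) (y - x)) ^ 2 * 1 := by gcongr
      _ ≤ C' / ((k : ℝ) + 1) ^ 2 := by
        rw [mul_one]; exact h1
  have hlim : Tendsto (fun k : ℕ => C' / ((k : ℝ) + 1) ^ 2) atTop (𝓝 0) := by
    have h1 : Tendsto (fun k : ℕ => 1 / ((k : ℝ) + 1)) atTop (𝓝 0) :=
      tendsto_one_div_add_atTop_nhds_zero_nat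
    have h2 := (h1.pow 2).const_mul C'
    simp only [ne_eq, OfNat.ofNat_ne_zero, not_false_eq_true, zero_pow, mul_zero] at h2
    refine h2.congr fun k => ?_
    rw [div_pow, one_pow]; ring
  have hone : ∀ᶠ k : ℕ in atTop, (1 : ℝ) ≤ C' / ((k : ℝ) + 1) ^ 2 := by
    filter_upwards [P.ηone {x} isCompact_singleton (by simpa using hx)] with k hk
    have h1 := hbound k
    have h2 : η k (p t₀) = 0 :=
      image_eq_zero_of_notMem_tsupport fun h => htZ.2 (P.ηsub k h)
    rw [hk x rfl, h2] at h1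
    simpa using h1
  have := ge_of_tendsto hlim hone
  linarith

/-- The exponential of a function with nonnegative Levi form. -/
private theorem DNN_lev_exp {S : Set ℂ} (hS : IsOpen S) {v : ℂ → ℝ} (hv : ContDiffOn ℝ ∞ v S)
    {w : ℂ} (hw : w ∈ S) (h : 0 ≤ KQ.lev v w) : 0 ≤ KQ.lev (fun x => Real.exp (v x)) w := by
  have hvd : ∀ x ∈ S, DifferentiableAt ℝ v x := fun x hx =>
    (hv.contDiffAt (hS.mem_nhds hx)).differentiableAt (by simp)
  have hvC : ContDiffOn ℝ ∞ (fun y => ((v y : ℝ) : ℂ)) S := ofRealCLM.contDiff.comp_contDiffOn hv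
  have h1 : KQ.dwb (fun x => ((Real.exp (v x) : ℝ) : ℂ)) =ᶠ[𝓝 w]
      fun x => ((Real.exp (v x) : ℝ) : ℂ) * KQ.dwb (fun y => ((v y : ℝ) : ℂ)) x := by
    filter_upwards [hS.mem_nhds hw] with x hx
    exact KQ.wdb_ofReal_comp (hvd x hx) (Real.hasDerivAt_exp (v x))
  have h2 : DifferentiableAt ℝ (KQ.dwb (fun y => ((v y : ℝ) : ℂ))) w :=
    ((KQ.contDiffOn_wdb hS hvC).contDiffAt (hS.mem_nhds hw)).differentiableAt (by simp)
  have h3 : DifferentiableAt ℝ (fun x => ((Real.exp (v x) : ℝ) : ℂ)) w :=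
    ofRealCLM.differentiableAt.comp w ((hvd w hw).exp)
  have h4 : KQ.dwb (fun y => ((v y : ℝ) : ℂ)) w = conj (KQ.dw (fun y => ((v y : ℝ) : ℂ)) w) := by
    have := KQ.wdb_conj (e := (1 : ℂ)) (e' := I) (f := fun y : ℂ => ((v y : ℝ) : ℂ)) (x := w)
    simpa using this
  have h5 : KQ.dw (KQ.dwb (fun x => ((Real.exp (v x) : ℝ) : ℂ))) w =
      ((Real.exp (v w) : ℝ) : ℂ) * (KQ.dw (fun y => ((v y : ℝ) : ℂ)) w *
        conj (KQ.dw (fun y => ((v y : ℝ) : ℂ)) w)) +
      ((Real.exp (v w) : ℝ) : ℂ) * KQ.dw (KQ.dwb (fun y => ((v y : ℝ) : ℂ))) w := by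
    rw [KQ.dw, KQ.wd_congr h1, KQ.wd_mul h3 h2, h4,
      KQ.wd_ofReal_comp (hvd w hw) (Real.hasDerivAt_exp (v w))]
    ring
  rw [KQ.lev, h5, add_re, Complex.re_ofReal_mul, Complex.re_ofReal_mul, Complex.mul_conj,
    Complex.ofReal_re]
  have h6 : 0 ≤ (KQ.dw (KQ.dwb (fun y => ((v y : ℝ) : ℂ))) w).re := h
  have h7 := Complex.normSq_nonneg (KQ.dw (fun y => ((v y : ℝ) : ℂ)) w)
  have h8 := Real.exp_pos (v w)
  positivity

private theorem DNN_contDiffOn_slice {F : (Fin (n + 1) → ℂ) → ℝ} (hF : ContDiffOn ℝ ∞ F M)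
    (i : Fin (n + 1)) (x : Fin n → ℂ) :
    ContDiffOn ℝ ∞ (fun w => F (ins i w x)) (ML M i x) :=
  hF.comp ((contDiff_ins i).comp (contDiff_id.prodMk contDiff_const)).contDiffOn fun _ hw => hw

/-- The density is subharmonic on the lines. -/
private theorem DNN_lev (P : NData M D G a τ t α β η) (i : Fin (n + 1)) {w : ℂ} {x : Fin n → ℂ}
    (h : ins i w x ∈ M) : 0 ≤ KQ.lev (fun w' => D (ins i w' x)) w := by
  have hS := isOpen_ML P.isOpen i x
  have hlog : ContDiffOn ℝ ∞ (fun x => Real.log (D x)) M :=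
    P.Dsmooth.log fun x hx => (P.Dpos x hx).ne'
  have hv : ContDiffOn ℝ ∞ (fun w' => Real.log (D (ins i w' x))) (ML M i x) :=
    DNN_contDiffOn_slice hlog i x
  have h1 : 0 ≤ KQ.lev (fun w' => Real.log (D (ins i w' x))) w := by
    have h2 := (P.T i _ h).1
    rw [← lev_line P.isOpen P.Dsmooth P.Dpos i h, Complex.ofReal_re] at h2
    exact h2
  have h5 := DNN_lev_exp hS hv (show w ∈ ML M i x from h) h1
  have h6 : ∀ᶠ w' in 𝓝 w, ((Real.exp (Real.log (D (ins i w' x))) : ℝ) : ℂ) =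
      ((D (ins i w' x) : ℝ) : ℂ) := by
    filter_upwards [hS.mem_nhds h] with w' hw'
    rw [Real.exp_log (P.Dpos _ hw')]
  have h7 : KQ.dwb (fun w' => ((Real.exp (Real.log (D (ins i w' x))) : ℝ) : ℂ)) =ᶠ[𝓝 w]
      KQ.dwb (fun w' => ((D (ins i w' x) : ℝ) : ℂ)) := by
    filter_upwards [h6.eventually_nhds] with w' hw'
    exact KQ.wdb_congr hw'
  have h8 : KQ.lev (fun w' => Real.exp (Real.log (D (ins i w' x)))) w
      = KQ.lev (fun w' => D (ins i w' x)) w := by
    rw [KQ.lev, KQ.lev, KQ.dw, KQ.wd_congr h7]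
  rw [← h8]
  exact h5

/-- Mean value inequality on a line, for the Lebesgue integral of the extended density. -/
private theorem DNN_mean {C₀ : ℝ} (hC₀0 : 0 < C₀)
    (hC₀ : ∀ (S : Set ℂ), IsOpen S → ∀ h : ℂ → ℝ, ContDiffOn ℝ ∞ h S →
    (∀ w ∈ S, 0 ≤ h w) → (∀ w ∈ S, 0 ≤ KQ.lev h w) → ∀ w r, 0 < r → Metric.closedBall w r ⊆ S →
    h w ≤ C₀ / r ^ 2 * ∫ y in Metric.closedBall w r, h y)
    (P : NData M D G a τ t α β η) (i : Fin (n + 1)) {w : ℂ} {x : Fin n → ℂ} {s : ℝ} (hs : 0 < s)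
    (hb : ∀ y ∈ Metric.closedBall w s, ins i y x ∈ M) :
    ENNReal.ofReal (D (ins i w x)) ≤ ENNReal.ofReal (C₀ / s ^ 2) *
      ∫⁻ y in Metric.closedBall w s, ENNReal.ofReal (D (ins i y x)) := by
  have h1 := hC₀ (ML M i x) (isOpen_ML P.isOpen i x) (fun y => D (ins i y x))
    (DNN_contDiffOn_slice P.Dsmooth i x) (fun y hy => (P.Dpos _ hy).le)
    (fun y hy => DNN_lev P i hy) w s hs hb
  have h2 : ContinuousOn (fun y => D (ins i y x)) (Metric.closedBall w s) :=
    (DNN_contDiffOn_slice P.Dsmooth i x).continuousOn.mono hb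
  have h3 : IntegrableOn (fun y => D (ins i y x)) (Metric.closedBall w s) :=
    h2.integrableOn_compact (isCompact_closedBall w s)
  have h4 : 0 ≤ᵐ[volume.restrict (Metric.closedBall w s)] fun y => D (ins i y x) := by
    rw [EventuallyLE, ae_restrict_iff' measurableSet_closedBall]
    exact Eventually.of_forall fun y hy => (P.Dpos _ (hb y hy)).le
  rw [← ofReal_integral_eq_lintegral_ofReal h3 h4, ← ENNReal.ofReal_mul (by positivity)]
  exact ENNReal.ofReal_le_ofReal h1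

/-- If almost all lines in all coordinate directions avoid the complement of `M` near `x₀`, then
`x₀ ∈ M`: `D` (extended by zero outside the ball) satisfies `ae_mean` by `KQ.submean` on the lines, so
`D ≤ C` a.e. near `x₀`, so everywhere on `M` near `x₀` (continuity), `G i ≤ C'` (`GleD`,
`x₀ i ≠ α i, β i` because almost all lines in the direction `i` lie in `M` near `x₀`), and
`no_escape` for a segment from a point of `M` near `x₀` to `x₀`. -/
theorem NData.dnull (P : NData M D G a τ t α β η) {x₀ : Fin (n + 1) → ℂ} (hx₀ : x₀ ∉ M) {r : ℝ}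
    (hr : 0 < r)
    (h : ∀ i, ∀ᵐ x : Fin n → ℂ, x ∈ Metric.ball (del i x₀) r →
      ∀ w ∈ Metric.ball (x₀ i) r, ins i w x ∈ M) : False := by
  classical
  obtain ⟨C₀, hC₀0, hC₀⟩ := KQ.submean
  have hs : 0 < r / 4 := by positivity
  have hr2 : 0 < r / 2 := by positivity
  set K : ℝ≥0∞ := ENNReal.ofReal (C₀ / (r / 4) ^ 2) with hK
  set B : Set (Fin (n + 1) → ℂ) := Metric.ball x₀ r ∩ M with hB
  have hBm : MeasurableSet B := Metric.isOpen_ball.measurableSet.inter P.isOpen.measurableSet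
  set f : (Fin (n + 1) → ℂ) → ℝ≥0∞ := B.indicator fun x => ENNReal.ofReal (D x) with hf
  have hfm : Measurable f := by
    have h1 : ContinuousOn (fun x => ENNReal.ofReal (D x)) B :=
      ENNReal.continuous_ofReal.comp_continuousOn
        (P.Dsmooth.continuousOn.mono inter_subset_right)
    have h2 := h1.measurable_piecewise (g := fun _ => (0 : ℝ≥0∞)) continuousOn_const hBm
    have h3 : B.piecewise (fun x => ENNReal.ofReal (D x)) (fun _ => 0) = f := by
      rw [hf]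
      exact piecewise_eq_indicator
    rwa [h3] at h2
  have hline : ∀ i, ∀ᵐ x : Fin n → ℂ, ∀ w ∈ Metric.ball (x₀ i) (r / 2),
      f (ins i w x) ≤ K * ∫⁻ u, f (ins i u x) := by
    intro i
    filter_upwards [h i] with x hx w hw
    by_cases hxb : x ∈ Metric.ball (del i x₀) r
    · have h1 := hx hxb
      have hsub : Metric.closedBall w (r / 4) ⊆ Metric.ball (x₀ i) r := by
        intro y hy
        rw [Metric.mem_ball] at hw ⊢
        rw [Metric.mem_closedBall] at hy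
        have := dist_triangle y w (x₀ i)
        linarith
      have h2 := DNN_mean hC₀0 hC₀ P i (w := w) (x := x) hs fun y hy => h1 y (hsub hy)
      have h3 : ∀ y ∈ Metric.ball (x₀ i) r, f (ins i y x) = ENNReal.ofReal (D (ins i y x)) :=
        fun y hy => indicator_of_mem
          (show ins i y x ∈ B from ⟨DNN_ball_del i |>.2 ⟨hy, hxb⟩, h1 y hy⟩) _
      rw [h3 w (Metric.ball_subset_ball (by linarith) hw)]
      refine h2.trans ?_
      refine mul_le_mul_right ?_ K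
      rw [← setLIntegral_congr_fun (f := fun y => f (ins i y x)) measurableSet_closedBall
        fun y hy => h3 y (hsub hy)]
      exact setLIntegral_le_lintegral _ _
    · have h1 : f (ins i w x) = 0 :=
        indicator_of_notMem (fun h2 => hxb ((DNN_ball_del i).1 h2.1).2) _
      rw [h1]
      exact zero_le
  have hmean := ae_mean n hfm hline
  have hfin : ∫⁻ y, f y ≠ ⊤ := by
    rw [hf, lintegral_indicator hBm]
    have h1 : ∫⁻ x in B, ENNReal.ofReal (D x) ≤ ∫⁻ x in M, ENNReal.ofReal (D x) :=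
      lintegral_mono_set inter_subset_right
    have h2 : ∫⁻ x in M, ENNReal.ofReal (D x) ≤ ∫⁻ x in M, ‖D x‖ₑ :=
      lintegral_mono fun x => Real.ofReal_le_enorm _
    exact ((h1.trans h2).trans_lt P.integrable.2).ne
  have hKfin : K ^ (n + 1) ≠ ⊤ := ENNReal.pow_ne_top ENNReal.ofReal_ne_top
  set C₁ : ℝ := (K ^ (n + 1) * ∫⁻ y, f y).toReal with hC₁
  have hC₁0 : 0 ≤ C₁ := ENNReal.toReal_nonneg
  have hae : ∀ᵐ x : Fin (n + 1) → ℂ, x ∈ Metric.ball x₀ (r / 2) → x ∈ M → D x ≤ C₁ := by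
    filter_upwards [hmean] with x hx hxb hxM
    have h1 := hx hxb
    have h2 : f x = ENNReal.ofReal (D x) :=
      indicator_of_mem (show x ∈ B from ⟨Metric.ball_subset_ball (by linarith) hxb, hxM⟩) _
    rw [h2] at h1
    exact (ENNReal.ofReal_le_iff_le_toReal (ENNReal.mul_ne_top hKfin hfin)).1 h1
  have hall : ∀ x ∈ Metric.ball x₀ (r / 2), x ∈ M → D x ≤ C₁ := by
    intro x hx hxM
    have hcont : Tendsto D (𝓝 x) (𝓝 (D x)) :=
      (P.Dsmooth.continuousOn.continuousAt (P.isOpen.mem_nhds hxM)).tendsto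
    have hfr : ∃ᶠ x' in 𝓝 x, x' ∈ {x : Fin (n + 1) → ℂ |
        x ∈ Metric.ball x₀ (r / 2) → x ∈ M → D x ≤ C₁} :=
      mem_closure_iff_frequently.1 (Measure.dense_of_ae hae x)
    refine le_of_tendsto_of_frequently hcont ?_
    have hev : ∀ᶠ x' in 𝓝 x, x' ∈ Metric.ball x₀ (r / 2) ∧ x' ∈ M :=
      (show ∀ᶠ x' in 𝓝 x, x' ∈ Metric.ball x₀ (r / 2) from Metric.isOpen_ball.mem_nhds hx).and
        (P.isOpen.mem_nhds hxM)
    refine (hfr.and_eventually hev).mono ?_
    rintro x' ⟨h3, h4, h5⟩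
    exact h3 h4 h5
  -- the constants of the Schwarz lemma are bounded near the centre
  have hgoodx : ∀ i, ∀ ρ : ℝ, 0 < ρ → ρ ≤ r → ∃ x : Fin n → ℂ, x ∈ Metric.ball (del i x₀) ρ ∧
      ∀ w ∈ Metric.ball (x₀ i) r, ins i w x ∈ M := by
    intro i ρ hρ hρr
    obtain ⟨x, hx, hx'⟩ := (Measure.dense_of_ae (h i)).exists_mem_open Metric.isOpen_ball
      ⟨del i x₀, Metric.mem_ball_self hρ⟩
    exact ⟨x, hx', hx (Metric.ball_subset_ball hρr hx')⟩
  have hT : ∀ i, ∃ T : ℝ, 0 ≤ T ∧ ∀ w ∈ Metric.ball (x₀ i) (r / 2), t i w ≤ T := by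
    intro i
    obtain ⟨x, -, hx⟩ := hgoodx i r hr le_rfl
    have h1 : Metric.closedBall (x₀ i) (r / 2) ⊆ ({α i, β i}ᶜ : Set ℂ) := by
      intro w hw
      have h2 := P.omits _ (hx w (by
        rw [Metric.mem_closedBall] at hw
        rw [Metric.mem_ball]
        linarith)) i
      rw [ins_same] at h2
      simp [h2.1, h2.2]
    obtain ⟨T, hT⟩ := (isCompact_closedBall (x₀ i) (r / 2)).exists_bound_of_continuousOn
      ((P.tcont i).mono h1)
    refine ⟨T, ?_, fun w hw => ?_⟩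
    · exact (norm_nonneg _).trans (hT (x₀ i) (Metric.mem_closedBall_self hr2.le))
    · exact (le_abs_self _).trans (hT w (Metric.ball_subset_closedBall hw))
  choose T hT0 hT using hT
  have hG : ∀ x ∈ Metric.ball x₀ (r / 2), x ∈ M → ∀ i, G i x ≤
      ∑ j, τ * (∏ l ∈ Finset.univ.erase j, T l) * C₁ := by
    intro x hx hxM i
    have hxl : ∀ l, x l ∈ Metric.ball (x₀ l) (r / 2) := by
      intro l
      rw [Metric.mem_ball] at hx ⊢
      exact (dist_le_pi_dist x x₀ l).trans_lt hx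
    have h1 : G i x ≤ τ * (∏ l ∈ Finset.univ.erase i, T l) * C₁ := by
      refine (P.GleD i x hxM).trans ?_
      have h2 : ∏ l ∈ Finset.univ.erase i, t l (x l) ≤ ∏ l ∈ Finset.univ.erase i, T l :=
        Finset.prod_le_prod (fun l _ => P.tnonneg l _) fun l _ => hT l _ (hxl l)
      have h3 : 0 ≤ ∏ l ∈ Finset.univ.erase i, t l (x l) :=
        Finset.prod_nonneg fun l _ => P.tnonneg l _
      have h4 := hall x hx hxM
      have h5 := (P.Dpos x hxM).le
      have h6 := P.τ_nonneg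
      refine mul_le_mul (mul_le_mul_of_nonneg_left h2 h6) h4 h5 ?_
      exact mul_nonneg h6 (h3.trans h2)
    refine h1.trans ?_
    refine Finset.single_le_sum (f := fun j => τ * (∏ l ∈ Finset.univ.erase j, T l) * C₁)
      (fun j _ => ?_) (Finset.mem_univ i)
    have h7 : 0 ≤ ∏ l ∈ Finset.univ.erase j, T l := Finset.prod_nonneg fun l _ => hT0 l
    have h6 := P.τ_nonneg
    positivity
  -- a point of `M` near the centre
  obtain ⟨x', hx', hx'M⟩ := hgoodx 0 (r / 2) hr2 (by linarith)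
  have hxM : ins 0 (x₀ 0) x' ∈ M := hx'M _ (Metric.mem_ball_self hr)
  have hxb : ins 0 (x₀ 0) x' ∈ Metric.ball x₀ (r / 2) :=
    (DNN_ball_del 0).2 ⟨Metric.mem_ball_self hr2, hx'⟩
  refine P.no_escape hxM hx₀ (C := ∑ j, τ * (∏ l ∈ Finset.univ.erase j, T l) * C₁) ?_
  intro s hs0 hs1 hsM i
  have hball : ins 0 (x₀ 0) x' + s • (x₀ - ins 0 (x₀ 0) x') ∈ Metric.ball x₀ (r / 2) :=
    (convex_ball x₀ (r / 2)).add_smul_sub_mem hxb (Metric.mem_ball_self hr2) ⟨hs0, hs1.le⟩
  exact hG _ hball hsM i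

end KN
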