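import Pool.Agent.Lib_MP_3ea2ac_kq.Defs

/-!
# Complete Kähler metrics of finite volume on domains of `ℂⁿ` (MP_3ea2ac_ag)

Definitions used in the statement of the result: Wirtinger derivatives, Kähler metrics on an open
subset of `ℂⁿ`, their Ricci form, length of curves, completeness. `KQ.wd`, `KQ.wdb` are the
Wirtinger derivatives `(∂_e f ∓ i ∂_{e'} f)/2`.
-/

open MeasureTheory Complex Set
open scoped ComplexConjugate ContDiff ComplexOrder

namespace KN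

/-- The coordinate vector `∂/∂x_i` of `ℂⁿ`. -/
noncomputable def ux {n : ℕ} (i : Fin n) : Fin n → ℂ := Pi.single i 1

/-- The coordinate vector `∂/∂y_i` of `ℂⁿ`. -/
noncomputable def uy {n : ℕ} (i : Fin n) : Fin n → ℂ := Pi.single i I

/-- `∂f/∂z_i` for a function on `ℂⁿ`. -/
noncomputable def pd {n : ℕ} (i : Fin n) (f : (Fin n → ℂ) → ℂ) : (Fin n → ℂ) → ℂ :=
  KQ.wd (ux i) (uy i) f

/-- `∂f/∂\bar z_i` for a function on `ℂⁿ`. -/
noncomputable def pdb {n : ℕ} (i : Fin n) (f : (Fin n → ℂ) → ℂ) : (Fin n → ℂ) → ℂ :=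
  KQ.wdb (ux i) (uy i) f

/-- A Kähler metric `g = ∑ g_{i\bar j} dz_i d\bar z_j` on the open set `M ⊆ ℂⁿ`: the entries are
smooth, the matrix is hermitian and positive definite, and `dω = 0`, that is
`∂_i g_{j\bar k} = ∂_j g_{i\bar k}`. -/
structure IsKahler {n : ℕ} (M : Set (Fin n → ℂ)) (g : (Fin n → ℂ) → Matrix (Fin n) (Fin n) ℂ) :
    Prop where
  smooth : ∀ i j, ContDiffOn ℝ ∞ (fun x => g x i j) M
  posDef : ∀ x ∈ M, (g x).PosDef
  closed : ∀ x ∈ M, ∀ i j k, pd i (fun y => g y j k) x = pd j (fun y => g y i k) x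

/-- The hermitian form `H(v,v) = ∑ H_{i\bar j} v_i \bar v_j`. -/
noncomputable def hq {n : ℕ} (H : Matrix (Fin n) (Fin n) ℂ) (v : Fin n → ℂ) : ℝ :=
  (∑ i, ∑ j, H i j * v i * conj (v j)).re

/-- The Ricci form `Ric_{i\bar j} = - ∂_i ∂_{\bar j} log det g`. -/
noncomputable def ric {n : ℕ} (g : (Fin n → ℂ) → Matrix (Fin n) (Fin n) ℂ) (x : Fin n → ℂ) :
    Matrix (Fin n) (Fin n) ℂ :=
  fun i j => - pd i (pdb j (fun y => ((Real.log (g y).det.re : ℝ) : ℂ))) x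

/-- Length of the curve `γ : [0,1] → M` for the metric `g`. -/
noncomputable def len {n : ℕ} (g : (Fin n → ℂ) → Matrix (Fin n) (Fin n) ℂ)
    (γ : ℝ → (Fin n → ℂ)) : ℝ :=
  ∫ t in (0 : ℝ)..1, Real.sqrt (hq (g (γ t)) (deriv γ t))

/-- `Joined M g x y L`: there is a piecewise `C¹` curve in `M` from `x` to `y` of `g`-length `L`. -/
inductive Joined {n : ℕ} (M : Set (Fin n → ℂ)) (g : (Fin n → ℂ) → Matrix (Fin n) (Fin n) ℂ)
    (x : Fin n → ℂ) : (Fin n → ℂ) → ℝ → Prop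
  | refl : Joined M g x x 0
  | step (y : Fin n → ℂ) (L : ℝ) (γ : ℝ → (Fin n → ℂ)) : Joined M g x y L → ContDiff ℝ 1 γ →
      γ 0 = y → (∀ t ∈ Icc (0 : ℝ) 1, γ t ∈ M) → Joined M g x (γ 1) (L + len g γ)

/-- Completeness (in the form of Hopf and Rinow): the balls of the distance of `g` are relatively
compact in `M`. -/
def IsComplete {n : ℕ} (M : Set (Fin n → ℂ)) (g : (Fin n → ℂ) → Matrix (Fin n) (Fin n) ℂ) :
    Prop :=
  ∀ x ∈ M, ∀ R : ℝ, ∃ K : Set (Fin n → ℂ), IsCompact K ∧ K ⊆ M ∧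
    ∀ y L, Joined M g x y L → L ≤ R → y ∈ K

end KN
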