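import Pool.Agent.Lib_MP_3ea2ac_kn.Lin

/-! The error term of the holomorphy argument. -/

open MeasureTheory Complex Set Topology Filter
open scoped ComplexConjugate ContDiff ComplexOrder

namespace KN

variable {n : ℕ} {M : Set (Fin n → ℂ)} {g : (Fin n → ℂ) → Matrix (Fin n) (Fin n) ℂ} {a : ℝ}
  {α β : Fin n → ℂ} {x : Fin n → ℂ} {η : ℕ → (Fin n → ℂ) → ℝ}

private theorem Err_sum (K : Matrix (Fin n) (Fin n) ℂ) (s t : Fin n) (u v : ℂ) :
    ∑ k, ∑ l, K k l * (if k = s then u else 0) * conj (if l = t then v else 0) =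
      K s t * u * conj v := by
  rw [Finset.sum_eq_single s]
  · rw [Finset.sum_eq_single t]
    · simp
    · intro l _ hl
      simp [hl]
    · simp
  · intro k _ hk
    simp [hk]
  · simp

private theorem Err_hq0 (K : Matrix (Fin n) (Fin n) ℂ) (i j : Fin n) (u v : ℂ) :
    hq K (Pi.single i u + Pi.single j v) = (K i i * u * conj u + K i j * u * conj v +
      (K j i * v * conj u + K j j * v * conj v)).re := by
  unfold hq
  congr 1
  rw [← Err_sum K i i u u, ← Err_sum K i j u v, ← Err_sum K j i v u, ← Err_sum K j j v v,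
    ← Finset.sum_add_distrib, ← Finset.sum_add_distrib, ← Finset.sum_add_distrib]
  refine Finset.sum_congr rfl fun k _ => ?_
  rw [← Finset.sum_add_distrib, ← Finset.sum_add_distrib, ← Finset.sum_add_distrib]
  refine Finset.sum_congr rfl fun l _ => ?_
  rw [Pi.add_apply, Pi.add_apply, Pi.single_apply, Pi.single_apply, Pi.single_apply,
    Pi.single_apply, map_add]
  ring

private theorem Err_hq (K : Matrix (Fin n) (Fin n) ℂ) {i j : Fin n} {Ki Kj : ℝ} {b : ℂ}
    (hi : K i i = Ki) (hj : K j j = Kj) (hb : K i j = b) (hb' : K j i = conj b) (u v : ℂ) :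
    hq K (Pi.single i u + Pi.single j v) =
      Ki * normSq u + Kj * normSq v + 2 * (b * u * conj v).re := by
  rw [Err_hq0, hi, hj, hb, hb']
  simp only [Complex.normSq_apply, Complex.add_re, Complex.mul_re, Complex.mul_im,
    Complex.conj_re, Complex.conj_im, Complex.ofReal_re, Complex.ofReal_im]
  ring

private theorem Err_pd {u : (Fin n → ℂ) → ℝ} (hu : DifferentiableAt ℝ u x) (i : Fin n) :
    pd i (fun y => ((u y : ℝ) : ℂ)) x =
      ((fderiv ℝ u x (ux i) : ℝ) - I * (fderiv ℝ u x (uy i) : ℝ)) / 2 := KQ.wd_ofReal hu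

private theorem Err_conj (u : (Fin n → ℂ) → ℝ) (i : Fin n) (y : Fin n → ℂ) :
    pdb i (fun y => ((u y : ℝ) : ℂ)) y = conj (pd i (fun y => ((u y : ℝ) : ℂ)) y) := by
  have h1 := KQ.wdb_conj (e := ux i) (e' := uy i) (f := fun y => ((u y : ℝ) : ℂ)) (x := y)
  simp only [Complex.conj_ofReal] at h1
  exact h1

private theorem Err_single (i : Fin n) (v : ℂ) :
    (Pi.single i v : Fin n → ℂ) = v.re • ux i + v.im • uy i := by
  funext l
  rw [Pi.add_apply, Pi.smul_apply, Pi.smul_apply]
  unfold ux uy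
  rw [Pi.single_apply, Pi.single_apply, Pi.single_apply]
  split_ifs
  · apply Complex.ext <;> simp
  · simp

private theorem Err_fderiv {u : (Fin n → ℂ) → ℝ} (hu : DifferentiableAt ℝ u x) (i : Fin n)
    (v : ℂ) : fderiv ℝ u x (Pi.single i v) = 2 * (pd i (fun y => ((u y : ℝ) : ℂ)) x * v).re := by
  rw [Err_pd hu i, Err_single, map_add, map_smul, map_smul]
  simp only [smul_eq_mul, Complex.mul_re, Complex.div_ofNat_re, Complex.div_ofNat_im,
    Complex.sub_re, Complex.sub_im, Complex.ofReal_re, Complex.ofReal_im, Complex.I_re,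
    Complex.I_im, Complex.mul_im]
  ring

/-- With `q = ∂_{\bar i} η`, `p = ∂_{\bar j} η` and `u = - \bar p e_i + \bar q e_j`:
`q T_{ij} - p T_{ii} = T(e_i, u)`, so by Cauchy-Schwarz (`T ≥ 0`, hermitian)
`|…|² ≤ T_{ii} T(u,u) ≤ a g_{ii} · a g(u,u)`, and `g(u,u) = m |∂η|²_h ≤ m / (k+1)²` where `h` is the
`2 × 2` block of `g` and `m` its determinant (`v = h⁻¹ …` in `grad`). -/
theorem err_bound (H : Hyp M g a α β) (hη : Cutoffs M g η) (hx : x ∈ M) {i j : Fin n}
    (hij : i ≠ j) (k : ℕ) :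
    ‖pdb i (ce η k) x * TN (gD g) i j x - pdb j (ce η k) x * TN (gD g) i i x‖
      ≤ a / ((k : ℝ) + 1) *
        Real.sqrt (gd g i x * (g x i i * g x j j - g x i j * g x j i).re) := by
  obtain ⟨p, hp⟩ : ∃ p : Fin n → ℂ, p = fun i => pd i (ce η k) x := ⟨_, rfl⟩
  have hu : DifferentiableAt ℝ (η k) x :=
    (hη.smooth k).contDiffAt.differentiableAt (by simp)
  have e0 : ∀ l, pdb l (ce η k) x = conj (p l) := by
    intro l
    rw [hp]
    exact Err_conj (η k) l x
  have hn : 0 < n := Fin.pos i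
  have ha := a_nonneg H hn
  have hk : (0 : ℝ) < (k : ℝ) + 1 := by positivity
  -- the metric
  have herm : ∀ i j, g x i j = conj (g x j i) := fun i j =>
    ((H.kahler.posDef x hx).1.apply i j).symm
  have hreal : ∀ i, g x i i = ((gd g i x : ℝ) : ℂ) := fun i =>
    (Complex.conj_eq_iff_re.mp (herm i i).symm).symm
  obtain ⟨b, hb⟩ : ∃ b : ℂ, g x i j = b := ⟨_, rfl⟩
  have hb' : g x j i = conj b := by rw [← hb]; exact herm j i
  have hG := gd_pos H.kahler hx i
  -- `T`
  obtain ⟨i1, n1, u1⟩ := TN_diag H hx i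
  obtain ⟨j1, -, -⟩ := TN_diag H hx j
  obtain ⟨Ti, hTi⟩ : ∃ Ti : ℝ, Ti = (TN (gD g) i i x).re := ⟨_, rfl⟩
  obtain ⟨Tj, hTj⟩ : ∃ Tj : ℝ, Tj = (TN (gD g) j j x).re := ⟨_, rfl⟩
  have ri : TN (gD g) i i x = (Ti : ℂ) := by
    apply Complex.ext
    · rw [Complex.ofReal_re, hTi]
    · rw [Complex.ofReal_im, i1]
  have rj : TN (gD g) j j x = (Tj : ℂ) := by
    apply Complex.ext
    · rw [Complex.ofReal_re, hTj]
    · rw [Complex.ofReal_im, j1]
  rw [← hTi] at n1 u1
  obtain ⟨s, hs⟩ : ∃ s : ℂ, TN (gD g) i j x = s := ⟨_, rfl⟩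
  have hs' : TN (gD g) j i x = conj s := by
    rw [← hs]
    exact TN_herm H.kahler H.isOpen hx i j
  have hT : ∀ u v : ℂ, hq (fun i j => TN (gD g) i j x) (Pi.single i u + Pi.single j v) =
      Ti * normSq u + Tj * normSq v + 2 * (s * u * conj v).re := fun u v =>
    Err_hq (fun i j => TN (gD g) i j x) ri rj hs hs' u v
  have hg : ∀ u v : ℂ, hq (g x) (Pi.single i u + Pi.single j v) =
      gd g i x * normSq u + gd g j x * normSq v + 2 * (b * u * conj v).re := fun u v =>
    Err_hq (g x) (hreal i) (hreal j) hb hb' u v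
  obtain ⟨c, hc⟩ : ∃ c : ℂ, c = conj (p i) * s - conj (p j) * Ti := ⟨_, rfl⟩
  rw [e0, e0, hs, ri, ← hc]
  -- the Cauchy-Schwarz inequality for `T`
  obtain ⟨t0, ht0⟩ : ∃ t0 : ℝ, t0 = hq (fun i j => TN (gD g) i j x)
    (Pi.single i (-p j) + Pi.single j (p i)) := ⟨_, rfl⟩
  have hw := hq_TN H hx (Pi.single i (-p j) + Pi.single j (p i))
  rw [← ht0] at hw
  have hquad : ∀ t : ℝ, 0 ≤ (Complex.normSq c * Ti) * (t * t)
      + 2 * Complex.normSq c * t + t0 := by
    intro t
    have h1 := (hq_TN H hx (Pi.single i (-p j + (t : ℂ) * conj c) + Pi.single j (p i))).1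
    have h2 : hq (fun i j => TN (gD g) i j x)
        (Pi.single i (-p j + (t : ℂ) * conj c) + Pi.single j (p i)) =
        (Complex.normSq c * Ti) * (t * t) + 2 * Complex.normSq c * t + t0 := by
      rw [ht0, hT, hT, hc]
      simp only [Complex.normSq_apply, Complex.add_re, Complex.add_im, map_neg, Complex.sub_re,
        Complex.sub_im, map_add, map_mul, map_sub, Complex.conj_ofReal,
        Complex.mul_re, Complex.mul_im, Complex.conj_re, Complex.conj_im,
        Complex.ofReal_re, Complex.ofReal_im, Complex.neg_re, Complex.neg_im]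
      ring
    rwa [h2] at h1
  have hdis := discrim_le_zero hquad
  unfold discrim at hdis
  have hcs : Complex.normSq c ≤ Ti * t0 := by
    rcases (Complex.normSq_nonneg c).eq_or_lt with h4 | h4
    · rw [← h4]
      exact mul_nonneg n1 hw.1
    · have h5 : Complex.normSq c * Complex.normSq c ≤
          Complex.normSq c * (Ti * t0) := by nlinarith
      exact le_of_mul_le_mul_left h5 h4
  -- the gradient
  obtain ⟨X, hX⟩ : ∃ X : ℝ, X = hq (g x) (Pi.single i (-p j) + Pi.single j (p i)) := ⟨_, rfl⟩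
  obtain ⟨m, hm⟩ : ∃ m : ℝ, m = (g x i i * g x j j - g x i j * g x j i).re := ⟨_, rfl⟩
  have hm' : m = gd g i x * gd g j x - normSq b := by
    rw [hm, hreal i, hreal j, hb, hb']
    simp only [Complex.normSq_apply, Complex.sub_re, Complex.mul_re, Complex.mul_im,
      Complex.conj_re, Complex.conj_im, Complex.ofReal_re, Complex.ofReal_im]
    ring
  have hX0 : 0 ≤ X := by
    rw [hX]
    exact hq_nonneg H.kahler hx _
  have hm0 : 0 ≤ m := by
    have h1 := hq_nonneg H.kahler hx
      (Pi.single i (-conj b) + Pi.single j ((gd g i x : ℝ) : ℂ))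
    have h2 : hq (g x) (Pi.single i (-conj b) + Pi.single j ((gd g i x : ℝ) : ℂ)) =
        gd g i x * m := by
      rw [hg, hm']
      simp only [Complex.normSq_apply, Complex.mul_re, Complex.mul_im, Complex.conj_ofReal,
        Complex.conj_re, Complex.conj_im, Complex.ofReal_re, Complex.ofReal_im, Complex.neg_re,
        Complex.neg_im]
      ring
    rw [h2] at h1
    exact nonneg_of_mul_nonneg_right h1 hG
  have hXm : X ≤ m / ((k : ℝ) + 1) ^ 2 := by
    have h1 := hη.grad k x hx (Pi.single i (((gd g j x : ℝ) : ℂ) * conj (p i) -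
      conj b * conj (p j)) + Pi.single j (((gd g i x : ℝ) : ℂ) * conj (p j) - b * conj (p i)))
    have h2 : fderiv ℝ (η k) x (Pi.single i (((gd g j x : ℝ) : ℂ) * conj (p i) -
        conj b * conj (p j)) + Pi.single j (((gd g i x : ℝ) : ℂ) * conj (p j) -
        b * conj (p i))) = 2 * X := by
      rw [map_add, Err_fderiv hu, Err_fderiv hu]
      have e1 : ∀ l, pd l (fun y => ((η k y : ℝ) : ℂ)) x = p l := by
        intro l
        rw [hp]
        rfl
      rw [e1, e1, hX, hg]
      simp only [Complex.normSq_apply, Complex.sub_re, Complex.sub_im, Complex.mul_re,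
        Complex.mul_im, Complex.conj_re, Complex.conj_im, Complex.ofReal_re, Complex.ofReal_im,
        Complex.neg_re, Complex.neg_im]
      ring
    have h3 : hq (g x) (Pi.single i (((gd g j x : ℝ) : ℂ) * conj (p i) -
        conj b * conj (p j)) + Pi.single j (((gd g i x : ℝ) : ℂ) * conj (p j) -
        b * conj (p i))) = m * X := by
      rw [hX, hg, hg, hm']
      simp only [Complex.normSq_apply, Complex.sub_re, Complex.sub_im, Complex.mul_re,
        Complex.mul_im, Complex.conj_re, Complex.conj_im, Complex.ofReal_re, Complex.ofReal_im,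
        Complex.neg_re, Complex.neg_im]
      ring
    rw [h2, h3, le_div_iff₀ (by positivity)] at h1
    rw [le_div_iff₀ (by positivity)]
    rcases hX0.eq_or_lt with h4 | h4
    · rw [← h4, zero_mul]
      exact hm0
    · have h5 : X * (4 * (X * ((k : ℝ) + 1) ^ 2)) ≤ X * m := by nlinarith
      have h6 := le_of_mul_le_mul_left h5 h4
      have h7 : 0 ≤ X * ((k : ℝ) + 1) ^ 2 := by positivity
      linarith
  rw [← hm]
  have hfin : ‖c‖ ^ 2 ≤ (a / ((k : ℝ) + 1) * Real.sqrt (gd g i x * m)) ^ 2 := by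
    rw [← Complex.normSq_eq_norm_sq, mul_pow, Real.sq_sqrt (mul_nonneg hG.le hm0), div_pow]
    have h6 : Ti * t0 ≤ (a * gd g i x) * (a * (m / ((k : ℝ) + 1) ^ 2)) := by
      refine mul_le_mul u1 (hw.2.trans ?_) hw.1 (mul_nonneg ha hG.le)
      rw [← hX]
      exact mul_le_mul_of_nonneg_left hXm ha
    refine (hcs.trans h6).trans (le_of_eq ?_)
    field_simp
  exact le_of_sq_le_sq hfin (by positivity)

end KN
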