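import Pool.Agent.Lib_MP_3ea2ac_kn.Setup
import Pool.Agent.Lib_MP_3ea2ac_kq.LogP

/-! Mean value inequalities on polydiscs (closed balls of the sup norm). -/

open MeasureTheory Complex Set Topology Filter
open scoped ComplexConjugate ContDiff ComplexOrder

namespace KN

variable {n : ℕ}

private theorem MeanN_upd_succ (a : ℂ) (y : Fin n → ℂ) (i : Fin n) (w : ℂ) :
    Function.update (ins 0 a y) ((0 : Fin (n + 1)).succAbove i) w
      = ins 0 a (Function.update y i w) := by
  funext j
  rcases Fin.eq_self_or_eq_succAbove 0 j with h | ⟨k, h⟩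
  · subst h
    rw [Function.update_of_ne (Fin.succAbove_ne 0 i).symm, ins_same, ins_same]
  · subst h
    by_cases hk : k = i
    · subst hk
      rw [Function.update_self, ins_succAbove, Function.update_self]
    · rw [Function.update_of_ne (fun h => hk (Fin.succAbove_right_injective h)), ins_succAbove,
        ins_succAbove, Function.update_of_ne hk]

private theorem MeanN_upd_zero (a : ℂ) (y : Fin n → ℂ) (w : ℂ) :
    Function.update (ins 0 a y) 0 w = ins 0 w y := by
  funext j
  rcases Fin.eq_self_or_eq_succAbove 0 j with h | ⟨k, h⟩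
  · subst h
    rw [Function.update_self, ins_same]
  · subst h
    rw [Function.update_of_ne (Fin.succAbove_ne 0 k), ins_succAbove, ins_succAbove]

/-- Iterated one-variable mean value inequalities. Induction on `n` (`n = 0`: one point, measure 1),
Fubini. -/
theorem mean_iter (n : ℕ) {c₀ r : ℝ} (hc : 0 ≤ c₀) (hr : 0 < r) {h : (Fin n → ℂ) → ℝ}
    {S : Set (Fin n → ℂ)} (hS : IsOpen S) (hcont : ContinuousOn h S) (hnn : ∀ x ∈ S, 0 ≤ h x)
    {x₀ : Fin n → ℂ} (hx₀ : Metric.closedBall x₀ r ⊆ S)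
    (H : ∀ i, ∀ x ∈ Metric.closedBall x₀ r, x i = x₀ i →
      h x ≤ c₀ * ∫ w in Metric.closedBall (x₀ i) r, h (Function.update x i w)) :
    h x₀ ≤ c₀ ^ n * ∫ x in Metric.closedBall x₀ r, h x := by
  induction n with
  | zero =>
    have h1 : Metric.closedBall x₀ r = univ := by
      ext y
      have : y = x₀ := Subsingleton.elim y x₀
      simp [this, hr.le]
    rw [h1, Measure.restrict_univ, pow_zero, one_mul, volume_pi,
      Measure.pi_of_empty (fun _ : Fin 0 => (volume : Measure ℂ)) x₀, integral_dirac]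
  | succ n ih =>
    obtain ⟨y₀, hy₀⟩ : ∃ y, y = del 0 x₀ := ⟨_, rfl⟩
    obtain ⟨a₀, ha₀⟩ : ∃ a, a = x₀ 0 := ⟨_, rfl⟩
    have hx₀' : ins 0 a₀ y₀ = x₀ := by rw [ha₀, hy₀, ins_del]
    have hball : ∀ (w : ℂ) (y : Fin n → ℂ), ins 0 w y ∈ Metric.closedBall x₀ r ↔
        w ∈ Metric.closedBall a₀ r ∧ y ∈ Metric.closedBall y₀ r := by
      intro w y
      rw [← hx₀', Metric.mem_closedBall, dist_ins, max_le_iff, Metric.mem_closedBall,
        Metric.mem_closedBall]
    have ha₀m : a₀ ∈ Metric.closedBall a₀ r := Metric.mem_closedBall_self hr.le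
    -- the first step: induction hypothesis
    have step1 : h x₀ ≤ c₀ ^ n * ∫ y in Metric.closedBall y₀ r, h (ins 0 a₀ y) := by
      have h1 := ih (h := fun y => h (ins 0 a₀ y)) (S := MH S 0 a₀) (isOpen_MH hS 0 a₀) ?_ ?_
        (x₀ := y₀) ?_ ?_
      · rw [hx₀'] at h1
        exact h1
      · refine hcont.comp ?_ (fun y hy => hy)
        exact ((continuous_ins 0).comp
          (Continuous.prodMk continuous_const continuous_id)).continuousOn
      · intro y hy
        exact hnn _ hy
      · intro y hy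
        exact hx₀ ((hball a₀ y).2 ⟨ha₀m, hy⟩)
      · intro i y hy hyi
        have h2 := H ((0 : Fin (n + 1)).succAbove i) (ins 0 a₀ y) ((hball a₀ y).2 ⟨ha₀m, hy⟩) (by
          rw [ins_succAbove, hyi, hy₀]
          rfl)
        have h3 : x₀ ((0 : Fin (n + 1)).succAbove i) = y₀ i := by rw [hy₀]; rfl
        rw [h3] at h2
        simp only [MeanN_upd_succ] at h2
        exact h2
    -- integrability
    obtain ⟨f, hf⟩ : ∃ f, f = (Metric.closedBall x₀ r).indicator h := ⟨_, rfl⟩
    have hfint : Integrable f := by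
      rw [hf, integrable_indicator_iff Metric.isClosed_closedBall.measurableSet]
      exact (hcont.mono hx₀).integrableOn_compact (isCompact_closedBall _ _)
    have hf0 : ∀ x, 0 ≤ f x := by
      intro x
      rw [hf]
      exact indicator_nonneg (fun y hy => hnn y (hx₀ hy)) x
    have hfy : ∀ y ∈ Metric.closedBall y₀ r, ∫ w, f (ins 0 w y) =
        ∫ w in Metric.closedBall a₀ r, h (ins 0 w y) := by
      intro y hy
      rw [← integral_indicator Metric.isClosed_closedBall.measurableSet]
      congr 1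
      funext w
      rw [hf]
      by_cases hw : w ∈ Metric.closedBall a₀ r
      · rw [indicator_of_mem hw, indicator_of_mem ((hball w y).2 ⟨hw, hy⟩)]
      · rw [indicator_of_notMem hw, indicator_of_notMem (fun hh => hw ((hball w y).1 hh).1)]
    have hF0 : ∀ y, 0 ≤ ∫ w, f (ins 0 w y) := fun y => integral_nonneg fun w => hf0 _
    have hFint : Integrable fun y : Fin n → ℂ => ∫ w, f (ins 0 w y) := by
      have h1 := (integrable_line 0 hfint).2
      refine h1.congr (Eventually.of_forall fun y => ?_)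
      show ∫ w, ‖f (ins 0 w y)‖ = ∫ w, f (ins 0 w y)
      congr 1
      funext w
      rw [Real.norm_of_nonneg (hf0 _)]
    have hFub : ∫ x in Metric.closedBall x₀ r, h x = ∫ y, ∫ w, f (ins 0 w y) := by
      rw [← integral_ins 0 hfint, hf, integral_indicator Metric.isClosed_closedBall.measurableSet]
    -- second step
    have step2 : ∫ y in Metric.closedBall y₀ r, h (ins 0 a₀ y) ≤
        c₀ * ∫ x in Metric.closedBall x₀ r, h x := by
      rw [hFub]
      calc ∫ y in Metric.closedBall y₀ r, h (ins 0 a₀ y)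
          ≤ ∫ y in Metric.closedBall y₀ r, c₀ * ∫ w, f (ins 0 w y) := by
            refine setIntegral_mono_on ?_ (hFint.const_mul c₀).integrableOn
              Metric.isClosed_closedBall.measurableSet ?_
            · refine ContinuousOn.integrableOn_compact (isCompact_closedBall _ _) ?_
              refine hcont.comp ?_ (fun y hy => hx₀ ((hball a₀ y).2 ⟨ha₀m, hy⟩))
              exact ((continuous_ins 0).comp
                (Continuous.prodMk continuous_const continuous_id)).continuousOn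
            · intro y hy
              rw [hfy y hy]
              have h2 := H 0 (ins 0 a₀ y) ((hball a₀ y).2 ⟨ha₀m, hy⟩) (by rw [ins_same, ha₀])
              simp only [MeanN_upd_zero, ← ha₀] at h2
              exact h2
        _ = c₀ * ∫ y in Metric.closedBall y₀ r, ∫ w, f (ins 0 w y) := integral_const_mul _ _
        _ ≤ c₀ * ∫ y, ∫ w, f (ins 0 w y) := by
            refine mul_le_mul_of_nonneg_left ?_ hc
            exact setIntegral_le_integral hFint (Eventually.of_forall hF0)
    calc h x₀ ≤ c₀ ^ n * ∫ y in Metric.closedBall y₀ r, h (ins 0 a₀ y) := step1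
      _ ≤ c₀ ^ n * (c₀ * ∫ x in Metric.closedBall x₀ r, h x) :=
          mul_le_mul_of_nonneg_left step2 (pow_nonneg hc n)
      _ = c₀ ^ (n + 1) * ∫ x in Metric.closedBall x₀ r, h x := by ring

private theorem MeanN_rot {r : ℝ} (e : Circle) (g : ℂ → ℂ) :
    ∫ y in Metric.closedBall (0 : ℂ) r, g y = ∫ y in Metric.closedBall (0 : ℂ) r, g (e * y) := by
  have h2 := (rotation e).measurePreserving.setIntegral_preimage_emb
      (rotation e).toHomeomorph.measurableEmbedding g (Metric.closedBall 0 r)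
  have h3 : (rotation e) ⁻¹' (Metric.closedBall (0 : ℂ) r) = Metric.closedBall 0 r := by
    ext y
    rw [mem_preimage, mem_closedBall_zero_iff, mem_closedBall_zero_iff,
      LinearIsometryEquiv.norm_map]
  rw [h3] at h2
  rw [← h2]
  rfl

private theorem MeanN_area {S : Set ℂ} {f : ℂ → ℂ} (hf : DifferentiableOn ℂ f S)
    {w : ℂ} {r : ℝ} (hb : Metric.closedBall w r ⊆ S) (hS : IsOpen S) :
    ∫ y in Metric.closedBall (0 : ℂ) r, f (w + y) =
      ((volume (Metric.closedBall (0 : ℂ) r)).toReal : ℝ) • f w := by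
  have hrot : ∀ α : ℝ, ∫ y in Metric.closedBall (0 : ℂ) r, f (w + y) =
      ∫ y in Metric.closedBall (0 : ℂ) r, f (w + circleMap 0 1 α * y) := by
    intro α
    let e : Circle := ⟨circleMap 0 1 α, by simp [Submonoid.unitSphere]⟩
    exact MeanN_rot e (fun y => f (w + y))
  have hcf : ContinuousOn f S := hf.continuousOn
  have hmaps : ∀ (α : ℝ) (y : ℂ), y ∈ Metric.closedBall (0 : ℂ) r →
      w + circleMap 0 1 α * y ∈ S := by
    intro α y hy
    apply hb
    rw [Metric.mem_closedBall, dist_zero_right] at hy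
    rw [Metric.mem_closedBall, dist_eq_norm, add_sub_cancel_left, norm_mul]
    have h1 : ‖(circleMap 0 1 α : ℂ)‖ = 1 := by simp
    rw [h1, one_mul]
    exact hy
  have hint : Integrable (fun p : ℝ × ℂ => f (w + circleMap 0 1 p.1 * p.2))
      ((volume.restrict (Ioc 0 (2 * Real.pi))).prod
        (volume.restrict (Metric.closedBall (0 : ℂ) r))) := by
    have h1 : IntegrableOn (fun p : ℝ × ℂ => f (w + circleMap 0 1 p.1 * p.2))
      (Icc 0 (2 * Real.pi) ×ˢ Metric.closedBall (0 : ℂ) r) (volume.prod volume) := by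
      refine ContinuousOn.integrableOn_compact (isCompact_Icc.prod (isCompact_closedBall _ _)) ?_
      refine hcf.comp ?_ (fun p hp => hmaps p.1 p.2 hp.2)
      refine Continuous.continuousOn ?_
      exact continuous_const.add (((continuous_circleMap 0 1).comp continuous_fst).mul
        continuous_snd)
    rw [Measure.prod_restrict]
    exact h1.mono_set (prod_mono_left Ioc_subset_Icc_self)
  have hmean : ∀ y ∈ Metric.closedBall (0 : ℂ) r,
      ∫ α in Ioc 0 (2 * Real.pi), f (w + circleMap 0 1 α * y) = (2 * Real.pi : ℝ) • f w := by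
    intro y hy
    rw [← intervalIntegral.integral_of_le Real.two_pi_pos.le]
    have hdc : DiffContOnCl ℂ (fun ζ : ℂ => f (w + ζ * y)) (Metric.ball 0 |1|) := by
      refine DifferentiableOn.diffContOnCl ?_
      intro ζ hζ
      have hζ' : ‖ζ‖ ≤ 1 := by
        have := Metric.closure_ball_subset_closedBall hζ
        simpa using this
      have h5 : w + ζ * y ∈ S := by
        apply hb
        rw [Metric.mem_closedBall, dist_zero_right] at hy
        rw [Metric.mem_closedBall, dist_eq_norm, add_sub_cancel_left, norm_mul]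
        calc ‖ζ‖ * ‖y‖ ≤ 1 * r := by gcongr
          _ = r := one_mul r
      have h6 : DifferentiableAt ℂ f (w + ζ * y) := (hf _ h5).differentiableAt (hS.mem_nhds h5)
      have h7 : DifferentiableAt ℂ (fun ζ : ℂ => w + ζ * y) ζ := by fun_prop
      exact (DifferentiableAt.comp ζ h6 h7).differentiableWithinAt
    have h8 := hdc.circleAverage
    rw [Real.circleAverage_def] at h8
    simp only [zero_mul, add_zero] at h8
    rw [← h8, smul_smul, mul_inv_cancel₀ (by positivity), one_smul]
  have h1 : ∫ α in Ioc 0 (2 * Real.pi), ∫ y in Metric.closedBall (0 : ℂ) r,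
      f (w + circleMap 0 1 α * y) =
      ∫ y in Metric.closedBall (0 : ℂ) r, (2 * Real.pi : ℝ) • f w := by
    rw [integral_integral_swap hint]
    exact setIntegral_congr_fun Metric.isClosed_closedBall.measurableSet hmean
  have h2 : ∫ α in Ioc 0 (2 * Real.pi), ∫ y in Metric.closedBall (0 : ℂ) r,
      f (w + circleMap 0 1 α * y) =
      (2 * Real.pi : ℝ) • ∫ y in Metric.closedBall (0 : ℂ) r, f (w + y) := by
    rw [setIntegral_congr_fun (g := fun _ => ∫ y in Metric.closedBall (0 : ℂ) r, f (w + y))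
      measurableSet_Ioc (fun α _ => (hrot α).symm), setIntegral_const, Real.volume_real_Ioc_of_le
      Real.two_pi_pos.le, sub_zero]
  rw [h2, setIntegral_const, smul_comm] at h1
  exact smul_right_injective ℂ (r := (2 * Real.pi : ℝ)) (by positivity) h1

private theorem MeanN_shift (w : ℂ) (r : ℝ) (g : ℂ → ℝ) :
    ∫ y in Metric.closedBall w r, g y = ∫ y in Metric.closedBall (0 : ℂ) r, g (w + y) := by
  have h2 := (measurePreserving_add_left (volume : Measure ℂ) w).setIntegral_preimage_emb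
    (measurableEmbedding_addLeft w) g (Metric.closedBall w r)
  have h3 : (fun y => w + y) ⁻¹' (Metric.closedBall w r) = Metric.closedBall (0 : ℂ) r := by
    ext y
    simp
  rw [h3] at h2
  exact h2.symm

/-- One variable mean value inequality for holomorphic functions. -/
theorem holo_mean_one : ∃ C₀ > 0, ∀ (S : Set ℂ), IsOpen S → ∀ f : ℂ → ℂ, DifferentiableOn ℂ f S →
    ∀ w r, 0 < r → Metric.closedBall w r ⊆ S →
    ‖f w‖ ≤ C₀ / r ^ 2 * ∫ y in Metric.closedBall w r, ‖f y‖ := by
  refine ⟨Real.pi⁻¹, by positivity, ?_⟩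
  intro S hS f hf w r hr hb
  have h1 := MeanN_area hf hb hS
  have h2 : ‖∫ y in Metric.closedBall (0 : ℂ) r, f (w + y)‖ ≤
      ∫ y in Metric.closedBall (0 : ℂ) r, ‖f (w + y)‖ := norm_integral_le_integral_norm _
  have hvol : (volume (Metric.closedBall (0 : ℂ) r)).toReal = r ^ 2 * Real.pi := by
    rw [Complex.volume_closedBall]
    simp [hr.le]
  rw [h1, hvol, norm_smul, Real.norm_of_nonneg (by positivity)] at h2
  rw [MeanN_shift w r (fun y => ‖f y‖)]
  have h3 : (0 : ℝ) < r ^ 2 * Real.pi := by positivity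
  have h4 : Real.pi⁻¹ / r ^ 2 = (r ^ 2 * Real.pi)⁻¹ := by
    rw [mul_inv]
    ring
  rw [h4, ← div_eq_inv_mul, le_div_iff₀ h3, mul_comm]
  exact h2

/-- the coordinate line through `x` in the direction `i` -/
private noncomputable def MeanN_L (i : Fin n) : ℂ →L[ℝ] (Fin n → ℂ) :=
  (ContinuousLinearMap.single ℝ (fun _ : Fin n => ℂ) i)

private theorem MeanN_upd (x : Fin n → ℂ) (i : Fin n) (w : ℂ) :
    Function.update x i w = MeanN_L i w + Function.update x i 0 := by
  funext j
  by_cases hj : j = i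
  · subst hj
    simp [MeanN_L]
  · simp [MeanN_L, hj]

private theorem MeanN_upd_ball {x x₀ : Fin n → ℂ} {r : ℝ} (hx : x ∈ Metric.closedBall x₀ r)
    (i : Fin n) {w : ℂ} (hw : w ∈ Metric.closedBall (x₀ i) r) :
    Function.update x i w ∈ Metric.closedBall x₀ r := by
  rw [Metric.mem_closedBall] at hx hw ⊢
  have hr : 0 ≤ r := dist_nonneg.trans hw
  rw [dist_pi_le_iff hr] at hx ⊢
  intro j
  by_cases hj : j = i
  · subst hj
    rw [Function.update_self]
    exact hw
  · rw [Function.update_of_ne hj]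
    exact hx j

private theorem MeanN_upd_cont (x : Fin n → ℂ) (i : Fin n) :
    Continuous fun w : ℂ => Function.update x i w := by
  exact continuous_const.update i continuous_id

private theorem MeanN_upd_self {x x₀ : Fin n → ℂ} {i : Fin n} (h : x i = x₀ i) :
    Function.update x i (x₀ i) = x := by
  rw [← h, Function.update_eq_self]

theorem holo_mean (n : ℕ) : ∃ C₀ > 0, ∀ (S : Set (Fin n → ℂ)), IsOpen S →
    ∀ f : (Fin n → ℂ) → ℂ, DifferentiableOn ℂ f S →
    ∀ x r, 0 < r → Metric.closedBall x r ⊆ S →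
    ‖f x‖ ≤ C₀ / r ^ (2 * n) * ∫ y in Metric.closedBall x r, ‖f y‖ := by
  obtain ⟨C₁, hC₁, h1⟩ := holo_mean_one
  refine ⟨C₁ ^ n, pow_pos hC₁ n, ?_⟩
  intro S hS f hf x₀ r hr hb
  have h2 : C₁ ^ n / r ^ (2 * n) = (C₁ / r ^ 2) ^ n := by rw [div_pow, ← pow_mul]
  rw [h2]
  refine mean_iter n (by positivity) hr hS hf.continuousOn.norm (fun x _ => norm_nonneg _) hb ?_
  intro i x hx hxi
  have h3 := h1 ((fun w : ℂ => Function.update x i w) ⁻¹' S) (hS.preimage (MeanN_upd_cont x i))
    (fun w => f (Function.update x i w)) ?_ (x₀ i) r hr ?_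
  · rw [MeanN_upd_self hxi] at h3
    exact h3
  · intro w hw
    have h4 : DifferentiableAt ℂ f (Function.update x i w) :=
      (hf _ hw).differentiableAt (hS.mem_nhds hw)
    have h5 : DifferentiableAt ℂ (fun w : ℂ => Function.update x i w) w :=
      (hasFDerivAt_update x w).differentiableAt
    exact (DifferentiableAt.comp w h4 h5).differentiableWithinAt
  · intro w hw
    exact hb (MeanN_upd_ball hx i hw)

/-- `lev D ≥ 0` if `lev (log D) ≥ 0` -/
private theorem MeanN_lev {S : Set ℂ} (hS : IsOpen S) {D : ℂ → ℝ} (hD : ContDiffOn ℝ ∞ D S)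
    (hpos : ∀ w ∈ S, 0 < D w) {w : ℂ} (hw : w ∈ S)
    (hlev : 0 ≤ KQ.lev (fun x => Real.log (D x)) w) : 0 ≤ KQ.lev D w := by
  have hSo : S ∈ 𝓝 w := hS.mem_nhds hw
  have hψ : ContDiffOn ℝ ∞ (fun x => Real.log (D x)) S :=
    hD.log fun x hx => (hpos x hx).ne'
  have hψc : ContDiffOn ℝ ∞ (fun x => ((Real.log (D x) : ℝ) : ℂ)) S :=
    Complex.ofRealCLM.contDiff.comp_contDiffOn hψ
  have hDc : ContDiffOn ℝ ∞ (fun x => ((D x : ℝ) : ℂ)) S :=
    Complex.ofRealCLM.contDiff.comp_contDiffOn hD
  have hψd : ∀ x ∈ S, DifferentiableAt ℝ (fun y => Real.log (D y)) x := fun x hx =>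
    (hψ.contDiffAt (hS.mem_nhds hx)).differentiableAt (by simp)
  have hcongr : ∀ x ∈ S, (fun y => ((D y : ℝ) : ℂ)) =ᶠ[𝓝 x]
      (fun y => ((Real.exp (Real.log (D y)) : ℝ) : ℂ)) := by
    intro x hx
    filter_upwards [hS.mem_nhds hx] with y hy
    rw [Real.exp_log (hpos y hy)]
  have hb : ∀ x ∈ S, KQ.dwb (fun y => ((D y : ℝ) : ℂ)) x =
      (D x : ℂ) * KQ.dwb (fun y => ((Real.log (D y) : ℝ) : ℂ)) x := by
    intro x hx
    refine (KQ.wdb_congr (hcongr x hx)).trans ?_
    refine (KQ.wdb_ofReal_comp (hψd x hx) (Real.hasDerivAt_exp _)).trans ?_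
    rw [Real.exp_log (hpos x hx)]
  have hd : KQ.dw (fun y => ((D y : ℝ) : ℂ)) w =
      (D w : ℂ) * KQ.dw (fun y => ((Real.log (D y) : ℝ) : ℂ)) w := by
    refine (KQ.wd_congr (hcongr w hw)).trans ?_
    refine (KQ.wd_ofReal_comp (hψd w hw) (Real.hasDerivAt_exp _)).trans ?_
    rw [Real.exp_log (hpos w hw)]
  have hev : KQ.dwb (fun y => ((D y : ℝ) : ℂ)) =ᶠ[𝓝 w]
      (fun x => (D x : ℂ) * KQ.dwb (fun y => ((Real.log (D y) : ℝ) : ℂ)) x) := by
    filter_upwards [hSo] with x hx using hb x hx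
  have hDd : DifferentiableAt ℝ (fun x => ((D x : ℝ) : ℂ)) w :=
    (hDc.contDiffAt hSo).differentiableAt (by simp)
  have hbd : DifferentiableAt ℝ (KQ.dwb (fun y => ((Real.log (D y) : ℝ) : ℂ))) w :=
    ((KQ.contDiffOn_wdb hS hψc).contDiffAt hSo).differentiableAt (by simp)
  have hconj : KQ.dw (fun y => ((Real.log (D y) : ℝ) : ℂ)) w =
      conj (KQ.dwb (fun y => ((Real.log (D y) : ℝ) : ℂ)) w) := by
    have h1 := KQ.wd_conj (e := (1 : ℂ)) (e' := I)
      (f := fun y => ((Real.log (D y) : ℝ) : ℂ)) (x := w)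
    simp only [conj_ofReal] at h1
    exact h1
  have h2 : KQ.dw (KQ.dwb (fun y => ((D y : ℝ) : ℂ))) w =
      (D w : ℂ) * ((Complex.normSq (KQ.dwb (fun y => ((Real.log (D y) : ℝ) : ℂ)) w) : ℝ) : ℂ) +
        (D w : ℂ) * KQ.dw (KQ.dwb (fun y => ((Real.log (D y) : ℝ) : ℂ))) w := by
    refine (KQ.wd_congr hev).trans ?_
    refine (KQ.wd_mul hDd hbd).trans ?_
    have h1 : KQ.wd (1 : ℂ) I (fun y => ((D y : ℝ) : ℂ)) w =
        (D w : ℂ) * conj (KQ.dwb (fun y => ((Real.log (D y) : ℝ) : ℂ)) w) := by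
      rw [← hconj]
      exact hd
    rw [h1, mul_assoc, Complex.normSq_eq_conj_mul_self]
  have h4 := hpos w hw
  unfold KQ.lev at hlev ⊢
  rw [h2, Complex.add_re, Complex.re_ofReal_mul, Complex.re_ofReal_mul, Complex.ofReal_re]
  have h5 := Complex.normSq_nonneg (KQ.dwb (fun y => ((Real.log (D y) : ℝ) : ℂ)) w)
  positivity

private theorem MeanN_levT {M : Set (Fin n → ℂ)} (hM : IsOpen M) {D : (Fin n → ℂ) → ℝ}
    (hD : ContDiffOn ℝ ∞ D M) (hpos : ∀ x ∈ M, 0 < D x) (x : Fin n → ℂ) (i : Fin n) {w : ℂ}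
    (hw : Function.update x i w ∈ M) :
    KQ.lev (fun z => Real.log (D (Function.update x i z))) w =
      (TN D i i (Function.update x i w)).re := by
  have hψc : ContDiffOn ℝ ∞ (fun x => ((Real.log (D x) : ℝ) : ℂ)) M :=
    Complex.ofRealCLM.contDiff.comp_contDiffOn (hD.log fun x hx => (hpos x hx).ne')
  have hw' : MeanN_L i w + Function.update x i 0 ∈ M := by
    rw [← MeanN_upd]
    exact hw
  have h1 := wd_wdb_affine (MeanN_L i) (Function.update x i 0) hM hψc hw' (1 : ℂ) I (1 : ℂ) I
  have hL1 : MeanN_L i (1 : ℂ) = ux i := rfl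
  have hLI : MeanN_L i I = uy i := rfl
  rw [hL1, hLI] at h1
  have h2 : (fun z => ((Real.log (D (Function.update x i z)) : ℝ) : ℂ)) =
      fun z => ((Real.log (D (MeanN_L i z + Function.update x i 0)) : ℝ) : ℂ) := by
    funext z
    rw [← MeanN_upd]
  unfold KQ.lev
  rw [h2, MeanN_upd x i w]
  exact congrArg Complex.re h1

/-- The mean value inequality for the density: `D` is subharmonic in every variable
(`∂_i∂̄_i D = D (T_{ii} + |∂_i log D|²) ≥ 0`), `KQ.submean` and `mean_iter`. -/
theorem NData.upper (n : ℕ) : ∃ C₀ > 0, ∀ (M : Set (Fin n → ℂ)) (D : (Fin n → ℂ) → ℝ)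
    (G : Fin n → (Fin n → ℂ) → ℝ) (a τ : ℝ) (t : Fin n → ℂ → ℝ) (α β : Fin n → ℂ)
    (η : ℕ → (Fin n → ℂ) → ℝ), NData M D G a τ t α β η →
    ∀ x r, 0 < r → Metric.closedBall x r ⊆ M → D x ≤ C₀ / r ^ (2 * n) * ∫ y in M, D y := by
  obtain ⟨C₁, hC₁, h1⟩ := KQ.submean
  refine ⟨C₁ ^ n, pow_pos hC₁ n, ?_⟩
  intro M D G a τ t α β η P x₀ r hr hb
  have h2 : C₁ ^ n / r ^ (2 * n) = (C₁ / r ^ 2) ^ n := by rw [div_pow, ← pow_mul]
  rw [h2]
  have h3 : D x₀ ≤ (C₁ / r ^ 2) ^ n * ∫ y in Metric.closedBall x₀ r, D y := by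
    refine mean_iter n (by positivity) hr P.isOpen P.Dsmooth.continuousOn
      (fun x hx => (P.Dpos x hx).le) hb ?_
    intro i x hx hxi
    have hSo : IsOpen ((fun w : ℂ => Function.update x i w) ⁻¹' M) :=
      P.isOpen.preimage (MeanN_upd_cont x i)
    have hsm : ContDiffOn ℝ ∞ (fun w => D (Function.update x i w))
        ((fun w : ℂ => Function.update x i w) ⁻¹' M) := by
      have h6 : ContDiff ℝ ∞ (fun w : ℂ => Function.update x i w) := by
        have h5 : (fun w : ℂ => Function.update x i w) =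
            fun w => MeanN_L i w + Function.update x i 0 := by
          funext w
          exact MeanN_upd x i w
        rw [h5]
        exact (MeanN_L i).contDiff.add contDiff_const
      exact P.Dsmooth.comp h6.contDiffOn (fun w hw => hw)
    have h4 := h1 ((fun w : ℂ => Function.update x i w) ⁻¹' M) hSo
      (fun w => D (Function.update x i w)) hsm (fun w hw => (P.Dpos _ hw).le) ?_ (x₀ i) r hr ?_
    · simp only [MeanN_upd_self hxi] at h4
      exact h4
    · intro w hw
      refine MeanN_lev hSo hsm (fun z hz => P.Dpos _ hz) hw ?_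
      rw [MeanN_levT P.isOpen P.Dsmooth P.Dpos x i hw]
      exact (P.T i _ hw).1
    · intro w hw
      exact hb (MeanN_upd_ball hx i hw)
  refine h3.trans (mul_le_mul_of_nonneg_left ?_ (by positivity))
  apply setIntegral_mono_set P.integrable
  · filter_upwards [self_mem_ae_restrict P.isOpen.measurableSet] with y hy
    exact (P.Dpos y hy).le
  · exact LE.le.eventuallyLE hb

end KN
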