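import Pool.Agent.Lib_MP_3ea2ac_kn.Ins

/-! Elementary facts on polynomials in several variables. -/

open MeasureTheory Complex Set Topology Filter MvPolynomial

namespace KN

variable {n : ℕ}

private theorem ins_zero_eq (w : ℂ) (x : Fin n → ℂ) : ins 0 w x = (Fin.cons w x : Fin (n + 1) → ℂ) := by
  unfold ins
  rw [Fin.insertNth_zero]
  rfl

private theorem cont_eval (q : MvPolynomial (Fin n) ℂ) : Continuous fun x : Fin n → ℂ => eval x q := by
  induction q using MvPolynomial.induction_on with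
  | C a => simpa using continuous_const
  | add p q hp hq =>
    simp only [map_add]
    exact hp.add hq
  | mul_X p i hp =>
    simp only [map_mul, eval_X]
    exact hp.mul (continuous_apply i)

/-- The zero set of a nonzero polynomial is a null set. -/
theorem ae_eval_ne {q : MvPolynomial (Fin n) ℂ} (hq : q ≠ 0) : ∀ᵐ x : Fin n → ℂ, eval x q ≠ 0 := by
  induction n with
  | zero =>
    refine Eventually.of_forall fun x => ?_
    intro h
    apply hq
    rw [eq_C_of_isEmpty q] at h ⊢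
    rw [eval_C] at h
    rw [h, C_0]
  | succ n ih =>
    have h1 : finSuccEquiv ℂ n q ≠ 0 := fun h => hq (by
      have := congrArg (finSuccEquiv ℂ n).symm h
      simpa using this)
    have h2 : (finSuccEquiv ℂ n q).leadingCoeff ≠ 0 := Polynomial.leadingCoeff_ne_zero.2 h1
    have h3 := ih h2
    have hm : MeasurableSet {x : Fin (n + 1) → ℂ | eval x q ≠ 0} :=
      ((isClosed_eq (cont_eval q) continuous_const).isOpen_compl).measurableSet
    have key : ∀ᵐ x : Fin n → ℂ, ∀ᵐ w : ℂ, ins 0 w x ∈ {x : Fin (n + 1) → ℂ | eval x q ≠ 0} := ?_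
    · exact ae_of_ae_line 0 hm key
    filter_upwards [h3] with x hx
    have h4 : Polynomial.map (eval x) (finSuccEquiv ℂ n q) ≠ 0 := by
      intro h
      apply hx
      have := congrArg (fun p => Polynomial.coeff p (finSuccEquiv ℂ n q).natDegree) h
      simpa [Polynomial.coeff_map] using this
    have h5 : {w : ℂ | Polynomial.eval w (Polynomial.map (eval x) (finSuccEquiv ℂ n q)) = 0}.Finite := by
      have := (Polynomial.map (eval x) (finSuccEquiv ℂ n q)).roots.toFinset.finite_toSet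
      refine this.subset ?_
      intro w hw
      simp only [Finset.mem_coe, Multiset.mem_toFinset]
      exact (Polynomial.mem_roots h4).2 hw
    have h6 : ∀ᵐ w : ℂ, w ∉ {w : ℂ | Polynomial.eval w (Polynomial.map (eval x) (finSuccEquiv ℂ n q)) = 0} :=
      measure_eq_zero_iff_ae_notMem.1 (h5.measure_zero volume)
    filter_upwards [h6] with w hw
    have hw' : Polynomial.eval w (Polynomial.map (eval x) (finSuccEquiv ℂ n q)) ≠ 0 := fun h => hw h
    rw [← eval_eq_eval_mv_eval', ← ins_zero_eq] at hw'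
    exact hw'

theorem continuous_evalN (q : MvPolynomial (Fin n) ℂ) : Continuous fun x : Fin n → ℂ => eval x q :=
  cont_eval q

theorem differentiable_evalN (q : MvPolynomial (Fin n) ℂ) :
    Differentiable ℂ fun x : Fin n → ℂ => eval x q := by
  induction q using MvPolynomial.induction_on with
  | C a => simp
  | add p q hp hq =>
    simp only [map_add]
    exact hp.add hq
  | mul_X p i hp =>
    simp only [map_mul, eval_X]
    exact hp.mul (differentiable_apply i)

theorem eval_growth (q : MvPolynomial (Fin n) ℂ) :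
    ∃ K : ℝ, ∃ L : ℕ, 1 ≤ K ∧ ∀ x : Fin n → ℂ, ‖eval x q‖ ≤ K * (1 + ‖x‖) ^ L := by
  induction q using MvPolynomial.induction_on with
  | C a => exact ⟨max 1 ‖a‖, 0, le_max_left _ _, fun x => by simp⟩
  | add p q hp hq =>
    obtain ⟨K, L, hK, h⟩ := hp
    obtain ⟨K', L', hK', h'⟩ := hq
    refine ⟨K + K', L + L', by linarith, fun x => ?_⟩
    have hx : 1 ≤ 1 + ‖x‖ := by linarith [norm_nonneg x]
    have e1 : (1 + ‖x‖) ^ L ≤ (1 + ‖x‖) ^ (L + L') := pow_le_pow_right₀ hx (by omega)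
    have e2 : (1 + ‖x‖) ^ L' ≤ (1 + ‖x‖) ^ (L + L') := pow_le_pow_right₀ hx (by omega)
    calc ‖eval x (p + q)‖ ≤ ‖eval x p‖ + ‖eval x q‖ := by rw [map_add]; exact norm_add_le _ _
      _ ≤ K * (1 + ‖x‖) ^ L + K' * (1 + ‖x‖) ^ L' := add_le_add (h x) (h' x)
      _ ≤ K * (1 + ‖x‖) ^ (L + L') + K' * (1 + ‖x‖) ^ (L + L') := by gcongr
      _ = (K + K') * (1 + ‖x‖) ^ (L + L') := by ring
  | mul_X p i hp =>
    obtain ⟨K, L, hK, h⟩ := hp
    refine ⟨K, L + 1, hK, fun x => ?_⟩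
    have e : ‖x i‖ ≤ 1 + ‖x‖ := (norm_le_pi_norm x i).trans (by linarith)
    have hx : 0 ≤ 1 + ‖x‖ := by linarith [norm_nonneg x]
    calc ‖eval x (p * X i)‖ = ‖eval x p‖ * ‖x i‖ := by simp
      _ ≤ K * (1 + ‖x‖) ^ L * (1 + ‖x‖) := mul_le_mul (h x) e (norm_nonneg _) (by positivity)
      _ = K * (1 + ‖x‖) ^ (L + 1) := by ring

private theorem eval_lip (q : MvPolynomial (Fin n) ℂ) :
    ∃ K : ℝ, ∃ L : ℕ, 1 ≤ K ∧ ∀ x y : Fin n → ℂ, dist y x ≤ 1 →
      ‖eval y q - eval x q‖ ≤ K * (1 + ‖x‖) ^ L * dist y x := by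
  induction q using MvPolynomial.induction_on with
  | C a => exact ⟨1, 0, le_rfl, fun x y _ => by simp [dist_nonneg]⟩
  | add p q hp hq =>
    obtain ⟨K, L, hK, h⟩ := hp
    obtain ⟨K', L', hK', h'⟩ := hq
    refine ⟨K + K', L + L', by linarith, fun x y hxy => ?_⟩
    have hx : 1 ≤ 1 + ‖x‖ := by linarith [norm_nonneg x]
    have e1 : (1 + ‖x‖) ^ L ≤ (1 + ‖x‖) ^ (L + L') := pow_le_pow_right₀ hx (by omega)
    have e2 : (1 + ‖x‖) ^ L' ≤ (1 + ‖x‖) ^ (L + L') := pow_le_pow_right₀ hx (by omega)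
    have hd : 0 ≤ dist y x := dist_nonneg
    calc ‖eval y (p + q) - eval x (p + q)‖ = ‖(eval y p - eval x p) + (eval y q - eval x q)‖ := by
          congr 1; simp only [map_add]; ring
      _ ≤ ‖eval y p - eval x p‖ + ‖eval y q - eval x q‖ := norm_add_le _ _
      _ ≤ K * (1 + ‖x‖) ^ L * dist y x + K' * (1 + ‖x‖) ^ L' * dist y x :=
          add_le_add (h x y hxy) (h' x y hxy)
      _ ≤ K * (1 + ‖x‖) ^ (L + L') * dist y x + K' * (1 + ‖x‖) ^ (L + L') * dist y x := by gcongr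
      _ = (K + K') * (1 + ‖x‖) ^ (L + L') * dist y x := by ring
  | mul_X p i hp =>
    obtain ⟨K, L, hK, h⟩ := hp
    obtain ⟨K', L', hK', h'⟩ := eval_growth p
    refine ⟨K + K', L + L' + 1, by linarith, fun x y hxy => ?_⟩
    have hx : 1 ≤ 1 + ‖x‖ := by linarith [norm_nonneg x]
    have hd : 0 ≤ dist y x := dist_nonneg
    have ey : ‖y i‖ ≤ 1 + ‖x‖ := by
      have h1 : ‖y‖ ≤ ‖x‖ + 1 := by
        have := norm_sub_norm_le y x
        rw [dist_eq_norm] at hxy
        linarith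
      exact (norm_le_pi_norm y i).trans (by linarith)
    have exy : ‖y i - x i‖ ≤ dist y x := by
      rw [← dist_eq_norm]
      exact dist_le_pi_dist y x i
    have e1 : (1 + ‖x‖) ^ L * (1 + ‖x‖) ≤ (1 + ‖x‖) ^ (L + L' + 1) := by
      rw [← pow_succ]
      exact pow_le_pow_right₀ hx (by omega)
    have e2 : (1 + ‖x‖) ^ L' ≤ (1 + ‖x‖) ^ (L + L' + 1) := pow_le_pow_right₀ hx (by omega)
    calc ‖eval y (p * X i) - eval x (p * X i)‖
        = ‖(eval y p - eval x p) * y i + eval x p * (y i - x i)‖ := by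
          congr 1; simp only [map_mul, eval_X]; ring
      _ ≤ ‖eval y p - eval x p‖ * ‖y i‖ + ‖eval x p‖ * ‖y i - x i‖ := by
          refine (norm_add_le _ _).trans ?_
          rw [norm_mul, norm_mul]
      _ ≤ K * (1 + ‖x‖) ^ L * dist y x * (1 + ‖x‖) + K' * (1 + ‖x‖) ^ L' * dist y x := by
          refine add_le_add (mul_le_mul (h x y hxy) ey (norm_nonneg _) (by positivity))
            (mul_le_mul (h' x) exy (norm_nonneg _) (by positivity))
      _ = K * ((1 + ‖x‖) ^ L * (1 + ‖x‖)) * dist y x + K' * (1 + ‖x‖) ^ L' * dist y x := by ring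
      _ ≤ K * (1 + ‖x‖) ^ (L + L' + 1) * dist y x + K' * (1 + ‖x‖) ^ (L + L' + 1) * dist y x := by
          gcongr
      _ = (K + K') * (1 + ‖x‖) ^ (L + L' + 1) * dist y x := by ring

/-- `|q| ≥ |q(x)|/2` on a ball around `x` whose radius is polynomially controlled. -/
theorem poly_ball (q : MvPolynomial (Fin n) ℂ) : ∃ c : ℝ, 0 < c ∧ ∃ L : ℕ, ∀ x : Fin n → ℂ,
    c * ‖eval x q‖ / (1 + ‖x‖) ^ L ≤ 1 ∧
    ∀ y, dist y x ≤ c * ‖eval x q‖ / (1 + ‖x‖) ^ L → ‖eval x q‖ / 2 ≤ ‖eval y q‖ := by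
  obtain ⟨K, L, hK, h⟩ := eval_growth q
  obtain ⟨K', L', hK', h'⟩ := eval_lip q
  refine ⟨1 / (2 * (K + K')), by positivity, L + L', fun x => ?_⟩
  have hx : 1 ≤ 1 + ‖x‖ := by linarith [norm_nonneg x]
  have hp : 0 < (1 + ‖x‖) ^ (L + L') := by positivity
  have e1 : (1 + ‖x‖) ^ L ≤ (1 + ‖x‖) ^ (L + L') := pow_le_pow_right₀ hx (by omega)
  have e2 : (1 + ‖x‖) ^ L' ≤ (1 + ‖x‖) ^ (L + L') := pow_le_pow_right₀ hx (by omega)
  have hq : 0 ≤ ‖eval x q‖ := norm_nonneg _
  have hb : 1 / (2 * (K + K')) * ‖eval x q‖ / (1 + ‖x‖) ^ (L + L') ≤ 1 := by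
    rw [div_le_one hp, one_div, inv_mul_le_iff₀ (by positivity)]
    calc ‖eval x q‖ ≤ K * (1 + ‖x‖) ^ L := h x
      _ ≤ K * (1 + ‖x‖) ^ (L + L') := by gcongr
      _ ≤ 2 * (K + K') * (1 + ‖x‖) ^ (L + L') := by
          apply mul_le_mul_of_nonneg_right _ hp.le
          linarith
  refine ⟨hb, fun y hy => ?_⟩
  have h1 := h' x y (hy.trans hb)
  have h2 : ‖eval y q - eval x q‖ ≤ ‖eval x q‖ / 2 := by
    calc ‖eval y q - eval x q‖ ≤ K' * (1 + ‖x‖) ^ L' * dist y x := h1
      _ ≤ K' * (1 + ‖x‖) ^ (L + L') * (1 / (2 * (K + K')) * ‖eval x q‖ / (1 + ‖x‖) ^ (L + L')) := by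
          gcongr
      _ = K' / (K + K') * (‖eval x q‖ / 2) := by field_simp
      _ ≤ 1 * (‖eval x q‖ / 2) := by
          apply mul_le_mul_of_nonneg_right _ (by positivity)
          rw [div_le_one (by positivity)]
          linarith
      _ = ‖eval x q‖ / 2 := one_mul _
  have h3 : ‖eval x q‖ - ‖eval y q‖ ≤ ‖eval y q - eval x q‖ := by
    rw [norm_sub_rev]
    exact norm_sub_norm_le _ _
  linarith

end KN
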