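import Pool.Agent.Lib_MP_3ea2ac_kn.PS
import Pool.Agent.Lib_MP_3ea2ac_kn.Card
import Pool.Agent.Lib_MP_3ea2ac_kn.MeanN
import Pool.Agent.Lib_MP_3ea2ac_kn.Poly

/-! Polynomial growth of the power sums. -/

open MeasureTheory Complex Set Topology Filter MvPolynomial
open scoped ComplexConjugate ContDiff ComplexOrder

namespace KN

variable {n : ℕ} {M : Set (Fin (n + 1) → ℂ)} {D : (Fin (n + 1) → ℂ) → ℝ}
  {G : Fin (n + 1) → (Fin (n + 1) → ℂ) → ℝ} {a τ : ℝ} {t : Fin (n + 1) → ℂ → ℝ}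
  {α β : Fin (n + 1) → ℂ} {η : ℕ → (Fin (n + 1) → ℂ) → ℝ}
  {G' : Fin n → (Fin n → ℂ) → ℝ} {a' τ' : ℝ} {t' : Fin n → ℂ → ℝ}
  {α' β' : Fin n → ℂ} {η' : ℕ → (Fin n → ℂ) → ℝ}

/-- The constant of the line slices grows polynomially. -/
theorem NData.const_growth (P : NData M D G a τ t α β η) (i : Fin (n + 1)) :
    ∃ K : ℝ, ∃ L : ℕ, 0 ≤ K ∧ ∀ x : Fin n → ℂ, (∃ w, ins i w x ∈ M) →
      0 ≤ τ * ∏ j, t (i.succAbove j) (x j) ∧
      τ * ∏ j, t (i.succAbove j) (x j) ≤ K * (1 + ‖x‖) ^ L := by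
  choose Kt hKt using P.tgrowth
  refine ⟨τ * ∏ j, max (Kt (i.succAbove j)) 0, 4 * n, ?_, ?_⟩
  · exact mul_nonneg P.τ_nonneg (Finset.prod_nonneg fun j _ => le_max_right _ _)
  · rintro x ⟨w, hw⟩
    refine ⟨mul_nonneg P.τ_nonneg (Finset.prod_nonneg fun j _ => P.tnonneg _ _), ?_⟩
    rw [mul_assoc]
    refine mul_le_mul_of_nonneg_left ?_ P.τ_nonneg
    have h1 : ∏ j, t (i.succAbove j) (x j) ≤
        ∏ j : Fin n, (max (Kt (i.succAbove j)) 0 * (1 + ‖x‖) ^ 4) := by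
      refine Finset.prod_le_prod (fun j _ => P.tnonneg _ _) fun j _ => ?_
      have h2 := P.omits _ hw (i.succAbove j)
      rw [ins_succAbove] at h2
      refine (hKt (i.succAbove j) (x j) h2.1 h2.2).trans ?_
      have h3 : ‖x j‖ ≤ ‖x‖ := norm_le_pi_norm x j
      have h4 : (0 : ℝ) ≤ (1 + ‖x j‖) ^ 4 := by positivity
      calc Kt (i.succAbove j) * (1 + ‖x j‖) ^ 4 ≤ max (Kt (i.succAbove j)) 0 * (1 + ‖x j‖) ^ 4 :=
            mul_le_mul_of_nonneg_right (le_max_left _ _) h4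
        _ ≤ max (Kt (i.succAbove j)) 0 * (1 + ‖x‖) ^ 4 := by
            refine mul_le_mul_of_nonneg_left ?_ (le_max_right _ _)
            gcongr
    refine h1.trans (le_of_eq ?_)
    rw [Finset.prod_mul_distrib, Finset.prod_const, Finset.card_univ, Fintype.card_fin, ← pow_mul]

/-- The density on the hyperplane `x_i = w₁`: `NData.upper` and `poly_ball`. -/
theorem NData.density_growth {D' : (Fin n → ℂ) → ℝ} {N : Set (Fin n → ℂ)}
    (P' : NData N D' G' a' τ' t' α' β' η') {q : MvPolynomial (Fin n) ℂ}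
    (hΩ : ∀ x : Fin n → ℂ, x ∈ N ↔ eval x q ≠ 0) :
    ∃ K : ℝ, ∃ A B : ℕ, 0 ≤ K ∧ ∀ x ∈ N, D' x * ‖eval x q‖ ^ A ≤ K * (1 + ‖x‖) ^ B := by
  obtain ⟨C₀, hC₀, hup⟩ := NData.upper n
  obtain ⟨c, hc, L, hball⟩ := poly_ball q
  have hI : 0 ≤ ∫ y in N, D' y := setIntegral_nonneg P'.isOpen.measurableSet fun y hy => (P'.Dpos y hy).le
  refine ⟨C₀ * (∫ y in N, D' y) / c ^ (2 * n), 2 * n, L * (2 * n), by positivity, ?_⟩
  intro x hx
  have hq : 0 < ‖eval x q‖ := norm_pos_iff.2 ((hΩ x).1 hx)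
  have hx1 : 0 < 1 + ‖x‖ := by positivity
  obtain ⟨-, hb⟩ := hball x
  set r : ℝ := c * ‖eval x q‖ / (1 + ‖x‖) ^ L with hr
  have hr0 : 0 < r := by positivity
  have hsub : Metric.closedBall x r ⊆ N := by
    intro y hy
    refine (hΩ y).2 fun h0 => ?_
    have h1 := hb y hy
    rw [h0, norm_zero] at h1
    linarith
  have h1 := hup N D' G' a' τ' t' α' β' η' P' x r hr0 hsub
  have h2 : D' x * ‖eval x q‖ ^ (2 * n) ≤
      C₀ / r ^ (2 * n) * (∫ y in N, D' y) * ‖eval x q‖ ^ (2 * n) :=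
    mul_le_mul_of_nonneg_right h1 (by positivity)
  refine h2.trans (le_of_eq ?_)
  rw [hr, div_pow, mul_pow, ← pow_mul]
  field_simp

private theorem Growth_psum {S : Set ℂ} {Dx Gx : ℂ → ℝ} {ax Cx : ℝ} {ηx : ℕ → ℂ → ℝ}
    (sd : KQ.SliceData S Dx Gx ax Cx ηx) (w₁ : ℂ) (k : ℕ) {E : ℝ} (hE : 0 ≤ E)
    (hdist : ∀ p ∉ S, 1 ≤ E * ‖w₁ - p‖) :
    ‖∑ᶠ (p : ℂ) (_ : p ∈ Sᶜ), ((p - w₁) ^ k)⁻¹‖ ≤
      (1 + 6400 * (ax * Cx * ∫ w in S, Dx w)) * E ^ k := by
  have hfin := sd.finite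
  rw [finsum_mem_eq_finite_toFinset_sum _ hfin]
  have hT : ∀ p ∈ hfin.toFinset, p ∉ S := fun p hp => (hfin.mem_toFinset.1 hp)
  have h1 := sd.card_le hfin.toFinset hT
  refine (norm_sum_le _ _).trans ?_
  have h2 : ∀ p ∈ hfin.toFinset, ‖((p - w₁) ^ k)⁻¹‖ ≤ E ^ k := by
    intro p hp
    have h3 := hdist p (hT p hp)
    have h4 : 0 < ‖w₁ - p‖ := by
      by_contra h5
      have h6 : ‖w₁ - p‖ = 0 := le_antisymm (not_lt.1 h5) (norm_nonneg _)
      rw [h6, mul_zero] at h3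
      linarith
    rw [norm_inv, norm_pow, norm_sub_rev, ← inv_pow]
    refine pow_le_pow_left₀ (by positivity) ?_ k
    rw [inv_le_iff_one_le_mul₀ h4]
    exact h3
  refine (Finset.sum_le_sum h2).trans ?_
  rw [Finset.sum_const, nsmul_eq_mul]
  exact mul_le_mul_of_nonneg_right h1 (by positivity)

/-- The bound for almost every `x`: `|psum| ≤ #A_x · dist(w₁, A_x)^{-k}`, `SliceData.card_le`,
`dist_bound`; `V x = ∫ D` over the line. -/
theorem NData.psum_bound (P : NData M D G a τ t α β η) (i : Fin (n + 1)) {w₁ : ℂ}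
    (P' : NData (MH M i w₁) (fun x => D (ins i w₁ x)) G' a' τ' t' α' β' η')
    {q : MvPolynomial (Fin n) ℂ} (hΩ : ∀ x : Fin n → ℂ, ins i w₁ x ∈ M ↔ eval x q ≠ 0) (k : ℕ) :
    ∃ K : ℝ, ∃ A B : ℕ, 0 ≤ K ∧ ∀ᵐ x : Fin n → ℂ, eval x q ≠ 0 →
      ‖psum M i w₁ k x‖ * ‖eval x q‖ ^ A ≤
        K * (1 + ‖x‖) ^ B * (1 + ∫ w in ML M i x, D (ins i w x)) := by
  obtain ⟨KC, LC, hKC, hC⟩ := P.const_growth i
  obtain ⟨K₂, A₁, B₁, hK₂, hD⟩ := P'.density_growth (q := q) (fun x => hΩ x)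
  obtain ⟨K₃, L₃, hK₃, hq⟩ := eval_growth q
  obtain ⟨K₁, hK₁, hdb⟩ := KQ.dist_bound (P.ne i) a w₁
  have hK₃0 : 0 ≤ K₃ := zero_le_one.trans hK₃
  have ha := P.a_nonneg
  refine ⟨(K₁ * (K₃ ^ A₁ + KC * K₂)) ^ k * (1 + 6400 * (a * KC)), A₁ * k,
    (L₃ * A₁ + LC + B₁) * k + LC, by positivity, ?_⟩
  filter_upwards [P.line i] with x hline hqx
  have hw₁ : ins i w₁ x ∈ M := (hΩ x).2 hqx
  have sd := hline ⟨w₁, hw₁⟩
  obtain ⟨hC0, hC1⟩ := hC x ⟨w₁, hw₁⟩
  set Cx : ℝ := τ * ∏ j, t (i.succAbove j) (x j) with hCx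
  set V : ℝ := ∫ w in ML M i x, D (ins i w x) with hV
  have hV0 : 0 ≤ V := setIntegral_nonneg sd.isOpen.measurableSet fun w hw => (sd.Dpos w hw).le
  set X : ℝ := 1 + ‖x‖ with hX
  have hX1 : 1 ≤ X := by
    rw [hX]
    linarith [norm_nonneg x]
  have hX0 : 0 ≤ X := zero_le_one.trans hX1
  have hD₁0 : 0 < D (ins i w₁ x) := P.Dpos _ hw₁
  set E : ℝ := K₁ * (1 + Cx * D (ins i w₁ x)) with hE
  have hE0 : 0 ≤ E := by positivity
  have hαS : α i ∉ ML M i x := fun h => (P.omits _ h i).1 (by simp)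
  have hβS : β i ∉ ML M i x := fun h => (P.omits _ h i).2 (by simp)
  have hdist : ∀ p ∉ ML M i x, 1 ≤ E * ‖w₁ - p‖ := fun p hp =>
    hdb _ _ _ _ _ sd hαS hβS hw₁ p hp
  have h1 : ‖psum M i w₁ k x‖ ≤ (1 + 6400 * (a * Cx * V)) * E ^ k := Growth_psum sd w₁ k hE0 hdist
  clear_value E
  -- the first factor
  have h2 : 1 + 6400 * (a * Cx * V) ≤ (1 + 6400 * (a * KC)) * X ^ LC * (1 + V) := by
    have h3 : a * Cx * V ≤ a * (KC * X ^ LC) * V := by gcongr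
    have h4 : 1 ≤ X ^ LC := one_le_pow₀ hX1
    have h5 : 0 ≤ a * KC := by positivity
    have h6 : 0 ≤ a * KC * X ^ LC := by positivity
    have h7 : a * (KC * X ^ LC) * V = a * KC * X ^ LC * V := by ring
    nlinarith [mul_nonneg (zero_le_one.trans h4) hV0]
  -- the second factor
  have h3 : E * ‖eval x q‖ ^ A₁ ≤ K₁ * (K₃ ^ A₁ + KC * K₂) * X ^ (L₃ * A₁ + LC + B₁) := by
    have h4 : ‖eval x q‖ ^ A₁ ≤ K₃ ^ A₁ * X ^ (L₃ * A₁) := by
      calc ‖eval x q‖ ^ A₁ ≤ (K₃ * X ^ L₃) ^ A₁ := pow_le_pow_left₀ (norm_nonneg _) (hq x) _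
        _ = _ := by rw [mul_pow, ← pow_mul]
    have h5 : Cx * (D (ins i w₁ x) * ‖eval x q‖ ^ A₁) ≤ KC * X ^ LC * (K₂ * X ^ B₁) := by
      refine mul_le_mul hC1 (hD x hw₁) (by positivity) (by positivity)
    have h6 : K₃ ^ A₁ * X ^ (L₃ * A₁) ≤ K₃ ^ A₁ * X ^ (L₃ * A₁ + LC + B₁) :=
      mul_le_mul_of_nonneg_left (pow_le_pow_right₀ hX1 (by omega)) (by positivity)
    have h7 : KC * X ^ LC * (K₂ * X ^ B₁) ≤ KC * K₂ * X ^ (L₃ * A₁ + LC + B₁) := by
      calc KC * X ^ LC * (K₂ * X ^ B₁) = KC * K₂ * X ^ (LC + B₁) := by rw [pow_add]; ring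
        _ ≤ _ := mul_le_mul_of_nonneg_left (pow_le_pow_right₀ hX1 (by omega)) (by positivity)
    calc E * ‖eval x q‖ ^ A₁ = K₁ * (‖eval x q‖ ^ A₁ + Cx * (D (ins i w₁ x) * ‖eval x q‖ ^ A₁)) := by
          rw [hE]; ring
      _ ≤ K₁ * (K₃ ^ A₁ * X ^ (L₃ * A₁ + LC + B₁) + KC * K₂ * X ^ (L₃ * A₁ + LC + B₁)) := by
          refine mul_le_mul_of_nonneg_left ?_ hK₁.le
          linarith
      _ = _ := by ring
  calc ‖psum M i w₁ k x‖ * ‖eval x q‖ ^ (A₁ * k)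
      ≤ (1 + 6400 * (a * Cx * V)) * E ^ k * ‖eval x q‖ ^ (A₁ * k) :=
        mul_le_mul_of_nonneg_right h1 (by positivity)
    _ = (1 + 6400 * (a * Cx * V)) * (E * ‖eval x q‖ ^ A₁) ^ k := by
        rw [mul_pow, ← pow_mul]; ring
    _ ≤ ((1 + 6400 * (a * KC)) * X ^ LC * (1 + V)) *
        (K₁ * (K₃ ^ A₁ + KC * K₂) * X ^ (L₃ * A₁ + LC + B₁)) ^ k := by
        refine mul_le_mul h2 (pow_le_pow_left₀ (by positivity) h3 k) (by positivity) (by positivity)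
    _ = _ := by
        rw [mul_pow, pow_add X ((L₃ * A₁ + LC + B₁) * k) LC, pow_mul X (L₃ * A₁ + LC + B₁) k]
        ring

/-- The pointwise bound: mean value inequality (`holo_mean`) on the ball of `poly_ball`, and
`∫∫ D < ∞`. -/
theorem NData.growth (P : NData M D G a τ t α β η) (i : Fin (n + 1)) {w₁ : ℂ}
    (P' : NData (MH M i w₁) (fun x => D (ins i w₁ x)) G' a' τ' t' α' β' η')
    {q : MvPolynomial (Fin n) ℂ} (hΩ : ∀ x : Fin n → ℂ, ins i w₁ x ∈ M ↔ eval x q ≠ 0) {k : ℕ}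
    {F : (Fin n → ℂ) → ℂ} (hF : DifferentiableOn ℂ F (MH M i w₁))
    (hae : ∀ᵐ x, x ∈ MH M i w₁ → psum M i w₁ k x = F x) :
    ∃ K : ℝ, ∃ A B : ℕ, ∀ x, eval x q ≠ 0 → ‖F x‖ * ‖eval x q‖ ^ A ≤ K * (1 + ‖x‖) ^ B := by
  obtain ⟨Kp, Ap, Bp, hKp, hpb⟩ := P.psum_bound i P' hΩ k
  obtain ⟨C₀, hC₀, hmean⟩ := holo_mean n
  obtain ⟨c, hc, L, hball⟩ := poly_ball q
  -- the integrals over the lines
  set V : (Fin n → ℂ) → ℝ := fun x => ∫ w in ML M i x, D (ins i w x) with hV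
  have hfi : Integrable (M.indicator D) := (integrable_indicator_iff P.isOpen.measurableSet).2 P.integrable
  have hf0 : ∀ y, 0 ≤ M.indicator D y := fun y => Set.indicator_nonneg (fun z hz => (P.Dpos z hz).le) y
  have hVeq : ∀ x, V x = ∫ w : ℂ, ‖M.indicator D (ins i w x)‖ := by
    intro x
    rw [hV]
    simp only
    rw [← integral_indicator (isOpen_ML P.isOpen i x).measurableSet]
    refine integral_congr_ae (Eventually.of_forall fun w => ?_)
    simp only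
    rw [Real.norm_of_nonneg (hf0 _)]
    by_cases hw : ins i w x ∈ M
    · rw [Set.indicator_of_mem (show w ∈ ML M i x from hw), Set.indicator_of_mem hw]
    · rw [Set.indicator_of_notMem (show w ∉ ML M i x from hw), Set.indicator_of_notMem hw]
  have hVi : Integrable V := by
    have h1 := (integrable_line i hfi).2
    exact h1.congr (Eventually.of_forall fun x => (hVeq x).symm)
  have hV0 : ∀ x, 0 ≤ V x := fun x => by
    rw [hVeq]
    exact integral_nonneg fun w => norm_nonneg _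
  set v₁ : ℝ := volume.real (Metric.closedBall (0 : Fin n → ℂ) 1) with hv₁
  set J : ℝ := v₁ + ∫ x, V x with hJ
  have hJ0 : 0 ≤ J := by
    have h1 : 0 ≤ ∫ x, V x := integral_nonneg hV0
    have h2 : 0 ≤ v₁ := measureReal_nonneg
    linarith
  refine ⟨C₀ / c ^ (2 * n) * (Kp * 2 ^ Bp * 2 ^ Ap * J), 2 * n + Ap, Bp + L * (2 * n), ?_⟩
  intro x hx
  have hq0 : 0 < ‖eval x q‖ := norm_pos_iff.2 hx
  have hX0 : 0 < 1 + ‖x‖ := by positivity
  obtain ⟨hr1, hb⟩ := hball x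
  set r : ℝ := c * ‖eval x q‖ / (1 + ‖x‖) ^ L with hr
  have hr0 : 0 < r := by positivity
  have hMHo : IsOpen (MH M i w₁) := isOpen_MH P.isOpen i w₁
  have hqy : ∀ y ∈ Metric.closedBall x r, ‖eval x q‖ / 2 ≤ ‖eval y q‖ := fun y hy => hb y hy
  have hsub : Metric.closedBall x r ⊆ MH M i w₁ := by
    intro y hy
    refine (hΩ y).2 fun h0 => ?_
    have h1 := hqy y hy
    rw [h0, norm_zero] at h1
    linarith
  have h1 := hmean (MH M i w₁) hMHo F hF x r hr0 hsub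
  -- the bound of the integral
  have h2 : ∫ y in Metric.closedBall x r, ‖F y‖ ≤
      Kp * 2 ^ Bp * 2 ^ Ap * (1 + ‖x‖) ^ Bp / ‖eval x q‖ ^ Ap * J := by
    set κ : ℝ := Kp * 2 ^ Bp * 2 ^ Ap * (1 + ‖x‖) ^ Bp / ‖eval x q‖ ^ Ap with hκ
    have hκ0 : 0 ≤ κ := by positivity
    have hFi : IntegrableOn (fun y => ‖F y‖) (Metric.closedBall x r) :=
      ContinuousOn.integrableOn_compact (isCompact_closedBall x r) ((hF.continuousOn.mono hsub).norm)
    have hVi' : IntegrableOn (fun y => κ * (1 + V y)) (Metric.closedBall x r) := by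
      refine Integrable.const_mul ?_ κ
      refine Integrable.add ?_ hVi.integrableOn
      exact integrableOn_const (isCompact_closedBall x r).measure_lt_top.ne
    have h3 : ∫ y in Metric.closedBall x r, ‖F y‖ ≤ ∫ y in Metric.closedBall x r, κ * (1 + V y) := by
      refine setIntegral_mono_on_ae hFi hVi' Metric.isClosed_closedBall.measurableSet ?_
      filter_upwards [hpb, hae] with y hy1 hy2 hyb
      have hyM := hsub hyb
      have hqy0 : eval y q ≠ 0 := (hΩ y).1 hyM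
      have h4 := hy1 hqy0
      rw [hy2 hyM] at h4
      have h5 := hqy y hyb
      have h6 : (1 + ‖y‖) ≤ 2 * (1 + ‖x‖) := by
        have h7 : ‖y‖ ≤ ‖x‖ + 1 := by
          have h8 : dist y x ≤ 1 := (Metric.mem_closedBall.1 hyb).trans hr1
          rw [dist_eq_norm] at h8
          have h9 := norm_le_norm_add_norm_sub' y x
          linarith
        linarith [norm_nonneg x]
      have h7 : (‖eval x q‖ / 2) ^ Ap ≤ ‖eval y q‖ ^ Ap := pow_le_pow_left₀ (by positivity) h5 _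
      have h8 : ‖F y‖ * (‖eval x q‖ / 2) ^ Ap ≤ Kp * (2 * (1 + ‖x‖)) ^ Bp * (1 + V y) := by
        calc ‖F y‖ * (‖eval x q‖ / 2) ^ Ap ≤ ‖F y‖ * ‖eval y q‖ ^ Ap :=
              mul_le_mul_of_nonneg_left h7 (norm_nonneg _)
          _ ≤ Kp * (1 + ‖y‖) ^ Bp * (1 + V y) := h4
          _ ≤ _ := by
            have h9 := hV0 y
            gcongr
      have h9 : 0 < (‖eval x q‖ / 2) ^ Ap := by positivity
      calc ‖F y‖ ≤ Kp * (2 * (1 + ‖x‖)) ^ Bp * (1 + V y) / (‖eval x q‖ / 2) ^ Ap := by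
            rw [le_div_iff₀ h9]
            exact h8
        _ = κ * (1 + V y) := by
            rw [hκ, mul_pow, div_pow]
            field_simp
    refine h3.trans ?_
    rw [integral_const_mul]
    refine mul_le_mul_of_nonneg_left ?_ hκ0
    have hone : IntegrableOn (fun _ : Fin n → ℂ => (1 : ℝ)) (Metric.closedBall x r) :=
      integrableOn_const (isCompact_closedBall x r).measure_lt_top.ne
    rw [integral_add hone hVi.integrableOn, hJ]
    refine add_le_add ?_ (setIntegral_le_integral hVi (Eventually.of_forall hV0))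
    rw [setIntegral_const, smul_eq_mul, mul_one, hv₁]
    have h10 : volume.real (Metric.closedBall x r) ≤ volume.real (Metric.closedBall x 1) :=
      measureReal_mono (Metric.closedBall_subset_closedBall hr1)
        (isCompact_closedBall x 1).measure_lt_top.ne
    refine h10.trans (le_of_eq ?_)
    unfold Measure.real
    rw [Measure.addHaar_closedBall_center]
  have h3 : ‖F x‖ * ‖eval x q‖ ^ (2 * n + Ap) ≤
      C₀ / r ^ (2 * n) * (Kp * 2 ^ Bp * 2 ^ Ap * (1 + ‖x‖) ^ Bp / ‖eval x q‖ ^ Ap * J) *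
        ‖eval x q‖ ^ (2 * n + Ap) := by
    refine mul_le_mul_of_nonneg_right (h1.trans ?_) (by positivity)
    exact mul_le_mul_of_nonneg_left h2 (by positivity)
  refine h3.trans (le_of_eq ?_)
  rw [hr, div_pow, mul_pow, ← pow_mul, pow_add, pow_add]
  field_simp

end KN
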