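import Pool.Agent.Lib_MP_3ea2ac_kn.Schw
import Pool.Agent.Lib_MP_3ea2ac_kn.Err
import Pool.Agent.Lib_MP_3ea2ac_kn.Cut

/-! The data of `M` itself. -/

open MeasureTheory Complex Set Topology Filter
open scoped ComplexConjugate ContDiff ComplexOrder

namespace KN

variable {n : ℕ}

/-- `1 / ρ` grows at most like `|z|⁴`. -/
theorem rho_inv_growth {p q : ℂ} (hpq : p ≠ q) :
    ∃ K, ∀ z, z ≠ p → z ≠ q → 1 / KQ.rhoPQ p q (1 / 5) z ≤ K * (1 + ‖z‖) ^ 4 := by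
  have h0 : q - p ≠ 0 := sub_ne_zero.2 hpq.symm
  obtain ⟨b, hb⟩ : ∃ b : ℝ, b = ‖q - p‖ := ⟨_, rfl⟩
  have hb0 : 0 < b := by
    rw [hb]
    exact norm_pos_iff.2 h0
  obtain ⟨C, hC⟩ : ∃ C : ℝ, C = 1 + (1 + ‖p‖) / b := ⟨_, rfl⟩
  have hC0 : 0 ≤ C := by
    rw [hC]
    positivity
  refine ⟨b ^ 2 * C ^ 4, fun z hz hz' => ?_⟩
  obtain ⟨x, hx⟩ : ∃ x : ℂ, x = (z - p) / (q - p) := ⟨_, rfl⟩
  have hx0 : x ≠ 0 := by
    rw [hx]
    exact div_ne_zero (sub_ne_zero.2 hz) h0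
  have hx1 : x - 1 ≠ 0 := by
    have e : x - 1 = (z - q) / (q - p) := by
      rw [hx]
      field_simp
      ring
    rw [e]
    exact div_ne_zero (sub_ne_zero.2 hz') h0
  have n0 : 0 < ‖x‖ := norm_pos_iff.2 hx0
  have n1 : 0 < ‖x - 1‖ := norm_pos_iff.2 hx1
  have hxC : 1 + ‖x‖ ≤ C * (1 + ‖z‖) := by
    have h1 : ‖x‖ ≤ (‖z‖ + ‖p‖) / b := by
      rw [hx, norm_div, ← hb]
      exact div_le_div_of_nonneg_right (norm_sub_le _ _) hb0.le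
    have h2 : C * (1 + ‖z‖) = 1 + (‖z‖ + ‖p‖) / b + (‖z‖ + 1 / b + ‖p‖ * ‖z‖ / b) := by
      rw [hC]
      field_simp
      ring
    have h3 : 0 ≤ ‖z‖ + 1 / b + ‖p‖ * ‖z‖ / b := by positivity
    linarith
  obtain ⟨N, hN⟩ : ∃ N : ℝ, N = (1 + ‖x‖ ^ (2 * (1 / 5 : ℝ))) * (1 + ‖x - 1‖ ^ (2 * (1 / 5 : ℝ))) :=
    ⟨_, rfl⟩
  obtain ⟨Q, hQ⟩ : ∃ Q : ℝ, Q = (‖x‖ * ‖x - 1‖) ^ (2 - 2 * (1 / 5 : ℝ)) := ⟨_, rfl⟩
  have hr : KQ.rhoPQ p q (1 / 5) z = N / Q / b ^ 2 := by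
    rw [hN, hQ, hb, hx]
    rfl
  have hN1 : 1 ≤ N := by
    have m0 : 0 ≤ ‖x‖ ^ (2 * (1 / 5 : ℝ)) := Real.rpow_nonneg (norm_nonneg _) _
    have m1 : 0 ≤ ‖x - 1‖ ^ (2 * (1 / 5 : ℝ)) := Real.rpow_nonneg (norm_nonneg _) _
    rw [hN]
    nlinarith [mul_nonneg m0 m1]
  have hQ0 : 0 < Q := by
    rw [hQ]
    exact Real.rpow_pos_of_pos (mul_pos n0 n1) _
  have hQ1 : Q ≤ (1 + ‖x‖) ^ 4 := by
    have h1 : ‖x‖ * ‖x - 1‖ ≤ (1 + ‖x‖) ^ 2 := by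
      have h2 : ‖x - 1‖ ≤ ‖x‖ + 1 := by
        refine (norm_sub_le _ _).trans ?_
        rw [norm_one]
      nlinarith
    have h3 : (1 : ℝ) ≤ (1 + ‖x‖) ^ 2 := by nlinarith
    calc Q ≤ ((1 + ‖x‖) ^ 2) ^ (2 - 2 * (1 / 5 : ℝ)) := by
          rw [hQ]
          exact Real.rpow_le_rpow (mul_pos n0 n1).le h1 (by norm_num)
      _ ≤ ((1 + ‖x‖) ^ 2) ^ (2 : ℝ) := Real.rpow_le_rpow_of_exponent_le h3 (by norm_num)
      _ = (1 + ‖x‖) ^ 4 := by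
          rw [Real.rpow_two, ← pow_mul]
  have e : 1 / (N / Q / b ^ 2) = b ^ 2 * (Q / N) := by
    have hN0 : N ≠ 0 := by linarith
    field_simp
  rw [hr, e]
  have h4 : Q / N ≤ Q := div_le_self hQ0.le hN1
  have h5 : (1 + ‖x‖) ^ 4 ≤ (C * (1 + ‖z‖)) ^ 4 := pow_le_pow_left₀ (by positivity) hxC 4
  calc b ^ 2 * (Q / N) ≤ b ^ 2 * (C * (1 + ‖z‖)) ^ 4 :=
        mul_le_mul_of_nonneg_left (h4.trans (hQ1.trans h5)) (by positivity)
    _ = b ^ 2 * C ^ 4 * (1 + ‖z‖) ^ 4 := by ring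

private theorem HypN_rho_nonneg (p q : ℂ) (w : ℂ) : 0 ≤ KQ.rhoPQ p q (1 / 5) w := by
  unfold KQ.rhoPQ KQ.rho
  positivity

private theorem HypN_t_cont {p q : ℂ} (hpq : p ≠ q) (a : ℝ) :
    ContinuousOn (fun z => 1600 * a / KQ.rhoPQ p q (1 / 5) z) ({p, q}ᶜ : Set ℂ) := by
  refine continuousOn_const.div (KQ.rhoPQ_smooth hpq).continuousOn ?_
  intro z hz
  have hzp : z ≠ p := fun h => hz (by simp [h])
  have hzq : z ≠ q := fun h => hz (by simp [h])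
  exact (KQ.rhoPQ_pos hpq hzp hzq).ne'

private theorem HypN_t_growth {p q : ℂ} (hpq : p ≠ q) {a : ℝ} (ha : 0 ≤ a) :
    ∃ K, ∀ z, z ≠ p → z ≠ q → 1600 * a / KQ.rhoPQ p q (1 / 5) z ≤ K * (1 + ‖z‖) ^ 4 := by
  obtain ⟨K, hK⟩ := rho_inv_growth hpq
  refine ⟨1600 * a * K, fun z hz hz' => ?_⟩
  have h := mul_le_mul_of_nonneg_left (hK z hz hz') (by positivity : 0 ≤ 1600 * a)
  calc 1600 * a / KQ.rhoPQ p q (1 / 5) z = 1600 * a * (1 / KQ.rhoPQ p q (1 / 5) z) := by ring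
    _ ≤ 1600 * a * (K * (1 + ‖z‖) ^ 4) := h
    _ = 1600 * a * K * (1 + ‖z‖) ^ 4 := by ring

theorem Hyp.nData {M : Set (Fin n → ℂ)} {g : (Fin n → ℂ) → Matrix (Fin n) (Fin n) ℂ} {a : ℝ}
    {α β : Fin n → ℂ} (H : Hyp M g a α β) (hn : 0 < n) :
    ∃ η, NData M (gD g) (gd g) a 1 (fun i z => 1600 * a / KQ.rhoPQ (α i) (β i) (1 / 5) z) α β η := by
  obtain ⟨η, hη⟩ := exists_cutoffs H.isOpen H.conn H.kahler H.complete
  have ha := a_nonneg H hn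
  have ht0 : ∀ (i : Fin n) (z : ℂ), 0 ≤ 1600 * a / KQ.rhoPQ (α i) (β i) (1 / 5) z :=
    fun i z => div_nonneg (by positivity) (HypN_rho_nonneg _ _ _)
  have hS : ∀ x ∈ M, ∀ l, ((g x)⁻¹ l l).re ≤ 1600 * a / KQ.rhoPQ (α l) (β l) (1 / 5) (x l) := by
    intro x hx l
    have h1 := schwarz H hη hx l
    have h2 := KQ.rhoPQ_pos (s := 1 / 5) (H.ne l) (H.omits x hx l).1 (H.omits x hx l).2
    rw [le_div_iff₀ h2, mul_comm]
    exact h1
  refine ⟨η, ?_⟩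
  exact
  { isOpen := H.isOpen
    a_nonneg := ha
    τ_nonneg := zero_le_one
    ne := H.ne
    omits := H.omits
    tcont := fun i => HypN_t_cont (H.ne i) a
    tnonneg := ht0
    tgrowth := fun i => HypN_t_growth (H.ne i) ha
    Dpos := fun x hx => gD_pos H.kahler hx
    Dsmooth := gD_smooth H.kahler
    Gcont := fun i => (gd_smooth H.kahler i).continuousOn
    Gnonneg := fun i x hx => (gd_pos H.kahler hx i).le
    GleD := fun i x hx => by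
      rw [one_mul]
      exact diag_le (t := fun l => 1600 * a / KQ.rhoPQ (α l) (β l) (1 / 5) (x l))
        (H.kahler.posDef x hx) (fun l => ht0 l (x l)) (hS x hx) i
    T := fun i x hx => (TN_diag H hx i).2
    integrable := H.volume
    ηsmooth := hη.smooth
    ηcpt := hη.cpt
    ηsub := hη.sub
    ηnonneg := hη.nonneg
    ηle_one := hη.le_one
    ηone := hη.one
    ηgrad := fun i k x hx v => by
      rw [← hq_single H.kahler hx i v]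
      exact hη.grad k x hx (Pi.single i v)
    err := fun i j hij k x hx => by
      refine (err_bound H hη hx hij k).trans ?_
      refine mul_le_mul_of_nonneg_left (Real.sqrt_le_sqrt ?_) (by positivity)
      have h1 := minor_le (t := fun l => 1600 * a / KQ.rhoPQ (α l) (β l) (1 / 5) (x l))
        (H.kahler.posDef x hx) (fun l => ht0 l (x l)) (hS x hx) hij
      have h2 := mul_le_mul_of_nonneg_left h1 (gd_pos H.kahler hx i).le
      refine h2.trans_eq ?_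
      unfold gD
      ring }

end KN
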