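import Pool.Agent.Lib_MP_3ea2ac_kn.Defs
import Pool.Agent.Lib_MP_3ea2ac_kq.W

/-! Inserting a coordinate: `ins i w x`, deleting it: `del i x`; Fubini. -/

open MeasureTheory Complex Set Topology Filter
open scoped ComplexConjugate ContDiff ComplexOrder

namespace KN

variable {n : ℕ}

/-- Insert the value `w` at the place `i`. -/
def ins (i : Fin (n + 1)) (w : ℂ) (x : Fin n → ℂ) : Fin (n + 1) → ℂ :=
  Fin.insertNth (α := fun _ => ℂ) i w x

/-- Remove the `i`-th coordinate. -/
def del (i : Fin (n + 1)) (x : Fin (n + 1) → ℂ) : Fin n → ℂ := fun j => x (i.succAbove j)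

@[simp] theorem ins_same (i : Fin (n + 1)) (w : ℂ) (x : Fin n → ℂ) : ins i w x i = w := by
  simp [ins]

@[simp] theorem ins_succAbove (i : Fin (n + 1)) (w : ℂ) (x : Fin n → ℂ) (j : Fin n) :
    ins i w x (i.succAbove j) = x j := by
  simp [ins]

@[simp] theorem ins_del (i : Fin (n + 1)) (x : Fin (n + 1) → ℂ) : ins i (x i) (del i x) = x := by
  funext j
  rcases Fin.eq_self_or_eq_succAbove i j with h | ⟨k, h⟩
  · subst h; simp
  · subst h; simp [del]

@[simp] theorem del_ins (i : Fin (n + 1)) (w : ℂ) (x : Fin n → ℂ) : del i (ins i w x) = x := by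
  funext j; simp [del]

/-- `(w, x) ↦ ins i w x` as a continuous linear equivalence. -/
noncomputable def insL (i : Fin (n + 1)) : (ℂ × (Fin n → ℂ)) ≃L[ℂ] (Fin (n + 1) → ℂ) :=
  LinearEquiv.toContinuousLinearEquiv
    { toFun := fun p => ins i p.1 p.2
      invFun := fun y => (y i, del i y)
      left_inv := fun p => by simp
      right_inv := fun y => by simp
      map_add' := fun p q => by
        funext j
        rcases Fin.eq_self_or_eq_succAbove i j with h | ⟨k, h⟩
        · subst h; simp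
        · subst h; simp
      map_smul' := fun c p => by
        funext j
        rcases Fin.eq_self_or_eq_succAbove i j with h | ⟨k, h⟩
        · subst h; simp
        · subst h; simp }

@[simp] theorem insL_apply (i : Fin (n + 1)) (p : ℂ × (Fin n → ℂ)) : insL i p = ins i p.1 p.2 := rfl

theorem continuous_ins (i : Fin (n + 1)) : Continuous fun p : ℂ × (Fin n → ℂ) => ins i p.1 p.2 :=
  (insL i).continuous

theorem contDiff_ins (i : Fin (n + 1)) :
    ContDiff ℝ ∞ fun p : ℂ × (Fin n → ℂ) => ins i p.1 p.2 :=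
  (((insL i : (ℂ × (Fin n → ℂ)) →L[ℂ] (Fin (n + 1) → ℂ))).restrictScalars ℝ).contDiff

theorem norm_ins (i : Fin (n + 1)) (w : ℂ) (x : Fin n → ℂ) : ‖ins i w x‖ = max ‖w‖ ‖x‖ := by
  refine le_antisymm ?_ (max_le ?_ ?_)
  · refine (pi_norm_le_iff_of_nonneg (le_max_of_le_left (norm_nonneg w))).2 fun j => ?_
    rcases Fin.eq_self_or_eq_succAbove i j with h | ⟨k, h⟩
    · subst h
      rw [ins_same]
      exact le_max_left _ _
    · subst h
      rw [ins_succAbove]
      exact (norm_le_pi_norm x k).trans (le_max_right _ _)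
  · have h := norm_le_pi_norm (ins i w x) i
    rwa [ins_same] at h
  · refine (pi_norm_le_iff_of_nonneg (norm_nonneg _)).2 fun k => ?_
    have h := norm_le_pi_norm (ins i w x) (i.succAbove k)
    rwa [ins_succAbove] at h

theorem dist_ins (i : Fin (n + 1)) (w w' : ℂ) (x x' : Fin n → ℂ) :
    dist (ins i w x) (ins i w' x') = max (dist w w') (dist x x') := by
  rw [dist_eq_norm, dist_eq_norm, dist_eq_norm, ← norm_ins i]
  congr 1
  funext j
  rcases Fin.eq_self_or_eq_succAbove i j with h | ⟨k, h⟩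
  · subst h; simp
  · subst h; simp

private theorem Ins_mp (i : Fin (n + 1)) :
    MeasurePreserving (MeasurableEquiv.piFinSuccAbove (fun _ : Fin (n + 1) => ℂ) i).symm
      ((volume : Measure ℂ).prod (volume : Measure (Fin n → ℂ))) volume :=
  (volume_preserving_piFinSuccAbove (fun _ : Fin (n + 1) => ℂ) i).symm

private theorem Ins_int {X : Type*} [NormedAddCommGroup X] (i : Fin (n + 1))
    {f : (Fin (n + 1) → ℂ) → X} (hf : Integrable f) :
    Integrable (fun p : ℂ × (Fin n → ℂ) => f (ins i p.1 p.2))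
      ((volume : Measure ℂ).prod (volume : Measure (Fin n → ℂ))) :=
  ((Ins_mp i).integrable_comp_emb (MeasurableEquiv.measurableEmbedding _)).2 hf

private theorem Ins_ae (i : Fin (n + 1)) {p : (Fin (n + 1) → ℂ) → Prop} (h : ∀ᵐ x, p x) :
    ∀ᵐ q ∂((volume : Measure ℂ).prod (volume : Measure (Fin n → ℂ))), p (ins i q.1 q.2) :=
  (Ins_mp i).quasiMeasurePreserving.ae h

/-- `ins i` preserves Lebesgue measure. -/
theorem mp_ins (i : Fin (n + 1)) :
    MeasurePreserving (fun p : ℂ × (Fin n → ℂ) => ins i p.1 p.2) volume volume :=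
  Ins_mp i

theorem integral_ins {X : Type*} [NormedAddCommGroup X] [NormedSpace ℝ X] (i : Fin (n + 1))
    {f : (Fin (n + 1) → ℂ) → X} (hf : Integrable f) :
    ∫ x, f x = ∫ x : Fin n → ℂ, ∫ w : ℂ, f (ins i w x) := by
  rw [← (Ins_mp i).integral_comp (MeasurableEquiv.measurableEmbedding _) f]
  exact integral_prod_symm (fun p : ℂ × (Fin n → ℂ) => f (ins i p.1 p.2)) (Ins_int i hf)

theorem integrable_line {X : Type*} [NormedAddCommGroup X] (i : Fin (n + 1))
    {f : (Fin (n + 1) → ℂ) → X} (hf : Integrable f) :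
    (∀ᵐ x : Fin n → ℂ, Integrable fun w : ℂ => f (ins i w x)) ∧
      Integrable fun x : Fin n → ℂ => ∫ w : ℂ, ‖f (ins i w x)‖ :=
  ⟨(Ins_int i hf).prod_left_ae, (Ins_int i hf).integral_norm_prod_right⟩

theorem integrable_hyper {X : Type*} [NormedAddCommGroup X] (i : Fin (n + 1))
    {f : (Fin (n + 1) → ℂ) → X} (hf : Integrable f) :
    (∀ᵐ w : ℂ, Integrable fun x : Fin n → ℂ => f (ins i w x)) ∧
      Integrable fun w : ℂ => ∫ x : Fin n → ℂ, ‖f (ins i w x)‖ :=
  ⟨(Ins_int i hf).prod_right_ae, (Ins_int i hf).integral_norm_prod_left⟩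

theorem ae_line (i : Fin (n + 1)) {p : (Fin (n + 1) → ℂ) → Prop} (h : ∀ᵐ x, p x) :
    ∀ᵐ x : Fin n → ℂ, ∀ᵐ w : ℂ, p (ins i w x) := by
  have h1 := (Measure.measurePreserving_swap (μ := (volume : Measure (Fin n → ℂ)))
    (ν := (volume : Measure ℂ))).quasiMeasurePreserving.ae (Ins_ae i h)
  exact Measure.ae_ae_of_ae_prod h1

theorem ae_hyper (i : Fin (n + 1)) {p : (Fin (n + 1) → ℂ) → Prop} (h : ∀ᵐ x, p x) :
    ∀ᵐ w : ℂ, ∀ᵐ x : Fin n → ℂ, p (ins i w x) :=
  Measure.ae_ae_of_ae_prod (Ins_ae i h)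

/-- A set which is null on almost every line is null. -/
theorem ae_of_ae_line (i : Fin (n + 1)) {s : Set (Fin (n + 1) → ℂ)} (hs : MeasurableSet s)
    (h : ∀ᵐ x : Fin n → ℂ, ∀ᵐ w : ℂ, ins i w x ∈ s) : ∀ᵐ x, x ∈ s := by
  have hm : MeasurableSet {q : (Fin n → ℂ) × ℂ | ins i q.2 q.1 ∈ s} :=
    ((continuous_ins i).measurable.comp measurable_swap) hs
  have h1 : ∀ᵐ q ∂((volume : Measure (Fin n → ℂ)).prod (volume : Measure ℂ)), ins i q.2 q.1 ∈ s :=
    (Measure.ae_prod_iff_ae_ae hm).2 h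
  have h2 : ∀ᵐ q ∂((volume : Measure ℂ).prod (volume : Measure (Fin n → ℂ))), ins i q.1 q.2 ∈ s :=
    (Measure.measurePreserving_swap (μ := (volume : Measure ℂ))
      (ν := (volume : Measure (Fin n → ℂ)))).quasiMeasurePreserving.ae h1
  have h3 : MeasurePreserving (MeasurableEquiv.piFinSuccAbove (fun _ : Fin (n + 1) => ℂ) i)
      volume ((volume : Measure ℂ).prod (volume : Measure (Fin n → ℂ))) :=
    volume_preserving_piFinSuccAbove (fun _ : Fin (n + 1) => ℂ) i
  filter_upwards [h3.quasiMeasurePreserving.ae h2] with y hy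
  have h4 : ins i (y i) (del i y) ∈ s := hy
  rwa [ins_del] at h4

/-- Line slice (in the direction `i`). -/
def ML (M : Set (Fin (n + 1) → ℂ)) (i : Fin (n + 1)) (x : Fin n → ℂ) : Set ℂ :=
  {w | ins i w x ∈ M}

/-- Hyperplane slice `x_i = w`. -/
def MH (M : Set (Fin (n + 1) → ℂ)) (i : Fin (n + 1)) (w : ℂ) : Set (Fin n → ℂ) :=
  {x | ins i w x ∈ M}

theorem isOpen_ML {M : Set (Fin (n + 1) → ℂ)} (hM : IsOpen M) (i : Fin (n + 1)) (x : Fin n → ℂ) :
    IsOpen (ML M i x) :=
  hM.preimage ((continuous_ins i).comp (Continuous.prodMk continuous_id continuous_const))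

theorem isOpen_MH {M : Set (Fin (n + 1) → ℂ)} (hM : IsOpen M) (i : Fin (n + 1)) (w : ℂ) :
    IsOpen (MH M i w) :=
  hM.preimage ((continuous_ins i).comp (Continuous.prodMk continuous_const continuous_id))

private theorem Ins_fderiv {E F : Type*} [NormedAddCommGroup E] [NormedSpace ℝ E]
    [NormedAddCommGroup F] [NormedSpace ℝ F] (L : E →L[ℝ] F) (c : F) {f : F → ℂ} {x : E}
    (hf : DifferentiableAt ℝ f (L x + c)) (e : E) :
    fderiv ℝ (fun y => f (L y + c)) x e = fderiv ℝ f (L x + c) (L e) := by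
  have h1 : HasFDerivAt (fun y => L y + c) L x := L.hasFDerivAt.add_const c
  have h2 : HasFDerivAt (fun y => f (L y + c)) ((fderiv ℝ f (L x + c)).comp L) x :=
    HasFDerivAt.comp x hf.hasFDerivAt h1
  rw [h2.fderiv]
  rfl

/-- Wirtinger derivatives of a function composed with an affine map. -/
theorem wd_affine {E F : Type*} [NormedAddCommGroup E] [NormedSpace ℝ E] [NormedAddCommGroup F]
    [NormedSpace ℝ F] (L : E →L[ℝ] F) (c : F) {f : F → ℂ} {x : E}
    (hf : DifferentiableAt ℝ f (L x + c)) (e e' : E) :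
    KQ.wd e e' (fun y => f (L y + c)) x = KQ.wd (L e) (L e') f (L x + c) := by
  unfold KQ.wd
  rw [Ins_fderiv L c hf, Ins_fderiv L c hf]

theorem wdb_affine {E F : Type*} [NormedAddCommGroup E] [NormedSpace ℝ E] [NormedAddCommGroup F]
    [NormedSpace ℝ F] (L : E →L[ℝ] F) (c : F) {f : F → ℂ} {x : E}
    (hf : DifferentiableAt ℝ f (L x + c)) (e e' : E) :
    KQ.wdb e e' (fun y => f (L y + c)) x = KQ.wdb (L e) (L e') f (L x + c) := by
  unfold KQ.wdb
  rw [Ins_fderiv L c hf, Ins_fderiv L c hf]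

/-- Second derivatives of a function composed with an affine map. -/
theorem wd_wdb_affine {E F : Type*} [NormedAddCommGroup E] [NormedSpace ℝ E]
    [NormedAddCommGroup F] [NormedSpace ℝ F] (L : E →L[ℝ] F) (c : F) {f : F → ℂ} {M : Set F}
    (hM : IsOpen M) (hf : ContDiffOn ℝ ∞ f M) {x : E} (hx : L x + c ∈ M) (e e' b b' : E) :
    KQ.wd e e' (KQ.wdb b b' (fun y => f (L y + c))) x
      = KQ.wd (L e) (L e') (KQ.wdb (L b) (L b') f) (L x + c) := by
  have hU : IsOpen {y : E | L y + c ∈ M} := hM.preimage (L.continuous.add continuous_const)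
  have h1 : KQ.wdb b b' (fun y => f (L y + c)) =ᶠ[𝓝 x]
      fun y => KQ.wdb (L b) (L b') f (L y + c) := by
    filter_upwards [hU.mem_nhds hx] with y hy
    exact wdb_affine L c ((hf.contDiffAt (hM.mem_nhds hy)).differentiableAt (by simp)) b b'
  rw [KQ.wd_congr h1]
  exact wd_affine L c (((KQ.contDiffOn_wdb hM hf).contDiffAt (hM.mem_nhds hx)).differentiableAt
    (by simp)) e e'

end KN
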