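import Pool.Agent.Lib_MP_3ea2ac_kn.Plane

/-! The line integrals, and their weak holomorphy in the remaining variables. -/

open MeasureTheory Complex Set Topology Filter
open scoped ComplexConjugate ContDiff ComplexOrder

namespace KN

variable {n : ℕ} {M : Set (Fin (n + 1) → ℂ)} {D : (Fin (n + 1) → ℂ) → ℝ}
  {G : Fin (n + 1) → (Fin (n + 1) → ℂ) → ℝ} {a τ : ℝ} {t : Fin (n + 1) → ℂ → ℝ}
  {α β : Fin (n + 1) → ℂ} {η : ℕ → (Fin (n + 1) → ℂ) → ℝ}

/-- `∫ f T_{i\bar i} - ∫ log D ∂∂̄f` over the line through `x` in the direction `i`. -/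
noncomputable def LamN (M : Set (Fin (n + 1) → ℂ)) (D : (Fin (n + 1) → ℂ) → ℝ)
    (i : Fin (n + 1)) (f : ℂ → ℂ) (x : Fin n → ℂ) : ℂ :=
  (∫ w in ML M i x, f w * TN D i i (ins i w x))
    - ∫ w in ML M i x, ((Real.log (D (ins i w x)) : ℝ) : ℂ) * KQ.dw (KQ.dwb f) w

/-! ### Fubini -/

private theorem LamN_int (i : Fin (n + 1)) {F : (Fin (n + 1) → ℂ) → ℂ} (hF : Integrable F) :
    Integrable fun x : Fin n → ℂ => ∫ w : ℂ, F (ins i w x) := by
  have h : Integrable (fun p : ℂ × (Fin n → ℂ) => F (ins i p.1 p.2))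
      ((volume : Measure ℂ).prod volume) :=
    (mp_ins i).integrable_comp_of_integrable hF
  exact h.integral_prod_right

private theorem LamN_del_cont (i : Fin (n + 1)) : Continuous (del i) :=
  continuous_pi fun j => continuous_apply (i.succAbove j)

private theorem LamN_slice (hM : IsOpen M) (i : Fin (n + 1)) {K : Set (Fin n → ℂ)}
    {h : (Fin (n + 1) → ℂ) → ℂ} {x : Fin n → ℂ} (hx : x ∈ K) :
    ∫ w, (M ∩ {y | del i y ∈ K}).indicator h (ins i w x) = ∫ w in ML M i x, h (ins i w x) := by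
  rw [← integral_indicator (isOpen_ML hM i x).measurableSet]
  congr 1
  ext w
  by_cases hw : ins i w x ∈ M
  · rw [indicator_of_mem (show ins i w x ∈ M ∩ {y | del i y ∈ K} from
      ⟨hw, show del i (ins i w x) ∈ K by rw [del_ins]; exact hx⟩),
      indicator_of_mem (show w ∈ ML M i x from hw)]
  · rw [indicator_of_notMem (fun h' => hw h'.1), indicator_of_notMem (show w ∉ ML M i x from hw)]

private theorem LamN_meas (hM : IsOpen M) (i : Fin (n + 1)) {K : Set (Fin n → ℂ)}
    (hK : IsCompact K) : MeasurableSet (M ∩ {y | del i y ∈ K}) :=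
  hM.measurableSet.inter (hK.isClosed.preimage (LamN_del_cont i)).measurableSet

private theorem LamN_fub (hM : IsOpen M) (i : Fin (n + 1)) {K : Set (Fin n → ℂ)}
    (hK : IsCompact K) {h : (Fin (n + 1) → ℂ) → ℂ}
    (hh : IntegrableOn h (M ∩ {y | del i y ∈ K})) :
    IntegrableOn (fun x => ∫ w in ML M i x, h (ins i w x)) K := by
  have h1 : Integrable ((M ∩ {y | del i y ∈ K}).indicator h) :=
    (integrable_indicator_iff (LamN_meas hM i hK)).2 hh
  have h2 := LamN_int i h1
  refine (h2.integrableOn (s := K)).congr_fun ?_ hK.isClosed.measurableSet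
  intro x hx
  exact LamN_slice hM i hx

/-! ### Bounds -/

private theorem LamN_psi (P : NData M D G a τ t α β η) :
    ContDiffOn ℝ ∞ (fun y => ((Real.log (D y) : ℝ) : ℂ)) M :=
  Complex.ofRealCLM.contDiff.comp_contDiffOn (P.Dsmooth.log fun x hx => (P.Dpos x hx).ne')

private theorem LamN_T_smooth (P : NData M D G a τ t α β η) (i : Fin (n + 1)) :
    ContDiffOn ℝ ∞ (TN D i i) M :=
  KQ.contDiffOn_wd P.isOpen (KQ.contDiffOn_wdb P.isOpen (LamN_psi P))

private theorem LamN_T_norm (P : NData M D G a τ t α β η) (i : Fin (n + 1))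
    {x : Fin (n + 1) → ℂ} (hx : x ∈ M) : ‖TN D i i x‖ ≤ a * G i x := by
  obtain ⟨h2, h3⟩ := P.T i x hx
  have h1 : (TN D i i x).im = 0 :=
    KQ.wd_wdb_real P.isOpen (P.Dsmooth.log fun x hx => (P.Dpos x hx).ne') hx
  have h4 : TN D i i x = (((TN D i i x).re : ℝ) : ℂ) := by
    apply Complex.ext
    · simp
    · simp [h1]
  rw [h4, Complex.norm_real, Real.norm_of_nonneg h2]
  exact h3

private theorem LamN_bound (P : NData M D G a τ t α β η) (i : Fin (n + 1))
    {K : Set (Fin n → ℂ)} (hK : IsCompact K)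
    (hKn : ∀ x ∈ K, ∀ j : Fin n, x j ≠ α (i.succAbove j) ∧ x j ≠ β (i.succAbove j)) :
    ∃ C : ℝ, 0 ≤ C ∧ ∀ y ∈ M, del i y ∈ K → G i y ≤ C * D y := by
  have hτ := P.τ_nonneg
  have hc : ContinuousOn (fun x : Fin n → ℂ =>
      ∏ l ∈ Finset.univ.erase i, t l (ins i 0 x l)) K := by
    refine continuousOn_finsetProd _ fun l hl => ?_
    have hli : l ≠ i := Finset.ne_of_mem_erase hl
    obtain ⟨k, hk⟩ := Fin.exists_succAbove_eq hli
    subst hk
    have e : (fun x : Fin n → ℂ => t (i.succAbove k) (ins i 0 x (i.succAbove k))) =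
        fun x : Fin n → ℂ => t (i.succAbove k) (x k) := by
      funext x
      rw [ins_succAbove]
    rw [e]
    refine (P.tcont (i.succAbove k)).comp (continuous_apply k).continuousOn ?_
    intro x hx
    have := hKn x hx k
    simp only [mem_compl_iff, mem_insert_iff, mem_singleton_iff, not_or]
    exact this
  obtain ⟨C, hC⟩ := hK.exists_bound_of_continuousOn hc
  refine ⟨τ * max C 0, mul_nonneg hτ (le_max_right _ _), fun y hy hyK => ?_⟩
  have h1 := P.GleD i y hy
  have e : ∏ l ∈ Finset.univ.erase i, t l (y l)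
      = ∏ l ∈ Finset.univ.erase i, t l (ins i 0 (del i y) l) := by
    refine Finset.prod_congr rfl fun l hl => ?_
    have hli : l ≠ i := Finset.ne_of_mem_erase hl
    obtain ⟨k, hk⟩ := Fin.exists_succAbove_eq hli
    subst hk
    rw [ins_succAbove]
    rfl
  have h2 : ∏ l ∈ Finset.univ.erase i, t l (y l) ≤ max C 0 := by
    rw [e]
    exact ((le_abs_self _).trans (hC _ hyK)).trans (le_max_left _ _)
  exact h1.trans (mul_le_mul_of_nonneg_right (mul_le_mul_of_nonneg_left h2 hτ) (P.Dpos y hy).le)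

private theorem LamN_intA (P : NData M D G a τ t α β η) (i : Fin (n + 1))
    {K : Set (Fin n → ℂ)} (hK : IsCompact K)
    (hKn : ∀ x ∈ K, ∀ j : Fin n, x j ≠ α (i.succAbove j) ∧ x j ≠ β (i.succAbove j))
    {f : ℂ → ℂ} (hf : Continuous f) {C₀ : ℝ} (hb : ∀ w, ‖f w‖ ≤ C₀) :
    IntegrableOn (fun y : Fin (n + 1) → ℂ => f (y i) * TN D i i y)
      (M ∩ {y | del i y ∈ K}) := by
  obtain ⟨C, hC0, hC⟩ := LamN_bound P i hK hKn
  have ha := P.a_nonneg
  have hC₀ : 0 ≤ C₀ := (norm_nonneg _).trans (hb 0)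
  have hm := LamN_meas P.isOpen i hK
  have hD : IntegrableOn (fun x => C₀ * (a * C) * D x) (M ∩ {y | del i y ∈ K}) :=
    ((P.integrable.mono_set inter_subset_left).const_mul _)
  refine Integrable.mono' hD ?_ ?_
  · have hcont : ContinuousOn (fun y : Fin (n + 1) → ℂ => f (y i) * TN D i i y)
        (M ∩ {y | del i y ∈ K}) :=
      ((hf.comp (continuous_apply i)).continuousOn.mul
        (LamN_T_smooth P i).continuousOn).mono inter_subset_left
    exact hcont.aestronglyMeasurable hm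
  · refine (ae_restrict_iff' hm).2 (Eventually.of_forall fun x hx => ?_)
    have h1 := LamN_T_norm P i hx.1
    have h2 := hC x hx.1 hx.2
    rw [norm_mul]
    calc ‖f (x i)‖ * ‖TN D i i x‖ ≤ C₀ * (a * G i x) := by
          gcongr
          exact hb _
      _ ≤ C₀ * (a * (C * D x)) := by gcongr
      _ = C₀ * (a * C) * D x := by ring

private theorem LamN_dd_zero {w₀ : ℂ} {s : ℝ} {f : ℂ → ℂ}
    (hz : ∀ w, w ∉ Metric.closedBall w₀ s → KQ.dwb f w = 0) {w : ℂ}
    (hw : w ∉ Metric.closedBall w₀ s) : KQ.dw (KQ.dwb f) w = 0 := by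
  have h1 : KQ.dwb f =ᶠ[𝓝 w] fun _ => (0 : ℂ) := by
    filter_upwards [Metric.isClosed_closedBall.isOpen_compl.mem_nhds hw] with y hy
    exact hz y hy
  exact (KQ.wd_congr h1).trans (KQ.wd_const 0)

private theorem LamN_intB (P : NData M D G a τ t α β η) (i : Fin (n + 1))
    {U : Set (Fin n → ℂ)} {w₀ : ℂ} {s : ℝ}
    (hUs : ∀ x ∈ U, ∀ w ∈ Metric.closedBall w₀ s, ins i w x ∈ M) {K : Set (Fin n → ℂ)}
    (hK : IsCompact K) (hKU : K ⊆ U) {f : ℂ → ℂ} (hf : ContDiff ℝ ∞ f)
    (hz : ∀ w, w ∉ Metric.closedBall w₀ s → KQ.dwb f w = 0) :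
    IntegrableOn (fun y : Fin (n + 1) → ℂ =>
      ((Real.log (D y) : ℝ) : ℂ) * KQ.dw (KQ.dwb f) (y i)) (M ∩ {y | del i y ∈ K}) := by
  set Q : Set (Fin (n + 1) → ℂ) :=
    (fun p : ℂ × (Fin n → ℂ) => ins i p.1 p.2) '' (Metric.closedBall w₀ s ×ˢ K) with hQ
  have hQc : IsCompact Q := ((isCompact_closedBall w₀ s).prod hK).image (continuous_ins i)
  have hsub : Q ⊆ M := by
    rintro _ ⟨p, hp, rfl⟩
    exact hUs p.2 (hKU hp.2) p.1 hp.1
  have hdd : Continuous (KQ.dw (KQ.dwb f)) :=
    (KQ.contDiff_wd (KQ.contDiff_wdb hf)).continuous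
  have h1 : IntegrableOn (fun y : Fin (n + 1) → ℂ =>
      ((Real.log (D y) : ℝ) : ℂ) * KQ.dw (KQ.dwb f) (y i)) Q := by
    apply ContinuousOn.integrableOn_compact hQc
    exact ((LamN_psi P).continuousOn.mul
      (hdd.comp (continuous_apply i)).continuousOn).mono hsub
  apply h1.of_forall_sdiff_eq_zero (LamN_meas P.isOpen i hK)
  rintro x ⟨hx, hx'⟩
  have : x i ∉ Metric.closedBall w₀ s := fun h => hx' ⟨(x i, del i x), ⟨h, hx.2⟩, ins_del i x⟩
  rw [LamN_dd_zero hz this, mul_zero]

/-- Same proof as `KQ.PlaneData.lam_locInt`. -/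
theorem NData.lam_locInt (P : NData M D G a τ t α β η) (i : Fin (n + 1)) {U : Set (Fin n → ℂ)}
    (hU : IsOpen U) {w₀ : ℂ} {s : ℝ} (hs : 0 < s)
    (hUs : ∀ x ∈ U, ∀ w ∈ Metric.closedBall w₀ s, ins i w x ∈ M)
    {f : ℂ → ℂ} (hf : ContDiff ℝ ∞ f) {C₀ : ℝ} (hb : ∀ w, ‖f w‖ ≤ C₀)
    (hz : ∀ w, w ∉ Metric.closedBall w₀ s → KQ.dwb f w = 0) :
    LocallyIntegrableOn (LamN M D i f) U := by
  intro x₀ hx₀
  obtain ⟨r, hr, hrs⟩ := Metric.nhds_basis_closedBall.mem_iff.1 (hU.mem_nhds hx₀)
  have hK := isCompact_closedBall x₀ r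
  have hKn : ∀ x ∈ Metric.closedBall x₀ r, ∀ j : Fin n,
      x j ≠ α (i.succAbove j) ∧ x j ≠ β (i.succAbove j) := by
    intro x hx j
    have h := P.omits _ (hUs x (hrs hx) w₀ (Metric.mem_closedBall_self hs.le)) (i.succAbove j)
    rw [ins_succAbove] at h
    exact h
  refine ⟨Metric.closedBall x₀ r,
    mem_nhdsWithin_of_mem_nhds (Metric.closedBall_mem_nhds x₀ hr), ?_⟩
  have hA := LamN_fub P.isOpen i hK (LamN_intA P i hK hKn hf.continuous hb)
  have hB := LamN_fub P.isOpen i hK (LamN_intB P i hUs hK hrs hf hz)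
  simp only [ins_same] at hA hB
  exact hA.sub hB

/-- Weak holomorphy in every variable `l`: Fubini (`integral_ins` in the variable `l`) and
`KQ.PlaneData.lam_weak` on almost every plane (`NData.plane`); there `LamN` is `KQ.Lam` of the plane
slice (`TT_plane`). -/
theorem NData.lam_weak (P : NData M D G a τ t α β η) (i : Fin (n + 1)) {U : Set (Fin n → ℂ)}
    (hU : IsOpen U) {w₀ : ℂ} {s : ℝ} (hs : 0 < s)
    (hUs : ∀ x ∈ U, ∀ w ∈ Metric.closedBall w₀ s, ins i w x ∈ M)
    {f : ℂ → ℂ} (hf : ContDiff ℝ ∞ f) {C₀ : ℝ} (hb : ∀ w, ‖f w‖ ≤ C₀)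
    (hz : ∀ w, w ∉ Metric.closedBall w₀ s → KQ.dwb f w = 0)
    {θ : (Fin n → ℂ) → ℂ} (hθ : ContDiff ℝ ∞ θ) (hθc : HasCompactSupport θ) (hθs : tsupport θ ⊆ U)
    (l : Fin n) :
    ∫ x, pdb l θ x * LamN M D i f x = 0 := by
  have hloc := P.lam_locInt i hU hs hUs hf hb hz
  cases n with
  | zero => exact l.elim0
  | succ m =>
    have hPsm : ContDiff ℝ ∞ (pdb l θ) := KQ.contDiff_wdb hθ
    have hPsub : tsupport (pdb l θ) ⊆ tsupport θ := KQ.tsupport_wdb_subset
    have hK : IsCompact (tsupport θ) := hθc.isCompact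
    have hPc : HasCompactSupport (pdb l θ) := hθc.mono' ((subset_tsupport _).trans hPsub)
    obtain ⟨C₁, hC₁⟩ := hPsm.continuous.bounded_above_of_compact_support hPc
    have hP0 : ∀ x, x ∉ tsupport θ → pdb l θ x = 0 := fun x hx =>
      image_eq_zero_of_notMem_tsupport fun h => hx (hPsub h)
    have hint : Integrable fun x => pdb l θ x * LamN M D i f x := by
      have h1 : IntegrableOn (fun x => pdb l θ x * LamN M D i f x) (tsupport θ) :=
        Integrable.bdd_mul (c := C₁) (hloc.integrableOn_compact_subset hθs hK)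
          hPsm.continuous.aestronglyMeasurable (Eventually.of_forall fun x => hC₁ x)
      rw [← integrableOn_univ]
      apply h1.of_forall_sdiff_eq_zero MeasurableSet.univ
      rintro x ⟨_, hx⟩
      rw [hP0 x hx, zero_mul]
    rw [integral_ins l hint]
    have hae : ∀ᵐ x : Fin m → ℂ,
        ∫ z : ℂ, pdb l θ (ins l z x) * LamN M D i f (ins l z x) = 0 := by
      filter_upwards [P.plane i l] with x hx
      set V : Set ℂ := {z | ins l z x ∈ U} with hV
      have hcont : Continuous fun z : ℂ => ins l z x :=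
        (continuous_ins l).comp (Continuous.prodMk continuous_id continuous_const)
      have hVo : IsOpen V := hU.preimage hcont
      have hVs : ∀ z ∈ V, ∀ w ∈ Metric.closedBall w₀ s, (z, w) ∈ MP M i l x :=
        fun z hz' w hw => hUs _ hz' w hw
      have hsm : ContDiff ℝ ∞ fun z : ℂ => θ (ins l z x) :=
        hθ.comp ((contDiff_ins l).comp (contDiff_id.prodMk contDiff_const))
      have hsup : Function.support (fun z : ℂ => θ (ins l z x)) ⊆
          {z | ins l z x ∈ tsupport θ} := fun z hz' => subset_tsupport _ hz'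
      have hcl : IsClosed {z : ℂ | ins l z x ∈ tsupport θ} :=
        (isClosed_tsupport θ).preimage hcont
      have hts : tsupport (fun z : ℂ => θ (ins l z x)) ⊆ {z | ins l z x ∈ tsupport θ} :=
        closure_minimal hsup hcl
      have hcs : HasCompactSupport fun z : ℂ => θ (ins l z x) := by
        refine HasCompactSupport.of_support_subset_isCompact
          (K := (fun y : Fin (m + 1) → ℂ => y l) '' tsupport θ)
          (hK.image (continuous_apply l)) ?_
        intro z hz'
        exact ⟨ins l z x, hsup hz', ins_same l z x⟩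
      have hmain := hx.lam_weak hVo hs hVs hf hb hz hsm hcs (hts.trans fun z hz' => hθs hz')
      rw [← hmain]
      congr 1
      ext z
      have e1 : pdb l θ (ins l z x) = KQ.dwb (fun z : ℂ => θ (ins l z x)) z := by
        have hl : ∀ y : ℂ, ins l y x =
            (ContinuousLinearMap.single ℝ (fun _ : Fin (m + 1) => ℂ) l) y + ins l 0 x := by
          intro y
          funext j
          rcases Fin.eq_self_or_eq_succAbove l j with h | ⟨k, h⟩
          · subst h
            simp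
          · subst h
            simp
        have h2 := wdb_affine (ContinuousLinearMap.single ℝ (fun _ : Fin (m + 1) => ℂ) l)
          (ins l 0 x) (f := θ) (x := z)
          ((hθ.differentiable (by simp)) _) (1 : ℂ) I
        have h3 : (fun y : ℂ => θ (ins l y x)) = fun y : ℂ =>
            θ ((ContinuousLinearMap.single ℝ (fun _ : Fin (m + 1) => ℂ) l) y + ins l 0 x) := by
          funext y
          rw [← hl]
        rw [h3]
        unfold KQ.dwb
        rw [h2, ← hl]
        rfl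
      have e2 : LamN M D i f (ins l z x) =
          KQ.Lam (MP M i l x) (fun p => D (pl i l x p)) f z := by
        unfold LamN KQ.Lam
        congr 1
        refine setIntegral_congr_fun (isOpen_ML P.isOpen i _).measurableSet fun w hw => ?_
        have h4 := TT_plane P.isOpen P.Dsmooth P.Dpos i l x (p := (z, w)) hw 1 1
        simp only [one_ne_zero, if_false] at h4
        show f w * TN D i i (ins i w (ins l z x)) = f w * KQ.TT (fun p => D (pl i l x p)) 1 1 (z, w)
        rw [h4]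
        rfl
      rw [e1, e2]
    rw [integral_congr_ae (g := fun _ => (0 : ℂ)) hae]
    simp

end KN
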