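import Pool.Agent.Lib_MP_3ea2ac_kn.Defs
import Pool.Agent.Lib_MP_3ea2ac_kq.W

/-! Wirtinger derivatives of matrix valued functions: products, inverse, `log det`. -/

open MeasureTheory Complex Set Topology Filter Matrix
open scoped ComplexConjugate ContDiff ComplexOrder

namespace KN

variable {E : Type*} [NormedAddCommGroup E] [NormedSpace ℝ E] {M : Set E} {n : ℕ}
  {A B g : E → Matrix (Fin n) (Fin n) ℂ} {x e e' b b' : E}

/-- Entrywise `∂`. -/
noncomputable def mwd (e e' : E) (A : E → Matrix (Fin n) (Fin n) ℂ) (x : E) :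
    Matrix (Fin n) (Fin n) ℂ := fun l m => KQ.wd e e' (fun y => A y l m) x

/-- Entrywise `∂̄`. -/
noncomputable def mwdb (e e' : E) (A : E → Matrix (Fin n) (Fin n) ℂ) (x : E) :
    Matrix (Fin n) (Fin n) ℂ := fun l m => KQ.wdb e e' (fun y => A y l m) x

/-- All entries are smooth on `M`. -/
def MSmooth (M : Set E) (A : E → Matrix (Fin n) (Fin n) ℂ) : Prop :=
  ∀ l m, ContDiffOn ℝ ∞ (fun y => A y l m) M

/-! ### Derivations -/

/-- A derivation at the point `x`. -/
private structure MD (x : E) (D : (E → ℂ) → ℂ) : Prop where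
  congr : ∀ {f h : E → ℂ}, f =ᶠ[𝓝 x] h → D f = D h
  add : ∀ {f h : E → ℂ}, DifferentiableAt ℝ f x → DifferentiableAt ℝ h x →
    D (fun y => f y + h y) = D f + D h
  mul : ∀ {f h : E → ℂ}, DifferentiableAt ℝ f x → DifferentiableAt ℝ h x →
    D (fun y => f y * h y) = D f * h x + f x * D h
  const : ∀ c : ℂ, D (fun _ => c) = 0

private theorem md_wd (x e e' : E) : MD x (fun f => KQ.wd e e' f x) :=
  ⟨fun h => KQ.wd_congr h, fun hf hh => KQ.wd_add hf hh, fun hf hh => KQ.wd_mul hf hh,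
    fun c => KQ.wd_const c⟩

private theorem md_wdb (x e e' : E) : MD x (fun f => KQ.wdb e e' f x) :=
  ⟨fun h => KQ.wdb_congr h, fun hf hh => KQ.wdb_add hf hh, fun hf hh => KQ.wdb_mul hf hh,
    fun c => KQ.wdb_const c⟩

private theorem MD.sum {D : (E → ℂ) → ℂ} (hD : MD x D) {ι : Type*} (s : Finset ι)
    {f : ι → E → ℂ} (hf : ∀ i ∈ s, DifferentiableAt ℝ (f i) x) :
    D (fun y => ∑ i ∈ s, f i y) = ∑ i ∈ s, D (f i) := by
  classical
  induction s using Finset.induction_on with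
  | empty => simpa using hD.const 0
  | insert a s ha ih =>
    have h1 : ∀ i ∈ s, DifferentiableAt ℝ (f i) x := fun i hi => hf i (Finset.mem_insert_of_mem hi)
    rw [Finset.sum_insert ha, ← ih h1, ← hD.add (hf a (Finset.mem_insert_self a s))
      (DifferentiableAt.fun_sum h1)]
    congr 1
    funext y
    rw [Finset.sum_insert ha]

private theorem MD.const_mul {D : (E → ℂ) → ℂ} (hD : MD x D) (c : ℂ) {f : E → ℂ}
    (hf : DifferentiableAt ℝ f x) : D (fun y => c * f y) = c * D f := by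
  rw [hD.mul (differentiableAt_const c) hf, hD.const, zero_mul, zero_add]

private theorem diff_prod {ι : Type*} [DecidableEq ι]
    (s : Finset ι) {f : ι → E → ℂ} (hf : ∀ i ∈ s, DifferentiableAt ℝ (f i) x) :
    DifferentiableAt ℝ (fun y => ∏ i ∈ s, f i y) x := by
  induction s using Finset.induction_on with
  | empty =>
    simp only [Finset.prod_empty]
    exact differentiableAt_const 1
  | insert a s ha ih =>
    have h2 : (fun y => ∏ i ∈ insert a s, f i y) = fun y => f a y * ∏ i ∈ s, f i y := by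
      funext y
      rw [Finset.prod_insert ha]
    rw [h2]
    exact (hf a (Finset.mem_insert_self a s)).mul (ih fun i hi => hf i (Finset.mem_insert_of_mem hi))

private theorem MD.prod {D : (E → ℂ) → ℂ} (hD : MD x D) {ι : Type*} [DecidableEq ι]
    (s : Finset ι) {f : ι → E → ℂ} (hf : ∀ i ∈ s, DifferentiableAt ℝ (f i) x) :
    D (fun y => ∏ i ∈ s, f i y) = ∑ i ∈ s, D (f i) * ∏ j ∈ s.erase i, f j x := by
  induction s using Finset.induction_on with
  | empty => simpa using hD.const 1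
  | insert a s ha ih =>
    have h1 : ∀ i ∈ s, DifferentiableAt ℝ (f i) x := fun i hi => hf i (Finset.mem_insert_of_mem hi)
    have h2 : (fun y => ∏ i ∈ insert a s, f i y) = fun y => f a y * ∏ i ∈ s, f i y := by
      funext y
      rw [Finset.prod_insert ha]
    rw [h2, hD.mul (hf a (Finset.mem_insert_self a s)) (diff_prod s h1), ih h1,
      Finset.sum_insert ha, Finset.erase_insert ha, Finset.mul_sum]
    congr 1
    refine Finset.sum_congr rfl fun i hi => ?_
    have h3 : i ≠ a := by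
      rintro rfl
      exact ha hi
    rw [Finset.erase_insert_of_ne h3.symm, Finset.prod_insert (fun h => ha (Finset.mem_of_mem_erase h))]
    ring

/-- Entrywise. -/
private noncomputable def mD (D : (E → ℂ) → ℂ) (A : E → Matrix (Fin n) (Fin n) ℂ) :
    Matrix (Fin n) (Fin n) ℂ := fun l m => D (fun y => A y l m)

/-- Differentiable at `x`. -/
private def MDiff (x : E) (A : E → Matrix (Fin n) (Fin n) ℂ) : Prop :=
  ∀ l m, DifferentiableAt ℝ (fun y => A y l m) x

private theorem MSmooth.mdiff (hM : IsOpen M) (hA : MSmooth M A) (hx : x ∈ M) : MDiff x A :=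
  fun l m => ((hA l m).contDiffAt (hM.mem_nhds hx)).differentiableAt (by simp)

private theorem MD.mmul {D : (E → ℂ) → ℂ} (hD : MD x D) (hA : MDiff x A) (hB : MDiff x B) :
    mD D (fun y => A y * B y) = mD D A * B x + A x * mD D B := by
  ext l m
  rw [Matrix.add_apply, Matrix.mul_apply, Matrix.mul_apply, ← Finset.sum_add_distrib]
  show D (fun y => (A y * B y) l m) = _
  have h1 : (fun y => (A y * B y) l m) = fun y => ∑ k ∈ Finset.univ, A y l k * B y k m := by
    funext y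
    rw [Matrix.mul_apply]
  have h2 : ∀ k ∈ (Finset.univ : Finset (Fin n)),
      DifferentiableAt ℝ (fun y => A y l k * B y k m) x := fun k _ => (hA l k).mul (hB k m)
  rw [h1, hD.sum Finset.univ h2]
  exact Finset.sum_congr rfl fun k _ => hD.mul (hA l k) (hB k m)

private theorem MD.mcongr {D : (E → ℂ) → ℂ} (hD : MD x D) (h : A =ᶠ[𝓝 x] B) :
    mD D A = mD D B := by
  ext l m
  refine hD.congr ?_
  filter_upwards [h] with y hy
  rw [hy]

private theorem MD.mone {D : (E → ℂ) → ℂ} (hD : MD x D) (C : Matrix (Fin n) (Fin n) ℂ) :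
    mD D (fun _ => C) = 0 := by
  ext l m
  exact hD.const _

private theorem MD.mneg {D : (E → ℂ) → ℂ} (hD : MD x D) (hA : MDiff x A) :
    mD D (fun y => -A y) = -mD D A := by
  ext l m
  rw [Matrix.neg_apply]
  show D (fun y => (-A y) l m) = -D (fun y => A y l m)
  have h1 : (fun y => (-A y) l m) = fun y => (-1 : ℂ) * A y l m := by
    funext y
    rw [Matrix.neg_apply, neg_one_mul]
  rw [h1, hD.const_mul _ (hA l m), neg_one_mul]

private theorem MD.minv {D : (E → ℂ) → ℂ} (hD : MD x D) (hA : MDiff x A)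
    (hI : MDiff x (fun y => (A y)⁻¹)) (hu : ∀ᶠ y in 𝓝 x, (A y).det ≠ 0) :
    mD D (fun y => (A y)⁻¹) = -((A x)⁻¹ * mD D A * (A x)⁻¹) := by
  have h1 : mD D (fun y => A y * (A y)⁻¹) = 0 := by
    rw [hD.mcongr (B := fun _ => 1) ?_, hD.mone]
    filter_upwards [hu] with y hy
    exact Matrix.mul_nonsing_inv _ (isUnit_iff_ne_zero.mpr hy)
  rw [hD.mmul hA hI] at h1
  have h2 : (A x)⁻¹ * A x = 1 := Matrix.nonsing_inv_mul _ (isUnit_iff_ne_zero.mpr hu.self_of_nhds)
  have h3 : A x * mD D (fun y => (A y)⁻¹) = -(mD D A * (A x)⁻¹) := by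
    rw [eq_neg_iff_add_eq_zero, add_comm]
    exact h1
  calc mD D (fun y => (A y)⁻¹) = (A x)⁻¹ * A x * mD D (fun y => (A y)⁻¹) := by
        rw [h2, Matrix.one_mul]
    _ = (A x)⁻¹ * (A x * mD D (fun y => (A y)⁻¹)) := by rw [Matrix.mul_assoc]
    _ = -((A x)⁻¹ * mD D A * (A x)⁻¹) := by rw [h3, Matrix.mul_neg, Matrix.mul_assoc]

private theorem MD.mtrace {D : (E → ℂ) → ℂ} (hD : MD x D) (hA : MDiff x A) :
    D (fun y => (A y).trace) = (mD D A).trace := by
  have h1 : (fun y => (A y).trace) = fun y => ∑ i ∈ Finset.univ, A y i i := by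
    funext y
    rfl
  rw [h1, hD.sum Finset.univ fun i _ => hA i i]
  rfl

private theorem MD.mdet {D : (E → ℂ) → ℂ} (hD : MD x D) (hA : MDiff x A)
    (hu : (A x).det ≠ 0) :
    D (fun y => (A y).det) = (A x).det * ((A x)⁻¹ * mD D A).trace := by
  have h1 : (fun y => (A y).det) = fun y => ∑ σ ∈ (Finset.univ : Finset (Equiv.Perm (Fin n))),
      ((Equiv.Perm.sign σ : ℤ) : ℂ) * ∏ i ∈ Finset.univ, A y (σ i) i := by
    funext y
    rw [Matrix.det_apply']
  have h2 : ∀ σ : Equiv.Perm (Fin n), DifferentiableAt ℝ (fun y => ∏ i ∈ Finset.univ, A y (σ i) i) x :=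
    fun σ => diff_prod Finset.univ fun i _ => hA _ _
  rw [h1, hD.sum Finset.univ fun σ _ => (h2 σ).const_mul _]
  have h3 : ∀ σ : Equiv.Perm (Fin n),
      D (fun y => ((Equiv.Perm.sign σ : ℤ) : ℂ) * ∏ i ∈ Finset.univ, A y (σ i) i) =
        ∑ i, ((Equiv.Perm.sign σ : ℤ) : ℂ) *
          ∏ j, (A x).updateCol i (fun l => mD D A l i) (σ j) j := by
    intro σ
    rw [hD.const_mul _ (h2 σ), hD.prod Finset.univ fun i _ => hA _ _, Finset.mul_sum]
    refine Finset.sum_congr rfl fun i _ => ?_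
    rw [← Finset.mul_prod_erase Finset.univ _ (Finset.mem_univ i), Matrix.updateCol_self]
    congr 2
    refine Finset.prod_congr rfl fun j hj => ?_
    rw [Matrix.updateCol_ne (Finset.ne_of_mem_erase hj)]
  rw [Finset.sum_congr rfl fun σ _ => h3 σ, Finset.sum_comm]
  have h4 : ∀ i : Fin n, ∑ σ : Equiv.Perm (Fin n), ((Equiv.Perm.sign σ : ℤ) : ℂ) *
      ∏ j, (A x).updateCol i (fun l => mD D A l i) (σ j) j =
      (A x).det * ((A x)⁻¹ * mD D A) i i := by
    intro i
    rw [← Matrix.det_apply', ← Matrix.cramer_apply, Matrix.cramer_eq_adjugate_mulVec]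
    have h5 : (A x).adjugate = (A x).det • (A x)⁻¹ := by
      rw [Matrix.inv_def, Ring.inverse_eq_inv', smul_smul, mul_inv_cancel₀ hu, one_smul]
    rw [h5, Matrix.smul_mulVec, Pi.smul_apply, smul_eq_mul, Matrix.mul_apply]
    rfl
  rw [Finset.sum_congr rfl fun i _ => h4 i, ← Finset.mul_sum]
  rfl

/-! ### Smoothness -/

theorem MSmooth.mul (hA : MSmooth M A) (hB : MSmooth M B) : MSmooth M (fun y => A y * B y) := by
  intro l m
  have h1 : (fun y => (A y * B y) l m) = fun y => ∑ k ∈ Finset.univ, A y l k * B y k m := by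
    funext y
    rw [Matrix.mul_apply]
  rw [h1]
  exact ContDiffOn.sum fun k _ => (hA l k).mul (hB k m)

theorem MSmooth.mwd (hM : IsOpen M) (hA : MSmooth M A) : MSmooth M (mwd e e' A) :=
  fun l m => KQ.contDiffOn_wd hM (hA l m)

theorem MSmooth.mwdb (hM : IsOpen M) (hA : MSmooth M A) : MSmooth M (mwdb e e' A) :=
  fun l m => KQ.contDiffOn_wdb hM (hA l m)

theorem MSmooth.det (hA : MSmooth M A) : ContDiffOn ℝ ∞ (fun y => (A y).det) M := by
  have h1 : (fun y => (A y).det) = fun y => ∑ σ ∈ (Finset.univ : Finset (Equiv.Perm (Fin n))),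
      ((Equiv.Perm.sign σ : ℤ) : ℂ) * ∏ i ∈ Finset.univ, A y (σ i) i := by
    funext y
    rw [Matrix.det_apply']
  rw [h1]
  exact ContDiffOn.sum fun σ _ => contDiffOn_const.mul (contDiffOn_prod fun i _ => hA _ _)

theorem MSmooth.adjugate (hA : MSmooth M A) : MSmooth M (fun y => (A y).adjugate) := by
  intro l m
  have h1 : (fun y => (A y).adjugate l m) =
      fun y => ((A y).updateRow m (Pi.single l 1)).det := by
    funext y
    rw [Matrix.adjugate_apply]
  rw [h1]
  refine MSmooth.det (A := fun y => (A y).updateRow m (Pi.single l 1)) fun a b => ?_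
  by_cases h : a = m
  · subst h
    simp only [Matrix.updateRow_self]
    exact contDiffOn_const
  · simp only [Matrix.updateRow_ne h]
    exact hA a b

theorem MSmooth.inv (hA : MSmooth M A) (hu : ∀ y ∈ M, (A y).det ≠ 0) :
    MSmooth M (fun y => (A y)⁻¹) := by
  intro l m
  have h1 : (fun y => (A y)⁻¹ l m) = fun y => ((A y).det)⁻¹ * (A y).adjugate l m := by
    funext y
    rw [Matrix.inv_def, Ring.inverse_eq_inv', Matrix.smul_apply, smul_eq_mul]
  rw [h1]
  exact (hA.det.inv hu).mul (hA.adjugate l m)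

theorem MSmooth.trace (hA : MSmooth M A) : ContDiffOn ℝ ∞ (fun y => (A y).trace) M := by
  have h1 : (fun y => (A y).trace) = fun y => ∑ i ∈ Finset.univ, A y i i := by
    funext y
    rfl
  rw [h1]
  exact ContDiffOn.sum fun i _ => hA i i

private theorem MSmooth.neg' (hA : MSmooth M A) : MSmooth M (fun y => -A y) :=
  fun l m => (hA l m).neg

/-! ### The formulas -/

theorem wd_trace (hM : IsOpen M) (hA : MSmooth M A) (hx : x ∈ M) :
    KQ.wd e e' (fun y => (A y).trace) x = (mwd e e' A x).trace :=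
  (md_wd x e e').mtrace (hA.mdiff hM hx)

theorem wdb_trace (hM : IsOpen M) (hA : MSmooth M A) (hx : x ∈ M) :
    KQ.wdb e e' (fun y => (A y).trace) x = (mwdb e e' A x).trace :=
  (md_wdb x e e').mtrace (hA.mdiff hM hx)

theorem mwd_mul (hM : IsOpen M) (hA : MSmooth M A) (hB : MSmooth M B) (hx : x ∈ M) :
    mwd e e' (fun y => A y * B y) x = mwd e e' A x * B x + A x * mwd e e' B x :=
  (md_wd x e e').mmul (hA.mdiff hM hx) (hB.mdiff hM hx)

theorem mwdb_mul (hM : IsOpen M) (hA : MSmooth M A) (hB : MSmooth M B) (hx : x ∈ M) :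
    mwdb e e' (fun y => A y * B y) x = mwdb e e' A x * B x + A x * mwdb e e' B x :=
  (md_wdb x e e').mmul (hA.mdiff hM hx) (hB.mdiff hM hx)

theorem mwd_inv (hM : IsOpen M) (hA : MSmooth M A) (hu : ∀ y ∈ M, (A y).det ≠ 0) (hx : x ∈ M) :
    mwd e e' (fun y => (A y)⁻¹) x = - ((A x)⁻¹ * mwd e e' A x * (A x)⁻¹) :=
  (md_wd x e e').minv (hA.mdiff hM hx) ((hA.inv hu).mdiff hM hx)
    (by filter_upwards [hM.mem_nhds hx] with y hy using hu y hy)

theorem mwdb_inv (hM : IsOpen M) (hA : MSmooth M A) (hu : ∀ y ∈ M, (A y).det ≠ 0) (hx : x ∈ M) :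
    mwdb e e' (fun y => (A y)⁻¹) x = - ((A x)⁻¹ * mwdb e e' A x * (A x)⁻¹) :=
  (md_wdb x e e').minv (hA.mdiff hM hx) ((hA.inv hu).mdiff hM hx)
    (by filter_upwards [hM.mem_nhds hx] with y hy using hu y hy)

/-- Jacobi's formula. -/
theorem wd_det (hM : IsOpen M) (hA : MSmooth M A) (hu : ∀ y ∈ M, (A y).det ≠ 0) (hx : x ∈ M) :
    KQ.wd e e' (fun y => (A y).det) x = (A x).det * ((A x)⁻¹ * mwd e e' A x).trace :=
  (md_wd x e e').mdet (hA.mdiff hM hx) (hu x hx)

theorem wdb_det (hM : IsOpen M) (hA : MSmooth M A) (hu : ∀ y ∈ M, (A y).det ≠ 0) (hx : x ∈ M) :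
    KQ.wdb e e' (fun y => (A y).det) x = (A x).det * ((A x)⁻¹ * mwdb e e' A x).trace :=
  (md_wdb x e e').mdet (hA.mdiff hM hx) (hu x hx)

/-- For a positive definite matrix `det` is real and positive. -/
theorem det_re {H : Matrix (Fin n) (Fin n) ℂ} (hH : H.PosDef) :
    H.det = ((H.det.re : ℝ) : ℂ) ∧ 0 < H.det.re := by
  have h1 : (0 : ℂ) < H.det := hH.det_pos
  rw [Complex.lt_def] at h1
  refine ⟨Complex.ext rfl ?_, h1.1⟩
  rw [ofReal_im]
  exact h1.2.symm

private theorem det_ne (hp : ∀ y ∈ M, (g y).PosDef) : ∀ y ∈ M, (g y).det ≠ 0 := by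
  intro y hy h
  have h1 := (det_re (hp y hy)).2
  rw [h, zero_re] at h1
  exact lt_irrefl _ h1

private theorem re_diff (hM : IsOpen M) (hg : MSmooth M g) (hx : x ∈ M) :
    DifferentiableAt ℝ (fun y => (g y).det.re) x := by
  have h1 : DifferentiableAt ℝ (fun y => (g y).det) x :=
    ((hg.det).contDiffAt (hM.mem_nhds hx)).differentiableAt (by simp)
  exact reCLM.differentiableAt.comp x h1

theorem wd_logdet (hM : IsOpen M) (hg : MSmooth M g) (hp : ∀ y ∈ M, (g y).PosDef) (hx : x ∈ M) :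
    KQ.wd e e' (fun y => ((Real.log (g y).det.re : ℝ) : ℂ)) x
      = ((g x)⁻¹ * mwd e e' g x).trace := by
  obtain ⟨h1, h2⟩ := det_re (hp x hx)
  rw [KQ.wd_ofReal_comp (u := fun y => (g y).det.re) (re_diff hM hg hx)
    (Real.hasDerivAt_log h2.ne')]
  have h3 : KQ.wd e e' (fun y => (((g y).det.re : ℝ) : ℂ)) x = KQ.wd e e' (fun y => (g y).det) x := by
    refine KQ.wd_congr ?_
    filter_upwards [hM.mem_nhds hx] with y hy using (det_re (hp y hy)).1.symm
  rw [h3, wd_det hM hg (det_ne hp) hx, ← mul_assoc, ofReal_inv, ← h1,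
    inv_mul_cancel₀ (det_ne hp x hx), one_mul]

theorem wdb_logdet (hM : IsOpen M) (hg : MSmooth M g) (hp : ∀ y ∈ M, (g y).PosDef) (hx : x ∈ M) :
    KQ.wdb e e' (fun y => ((Real.log (g y).det.re : ℝ) : ℂ)) x
      = ((g x)⁻¹ * mwdb e e' g x).trace := by
  obtain ⟨h1, h2⟩ := det_re (hp x hx)
  rw [KQ.wdb_ofReal_comp (u := fun y => (g y).det.re) (re_diff hM hg hx)
    (Real.hasDerivAt_log h2.ne')]
  have h3 : KQ.wdb e e' (fun y => (((g y).det.re : ℝ) : ℂ)) x =
      KQ.wdb e e' (fun y => (g y).det) x := by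
    refine KQ.wdb_congr ?_
    filter_upwards [hM.mem_nhds hx] with y hy using (det_re (hp y hy)).1.symm
  rw [h3, wdb_det hM hg (det_ne hp) hx, ← mul_assoc, ofReal_inv, ← h1,
    inv_mul_cancel₀ (det_ne hp x hx), one_mul]

theorem wd_wdb_logdet (hM : IsOpen M) (hg : MSmooth M g) (hp : ∀ y ∈ M, (g y).PosDef)
    (hx : x ∈ M) :
    KQ.wd e e' (KQ.wdb b b' (fun y => ((Real.log (g y).det.re : ℝ) : ℂ))) x
      = ((g x)⁻¹ * mwd e e' (mwdb b b' g) x).trace
        - ((g x)⁻¹ * mwd e e' g x * (g x)⁻¹ * mwdb b b' g x).trace := by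
  have hu := det_ne hp
  have h1 : KQ.wd e e' (KQ.wdb b b' (fun y => ((Real.log (g y).det.re : ℝ) : ℂ))) x =
      KQ.wd e e' (fun y => ((g y)⁻¹ * mwdb b b' g y).trace) x := by
    refine KQ.wd_congr ?_
    filter_upwards [hM.mem_nhds hx] with y hy using wdb_logdet hM hg hp hy
  have h2 : MSmooth M (mwdb b b' g) := hg.mwdb hM
  rw [h1, wd_trace hM ((hg.inv hu).mul h2) hx, mwd_mul hM (hg.inv hu) h2 hx, mwd_inv hM hg hu hx,
    Matrix.neg_mul, Matrix.trace_add, Matrix.trace_neg]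
  ring

theorem mwd_mwdb_inv (hM : IsOpen M) (hg : MSmooth M g) (hp : ∀ y ∈ M, (g y).PosDef)
    (hx : x ∈ M) :
    mwd e e' (mwdb b b' (fun y => (g y)⁻¹)) x
      = (g x)⁻¹ * mwdb b b' g x * (g x)⁻¹ * mwd e e' g x * (g x)⁻¹
        + (g x)⁻¹ * mwd e e' g x * (g x)⁻¹ * mwdb b b' g x * (g x)⁻¹
        - (g x)⁻¹ * mwd e e' (mwdb b b' g) x * (g x)⁻¹ := by
  have hu := det_ne hp
  have h1 : mwd e e' (mwdb b b' (fun y => (g y)⁻¹)) x =
      mwd e e' (fun y => -((g y)⁻¹ * mwdb b b' g y * (g y)⁻¹)) x := by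
    refine (md_wd x e e').mcongr ?_
    filter_upwards [hM.mem_nhds hx] with y hy using mwdb_inv hM hg hu hy
  have h2 : MSmooth M (mwdb b b' g) := hg.mwdb hM
  have h3 := hg.inv hu
  have h4 := (h3.mul h2).mul h3
  have h5 : mwd e e' (fun y => -((g y)⁻¹ * mwdb b b' g y * (g y)⁻¹)) x =
      -mwd e e' (fun y => (g y)⁻¹ * mwdb b b' g y * (g y)⁻¹) x :=
    (md_wd x e e').mneg (h4.mdiff hM hx)
  rw [h1, h5, mwd_mul hM (h3.mul h2) h3 hx, mwd_mul hM h3 h2 hx, mwd_inv hM hg hu hx]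
  noncomm_ring

end KN
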