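import Pool.Agent.Lib_MP_3ea2ac_kn.Defs

/-! Principal minors of a positive definite matrix in terms of the diagonal of its inverse. -/

open Complex Matrix
open scoped ComplexConjugate ComplexOrder

namespace KN

variable {n : ℕ} {H : Matrix (Fin n) (Fin n) ℂ} {t : Fin n → ℝ}

private theorem hq_dot (v : Fin n → ℂ) : hq H v = (star (star v) ⬝ᵥ (H *ᵥ star v)).re := by
  unfold hq
  congr 1
  simp only [dotProduct, mulVec, Finset.mul_sum, star_star, Pi.star_apply]
  refine Finset.sum_congr rfl fun i _ => Finset.sum_congr rfl fun j _ => ?_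
  rw [Complex.star_def]
  ring

private theorem hq_nonneg (hH : H.PosDef) (v : Fin n → ℂ) : 0 ≤ hq H v := by
  rw [hq_dot]
  exact (Complex.le_def.1 (hH.posSemidef.dotProduct_mulVec_nonneg (star v))).1

private theorem mul_col (hH : H.PosDef) (k : Fin n) :
    H *ᵥ (H⁻¹ *ᵥ Pi.single k 1) = Pi.single k 1 := by
  rw [mulVec_mulVec, mul_nonsing_inv _ ((isUnit_iff_isUnit_det _).1 hH.isUnit), one_mulVec]

private theorem col_apply (k : Fin n) : (H⁻¹ *ᵥ Pi.single k 1) k = H⁻¹ k k := by
  simp

private theorem diag_real (hH : H.PosDef) (k : Fin n) :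
    0 < (H⁻¹ k k).re ∧ H⁻¹ k k = ((H⁻¹ k k).re : ℂ) := by
  have h := Complex.lt_def.1 (hH.inv.diag_pos (i := k))
  refine ⟨h.1, ?_⟩
  apply Complex.ext
  · simp
  · rw [Complex.ofReal_im]
    exact h.2.symm

/-- `|v_k|² ≤ (H⁻¹)_{kk} v^* H v`: Cauchy-Schwarz for `H` and the vectors `v`, `H⁻¹ e_k`. -/
theorem normSq_le (hH : H.PosDef) (k : Fin n) (v : Fin n → ℂ) :
    ‖v k‖ ^ 2 ≤ (H⁻¹ k k).re * hq H v := by
  obtain ⟨hg, hgk⟩ := diag_real hH k
  set g : ℝ := (H⁻¹ k k).re with hgdef
  obtain ⟨u, hHu, huk⟩ : ∃ u : Fin n → ℂ, H *ᵥ u = Pi.single k 1 ∧ u k = (g : ℂ) :=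
    ⟨H⁻¹ *ᵥ Pi.single k 1, mul_col hH k, by rw [col_apply, hgk]⟩
  set w : Fin n → ℂ := star v with hw
  have hwu : star w ⬝ᵥ (H *ᵥ u) = v k := by
    rw [hHu, dotProduct_single, mul_one, hw, star_star]
  have huu : star u ⬝ᵥ (H *ᵥ u) = (g : ℂ) := by
    rw [hHu, dotProduct_single, mul_one, Pi.star_apply, huk, Complex.star_def, Complex.conj_ofReal]
  have huw : star u ⬝ᵥ (H *ᵥ w) = conj (v k) := by
    have h1 : star u ⬝ᵥ (H *ᵥ w) = star (H *ᵥ u) ⬝ᵥ w := by
      rw [star_mulVec, hH.isHermitian.eq, dotProduct_mulVec]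
    rw [h1, hHu, hw]
    have h2 : star (Pi.single k (1 : ℂ)) = (Pi.single k 1 : Fin n → ℂ) := by
      rw [← Pi.single_star, star_one]
    rw [h2, single_dotProduct, one_mul, Pi.star_apply, Complex.star_def]
  set lam : ℂ := conj (v k) / g with hlam
  have hkey := (Complex.le_def.1 (hH.posSemidef.dotProduct_mulVec_nonneg (w - lam • u))).1
  have hexp : star (w - lam • u) ⬝ᵥ (H *ᵥ (w - lam • u)) =
      star w ⬝ᵥ (H *ᵥ w) - lam * v k - conj lam * conj (v k) + conj lam * lam * g := by
    rw [mulVec_sub, mulVec_smul, star_sub, star_smul, sub_dotProduct, dotProduct_sub, dotProduct_sub,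
      dotProduct_smul, dotProduct_smul, smul_dotProduct, smul_dotProduct, hwu, huu, huw]
    simp only [smul_eq_mul, Complex.star_def]
    ring
  rw [hexp] at hkey
  have hgc : (g : ℂ) ≠ 0 := by exact_mod_cast hg.ne'
  have hns : conj (v k) * v k = ((‖v k‖ ^ 2 : ℝ) : ℂ) := by
    rw [Complex.conj_mul']
    push_cast
    rfl
  have hcl : conj lam = v k / g := by
    rw [hlam, map_div₀, Complex.conj_conj, Complex.conj_ofReal]
  have hval : star w ⬝ᵥ (H *ᵥ w) - lam * v k - conj lam * conj (v k) + conj lam * lam * g =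
      star w ⬝ᵥ (H *ᵥ w) - ((‖v k‖ ^ 2 / g : ℝ) : ℂ) := by
    rw [hcl, hlam]
    push_cast
    push_cast at hns
    rw [← hns]
    field_simp
    ring
  rw [hval, Complex.sub_re, Complex.ofReal_re, Complex.zero_re, ← hq_dot] at hkey
  have h3 : ‖v k‖ ^ 2 / g ≤ hq H v := by linarith
  rw [div_le_iff₀ hg] at h3
  linarith

/-- Conversely, if `|v_k|² ≤ t · H(v,v)` for all `v` then `(H⁻¹)_{kk} ≤ t`. -/
theorem inv_le_of (hH : H.PosDef) (k : Fin n) {s : ℝ} (h : ∀ v, ‖v k‖ ^ 2 ≤ s * hq H v) :
    (H⁻¹ k k).re ≤ s := by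
  obtain ⟨hg, hgk⟩ := diag_real hH k
  set g : ℝ := (H⁻¹ k k).re with hgdef
  obtain ⟨u, hHu, huk⟩ : ∃ u : Fin n → ℂ, H *ᵥ u = Pi.single k 1 ∧ u k = (g : ℂ) :=
    ⟨H⁻¹ *ᵥ Pi.single k 1, mul_col hH k, by rw [col_apply, hgk]⟩
  have h1 := h (star u)
  have h2 : hq H (star u) = g := by
    rw [hq_dot, star_star, star_star, hHu, dotProduct_single, mul_one, Pi.star_apply, huk, Complex.star_def,
      Complex.conj_ofReal, Complex.ofReal_re]
  rw [h2, Pi.star_apply, norm_star, huk, Complex.norm_real, Real.norm_eq_abs, abs_of_pos hg] at h1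
  nlinarith

/-- The principal submatrix on `S`, extended by the identity. -/
private def XX (H : Matrix (Fin n) (Fin n) ℂ) (S : Finset (Fin n)) : Matrix (Fin n) (Fin n) ℂ :=
  fun i j => if i ∈ S ∧ j ∈ S then H i j else if i = j then 1 else 0

private def rr (S : Finset (Fin n)) (v : Fin n → ℂ) : Fin n → ℂ := fun i => if i ∈ S then v i else 0

private theorem XX_dot (S : Finset (Fin n)) (w : Fin n → ℂ) :
    star w ⬝ᵥ (XX H S *ᵥ w) =
      star (rr S w) ⬝ᵥ (H *ᵥ rr S w) + ((∑ i, if i ∈ S then (0 : ℝ) else ‖w i‖ ^ 2 : ℝ) : ℂ) := by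
  simp only [dotProduct, mulVec]
  push_cast
  rw [← Finset.sum_add_distrib]
  refine Finset.sum_congr rfl fun i _ => ?_
  by_cases hi : i ∈ S
  · rw [if_pos hi, Complex.ofReal_zero, add_zero]
    have h1 : star (rr S w) i = star w i := by
      simp only [Pi.star_apply, rr, if_pos hi]
    rw [h1]
    congr 1
    refine Finset.sum_congr rfl fun j _ => ?_
    by_cases hj : j ∈ S
    · simp only [XX, rr, if_pos hj, hi, hj, and_self, if_true]
    · have hij : i ≠ j := fun e => hj (e ▸ hi)
      simp only [XX, rr, hj, and_false, if_false, hij, zero_mul, mul_zero]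
  · rw [if_neg hi]
    have h1 : star (rr S w) i = 0 := by
      simp only [Pi.star_apply, rr, if_neg hi, star_zero]
    rw [h1, zero_mul, zero_add]
    have h2 : ∑ j, XX H S i j * w j = w i := by
      rw [Finset.sum_eq_single i]
      · simp only [XX, hi, false_and, if_false, if_true, one_mul]
      · intro j _ hj
        simp only [XX, hi, false_and, if_false, hj.symm, zero_mul]
      · intro h
        exact absurd (Finset.mem_univ _) h
    rw [h2, Pi.star_apply, Complex.star_def, Complex.conj_mul']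
    push_cast
    rfl

private theorem XX_posDef (hH : H.PosDef) (S : Finset (Fin n)) : (XX H S).PosDef := by
  refine PosDef.of_dotProduct_mulVec_pos ?_ fun w hw => ?_
  · ext i j
    rw [conjTranspose_apply]
    unfold XX
    by_cases h : i ∈ S ∧ j ∈ S
    · rw [if_pos h, if_pos h.symm]
      exact hH.isHermitian.apply i j
    · rw [if_neg h, if_neg (fun h' => h h'.symm)]
      by_cases e : i = j
      · rw [if_pos e, if_pos e.symm, star_one]
      · rw [if_neg e, if_neg (fun e' => e e'.symm), star_zero]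
  · rw [XX_dot]
    have h0 : (0 : ℝ) ≤ ∑ i, if i ∈ S then (0 : ℝ) else ‖w i‖ ^ 2 :=
      Finset.sum_nonneg fun i _ => by split_ifs <;> positivity
    by_cases hr : rr S w = 0
    · have hne : ∃ i, i ∉ S ∧ w i ≠ 0 := by
        by_contra hcon
        push Not at hcon
        refine hw (funext fun i => ?_)
        by_cases hi : i ∈ S
        · have := congrFun hr i
          simpa only [rr, if_pos hi] using this
        · exact hcon i hi
      obtain ⟨i, hi, hwi⟩ := hne
      have h1 : (0 : ℝ) < ∑ i, if i ∈ S then (0 : ℝ) else ‖w i‖ ^ 2 := by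
        refine Finset.sum_pos' (fun i _ => by split_ifs <;> positivity) ⟨i, Finset.mem_univ _, ?_⟩
        rw [if_neg hi]
        have : 0 < ‖w i‖ := norm_pos_iff.2 hwi
        positivity
      rw [hr, mulVec_zero, dotProduct_zero, zero_add]
      exact_mod_cast h1
    · have h1 := hH.dotProduct_mulVec_pos hr
      have h2 : (0 : ℂ) ≤ ((∑ i, if i ∈ S then (0 : ℝ) else ‖w i‖ ^ 2 : ℝ) : ℂ) := by
        exact_mod_cast h0
      exact add_pos_of_pos_of_nonneg h1 h2

private theorem XX_inv_le (hH : H.PosDef) (ht : ∀ l, 0 ≤ t l) (h : ∀ l, (H⁻¹ l l).re ≤ t l)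
    {S : Finset (Fin n)} {l : Fin n} (hl : l ∈ S) : ((XX H S)⁻¹ l l).re ≤ t l := by
  refine inv_le_of (XX_posDef hH S) l fun v => ?_
  have h1 : hq (XX H S) v = hq H (rr S v) + ∑ i, if i ∈ S then (0 : ℝ) else ‖v i‖ ^ 2 := by
    have hs : rr S (star v) = star (rr S v) := by
      funext i
      unfold rr
      by_cases hi : i ∈ S
      · simp only [if_pos hi, Pi.star_apply]
      · simp only [if_neg hi, Pi.star_apply, star_zero]
    rw [hq_dot, hq_dot, XX_dot, Complex.add_re, Complex.ofReal_re, hs]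
    congr 1
    refine Finset.sum_congr rfl fun i _ => ?_
    rw [Pi.star_apply, norm_star]
  have h2 := normSq_le hH l (rr S v)
  have h3 : rr S v l = v l := if_pos hl
  rw [h3] at h2
  have h4 : (0 : ℝ) ≤ ∑ i, if i ∈ S then (0 : ℝ) else ‖v i‖ ^ 2 :=
    Finset.sum_nonneg fun i _ => by split_ifs <;> positivity
  have h5 := hq_nonneg hH (rr S v)
  calc ‖v l‖ ^ 2 ≤ (H⁻¹ l l).re * hq H (rr S v) := h2
    _ ≤ t l * hq H (rr S v) := mul_le_mul_of_nonneg_right (h l) h5
    _ ≤ t l * hq (XX H S) v := mul_le_mul_of_nonneg_left (by rw [h1]; linarith) (ht l)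

private theorem XX_det (hH : H.PosDef) {S : Finset (Fin n)} {l : Fin n} (hl : l ∈ S) :
    (XX H (S.erase l)).det = (XX H S)⁻¹ l l * (XX H S).det := by
  have hu : IsUnit (XX H S).det := (isUnit_iff_isUnit_det _).1 (XX_posDef hH S).isUnit
  have h1 : (XX H S)⁻¹ l l * (XX H S).det = (XX H S).adjugate l l := by
    rw [Matrix.inv_def, Matrix.smul_apply, smul_eq_mul, Ring.inverse_eq_inv', mul_comm _ (XX H S).det, ← mul_assoc,
      mul_inv_cancel₀ hu.ne_zero, one_mul]
  rw [h1, adjugate_apply]
  symm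
  refine det_eq_of_forall_row_eq_smul_add_const (fun i => if i = l then 0 else XX H S i l) l
    (if_pos rfl) fun i j => ?_
  have hll : XX H (S.erase l) l j = if l = j then 1 else 0 := by
    unfold XX
    rw [if_neg (fun h => (Finset.notMem_erase l S) h.1)]
  beta_reduce
  rw [hll]
  by_cases hi : i = l
  · subst hi
    rw [updateRow_self, if_pos rfl, zero_mul, add_zero, hll, Pi.single_apply]
    by_cases e : i = j
    · rw [if_pos e, if_pos e.symm]
    · rw [if_neg e, if_neg (fun e' => e e'.symm)]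
  · rw [updateRow_ne hi, if_neg hi]
    by_cases e : l = j
    · subst e
      rw [if_pos rfl, mul_one]
      have : XX H (S.erase l) i l = 0 := by
        unfold XX
        rw [if_neg (fun h => (Finset.notMem_erase l S) h.2), if_neg hi]
      rw [this, zero_add]
    · rw [if_neg e, mul_zero, add_zero]
      unfold XX
      have hj : j ≠ l := fun e' => e e'.symm
      simp only [Finset.mem_erase, hi, hj, ne_eq, not_false_eq_true, true_and]

private theorem XX_step (hH : H.PosDef) (ht : ∀ l, 0 ≤ t l) (h : ∀ l, (H⁻¹ l l).re ≤ t l)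
    {S : Finset (Fin n)} {l : Fin n} (hl : l ∈ S) :
    (XX H (S.erase l)).det.re ≤ t l * (XX H S).det.re := by
  rw [XX_det hH hl]
  have h1 := Complex.lt_def.1 (XX_posDef hH S).det_pos
  have h2 := XX_inv_le hH ht h hl
  rw [Complex.mul_re, ← h1.2, Complex.zero_im, mul_zero, sub_zero]
  exact mul_le_mul_of_nonneg_right h2 h1.1.le

private theorem XX_ind (hH : H.PosDef) (ht : ∀ l, 0 ≤ t l) (h : ∀ l, (H⁻¹ l l).re ≤ t l)
    (T : Finset (Fin n)) : (XX H (Finset.univ \ T)).det.re ≤ (∏ l ∈ T, t l) * H.det.re := by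
  induction T using Finset.induction_on with
  | empty =>
    have : XX H (Finset.univ \ ∅) = H := by
      ext i j
      unfold XX
      simp
    rw [this, Finset.prod_empty, one_mul]
  | insert l T hl ih =>
    have e : Finset.univ \ insert l T = (Finset.univ \ T).erase l := by
      ext i
      simp only [Finset.mem_sdiff, Finset.mem_univ, Finset.mem_insert, Finset.mem_erase, true_and]
      tauto
    rw [e, Finset.prod_insert hl, mul_assoc]
    refine (XX_step hH ht h ?_).trans (mul_le_mul_of_nonneg_left ih (ht l))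
    rw [Finset.mem_sdiff]
    exact ⟨Finset.mem_univ _, hl⟩

private theorem XX_one (i : Fin n) : (XX H {i}).det = H i i := by
  have : XX H {i} = diagonal fun l => if l = i then H i i else 1 := by
    ext a b
    unfold XX
    rw [diagonal_apply]
    simp only [Finset.mem_singleton]
    by_cases e : a = b
    · subst e
      by_cases ha : a = i
      · subst ha
        simp
      · simp [ha]
    · rw [if_neg e, if_neg e, if_neg]
      rintro ⟨h1, h2⟩
      exact e (h1.trans h2.symm)
  rw [this, det_diagonal, Finset.prod_ite_eq' Finset.univ i fun _ => H i i]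
  simp

private theorem XX_two {i j : Fin n} (hij : i ≠ j) :
    (XX H {i, j}).det = H i i * H j j - H i j * H j i := by
  set p : Fin 2 → Fin n := ![i, j] with hp
  set A : Matrix (Fin n) (Fin 2) ℂ := fun l a => if l = p a then 1 else 0 with hA
  set B : Matrix (Fin 2) (Fin n) ℂ := fun a m => XX H {i, j} (p a) m - if p a = m then 1 else 0
    with hB
  have h1 : XX H {i, j} = 1 + A * B := by
    ext l m
    rw [Matrix.add_apply, mul_apply, Fin.sum_univ_two, one_apply]
    simp only [hA, hB, hp, cons_val_zero, cons_val_one]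
    by_cases hl : l = i
    · subst hl
      rw [if_pos rfl, if_neg hij]
      ring_nf
    · by_cases hl' : l = j
      · subst hl'
        rw [if_pos rfl, if_neg hl]
        ring_nf
      · rw [if_neg hl, if_neg hl', zero_mul, zero_mul, add_zero, add_zero]
        unfold XX
        rw [if_neg]
        rintro ⟨h, -⟩
        rw [Finset.mem_insert, Finset.mem_singleton] at h
        exact h.elim hl hl'
  have hi : i ∈ ({i, j} : Finset (Fin n)) := by simp
  have hj : j ∈ ({i, j} : Finset (Fin n)) := by simp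
  have h2 : ∀ a b, (1 + B * A : Matrix (Fin 2) (Fin 2) ℂ) a b = XX H {i, j} (p a) (p b) := by
    intro a b
    rw [Matrix.add_apply, mul_apply, one_apply]
    have h3 : ∀ l, B a l * A l b = if l = p b then B a (p b) else 0 := by
      intro l
      simp only [hA]
      by_cases hl : l = p b
      · rw [if_pos hl, if_pos hl, mul_one, hl]
      · rw [if_neg hl, if_neg hl, mul_zero]
    rw [Finset.sum_congr rfl fun l _ => h3 l, Finset.sum_ite_eq' Finset.univ (p b)]
    rw [if_pos (Finset.mem_univ _)]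
    have h4 : p a = p b ↔ a = b := by
      constructor
      · intro e
        fin_cases a <;> fin_cases b
        · rfl
        · exact absurd e hij
        · exact absurd e.symm hij
        · rfl
      · intro e
        rw [e]
    simp only [hB]
    by_cases e : a = b
    · rw [if_pos e, if_pos (h4.2 e)]
      ring
    · rw [if_neg e, if_neg (fun e' => e (h4.1 e'))]
      ring
  rw [h1, det_one_add_mul_comm, det_fin_two, h2, h2, h2, h2]
  have p0 : p 0 = i := rfl
  have p1 : p 1 = j := rfl
  rw [p0, p1]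
  unfold XX
  simp only [hi, hj, and_self, if_true]

/-- `H_{ii} ≤ ∏_{l ≠ i} t_l · det H` if `(H⁻¹)_{ll} ≤ t_l` for all `l`. Remove the indices `l ≠ i` one
after the other: `det H_{S ∖ l} = ((H_S)⁻¹)_{ll} det H_S ≤ t_l det H_S` since the inequality
`|v_l|² ≤ t_l H(v,v)` passes to principal submatrices. -/
theorem diag_le (hH : H.PosDef) (ht : ∀ l, 0 ≤ t l) (h : ∀ l, (H⁻¹ l l).re ≤ t l) (i : Fin n) :
    (H i i).re ≤ (∏ l ∈ Finset.univ.erase i, t l) * H.det.re := by
  have h1 := XX_ind hH ht h (Finset.univ.erase i)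
  have e : Finset.univ \ Finset.univ.erase i = {i} := by
    ext l
    simp only [Finset.mem_sdiff, Finset.mem_univ, Finset.mem_erase, Finset.mem_singleton, and_true,
      true_and, ne_eq, not_not]
  rw [e, XX_one] at h1
  exact h1

/-- The same for the `2 × 2` principal minors. -/
theorem minor_le (hH : H.PosDef) (ht : ∀ l, 0 ≤ t l) (h : ∀ l, (H⁻¹ l l).re ≤ t l) {i j : Fin n}
    (hij : i ≠ j) :
    (H i i * H j j - H i j * H j i).re ≤
      (∏ l ∈ (Finset.univ.erase i).erase j, t l) * H.det.re := by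
  have h1 := XX_ind hH ht h ((Finset.univ.erase i).erase j)
  have e : Finset.univ \ (Finset.univ.erase i).erase j = {i, j} := by
    ext l
    simp only [Finset.mem_sdiff, Finset.mem_univ, Finset.mem_erase, Finset.mem_singleton, and_true,
      true_and, ne_eq, Finset.mem_insert]
    tauto
  rw [e, XX_two hij] at h1
  exact h1

end KN
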