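import Pool.Agent.Lib_MP_3ea2ac_kn.Setup
import Pool.Agent.Lib_MP_3ea2ac_kn.MatD
import Pool.Agent.Lib_MP_3ea2ac_kn.Min

/-! Linear algebra at a point: cofactor form, bounds for `T = -Ric`, gradient of the cutoffs. -/

open MeasureTheory Complex Set Topology Filter
open scoped ComplexConjugate ContDiff ComplexOrder

namespace KN

variable {n : ℕ} {M : Set (Fin n → ℂ)} {g : (Fin n → ℂ) → Matrix (Fin n) (Fin n) ℂ} {a : ℝ}
  {α β : Fin n → ℂ} {x : Fin n → ℂ} {η : ℕ → (Fin n → ℂ) → ℝ}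

/-- Cofactor form `∑ c^{i\bar j} p_i \bar q_j`, `c^{i\bar j} = (adj H)_{ji} = det H · (H⁻¹)_{ji}`. -/
noncomputable def cform (H : Matrix (Fin n) (Fin n) ℂ) (p q : Fin n → ℂ) : ℂ :=
  ∑ i, ∑ j, H.adjugate j i * p i * conj (q j)

/-! Auxiliary statements. -/

private theorem Lin_hqm (H : Matrix (Fin n) (Fin n) ℂ) (v : Fin n → ℂ) :
    ∑ i, ∑ j, H i j * v i * conj (v j) = dotProduct v (H.mulVec (star v)) := by
  unfold dotProduct Matrix.mulVec dotProduct
  refine Finset.sum_congr rfl fun i _ => ?_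
  rw [Finset.mul_sum]
  refine Finset.sum_congr rfl fun j _ => ?_
  rw [Pi.star_apply, ← starRingEnd_apply]
  ring

private theorem Lin_hqs (H : Matrix (Fin n) (Fin n) ℂ) (w : Fin n → ℂ) :
    hq H (star w) = (dotProduct (star w) (H.mulVec w)).re := by
  unfold hq
  rw [Lin_hqm, star_star]

private theorem Lin_hq (H : Matrix (Fin n) (Fin n) ℂ) (v : Fin n → ℂ) :
    hq H v = (dotProduct (star (star v)) (H.mulVec (star v))).re := by
  unfold hq
  rw [Lin_hqm, star_star]

private theorem Lin_re {K : Matrix (Fin n) (Fin n) ℂ} (hK : K.PosSemidef) (p : Fin n → ℂ) :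
    0 ≤ (dotProduct (star p) (K.mulVec p)).re ∧ (dotProduct (star p) (K.mulVec p)).im = 0 := by
  have h := Complex.le_def.mp (hK.dotProduct_mulVec_nonneg p)
  exact ⟨h.1, h.2.symm⟩

private theorem Lin_sw {K : Matrix (Fin n) (Fin n) ℂ} (hK : K.IsHermitian) (x y : Fin n → ℂ) :
    star (dotProduct (K.mulVec x) (star y)) = dotProduct (K.mulVec y) (star x) := by
  rw [dotProduct_comm (K.mulVec x), Matrix.star_dotProduct, star_star,
    Matrix.star_mulVec, dotProduct_comm (K.mulVec y), Matrix.dotProduct_mulVec, hK.eq]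

private theorem Lin_cs {K : Matrix (Fin n) (Fin n) ℂ} (hK : K.PosSemidef) (p q : Fin n → ℂ) :
    ‖dotProduct (star q) (K.mulVec p)‖ ^ 2 ≤
      (dotProduct (star p) (K.mulVec p)).re * (dotProduct (star q) (K.mulVec q)).re := by
  have hb := (Lin_re hK q).1
  have ha := (Lin_re hK p).1
  obtain ⟨c, hc⟩ : ∃ c : ℂ, c = dotProduct (star q) (K.mulVec p) := ⟨_, rfl⟩
  have hc' : dotProduct (star p) (K.mulVec q) = conj c := by
    rw [hc, dotProduct_comm (star p), dotProduct_comm (star q), starRingEnd_apply,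
      Lin_sw hK.isHermitian]
  have hquad : ∀ t : ℝ, 0 ≤ (Complex.normSq c * (dotProduct (star q) (K.mulVec q)).re) * (t * t)
      + 2 * Complex.normSq c * t + (dotProduct (star p) (K.mulVec p)).re := by
    intro t
    have h1 := (Lin_re hK (p + ((t : ℂ) * c) • q)).1
    have him := (Lin_re hK q).2
    have hst : star ((t : ℂ) * c) = (t : ℂ) * conj c := by
      rw [← starRingEnd_apply, map_mul, Complex.conj_ofReal]
    have e : dotProduct (star (p + ((t : ℂ) * c) • q)) (K.mulVec (p + ((t : ℂ) * c) • q)) =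
        dotProduct (star p) (K.mulVec p) + ((t : ℂ) * c) * conj c
          + (t : ℂ) * conj c * c + (t : ℂ) * conj c * ((t : ℂ) * c) *
            dotProduct (star q) (K.mulVec q) := by
      rw [star_add, star_smul, Matrix.mulVec_add, Matrix.mulVec_smul, add_dotProduct,
        dotProduct_add, dotProduct_add, dotProduct_smul, smul_dotProduct, smul_dotProduct,
        dotProduct_smul, hc', ← hc, smul_eq_mul, smul_eq_mul, smul_eq_mul, smul_eq_mul, hst]
      ring
    rw [e] at h1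
    have h2 : (dotProduct (star p) (K.mulVec p) + ((t : ℂ) * c) * conj c
          + (t : ℂ) * conj c * c + (t : ℂ) * conj c * ((t : ℂ) * c) *
            dotProduct (star q) (K.mulVec q)).re =
        (Complex.normSq c * (dotProduct (star q) (K.mulVec q)).re) * (t * t)
      + 2 * Complex.normSq c * t + (dotProduct (star p) (K.mulVec p)).re := by
      simp only [Complex.normSq_apply, Complex.add_re, Complex.mul_re, Complex.mul_im,
        Complex.conj_re, Complex.conj_im, Complex.ofReal_re, Complex.ofReal_im, him]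
      ring
    rwa [h2] at h1
  have hdis := discrim_le_zero hquad
  unfold discrim at hdis
  rw [← hc, ← Complex.normSq_eq_norm_sq]
  rcases (Complex.normSq_nonneg c).eq_or_lt with h4 | h4
  · rw [← h4]
    exact mul_nonneg ha hb
  · have h5 : Complex.normSq c * Complex.normSq c ≤
        Complex.normSq c * ((dotProduct (star p) (K.mulVec p)).re *
          (dotProduct (star q) (K.mulVec q)).re) := by nlinarith
    exact le_of_mul_le_mul_left h5 h4

theorem gD_pos (h : IsKahler M g) (hx : x ∈ M) : 0 < gD g x := by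
  exact (Complex.lt_def.mp (h.posDef x hx).det_pos).1

theorem gD_smooth (h : IsKahler M g) : ContDiffOn ℝ ∞ (gD g) M := by
  have h1 : MSmooth M g := fun l m => h.smooth l m
  exact Complex.reCLM.contDiff.comp_contDiffOn h1.det

theorem gd_pos (h : IsKahler M g) (hx : x ∈ M) (i : Fin n) : 0 < gd g i x := by
  exact (Complex.lt_def.mp (h.posDef x hx).diag_pos).1

theorem gd_smooth (h : IsKahler M g) (i : Fin n) : ContDiffOn ℝ ∞ (gd g i) M := by
  exact Complex.reCLM.contDiff.comp_contDiffOn (h.smooth i i)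

/-- The adjugate is `det` times the inverse, and `det` is real. -/
theorem adj_eq (h : IsKahler M g) (hx : x ∈ M) (i j : Fin n) :
    (g x).adjugate i j = (gD g x : ℂ) * (g x)⁻¹ i j := by
  have hd := (det_re (h.posDef x hx)).1
  have hp := (det_re (h.posDef x hx)).2
  have h0 : (g x).det ≠ 0 := by
    rw [hd]
    exact_mod_cast hp.ne'
  have h1 : ((gD g x : ℝ) : ℂ) = (g x).det := hd.symm
  rw [h1, Matrix.inv_def, Ring.inverse_eq_inv', Matrix.smul_apply, smul_eq_mul, ← mul_assoc,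
    mul_inv_cancel₀ h0, one_mul]

theorem hq_single (h : IsKahler M g) (hx : x ∈ M) (i : Fin n) (v : ℂ) :
    hq (g x) (Pi.single i v) = gd g i x * ‖v‖ ^ 2 := by
  have _ := hx
  have hr : g x i i = (gd g i x : ℂ) :=
    (Complex.conj_eq_iff_re.mp ((h.posDef x hx).1.apply i i)).symm
  unfold hq
  rw [Finset.sum_eq_single i, Finset.sum_eq_single i]
  · rw [Pi.single_eq_same, mul_assoc, Complex.mul_conj, hr, ← Complex.ofReal_mul,
      Complex.ofReal_re, Complex.normSq_eq_norm_sq]
  · intro j _ hj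
    rw [Pi.single_eq_of_ne hj, map_zero, mul_zero]
  · intro hi
    exact absurd (Finset.mem_univ i) hi
  · intro l _ hl
    refine Finset.sum_eq_zero fun j _ => ?_
    rw [Pi.single_eq_of_ne hl, mul_zero, zero_mul]
  · intro hi
    exact absurd (Finset.mem_univ i) hi

theorem hq_nonneg (h : IsKahler M g) (hx : x ∈ M) (v : Fin n → ℂ) : 0 ≤ hq (g x) v := by
  rw [Lin_hq]
  exact (Lin_re (h.posDef x hx).posSemidef (star v)).1

private theorem Lin_cform (h : IsKahler M g) (hx : x ∈ M) (p q : Fin n → ℂ) :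
    cform (g x) p q = (gD g x : ℂ) * dotProduct (star q) ((g x)⁻¹.mulVec p) := by
  unfold cform dotProduct Matrix.mulVec dotProduct
  rw [Finset.sum_comm, Finset.mul_sum]
  refine Finset.sum_congr rfl fun j _ => ?_
  rw [Finset.mul_sum, Finset.mul_sum]
  refine Finset.sum_congr rfl fun i _ => ?_
  rw [adj_eq h hx, Pi.star_apply, ← starRingEnd_apply]
  ring

theorem cform_self (h : IsKahler M g) (hx : x ∈ M) (p : Fin n → ℂ) :
    0 ≤ (cform (g x) p p).re ∧ (cform (g x) p p).im = 0 := by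
  have h1 := Lin_re (h.posDef x hx).inv.posSemidef p
  rw [Lin_cform h hx]
  rw [Complex.re_ofReal_mul, Complex.im_ofReal_mul, h1.2, mul_zero]
  exact ⟨mul_nonneg (gD_pos h hx).le h1.1, rfl⟩

theorem cform_cs (h : IsKahler M g) (hx : x ∈ M) (p q : Fin n → ℂ) :
    ‖cform (g x) p q‖ ^ 2 ≤ (cform (g x) p p).re * (cform (g x) q q).re := by
  have h1 := Lin_cs (h.posDef x hx).inv.posSemidef p q
  have hD := gD_pos h hx
  rw [Lin_cform h hx, Lin_cform h hx, Lin_cform h hx, Complex.re_ofReal_mul,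
    Complex.re_ofReal_mul, norm_mul, Complex.norm_real, mul_pow, Real.norm_eq_abs, sq_abs]
  have h2 : gD g x ^ 2 * ‖dotProduct (star q) ((g x)⁻¹.mulVec p)‖ ^ 2 ≤
      gD g x ^ 2 * ((dotProduct (star p) ((g x)⁻¹.mulVec p)).re *
        (dotProduct (star q) ((g x)⁻¹.mulVec q)).re) :=
    mul_le_mul_of_nonneg_left h1 (by positivity)
  refine h2.trans_eq ?_
  ring

/-- `g^{k\bar k} = |dz_k|²`. -/
noncomputable def uK (g : (Fin n → ℂ) → Matrix (Fin n) (Fin n) ℂ) (k : Fin n) (x : Fin n → ℂ) :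
    ℝ := ((g x)⁻¹ k k).re

theorem uK_pos (h : IsKahler M g) (hx : x ∈ M) (k : Fin n) : 0 < uK g k x := by
  exact (Complex.lt_def.mp (h.posDef x hx).inv.diag_pos).1

theorem uK_smooth (h : IsKahler M g) (k : Fin n) : ContDiffOn ℝ ∞ (uK g k) M := by
  have h1 : MSmooth M g := fun l m => h.smooth l m
  have h2 : MSmooth M (fun y => (g y)⁻¹) := h1.inv fun y hy => by
    rw [(det_re (h.posDef y hy)).1]
    exact_mod_cast (det_re (h.posDef y hy)).2.ne'
  exact Complex.reCLM.contDiff.comp_contDiffOn (h2 k k)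

theorem inv_self (h : IsKahler M g) (hx : x ∈ M) (k : Fin n) :
    (g x)⁻¹ k k = (uK g k x : ℂ) := by
  exact (Complex.conj_eq_iff_re.mp ((h.posDef x hx).inv.1.apply k k)).symm

/-- The derivative of a real function in terms of `pd`. -/
private theorem Lin_fderiv {u : (Fin n → ℂ) → ℝ} (hu : DifferentiableAt ℝ u x) (v : Fin n → ℂ) :
    fderiv ℝ u x v = 2 * (∑ i, pd i (fun y => ((u y : ℝ) : ℂ)) x * v i).re := by
  have hv : v = ∑ i, ((v i).re • (ux i : Fin n → ℂ) + (v i).im • (uy i : Fin n → ℂ)) := by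
    funext j
    rw [Finset.sum_apply, Finset.sum_eq_single j]
    · simp only [ux, uy, Pi.add_apply, Pi.smul_apply, Pi.single_eq_same]
      apply Complex.ext <;> simp
    · intro i _ hij
      simp only [ux, uy, Pi.add_apply, Pi.smul_apply, Pi.single_eq_of_ne hij.symm]
      simp
    · intro hj
      exact absurd (Finset.mem_univ j) hj
  have h0 : ∀ i, pd i (fun y => ((u y : ℝ) : ℂ)) x =
      ((fderiv ℝ u x (ux i) : ℝ) - I * (fderiv ℝ u x (uy i) : ℝ)) / 2 := fun i => KQ.wd_ofReal hu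
  conv_lhs => rw [hv]
  rw [map_sum, Complex.re_sum, Finset.mul_sum]
  refine Finset.sum_congr rfl fun i _ => ?_
  rw [h0 i, map_add, map_smul, map_smul]
  simp only [smul_eq_mul, Complex.mul_re, Complex.div_re, Complex.sub_re,
    Complex.ofReal_re, Complex.ofReal_im, Complex.I_re, Complex.I_im, Complex.sub_im,
    Complex.mul_im, Complex.div_im, Complex.normSq_apply, Complex.re_ofNat, Complex.im_ofNat]
  ring

/-- The cutoffs in terms of the cofactor form. For a real function `p_i = ∂_i η` one has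
`dη(v) = 2 Re ∑ p_i v_i`; take `v_i = conj (∑_j …)`, that is `v = conj (K p)`-type, with
`dη(v) = 2 |∂η|²`, `g(v,v) = |∂η|²`. -/
theorem cform_cutoff (h : IsKahler M g) (hη : Cutoffs M g η) (hx : x ∈ M) (k : ℕ) :
    (cform (g x) (fun i => pd i (ce η k) x) (fun i => pd i (ce η k) x)).re
      ≤ gD g x / ((k : ℝ) + 1) ^ 2 := by
  obtain ⟨p, hp⟩ : ∃ p : Fin n → ℂ, p = fun i => pd i (ce η k) x := ⟨_, rfl⟩
  rw [← hp]
  have hd : DifferentiableAt ℝ (η k) x := (hη.smooth k).differentiable (by simp) x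
  have hD := gD_pos h hx
  have hk : (0 : ℝ) < ((k : ℝ) + 1) ^ 2 := by positivity
  have hK := (h.posDef x hx).inv
  obtain ⟨hQ0, hQ1⟩ := Lin_re hK.posSemidef p
  obtain ⟨Q, hQ⟩ : ∃ Q : ℝ, Q = (dotProduct (star p) ((g x)⁻¹.mulVec p)).re := ⟨_, rfl⟩
  have hQc : dotProduct (star p) ((g x)⁻¹.mulVec p) = (Q : ℂ) := by
    apply Complex.ext
    · rw [hQ, Complex.ofReal_re]
    · rw [hQ1, Complex.ofReal_im]
  have h0 : (g x).det ≠ 0 := by
    rw [(det_re (h.posDef x hx)).1]
    exact_mod_cast (det_re (h.posDef x hx)).2.ne'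
  have hsw := Lin_sw hK.1 p p
  -- the vector `v`
  have h1 : fderiv ℝ (η k) x (star ((g x)⁻¹.mulVec p)) = 2 * Q := by
    rw [Lin_fderiv hd]
    have e : ∑ i, pd i (fun y => ((η k y : ℝ) : ℂ)) x * (star ((g x)⁻¹.mulVec p)) i = (Q : ℂ) := by
      have e1 : ∑ i, pd i (fun y => ((η k y : ℝ) : ℂ)) x * (star ((g x)⁻¹.mulVec p)) i =
          dotProduct p (star ((g x)⁻¹.mulVec p)) := by
        rw [hp]
        rfl
      have e2 : star (dotProduct (star p) ((g x)⁻¹.mulVec p)) =
          dotProduct p (star ((g x)⁻¹.mulVec p)) := by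
        rw [dotProduct_comm p]
        exact (Matrix.star_dotProduct _ _).symm
      rw [e1, ← e2, hQc, ← starRingEnd_apply, Complex.conj_ofReal]
    rw [e, Complex.ofReal_re]
  have h2 : hq (g x) (star ((g x)⁻¹.mulVec p)) = Q := by
    rw [Lin_hqs, Matrix.mulVec_mulVec, Matrix.mul_nonsing_inv _ (isUnit_iff_ne_zero.2 h0),
      Matrix.one_mulVec]
    have e2 : star (dotProduct (star p) ((g x)⁻¹.mulVec p)) =
        dotProduct (star ((g x)⁻¹.mulVec p)) p := (Matrix.star_dotProduct _ _).symm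
    rw [← e2, hQc, ← starRingEnd_apply, Complex.conj_ofReal, Complex.ofReal_re]
  have h3 := hη.grad k x hx (star ((g x)⁻¹.mulVec p))
  rw [h1, h2] at h3
  rw [Lin_cform h hx, hQc, ← Complex.ofReal_mul, Complex.ofReal_re]
  rw [le_div_iff₀ hk] at h3 ⊢
  rw [← hQ] at hQ0
  rcases hQ0.eq_or_lt with h4 | h4
  · rw [← h4, mul_zero, zero_mul]
    exact hD.le
  · have h5 : Q * (4 * Q * ((k : ℝ) + 1) ^ 2) ≤ Q * 1 := by nlinarith
    have h6 := le_of_mul_le_mul_left h5 h4
    have h7 : Q * ((k : ℝ) + 1) ^ 2 ≤ 1 := by nlinarith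
    calc gD g x * Q * ((k : ℝ) + 1) ^ 2 = gD g x * (Q * ((k : ℝ) + 1) ^ 2) := by ring
      _ ≤ gD g x * 1 := mul_le_mul_of_nonneg_left h7 hD.le
      _ = gD g x := mul_one _

/-- For a real function `∂̄ u` is the conjugate of `∂ u`. -/
private theorem Lin_conj (u : (Fin n → ℂ) → ℝ) (i : Fin n) (y : Fin n → ℂ) :
    pdb i (fun y => ((u y : ℝ) : ℂ)) y = conj (pd i (fun y => ((u y : ℝ) : ℂ)) y) := by
  have h1 := KQ.wdb_conj (e := ux i) (e' := uy i) (f := fun y : Fin n → ℂ => ((u y : ℝ) : ℂ))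
    (x := y)
  simp only [Complex.conj_ofReal] at h1
  exact h1

private theorem Lin_log (h : IsKahler M g) : ContDiffOn ℝ ∞ (fun y => Real.log (gD g y)) M :=
  (gD_smooth h).log fun _ hx => (gD_pos h hx).ne'

private theorem Lin_coe (h : IsKahler M g) :
    ContDiffOn ℝ ∞ (fun y => ((Real.log (gD g y) : ℝ) : ℂ)) M :=
  Complex.ofRealCLM.contDiff.comp_contDiffOn (Lin_log h)

/-- `T_{i\bar j}` of the determinant is hermitian. -/
theorem TN_herm (h : IsKahler M g) (hM : IsOpen M) (hx : x ∈ M) (i j : Fin n) :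
    TN (gD g) j i x = conj (TN (gD g) i j x) := by
  have h1 : conj (TN (gD g) i j x) =
      KQ.wdb (ux i) (uy i) (fun y => conj (pdb j (fun y => ((Real.log (gD g y) : ℝ) : ℂ)) y)) x :=
    (KQ.wdb_conj (e := ux i) (e' := uy i)
      (f := pdb j (fun y => ((Real.log (gD g y) : ℝ) : ℂ))) (x := x)).symm
  have h2 : (fun y => conj (pdb j (fun y => ((Real.log (gD g y) : ℝ) : ℂ)) y)) =
      KQ.wd (ux j) (uy j) (fun y => ((Real.log (gD g y) : ℝ) : ℂ)) := by
    funext y
    rw [Lin_conj (fun y => Real.log (gD g y)) j y, Complex.conj_conj]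
    rfl
  rw [h1, h2]
  exact KQ.wd_wdb_comm hM (Lin_coe h) hx

theorem ric_eq (i j : Fin n) : ric g x i j = - TN (gD g) i j x := rfl

theorem hq_TN (H : Hyp M g a α β) (hx : x ∈ M) (v : Fin n → ℂ) :
    0 ≤ hq (fun i j => TN (gD g) i j x) v ∧ hq (fun i j => TN (gD g) i j x) v ≤ a * hq (g x) v := by
  have h1 := H.ricci x hx v
  have h2 : hq (ric g x) v = - hq (fun i j => TN (gD g) i j x) v := by
    unfold hq
    rw [← Complex.neg_re, ← Finset.sum_neg_distrib]
    congr 1
    refine Finset.sum_congr rfl fun i _ => ?_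
    rw [← Finset.sum_neg_distrib]
    refine Finset.sum_congr rfl fun j _ => ?_
    rw [ric_eq]
    ring
  rw [h2] at h1
  constructor <;> linarith [h1.1, h1.2]

theorem a_nonneg (H : Hyp M g a α β) (hn : 0 < n) : 0 ≤ a := by
  obtain ⟨x, hx⟩ := H.conn.nonempty
  have h1 := hq_TN H hx (Pi.single ⟨0, hn⟩ 1)
  have h2 := hq_single H.kahler hx ⟨0, hn⟩ 1
  rw [norm_one, one_pow, mul_one] at h2
  have h3 := gd_pos H.kahler hx ⟨0, hn⟩
  rw [h2] at h1
  have h4 : 0 ≤ a * gd g ⟨0, hn⟩ x := h1.1.trans h1.2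
  exact nonneg_of_mul_nonneg_left h4 h3

theorem TN_diag (H : Hyp M g a α β) (hx : x ∈ M) (i : Fin n) :
    (TN (gD g) i i x).im = 0 ∧ 0 ≤ (TN (gD g) i i x).re ∧
      (TN (gD g) i i x).re ≤ a * gd g i x := by
  have h1 := hq_TN H hx (Pi.single i 1)
  have h2 := hq_single H.kahler hx i 1
  rw [norm_one, one_pow, mul_one] at h2
  have h3 : hq (fun i j => TN (gD g) i j x) (Pi.single i 1) = (TN (gD g) i i x).re := by
    unfold hq
    rw [Finset.sum_eq_single i, Finset.sum_eq_single i]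
    · rw [Pi.single_eq_same, mul_one, map_one, mul_one]
    · intro j _ hj
      rw [Pi.single_eq_of_ne hj, map_zero, mul_zero]
    · intro hi
      exact absurd (Finset.mem_univ i) hi
    · intro l _ hl
      refine Finset.sum_eq_zero fun j _ => ?_
      rw [Pi.single_eq_of_ne hl, mul_zero, zero_mul]
    · intro hi
      exact absurd (Finset.mem_univ i) hi
  rw [h2, h3] at h1
  exact ⟨KQ.wd_wdb_real H.isOpen (Lin_log H.kahler) hx, h1⟩

end KN
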