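import Pool.Agent.Lib_MP_3ea2ac_kn.ChartN
import Pool.Agent.Lib_MP_3ea2ac_kn.AlgN
import Pool.Agent.Lib_MP_3ea2ac_kn.DNN
import Pool.Agent.Lib_MP_3ea2ac_kn.HypN

/-! Assembly: induction on the dimension. -/

open MeasureTheory Complex Set Topology Filter MvPolynomial
open scoped ComplexConjugate ContDiff ComplexOrder

namespace KN

theorem NData.polynomial (a : ℝ) : ∀ (n : ℕ) (M : Set (Fin n → ℂ)) (D : (Fin n → ℂ) → ℝ)
    (G : Fin n → (Fin n → ℂ) → ℝ) (τ : ℝ) (t : Fin n → ℂ → ℝ) (α β : Fin n → ℂ)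
    (η : ℕ → (Fin n → ℂ) → ℝ), NData M D G a τ t α β η → M.Nonempty →
    ∃ Q : MvPolynomial (Fin n) ℂ, Q ≠ 0 ∧ ∀ x, x ∈ M ↔ eval x Q ≠ 0
  | 0, M, D, G, τ, t, α, β, η, _, hne => by
    obtain ⟨x, hx⟩ := hne
    refine ⟨1, one_ne_zero, fun y => ?_⟩
    have : y = x := Subsingleton.elim _ _
    subst this
    simp [hx]
  | n + 1, M, D, G, τ, t, α, β, η, P, hne => by
    refine alg_main P.isOpen (fun i => P.chart hne i fun N D' G' τ' t' α' β' η' P' hN => ?_)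
      (fun x₀ hx₀ r hr h => P.dnull hx₀ hr h)
    exact NData.polynomial a n N D' G' τ' t' α' β' η' P' hN

theorem Hyp.polynomial {n : ℕ} {M : Set (Fin n → ℂ)} {g : (Fin n → ℂ) → Matrix (Fin n) (Fin n) ℂ}
    {a : ℝ} {α β : Fin n → ℂ} (H : Hyp M g a α β) :
    ∃ Q : MvPolynomial (Fin n) ℂ, Q ≠ 0 ∧ ∀ x, x ∈ M ↔ eval x Q ≠ 0 := by
  rcases Nat.eq_zero_or_pos n with h0 | hn
  · subst h0
    obtain ⟨x, hx⟩ := H.conn.nonempty
    refine ⟨1, one_ne_zero, fun y => ?_⟩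
    have : y = x := Subsingleton.elim _ _
    subst this
    simp [hx]
  · obtain ⟨η, P⟩ := H.nData hn
    exact NData.polynomial a n M _ _ _ _ _ _ η P H.conn.nonempty

end KN
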