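import Pool.Agent.Lib_MP_3ea2ac_kn.Ins

/-! The Weyl lemma for `∂̄` in `ℂⁿ`. -/

open MeasureTheory Complex Set Topology Filter
open scoped ComplexConjugate ContDiff ComplexOrder

namespace KN

variable {n : ℕ}

open scoped Convolution in
/-- The convolution with a real kernel. -/
private noncomputable def weylC (k : (Fin n → ℂ) → ℝ) (S : (Fin n → ℂ) → ℂ) : (Fin n → ℂ) → ℂ :=
  k ⋆[ContinuousLinearMap.lsmul ℝ ℝ, volume] S

private theorem weylC_apply (k : (Fin n → ℂ) → ℝ) (S : (Fin n → ℂ) → ℂ) (z : Fin n → ℂ) :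
    weylC k S z = ∫ t, k t • S (z - t) := rfl

private theorem weylC_contDiff {k : (Fin n → ℂ) → ℝ} (hk : ContDiff ℝ ∞ k)
    (hc : HasCompactSupport k) {S : (Fin n → ℂ) → ℂ} (hS : LocallyIntegrable S) :
    ContDiff ℝ ∞ (weylC k S) :=
  hc.contDiff_convolution_left _ hk hS

private theorem weylC_fderiv {k : (Fin n → ℂ) → ℝ} (hk : ContDiff ℝ ∞ k)
    (hc : HasCompactSupport k) {S : (Fin n → ℂ) → ℂ} (hS : LocallyIntegrable S)
    (z v : Fin n → ℂ) :
    Integrable (fun u => ((fderiv ℝ k (z - u) v : ℝ) : ℂ) * S u) ∧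
    fderiv ℝ (weylC k S) z v = ∫ u, ((fderiv ℝ k (z - u) v : ℝ) : ℂ) * S u := by
  have h1 := hc.hasFDerivAt_convolution_left (ContinuousLinearMap.lsmul ℝ ℝ)
    (hk.of_le (by exact_mod_cast le_top)) hS z
  have hcd : Continuous (fderiv ℝ k) := hk.continuous_fderiv (by simp)
  have hex := (hc.fderiv ℝ).convolutionExists_left
    ((ContinuousLinearMap.lsmul ℝ ℝ : ℝ →L[ℝ] ℂ →L[ℝ] ℂ).precompL (Fin n → ℂ)) hcd hS z
  have h2 : fderiv ℝ (weylC k S) z v = ∫ t, (fderiv ℝ k t v) • S (z - t) := by
    rw [weylC, h1.fderiv, convolution_def, ContinuousLinearMap.integral_apply hex]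
    rfl
  have h3 : Integrable (fun t => (fderiv ℝ k t v) • S (z - t)) := by
    have := hex.apply_continuousLinearMap v
    exact this
  have h4 : (fun t => (fderiv ℝ k t v) • S (z - t)) =
      fun t => (fun u => ((fderiv ℝ k (z - u) v : ℝ) : ℂ) * S u) (z - t) := by
    funext t
    simp [sub_sub_cancel]
  rw [h4] at h3
  refine ⟨?_, ?_⟩
  · have h5 := h3.comp_sub_left z
    simpa [sub_sub_cancel] using h5
  · rw [h2, h4, integral_sub_left_eq_self (fun u => ((fderiv ℝ k (z - u) v : ℝ) : ℂ) * S u)]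

private theorem weylC_pdb {k : (Fin n → ℂ) → ℝ} (hk : ContDiff ℝ ∞ k)
    (hc : HasCompactSupport k) {S : (Fin n → ℂ) → ℂ} (hS : LocallyIntegrable S) (l : Fin n)
    (z : Fin n → ℂ) :
    pdb l (weylC k S) z = - ∫ u, pdb l (fun u => ((k (z - u) : ℝ) : ℂ)) u * S u := by
  obtain ⟨i1, e1⟩ := weylC_fderiv hk hc hS z (ux l)
  obtain ⟨i2, e2⟩ := weylC_fderiv hk hc hS z (uy l)
  have h1 : ∀ u v : Fin n → ℂ, fderiv ℝ (fun u => ((k (z - u) : ℝ) : ℂ)) u v =
      -((fderiv ℝ k (z - u) v : ℝ) : ℂ) := by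
    intro u v
    have h2 : HasFDerivAt k (fderiv ℝ k (z - u)) (z - u) :=
      ((hk.differentiable (by simp)) _).hasFDerivAt
    have h3 : HasFDerivAt (fun u : Fin n → ℂ => z - u)
        (-(ContinuousLinearMap.id ℝ (Fin n → ℂ))) u := by
      simpa using (hasFDerivAt_id (𝕜 := ℝ) u).const_sub z
    have h4 := Complex.ofRealCLM.hasFDerivAt.comp u (h2.comp u h3)
    have h5 : HasFDerivAt (fun u => ((k (z - u) : ℝ) : ℂ))
      (Complex.ofRealCLM.comp ((fderiv ℝ k (z - u)).comp
        (-(ContinuousLinearMap.id ℝ (Fin n → ℂ))))) u := h4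
    rw [h5.fderiv]
    simp
  have h2 : ∀ u, pdb l (fun u => ((k (z - u) : ℝ) : ℂ)) u * S u =
      -((((fderiv ℝ k (z - u) (ux l) : ℝ) : ℂ) * S u +
        I * (((fderiv ℝ k (z - u) (uy l) : ℝ) : ℂ) * S u)) / 2) := by
    intro u
    show KQ.wdb (ux l) (uy l) (fun u => ((k (z - u) : ℝ) : ℂ)) u * S u = _
    unfold KQ.wdb
    rw [h1, h1]
    ring
  simp_rw [h2]
  rw [integral_neg, neg_neg, integral_div, integral_add i1 (i2.const_mul I), integral_const_mul,
    ← e1, ← e2]
  rfl

/-- Real differentiability and the Cauchy-Riemann equations in each variable. -/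
private theorem differentiableAt_of_pdb {f : (Fin n → ℂ) → ℂ} {w : Fin n → ℂ}
    (hf : DifferentiableAt ℝ f w) (h : ∀ l, pdb l f w = 0) : DifferentiableAt ℂ f w := by
  have h1 : ∀ l : Fin n, fderiv ℝ f w (uy l) = I * fderiv ℝ f w (ux l) := by
    intro l
    have h2 : (fderiv ℝ f w (ux l) + I * fderiv ℝ f w (uy l)) / 2 = 0 := h l
    linear_combination (-2 * I) * h2 + fderiv ℝ f w (uy l) * I_mul_I
  have h3 : ((∑ l : Fin n, (ContinuousLinearMap.proj l : (Fin n → ℂ) →L[ℂ] ℂ).smulRight
      (fderiv ℝ f w (ux l))).restrictScalars ℝ) = fderiv ℝ f w := by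
    ext v
    have h4 : v = ∑ l : Fin n, ((v l).re • (ux l : Fin n → ℂ) + (v l).im • uy l) := by
      funext j
      rw [Finset.sum_apply, Finset.sum_eq_single j]
      · simp only [ux, uy, Pi.add_apply, Pi.smul_apply, Pi.single_eq_same]
        apply Complex.ext <;> simp
      · intro b _ hb
        simp [ux, uy, Pi.single_eq_of_ne (Ne.symm hb)]
      · intro hj
        exact absurd (Finset.mem_univ j) hj
    have h5 : fderiv ℝ f w v = ∑ l : Fin n, ((v l).re • fderiv ℝ f w (ux l) +
        (v l).im • (I * fderiv ℝ f w (ux l))) := by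
      conv_lhs => rw [h4]
      rw [map_sum]
      refine Finset.sum_congr rfl fun l _ => ?_
      rw [map_add, map_smul, map_smul, h1]
    rw [h5]
    simp only [ContinuousLinearMap.coe_restrictScalars', sum_apply,
      ContinuousLinearMap.smulRight_apply, ContinuousLinearMap.proj_apply, smul_eq_mul, real_smul]
    refine Finset.sum_congr rfl fun l _ => ?_
    conv_lhs => rw [← re_add_im (v l)]
    ring
  exact (hasFDerivAt_of_restrictScalars ℝ hf.hasFDerivAt h3).differentiableAt

/-- A mollification of a weak solution is holomorphic. -/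
private theorem weylC_holo {Ω : Set (Fin n → ℂ)} {S : (Fin n → ℂ) → ℂ}
    (h : ∀ l : Fin n, ∀ θ : (Fin n → ℂ) → ℂ, ContDiff ℝ ∞ θ → HasCompactSupport θ →
      tsupport θ ⊆ Ω → ∫ x, pdb l θ x * S x = 0) {z0 : Fin n → ℂ} {r : ℝ}
    (hB : Metric.closedBall z0 (3 * r) ⊆ Ω)
    (hS : LocallyIntegrable ((Metric.closedBall z0 (3 * r)).indicator S))
    {k : (Fin n → ℂ) → ℝ} (hk : ContDiff ℝ ∞ k) (hsupp : ∀ w : Fin n → ℂ, r ≤ ‖w‖ → k w = 0)
    {z : Fin n → ℂ} (hz : z ∈ Metric.ball z0 (2 * r)) :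
    DifferentiableAt ℂ (weylC k ((Metric.closedBall z0 (3 * r)).indicator S)) z := by
  have hc : HasCompactSupport k := by
    refine HasCompactSupport.intro (isCompact_closedBall (0 : Fin n → ℂ) r)
      fun w hw => hsupp w ?_
    rw [Metric.mem_closedBall, dist_zero_right, not_le] at hw
    exact hw.le
  refine differentiableAt_of_pdb ((weylC_contDiff hk hc hS).differentiable (by simp) z) fun l => ?_
  rw [weylC_pdb hk hc hS l z, neg_eq_zero]
  have hcz : ContDiff ℝ ∞ (fun u => ((k (z - u) : ℝ) : ℂ)) :=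
    Complex.ofRealCLM.contDiff.comp (hk.comp (contDiff_const.sub contDiff_id))
  have hts : tsupport (fun u => ((k (z - u) : ℝ) : ℂ)) ⊆ Metric.closedBall z r := by
    refine closure_minimal ?_ Metric.isClosed_closedBall
    intro u hu
    by_contra hn
    apply hu
    have : r ≤ ‖z - u‖ := by
      rw [Metric.mem_closedBall, dist_eq_norm, not_le, norm_sub_rev] at hn
      exact hn.le
    simp [hsupp _ this]
  have hball : Metric.closedBall z r ⊆ Metric.closedBall z0 (3 * r) := by
    refine Metric.closedBall_subset_closedBall' ?_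
    have := Metric.mem_ball.1 hz
    linarith
  have hcomp : HasCompactSupport (fun u => ((k (z - u) : ℝ) : ℂ)) :=
    (isCompact_closedBall z r).of_isClosed_subset (isClosed_tsupport _) hts
  have h1 := h l _ hcz hcomp (hts.trans (hball.trans hB))
  rw [← h1]
  refine integral_congr_ae (Eventually.of_forall fun u => ?_)
  show pdb l (fun u => ((k (z - u) : ℝ) : ℂ)) u *
      (Metric.closedBall z0 (3 * r)).indicator S u =
    pdb l (fun u => ((k (z - u) : ℝ) : ℂ)) u * S u
  by_cases hu : u ∈ Metric.closedBall z0 (3 * r)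
  · rw [indicator_of_mem hu]
  · have h2 : pdb l (fun u => ((k (z - u) : ℝ) : ℂ)) u = 0 := by
      by_contra hne
      exact hu (hball (hts (KQ.tsupport_wdb_subset (subset_tsupport _ hne))))
    rw [h2, zero_mul, zero_mul]

/-- The rotation of all coordinates preserves Lebesgue measure. -/
private theorem weyl_rot (e : Circle) :
    MeasurePreserving (fun w : Fin n → ℂ => fun i => rotation e (w i)) volume volume :=
  volume_preserving_pi fun _ => (rotation e).measurePreserving

private theorem weyl_rot_emb (e : Circle) :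
    MeasurableEmbedding (fun w : Fin n → ℂ => fun i => rotation e (w i)) :=
  (Homeomorph.piCongrRight fun _ : Fin n => (rotation e).toHomeomorph).measurableEmbedding

/-- Mean value over circles, integrated against a circle invariant kernel. -/
private theorem weyl_mean {k : (Fin n → ℂ) → ℝ} (hk : Continuous k)
    (hrad : ∀ (w : Fin n → ℂ) (e : ℂ), ‖e‖ = 1 → k (e • w) = k w)
    {ε : ℝ} (hsupp : ∀ w : Fin n → ℂ, ε ≤ ‖w‖ → k w = 0) {f : (Fin n → ℂ) → ℂ}
    (hf : Continuous f) {z : Fin n → ℂ}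
    (hd : ∀ w : Fin n → ℂ, ‖w‖ ≤ ε → DifferentiableAt ℂ f (z - w)) :
    ∫ w, k w • f (z - w) = ((∫ w : Fin n → ℂ, k w : ℝ) : ℂ) * f z := by
  -- rotation
  have hrot : ∀ α : ℝ, ∫ w, k w • f (z - w) = ∫ w, k w • f (z - circleMap 0 1 α • w) := by
    intro α
    have h1 : ‖(circleMap 0 1 α : ℂ)‖ = 1 := by simp
    let e : Circle := ⟨circleMap 0 1 α, by simp [Submonoid.unitSphere]⟩
    have h2 := (weyl_rot (n := n) e).integral_comp (weyl_rot_emb e)
      (fun w => k w • f (z - w))
    rw [← h2]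
    refine integral_congr_ae (Eventually.of_forall fun w => ?_)
    show k (fun i => rotation e (w i)) • f (z - fun i => rotation e (w i)) =
      k w • f (z - circleMap 0 1 α • w)
    have h3 : (fun i => rotation e (w i)) = circleMap 0 1 α • w := by
      funext i
      rw [rotation_apply]
      rfl
    rw [h3, hrad _ _ h1]
  have hcs : ∀ w : Fin n → ℂ, w ∉ Metric.closedBall (0 : Fin n → ℂ) ε → k w = 0 := by
    intro w hw
    rw [Metric.mem_closedBall, dist_zero_right, not_le] at hw
    exact hsupp w hw.le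
  -- Fubini
  have hcont : Continuous
      (fun p : ℝ × (Fin n → ℂ) => k p.2 • f (z - circleMap 0 1 p.1 • p.2)) := by
    refine (hk.comp continuous_snd).smul (hf.comp (continuous_const.sub ?_))
    exact ((continuous_circleMap 0 1).comp continuous_fst).smul continuous_snd
  have hint : Integrable (fun p : ℝ × (Fin n → ℂ) => k p.2 • f (z - circleMap 0 1 p.1 • p.2))
      ((volume.restrict (Ioc 0 (2 * Real.pi))).prod volume) := by
    have h1 : IntegrableOn
      (fun p : ℝ × (Fin n → ℂ) => k p.2 • f (z - circleMap 0 1 p.1 • p.2))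
      (Icc 0 (2 * Real.pi) ×ˢ Metric.closedBall (0 : Fin n → ℂ) ε) (volume.prod volume) :=
      hcont.continuousOn.integrableOn_compact (isCompact_Icc.prod (isCompact_closedBall _ _))
    have h2 : IntegrableOn
      (fun p : ℝ × (Fin n → ℂ) => k p.2 • f (z - circleMap 0 1 p.1 • p.2))
      (Ioc 0 (2 * Real.pi) ×ˢ univ) (volume.prod volume) := by
      refine h1.of_forall_sdiff_eq_zero (measurableSet_Ioc.prod MeasurableSet.univ) ?_
      rintro ⟨α, w⟩ ⟨⟨hα, _⟩, hnot⟩
      have : w ∉ Metric.closedBall (0 : Fin n → ℂ) ε :=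
        fun hw => hnot ⟨Ioc_subset_Icc_self hα, hw⟩
      simp [hcs w this]
    have h3 : (volume.restrict (Ioc 0 (2 * Real.pi))).prod (volume : Measure (Fin n → ℂ)) =
        (volume.prod volume).restrict (Ioc 0 (2 * Real.pi) ×ˢ univ) := by
      rw [← Measure.prod_restrict, Measure.restrict_univ]
    rw [h3]
    exact h2
  have hmean : ∀ w : Fin n → ℂ,
      ∫ α in (0 : ℝ)..(2 * Real.pi), k w • f (z - circleMap 0 1 α • w) =
      (2 * Real.pi : ℝ) • (k w • f z) := by
    intro w
    by_cases hw : ε ≤ ‖w‖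
    · simp [hsupp w hw]
    · have hw' : ‖w‖ ≤ ε := (not_le.1 hw).le
      rw [intervalIntegral.integral_smul, smul_comm]
      congr 1
      have hdc : DiffContOnCl ℂ (fun ζ : ℂ => f (z - ζ • w)) (Metric.ball 0 |1|) := by
        refine DifferentiableOn.diffContOnCl ?_
        intro ζ hζ
        have hζ' : ‖ζ‖ ≤ 1 := by
          have := Metric.closure_ball_subset_closedBall hζ
          simpa using this
        have h5 : ‖ζ • w‖ ≤ ε := by
          rw [norm_smul]
          calc ‖ζ‖ * ‖w‖ ≤ 1 * ‖w‖ := by gcongr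
            _ ≤ ε := by linarith
        have h6 := hd _ h5
        have h7 : DifferentiableAt ℂ (fun ζ : ℂ => z - ζ • w) ζ :=
          (differentiableAt_const z).sub (differentiableAt_id.smul_const w)
        exact (DifferentiableAt.comp ζ h6 h7).differentiableWithinAt
      have h8 := hdc.circleAverage
      rw [Real.circleAverage_def] at h8
      simp only [zero_smul, sub_zero] at h8
      rw [← h8, smul_smul, mul_inv_cancel₀ (by positivity), one_smul]
  have h1 : ∫ α in (0 : ℝ)..(2 * Real.pi), ∫ w, k w • f (z - circleMap 0 1 α • w) =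
      (2 * Real.pi : ℝ) • ∫ w, k w • f z := by
    rw [intervalIntegral.integral_of_le Real.two_pi_pos.le, integral_integral_swap hint,
      ← integral_smul]
    refine integral_congr_ae (Eventually.of_forall fun w => ?_)
    show ∫ α in Ioc 0 (2 * Real.pi), k w • f (z - circleMap 0 1 α • w) =
      (2 * Real.pi : ℝ) • (k w • f z)
    rw [← hmean w, intervalIntegral.integral_of_le Real.two_pi_pos.le]
  simp_rw [← hrot] at h1
  rw [intervalIntegral.integral_const, sub_zero] at h1
  have h2 := smul_right_injective ℂ (r := (2 * Real.pi : ℝ)) (by positivity) h1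
  rw [h2, integral_smul_const, Complex.real_smul]

/-- Two real kernels commute. -/
private theorem weylC_comm {k φ : (Fin n → ℂ) → ℝ} (hk : Continuous k)
    (hkc : HasCompactSupport k) (hφ : Continuous φ) (hφc : HasCompactSupport φ)
    {S : (Fin n → ℂ) → ℂ} (hS : Integrable S) (z : Fin n → ℂ) :
    weylC k (weylC φ S) z = weylC φ (weylC k S) z := by
  have hφi : Integrable φ := hφ.integrable_of_hasCompactSupport hφc
  have hint : Integrable (fun p : (Fin n → ℂ) × (Fin n → ℂ) =>
      k p.1 • φ p.2 • S (z - p.1 - p.2)) (volume.prod volume) := by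
    have h1 := hφi.convolution_integrand
      (ContinuousLinearMap.lsmul ℝ ℝ : ℝ →L[ℝ] ℂ →L[ℝ] ℂ) hS
    have hmp : MeasurePreserving (fun p : (Fin n → ℂ) × (Fin n → ℂ) => (z - p.1, p.2))
        (volume.prod volume) (volume.prod volume) :=
      (volume.measurePreserving_sub_left z).prod (MeasurePreserving.id volume)
    have h2 := hmp.integrable_comp_of_integrable h1
    obtain ⟨C, hC⟩ := hkc.exists_bound_of_continuous hk
    have h3 : Integrable (fun p : (Fin n → ℂ) × (Fin n → ℂ) => φ p.2 • S (z - p.1 - p.2))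
      (volume.prod volume) := h2
    exact h3.bdd_smul (φ := fun p : (Fin n → ℂ) × (Fin n → ℂ) => k p.1) C
      (hk.comp continuous_fst).aestronglyMeasurable (Eventually.of_forall fun p => hC p.1)
  have e1 : weylC k (weylC φ S) z = ∫ t, ∫ s, k t • φ s • S (z - t - s) := by
    rw [weylC_apply]
    refine integral_congr_ae (Eventually.of_forall fun t => ?_)
    show k t • weylC φ S (z - t) = ∫ s, k t • φ s • S (z - t - s)
    rw [weylC_apply, integral_smul]
  have e2 : weylC φ (weylC k S) z = ∫ s, ∫ t, k t • φ s • S (z - t - s) := by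
    rw [weylC_apply]
    refine integral_congr_ae (Eventually.of_forall fun s => ?_)
    show φ s • weylC k S (z - s) = ∫ t, k t • φ s • S (z - t - s)
    rw [weylC_apply, ← integral_smul]
    refine integral_congr_ae (Eventually.of_forall fun t => ?_)
    show φ s • k t • S (z - s - t) = k t • φ s • S (z - t - s)
    rw [smul_comm, sub_right_comm]
  rw [e1, e2, integral_integral_swap hint]

/-- The kernel, invariant under the circle. -/
private noncomputable def weylK (r : ℝ) (w : Fin n → ℂ) : ℝ :=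
  Real.smoothTransition (1 - (∑ i, ‖w i‖ ^ 2) / r ^ 2)

private theorem weylK_contDiff (r : ℝ) : ContDiff ℝ ∞ (weylK (n := n) r) := by
  unfold weylK
  refine Real.smoothTransition.contDiff.comp (contDiff_const.sub (ContDiff.div_const ?_ _))
  refine ContDiff.sum fun i _ => ?_
  exact (contDiff_norm_sq ℝ).comp (contDiff_apply ℝ ℂ i)

private theorem weylK_rad (r : ℝ) (w : Fin n → ℂ) (e : ℂ) (he : ‖e‖ = 1) :
    weylK r (e • w) = weylK r w := by
  unfold weylK
  simp only [Pi.smul_apply, smul_eq_mul, norm_mul, he, one_mul]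

private theorem weylK_supp {r : ℝ} (hr : 0 < r) (w : Fin n → ℂ) (hw : r ≤ ‖w‖) :
    weylK r w = 0 := by
  unfold weylK
  apply Real.smoothTransition.zero_of_nonpos
  rw [sub_nonpos, one_le_div (by positivity)]
  obtain ⟨i, hi⟩ : ∃ i, r ≤ ‖w i‖ := by
    by_contra hcon
    push Not at hcon
    exact absurd hw (not_le.2 ((pi_norm_lt_iff hr).2 hcon))
  calc r ^ 2 ≤ ‖w i‖ ^ 2 := by gcongr
    _ ≤ ∑ i, ‖w i‖ ^ 2 :=
      Finset.single_le_sum (f := fun i => ‖w i‖ ^ 2) (fun j _ => by positivity)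
        (Finset.mem_univ i)

private theorem weylK_nonneg (r : ℝ) (w : Fin n → ℂ) : 0 ≤ weylK r w :=
  Real.smoothTransition.nonneg _

private theorem weylK_compact {r : ℝ} (hr : 0 < r) : HasCompactSupport (weylK (n := n) r) := by
  refine HasCompactSupport.intro (isCompact_closedBall (0 : Fin n → ℂ) r)
    fun w hw => weylK_supp hr w ?_
  rw [Metric.mem_closedBall, dist_zero_right, not_le] at hw
  exact hw.le

private theorem weylK_integral_pos {r : ℝ} (hr : 0 < r) : 0 < ∫ w : Fin n → ℂ, weylK r w := by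
  refine (weylK_contDiff r).continuous.integral_pos_of_hasCompactSupport_nonneg_nonzero
    (weylK_compact hr) (weylK_nonneg r) (x := 0) ?_
  simp [weylK]

private theorem weyl_local {Ω : Set (Fin n → ℂ)} (hΩ : IsOpen Ω) {S : (Fin n → ℂ) → ℂ}
    (hS : LocallyIntegrableOn S Ω)
    (h : ∀ l : Fin n, ∀ θ : (Fin n → ℂ) → ℂ, ContDiff ℝ ∞ θ → HasCompactSupport θ →
      tsupport θ ⊆ Ω → ∫ x, pdb l θ x * S x = 0) {z0 : Fin n → ℂ} (hz0 : z0 ∈ Ω) :
    ∃ r > 0, ∃ F : (Fin n → ℂ) → ℂ, DifferentiableOn ℂ F (Metric.ball z0 r) ∧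
      ∀ᵐ z, z ∈ Metric.ball z0 r → S z = F z := by
  obtain ⟨R, hR, hRΩ⟩ := Metric.nhds_basis_closedBall.mem_iff.1 (hΩ.mem_nhds hz0)
  obtain ⟨r, hr, hB⟩ : ∃ r : ℝ, 0 < r ∧ Metric.closedBall z0 (3 * r) ⊆ Ω :=
    ⟨R / 3, by positivity, by rwa [mul_div_cancel₀ R (by norm_num : (3 : ℝ) ≠ 0)]⟩
  set S1 := (Metric.closedBall z0 (3 * r)).indicator S with hS1
  have hS1i : Integrable S1 := by
    rw [hS1, integrable_indicator_iff Metric.isClosed_closedBall.measurableSet]
    exact hS.integrableOn_compact_subset hB (isCompact_closedBall _ _)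
  have hS1l : LocallyIntegrable S1 := hS1i.locallyIntegrable
  have hkc := weylK_compact (n := n) hr
  have hkp := weylK_integral_pos (n := n) hr
  set c : ℝ := ∫ w : Fin n → ℂ, weylK r w with hc
  refine ⟨r, hr, fun z => ((c : ℂ))⁻¹ * weylC (weylK r) S1 z, ?_, ?_⟩
  · intro z hz
    have h1 := weylC_holo h hB hS1l (weylK_contDiff r) (weylK_supp hr)
      (Metric.ball_subset_ball (by linarith) hz)
    exact (h1.const_mul _).differentiableWithinAt
  · -- bumps
    let φ : ℕ → ContDiffBump (0 : Fin n → ℂ) := fun m =>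
      ⟨r / (2 * (m + 1)), r / (m + 1), by positivity, by
        apply div_lt_div_of_pos_left hr (by positivity)
        have : (0 : ℝ) < m + 1 := by positivity
        linarith⟩
    have hφ0 : Tendsto (fun m => (φ m).rOut) atTop (𝓝 0) := by
      have h1 : Tendsto (fun m : ℕ => r * (1 / ((m : ℝ) + 1))) atTop (𝓝 (r * 0)) :=
        tendsto_one_div_add_atTop_nhds_zero_nat.const_mul r
      rw [mul_zero] at h1
      refine h1.congr fun m => ?_
      show r * (1 / ((m : ℝ) + 1)) = r / (m + 1)
      ring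
    have hφK : ∀ᶠ m in atTop, (φ m).rOut ≤ 2 * (φ m).rIn := by
      refine Eventually.of_forall fun m => ?_
      show r / (m + 1) ≤ 2 * (r / (2 * (m + 1)))
      apply le_of_eq
      have : (0 : ℝ) < m + 1 := by positivity
      field_simp
    have hφs : ∀ m, ∀ w : Fin n → ℂ, r ≤ ‖w‖ → (φ m).normed volume w = 0 := by
      intro m w hw
      have h1 : w ∉ Function.support ((φ m).normed volume) := by
        rw [ContDiffBump.support_normed_eq, Metric.mem_ball, dist_zero_right, not_lt]
        refine le_trans ?_ hw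
        show r / (m + 1) ≤ r
        apply div_le_self hr.le
        have : (0 : ℝ) ≤ m := by positivity
        linarith
      simpa using h1
    have hφc : ∀ m, ContDiff ℝ ∞ ((φ m).normed volume) := fun m => (φ m).contDiff_normed
    have hφh : ∀ m, HasCompactSupport ((φ m).normed volume) :=
      fun m => (φ m).hasCompactSupport_normed
    have hae := ContDiffBump.ae_convolution_tendsto_right_of_locallyIntegrable (μ := volume)
      hφ0 hφK hS1l
    filter_upwards [hae] with z hz hzr
    have hz1 : S1 z = S z := by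
      rw [hS1, indicator_of_mem]
      exact Metric.ball_subset_closedBall (Metric.ball_subset_ball (by linarith) hzr)
    rw [hz1] at hz
    -- the mean value property of the mollifications
    have hkey : ∀ m, weylC (weylK r) (weylC ((φ m).normed volume) S1) z =
        (c : ℂ) * weylC ((φ m).normed volume) S1 z := by
      intro m
      rw [weylC_apply, hc]
      apply weyl_mean (weylK_contDiff r).continuous (weylK_rad r) (weylK_supp hr)
        (weylC_contDiff (hφc m) (hφh m) hS1l).continuous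
      intro w hw
      apply weylC_holo h hB hS1l (hφc m) (hφs m)
      rw [Metric.mem_ball, dist_eq_norm] at hzr ⊢
      calc ‖z - w - z0‖ = ‖(z - z0) - w‖ := by congr 1; abel
        _ ≤ ‖z - z0‖ + ‖w‖ := norm_sub_le _ _
        _ < 2 * r := by linarith
    have hlim2 : Tendsto (fun m => weylC ((φ m).normed volume) (weylC (weylK r) S1) z) atTop
        (𝓝 (weylC (weylK r) S1 z)) :=
      ContDiffBump.convolution_tendsto_right_of_continuous hφ0
        (weylC_contDiff (weylK_contDiff r) hkc hS1l).continuous z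
    have hlim3 : Tendsto (fun m => (c : ℂ) * weylC ((φ m).normed volume) S1 z) atTop
        (𝓝 (weylC (weylK r) S1 z)) := by
      refine hlim2.congr fun m => ?_
      rw [← hkey m, weylC_comm (weylK_contDiff r).continuous hkc (hφc m).continuous (hφh m)
        hS1i z]
    have hlim4 : Tendsto (fun m => (c : ℂ) * weylC ((φ m).normed volume) S1 z) atTop
        (𝓝 ((c : ℂ) * S z)) := Tendsto.const_mul _ hz
    have h5 := tendsto_nhds_unique hlim3 hlim4
    have hc0 : (c : ℂ) ≠ 0 := by exact_mod_cast hkp.ne'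
    show S z = ((c : ℂ))⁻¹ * weylC (weylK r) S1 z
    rw [h5, inv_mul_cancel_left₀ hc0]

/-- Convolution with a product kernel `∏ φ(x_i)`, `φ` radial: see Weyl.lean of `Lib_MP_3ea2ac_kq`
(one variable, proved). -/
theorem weylN {Ω : Set (Fin n → ℂ)} (hΩ : IsOpen Ω) {S : (Fin n → ℂ) → ℂ}
    (hS : LocallyIntegrableOn S Ω)
    (h : ∀ l : Fin n, ∀ θ : (Fin n → ℂ) → ℂ, ContDiff ℝ ∞ θ → HasCompactSupport θ →
      tsupport θ ⊆ Ω → ∫ x, pdb l θ x * S x = 0) :
    ∃ F : (Fin n → ℂ) → ℂ, DifferentiableOn ℂ F Ω ∧ ∀ᵐ x, x ∈ Ω → S x = F x := by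
  classical
  have hloc : ∀ z0 : Fin n → ℂ, ∃ r : ℝ, ∃ F : (Fin n → ℂ) → ℂ, z0 ∈ Ω →
      (0 < r ∧ DifferentiableOn ℂ F (Metric.ball z0 r) ∧
      ∀ᵐ z, z ∈ Metric.ball z0 r → S z = F z) := by
    intro z0
    by_cases hz0 : z0 ∈ Ω
    · obtain ⟨r, hr, F, hF, hF'⟩ := weyl_local hΩ hS h hz0
      exact ⟨r, F, fun _ => ⟨hr, hF, hF'⟩⟩
    · exact ⟨1, 0, fun h => absurd h hz0⟩
  choose r F hrF using hloc
  -- agreement
  have hagree : ∀ z0 ∈ Ω, ∀ z ∈ Ω, z ∈ Metric.ball z0 (r z0) → F z z = F z0 z := by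
    intro z0 hz0 z hz hzz
    obtain ⟨hr0, hd0, ha0⟩ := hrF z0 hz0
    obtain ⟨hr1, hd1, ha1⟩ := hrF z hz
    set U := Metric.ball z (r z) ∩ Metric.ball z0 (r z0) with hU
    have hUo : IsOpen U := Metric.isOpen_ball.inter Metric.isOpen_ball
    have hae : F z =ᵐ[volume.restrict U] F z0 := by
      rw [Filter.EventuallyEq, ae_restrict_iff' hUo.measurableSet]
      filter_upwards [ha0, ha1] with w h0 h1 hw
      rw [← h0 hw.2, ← h1 hw.1]
    have hzU : z ∈ U := ⟨Metric.mem_ball_self hr1, hzz⟩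
    exact Measure.eqOn_open_of_ae_eq hae hUo (hd1.continuousOn.mono inter_subset_left)
      (hd0.continuousOn.mono inter_subset_right) hzU
  refine ⟨fun z => F z z, ?_, ?_⟩
  · intro z0 hz0
    obtain ⟨hr0, hd0, ha0⟩ := hrF z0 hz0
    have h1 : DifferentiableAt ℂ (F z0) z0 :=
      hd0.differentiableAt (Metric.ball_mem_nhds z0 hr0)
    refine DifferentiableAt.differentiableWithinAt (h1.congr_of_eventuallyEq ?_)
    filter_upwards [Metric.ball_mem_nhds z0 hr0, hΩ.mem_nhds hz0] with z hz hzΩ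
    exact hagree z0 hz0 z hzΩ hz
  · have hnull : volume {z | z ∈ Ω ∧ S z ≠ F z z} = 0 := by
      refine measure_null_of_locally_null _ fun z0 hz0 => ?_
      obtain ⟨hr0, hd0, ha0⟩ := hrF z0 hz0.1
      refine ⟨{z | z ∈ Ω ∧ S z ≠ F z z} ∩ Metric.ball z0 (r z0), ?_, ?_⟩
      · exact inter_mem self_mem_nhdsWithin
          (mem_nhdsWithin_of_mem_nhds (Metric.ball_mem_nhds z0 hr0))
      · refine measure_mono_null ?_ ha0
        rintro z ⟨⟨hzΩ, hne⟩, hzb⟩ hcon
        apply hne
        rw [hcon hzb, hagree z0 hz0.1 z hzΩ hzb]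
    have h2 : ∀ᵐ z, ¬ (z ∈ Ω ∧ S z ≠ F z z) := by
      rw [ae_iff]
      simpa using hnull
    filter_upwards [h2] with z hz hzΩ
    by_contra hne
    exact hz ⟨hzΩ, hne⟩

end KN
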