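import Pool.Agent.Lib_MP_3ea2ac_kn.LamN
import Pool.Agent.Lib_MP_3ea2ac_kn.WeylN
import Pool.Agent.Lib_MP_3ea2ac_kq.Res
import Pool.Agent.Lib_MP_3ea2ac_kq.Test

/-! The power sums of the complement of a line slice are holomorphic. -/

open MeasureTheory Complex Set Topology Filter
open scoped ComplexConjugate ContDiff ComplexOrder

namespace KN

variable {n : ℕ} {M : Set (Fin (n + 1) → ℂ)} {D : (Fin (n + 1) → ℂ) → ℝ}
  {G : Fin (n + 1) → (Fin (n + 1) → ℂ) → ℝ} {a τ : ℝ} {t : Fin (n + 1) → ℂ → ℝ}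
  {α β : Fin (n + 1) → ℂ} {η : ℕ → (Fin (n + 1) → ℂ) → ℝ}

/-- `∑_{p ∉ M_x} (p - w₁)^{-k}`. -/
noncomputable def psum (M : Set (Fin (n + 1) → ℂ)) (i : Fin (n + 1)) (w₁ : ℂ) (k : ℕ)
    (x : Fin n → ℂ) : ℂ :=
  ∑ᶠ (p : ℂ) (_ : p ∈ (ML M i x)ᶜ), ((p - w₁) ^ k)⁻¹

/-- The power sum is the line integral, on almost every line. -/
private theorem PS_eq (P : NData M D G a τ t α β η) (i : Fin (n + 1)) {w₁ : ℂ} {s : ℝ}
    (hs : 0 < s) {k : ℕ} {U : Set (Fin n → ℂ)}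
    (hUs : ∀ x ∈ U, ∀ w ∈ Metric.closedBall w₁ s, ins i w x ∈ M) {f : ℂ → ℂ}
    (hf : ContDiff ℝ ∞ f) {C₀ : ℝ}
    (hb : ∀ w, ‖f w‖ ≤ C₀ / (1 + ‖w‖)) (hb' : ∀ w, ‖fderiv ℝ f w‖ ≤ C₀ / (1 + ‖w‖) ^ 2)
    (hz : ∀ w, w ∉ Metric.closedBall w₁ s → KQ.dwb f w = 0)
    (hv : ∀ w, w ∉ Metric.closedBall w₁ s → f w = ((w - w₁) ^ k)⁻¹) :
    ∀ᵐ x : Fin n → ℂ, x ∈ U → (Real.pi : ℂ) * psum M i w₁ k x = LamN M D i f x := by
  filter_upwards [P.line i] with x hx1 hxU
  have hmem : ∀ w ∈ Metric.closedBall w₁ s, w ∈ ML M i x := fun w hw => hUs x hxU w hw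
  have hne : (ML M i x).Nonempty := ⟨w₁, hmem w₁ (Metric.mem_closedBall_self hs.le)⟩
  have sd := hx1 hne
  have hcs : HasCompactSupport (KQ.dwb f) :=
    HasCompactSupport.intro (isCompact_closedBall w₁ s) (fun w hw => hz w hw)
  have h2 : ∃ p q, p ∉ ML M i x ∧ q ∉ ML M i x ∧ p ≠ q := by
    refine ⟨α i, β i, fun h => ?_, fun h => ?_, P.ne i⟩
    · exact (P.omits _ h i).1 (ins_same i _ x)
    · exact (P.omits _ h i).2 (ins_same i _ x)
  have hres := sd.residue h2 hf hb hb' hcs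
  have hsum : psum M i w₁ k x = ∑ p ∈ sd.finite.toFinset, f p := by
    unfold psum
    rw [finsum_mem_eq_finite_toFinset_sum _ sd.finite]
    refine Finset.sum_congr rfl fun p hp => ?_
    rw [Set.Finite.mem_toFinset] at hp
    rw [hv p (fun h => hp (hmem p h))]
  rw [hsum, hres]
  unfold LamN
  congr 1
  have hmeas : MeasurableSet (ML M i x) := sd.isOpen.measurableSet
  refine setIntegral_congr_fun hmeas fun w hw => ?_
  show f w * ((KQ.lev (fun z => Real.log (D (ins i z x))) w : ℝ) : ℂ)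
    = f w * TN D i i (ins i w x)
  rw [lev_line P.isOpen P.Dsmooth P.Dpos i hw]

/-- Tubes around compact subsets of a hyperplane slice. -/
private theorem PS_tube (hM : IsOpen M) (i : Fin (n + 1)) (w₁ : ℂ) (K : Set (Fin n → ℂ))
    (hK : IsCompact K) (hKM : K ⊆ MH M i w₁) :
    ∃ (U : Set (Fin n → ℂ)) (s : ℝ), IsOpen U ∧ K ⊆ U ∧ 0 < s ∧
      ∀ x ∈ U, ∀ w ∈ Metric.closedBall w₁ s, ins i w x ∈ M := by
  have hpre : IsOpen ((fun p : (Fin n → ℂ) × ℂ => ins i p.2 p.1) ⁻¹' M) :=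
    hM.preimage ((continuous_ins i).comp continuous_swap)
  obtain ⟨U, V, hU, hV, hKU, hwV, hUV⟩ := generalized_tube_lemma hK
    (isCompact_singleton (x := w₁)) hpre (by
      rintro ⟨x, w⟩ ⟨h1, h2⟩
      rw [mem_singleton_iff] at h2
      simp only at h1 h2
      rw [h2]
      exact hKM h1)
  obtain ⟨r, hr, hball⟩ := Metric.isOpen_iff.1 hV w₁ (hwV rfl)
  refine ⟨U, r / 2, hU, hKU, by positivity, ?_⟩
  intro x hx w hw
  have h3 : (x, w) ∈ (fun p : (Fin n → ℂ) × ℂ => ins i p.2 p.1) ⁻¹' M :=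
    hUV ⟨hx, hball (Metric.closedBall_subset_ball (by linarith) hw)⟩
  exact h3

/-- Residue formula on almost every line, weak holomorphy, Weyl. See ChEx.lean of
`Lib_MP_3ea2ac_kq`. -/
theorem NData.psum_holo (P : NData M D G a τ t α β η) (i : Fin (n + 1)) (w₁ : ℂ) {k : ℕ}
    (hk : 1 ≤ k) :
    ∃ F : (Fin n → ℂ) → ℂ, DifferentiableOn ℂ F (MH M i w₁) ∧
      ∀ᵐ x, x ∈ MH M i w₁ → psum M i w₁ k x = F x := by
  have hopen : IsOpen (MH M i w₁) := isOpen_MH P.isOpen i w₁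
  have hpi : (Real.pi : ℂ) ≠ 0 := by exact_mod_cast Real.pi_ne_zero
  refine weylN hopen ?_ ?_
  · -- local integrability
    intro x₀ hx₀
    obtain ⟨U, s, hU, hKU, hs, hUs⟩ := PS_tube P.isOpen i w₁ {x₀} isCompact_singleton
      (by simpa using hx₀)
    obtain ⟨f, hf, ⟨C₀, hb, hb'⟩, hz, hv⟩ := KQ.exists_test w₁ hs hk
    have hC : ∀ w, ‖f w‖ ≤ C₀ := by
      intro w
      refine (hb w).trans (div_le_self ?_ ?_)
      · have := (norm_nonneg (f 0)).trans (hb 0)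
        simpa using this
      · have := norm_nonneg w
        linarith
    have hloc := P.lam_locInt i hU hs hUs hf hC hz
    have heq := PS_eq P i hs (k := k) hUs hf hb hb' hz hv
    have h1 : IntegrableAtFilter (LamN M D i f) (𝓝[U] x₀) := hloc x₀ (hKU rfl)
    have h2 : 𝓝[U] x₀ = 𝓝 x₀ := hU.nhdsWithin_eq (hKU rfl)
    rw [h2] at h1
    obtain ⟨v, hv1, hint⟩ := h1
    refine ⟨v ∩ U, ?_, ?_⟩
    · exact mem_nhdsWithin_of_mem_nhds (inter_mem hv1 (hU.mem_nhds (hKU rfl)))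
    · have h3 : IntegrableOn (fun x => (Real.pi : ℂ)⁻¹ * LamN M D i f x) (v ∩ U) :=
        (hint.mono_set inter_subset_left).const_mul _
      refine h3.congr ?_
      have h4 : ∀ᵐ x ∂(volume.restrict (v ∩ U)), x ∈ U := by
        have h6 : ∀ᵐ x ∂(volume.restrict U), x ∈ U := ae_restrict_mem hU.measurableSet
        exact ae_mono (Measure.restrict_mono inter_subset_right le_rfl) h6
      filter_upwards [h4, ae_restrict_of_ae heq] with x hx1 hx2
      rw [← hx2 hx1, inv_mul_cancel_left₀ hpi]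
  · intro l θ hθ hθc hθs
    obtain ⟨U, s, hU, hKU, hs, hUs⟩ := PS_tube P.isOpen i w₁ (tsupport θ) hθc hθs
    obtain ⟨f, hf, ⟨C₀, hb, hb'⟩, hz, hv⟩ := KQ.exists_test w₁ hs hk
    have hC : ∀ w, ‖f w‖ ≤ C₀ := by
      intro w
      refine (hb w).trans (div_le_self ?_ ?_)
      · have := (norm_nonneg (f 0)).trans (hb 0)
        simpa using this
      · have := norm_nonneg w
        linarith
    have heq := PS_eq P i hs (k := k) hUs hf hb hb' hz hv
    have h1 := P.lam_weak i hU hs hUs hf hC hz hθ hθc hKU l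
    have h2 : ∫ x, pdb l θ x * psum M i w₁ k x
        = ∫ x, (Real.pi : ℂ)⁻¹ * (pdb l θ x * LamN M D i f x) := by
      refine integral_congr_ae ?_
      filter_upwards [heq] with x hx1
      by_cases hxU : x ∈ U
      · rw [← hx1 hxU]
        field_simp
      · have h3 : pdb l θ x = 0 := by
          have h4 : x ∉ tsupport (pdb l θ) := fun h => hxU (hKU (KQ.tsupport_wdb_subset h))
          exact image_eq_zero_of_notMem_tsupport h4
        rw [h3]; simp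
    rw [h2, integral_const_mul, h1, mul_zero]

end KN
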