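import Pool.Agent.Lib_MP_3ea2ac_kn.Slice
import Pool.Agent.Lib_MP_3ea2ac_kq.Hol

/-! Coordinate planes. -/

open MeasureTheory Complex Set Topology Filter
open scoped ComplexConjugate ContDiff ComplexOrder

namespace KN

variable {n : ℕ}

/-- The plane `(z,w) ↦` (`w` at the place `i`, `z` at the place `l` of the others). -/
def pl (i : Fin (n + 2)) (l : Fin (n + 1)) (x : Fin n → ℂ) (p : ℂ × ℂ) : Fin (n + 2) → ℂ :=
  ins i p.2 (ins l p.1 x)

/-- The slice of `M` by the plane. -/
def MP (M : Set (Fin (n + 2) → ℂ)) (i : Fin (n + 2)) (l : Fin (n + 1)) (x : Fin n → ℂ) :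
    Set (ℂ × ℂ) := {p | pl i l x p ∈ M}

variable {M : Set (Fin (n + 2) → ℂ)} {D : (Fin (n + 2) → ℂ) → ℝ}
  {G : Fin (n + 2) → (Fin (n + 2) → ℂ) → ℝ} {a τ : ℝ} {t : Fin (n + 2) → ℂ → ℝ}
  {α β : Fin (n + 2) → ℂ} {η : ℕ → (Fin (n + 2) → ℂ) → ℝ}

private theorem Pl_same (i : Fin (n + 2)) (l : Fin (n + 1)) (x : Fin n → ℂ) (p : ℂ × ℂ) :
    pl i l x p i = p.2 := by
  rw [pl, ins_same]

private theorem Pl_snd (i : Fin (n + 2)) (l : Fin (n + 1)) (x : Fin n → ℂ) (p : ℂ × ℂ) :
    pl i l x p (i.succAbove l) = p.1 := by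
  rw [pl, ins_succAbove, ins_same]

private theorem Pl_rest (i : Fin (n + 2)) (l : Fin (n + 1)) (x : Fin n → ℂ) (p : ℂ × ℂ) (j : Fin n) :
    pl i l x p (i.succAbove (l.succAbove j)) = x j := by
  rw [pl, ins_succAbove, ins_succAbove]

private theorem Pl_cases (i : Fin (n + 2)) (l : Fin (n + 1)) (m : Fin (n + 2)) :
    m = i ∨ m = i.succAbove l ∨ ∃ j : Fin n, m = i.succAbove (l.succAbove j) := by
  rcases Fin.eq_self_or_eq_succAbove i m with h | ⟨r, h⟩
  · exact Or.inl h
  · rcases Fin.eq_self_or_eq_succAbove l r with h' | ⟨j, h'⟩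
    · exact Or.inr (Or.inl (by rw [h, h']))
    · exact Or.inr (Or.inr ⟨j, by rw [h, h']⟩)

private theorem Pl_ne (i : Fin (n + 2)) (l : Fin (n + 1)) : i ≠ i.succAbove l :=
  (Fin.succAbove_ne i l).symm

/-- The linear part of the plane. -/
private noncomputable def PlL (i : Fin (n + 2)) (l : Fin (n + 1)) :
    (ℂ × ℂ) →L[ℝ] (Fin (n + 2) → ℂ) :=
  LinearMap.toContinuousLinearMap
    { toFun := fun p => pl i l 0 p
      map_add' := fun p q => by
        funext m
        rcases Pl_cases i l m with h | h | ⟨j, h⟩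
        · subst h; simp [Pl_same]
        · subst h; simp [Pl_snd]
        · subst h; simp [Pl_rest]
      map_smul' := fun c p => by
        funext m
        rcases Pl_cases i l m with h | h | ⟨j, h⟩
        · subst h; simp [Pl_same]
        · subst h; simp [Pl_snd]
        · subst h; simp [Pl_rest] }

private theorem PlL_apply (i : Fin (n + 2)) (l : Fin (n + 1)) (p : ℂ × ℂ) :
    PlL i l p = pl i l 0 p := rfl

private theorem Pl_affine (i : Fin (n + 2)) (l : Fin (n + 1)) (x : Fin n → ℂ) (p : ℂ × ℂ) :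
    pl i l x p = PlL i l p + pl i l x 0 := by
  rw [PlL_apply]
  funext m
  rw [Pi.add_apply]
  rcases Pl_cases i l m with h | h | ⟨j, h⟩
  · subst h; simp [Pl_same]
  · subst h; simp [Pl_snd]
  · subst h; simp [Pl_rest]

private theorem PlL_fst (i : Fin (n + 2)) (l : Fin (n + 1)) (v : ℂ) :
    PlL i l (v, 0) = Pi.single (i.succAbove l) v := by
  rw [PlL_apply]
  funext m
  rcases Pl_cases i l m with h | h | ⟨j, h⟩
  · subst h
    rw [Pl_same, Pi.single_eq_of_ne (Pl_ne m l)]
  · subst h
    rw [Pl_snd, Pi.single_eq_same]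
  · subst h
    rw [Pl_rest, Pi.single_eq_of_ne]
    · rfl
    · intro hc
      exact Fin.succAbove_ne l j (Fin.succAbove_right_injective hc)

private theorem PlL_snd (i : Fin (n + 2)) (l : Fin (n + 1)) (v : ℂ) :
    PlL i l (0, v) = Pi.single i v := by
  rw [PlL_apply]
  funext m
  rcases Pl_cases i l m with h | h | ⟨j, h⟩
  · subst h
    rw [Pl_same, Pi.single_eq_same]
  · subst h
    rw [Pl_snd, Pi.single_eq_of_ne (Pl_ne i l).symm]
  · subst h
    rw [Pl_rest, Pi.single_eq_of_ne (Fin.succAbove_ne i _)]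
    rfl

private theorem PlL_ex (i : Fin (n + 2)) (l : Fin (n + 1)) (b : Fin 2) :
    PlL i l (KQ.ex b) = ux (if b = 0 then i.succAbove l else i) := by
  fin_cases b
  · simp [KQ.ex, ux, PlL_fst]
  · simp [KQ.ex, ux, PlL_snd]

private theorem PlL_ey (i : Fin (n + 2)) (l : Fin (n + 1)) (b : Fin 2) :
    PlL i l (KQ.ey b) = uy (if b = 0 then i.succAbove l else i) := by
  fin_cases b
  · simp [KQ.ey, uy, PlL_fst]
  · simp [KQ.ey, uy, PlL_snd]

private theorem Pl_contDiff (i : Fin (n + 2)) (l : Fin (n + 1)) (x : Fin n → ℂ) :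
    ContDiff ℝ ∞ (pl i l x) := by
  have h : pl i l x = fun p => PlL i l p + pl i l x 0 := funext (Pl_affine i l x)
  rw [h]
  exact (PlL i l).contDiff.add contDiff_const

private theorem Pl_cont (i : Fin (n + 2)) (l : Fin (n + 1)) (x : Fin n → ℂ) :
    Continuous (pl i l x) := (Pl_contDiff i l x).continuous

private theorem Pl_maps (i : Fin (n + 2)) (l : Fin (n + 1)) (x : Fin n → ℂ) :
    MapsTo (pl i l x) (MP M i l x) M := fun _ h => h

/-- `T` of the restriction to a plane; `σ 0 = i.succAbove l`, `σ 1 = i`. -/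
theorem TT_plane (hM : IsOpen M) (hD : ContDiffOn ℝ ∞ D M) (hpos : ∀ x ∈ M, 0 < D x)
    (i : Fin (n + 2)) (l : Fin (n + 1)) (x : Fin n → ℂ) {p : ℂ × ℂ} (hp : pl i l x p ∈ M)
    (b c : Fin 2) :
    KQ.TT (fun q => D (pl i l x q)) b c p
      = TN D (if b = 0 then i.succAbove l else i) (if c = 0 then i.succAbove l else i)
        (pl i l x p) := by
  have hF : ContDiffOn ℝ ∞ (fun y => ((Real.log (D y) : ℝ) : ℂ)) M :=
    Complex.ofRealCLM.contDiff.comp_contDiffOn (hD.log fun x hx => (hpos x hx).ne')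
  have hp' : PlL i l p + pl i l x 0 ∈ M := by
    rw [← Pl_affine]
    exact hp
  have h := wd_wdb_affine (PlL i l) (pl i l x 0) hM hF hp' (KQ.ex b) (KQ.ey b) (KQ.ex c) (KQ.ey c)
  rw [PlL_ex, PlL_ey, PlL_ex, PlL_ey, ← Pl_affine] at h
  have e1 : (fun y => ((Real.log (D (PlL i l y + pl i l x 0)) : ℝ) : ℂ)) =
      fun y => ((Real.log (D (pl i l x y)) : ℝ) : ℂ) := by
    funext y
    rw [← Pl_affine]
  rw [e1] at h
  exact h

private theorem Pl_pdb (hη : ∀ k, ContDiff ℝ ∞ (η k)) (i : Fin (n + 2)) (l : Fin (n + 1))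
    (x : Fin n → ℂ) (k : ℕ) (p : ℂ × ℂ) (b : Fin 2) :
    KQ.pdb b (KQ.cη (fun k p => η k (pl i l x p)) k) p
      = pdb (if b = 0 then i.succAbove l else i) (ce η k) (pl i l x p) := by
  have hF : ContDiff ℝ ∞ (ce η k) := Complex.ofRealCLM.contDiff.comp (hη k)
  have h := wdb_affine (PlL i l) (pl i l x 0) (f := ce η k) (x := p)
    ((hF.differentiable (by simp)).differentiableAt) (KQ.ex b) (KQ.ey b)
  rw [PlL_ex, PlL_ey, ← Pl_affine] at h
  have e1 : (fun y => ce η k (PlL i l y + pl i l x 0)) = KQ.cη (fun k p => η k (pl i l x p)) k := by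
    funext y
    rw [← Pl_affine]
    rfl
  rw [e1] at h
  exact h

private theorem Pl_fderiv (hη : ∀ k, ContDiff ℝ ∞ (η k)) (i : Fin (n + 2)) (l : Fin (n + 1))
    (x : Fin n → ℂ) (k : ℕ) (p e : ℂ × ℂ) :
    fderiv ℝ (fun q => η k (pl i l x q)) p e = fderiv ℝ (η k) (pl i l x p) (PlL i l e) := by
  have h1 : HasFDerivAt (η k) (fderiv ℝ (η k) (pl i l x p)) (pl i l x p) :=
    ((hη k).differentiable (by simp)).differentiableAt.hasFDerivAt
  have h2 : HasFDerivAt (pl i l x) (PlL i l) p := by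
    have h : pl i l x = fun p => PlL i l p + pl i l x 0 := funext (Pl_affine i l x)
    rw [h]
    exact (PlL i l).hasFDerivAt.add_const _
  have h3 : fderiv ℝ (fun q => η k (pl i l x q)) p = (fderiv ℝ (η k) (pl i l x p)).comp (PlL i l) :=
    (h1.comp p h2).fderiv
  rw [h3]
  rfl

private theorem Pl_S (i : Fin (n + 2)) (l : Fin (n + 1)) :
    Function.Injective fun j : Fin n => i.succAbove (l.succAbove j) :=
  fun _ _ h => Fin.succAbove_right_injective (Fin.succAbove_right_injective h)

private theorem Pl_notS (i : Fin (n + 2)) (l : Fin (n + 1)) :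
    i ∉ Finset.univ.image (fun j : Fin n => i.succAbove (l.succAbove j)) ∧
    i.succAbove l ∉ Finset.univ.image (fun j : Fin n => i.succAbove (l.succAbove j)) := by
  constructor
  · intro h
    obtain ⟨j, -, hj⟩ := Finset.mem_image.1 h
    exact Fin.succAbove_ne i _ hj
  · intro h
    obtain ⟨j, -, hj⟩ := Finset.mem_image.1 h
    exact Fin.succAbove_ne l j (Fin.succAbove_right_injective hj)

private theorem Pl_e2 (i : Fin (n + 2)) (l : Fin (n + 1)) :
    (Finset.univ.erase i).erase (i.succAbove l) =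
      Finset.univ.image (fun j : Fin n => i.succAbove (l.succAbove j)) := by
  ext m
  rw [Finset.mem_erase, Finset.mem_erase]
  constructor
  · rintro ⟨h1, h2, -⟩
    rcases Pl_cases i l m with h | h | ⟨j, h⟩
    · exact absurd h h2
    · exact absurd h h1
    · exact Finset.mem_image.2 ⟨j, Finset.mem_univ _, h.symm⟩
  · intro h
    obtain ⟨j, -, hj⟩ := Finset.mem_image.1 h
    refine ⟨?_, ?_, Finset.mem_univ _⟩
    · rintro rfl
      exact (Pl_notS i l).2 h
    · rintro rfl
      exact (Pl_notS m l).1 h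

private theorem Pl_e1 (i : Fin (n + 2)) (l : Fin (n + 1)) :
    Finset.univ.erase i =
      insert (i.succAbove l) (Finset.univ.image (fun j : Fin n => i.succAbove (l.succAbove j))) := by
  rw [← Pl_e2, Finset.insert_erase]
  exact Finset.mem_erase.2 ⟨(Pl_ne i l).symm, Finset.mem_univ _⟩

private theorem Pl_e1' (i : Fin (n + 2)) (l : Fin (n + 1)) :
    Finset.univ.erase (i.succAbove l) =
      insert i (Finset.univ.image (fun j : Fin n => i.succAbove (l.succAbove j))) := by
  rw [← Pl_e2, Finset.erase_right_comm, Finset.insert_erase]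
  exact Finset.mem_erase.2 ⟨Pl_ne i l, Finset.mem_univ _⟩

private theorem Pl_p2 (i : Fin (n + 2)) (l : Fin (n + 1)) (f : Fin (n + 2) → ℝ) :
    ∏ m ∈ (Finset.univ.erase i).erase (i.succAbove l), f m = ∏ j, f (i.succAbove (l.succAbove j)) := by
  rw [Pl_e2, Finset.prod_image (fun _ _ _ _ h => Pl_S i l h)]

private theorem Pl_p2' (i : Fin (n + 2)) (l : Fin (n + 1)) (f : Fin (n + 2) → ℝ) :
    ∏ m ∈ (Finset.univ.erase (i.succAbove l)).erase i, f m = ∏ j, f (i.succAbove (l.succAbove j)) := by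
  rw [Finset.erase_right_comm, Pl_p2]

private theorem Pl_p1 (i : Fin (n + 2)) (l : Fin (n + 1)) (f : Fin (n + 2) → ℝ) :
    ∏ m ∈ Finset.univ.erase i, f m = f (i.succAbove l) * ∏ j, f (i.succAbove (l.succAbove j)) := by
  rw [Pl_e1 i l, Finset.prod_insert (Pl_notS i l).2, Finset.prod_image (fun _ _ _ _ h => Pl_S i l h)]

private theorem Pl_p1' (i : Fin (n + 2)) (l : Fin (n + 1)) (f : Fin (n + 2) → ℝ) :
    ∏ m ∈ Finset.univ.erase (i.succAbove l), f m = f i * ∏ j, f (i.succAbove (l.succAbove j)) := by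
  rw [Pl_e1' i l, Finset.prod_insert (Pl_notS i l).1, Finset.prod_image (fun _ _ _ _ h => Pl_S i l h)]

/-- The planes fill the space, with the product measure. -/
private theorem Pl_mp (i : Fin (n + 2)) (l : Fin (n + 1)) :
    MeasurePreserving (fun q : (Fin n → ℂ) × (ℂ × ℂ) => pl i l q.1 q.2) volume volume := by
  have h1 : MeasurePreserving (fun q : (Fin n → ℂ) × (ℂ × ℂ) => (q.2, q.1)) volume volume :=
    Measure.measurePreserving_swap
  have h2 : MeasurePreserving (fun q : (ℂ × ℂ) × (Fin n → ℂ) => (q.1.swap, q.2)) volume volume :=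
    (Measure.measurePreserving_swap (μ := (volume : Measure ℂ)) (ν := (volume : Measure ℂ))).prod
      (MeasurePreserving.id volume)
  have h3 : MeasurePreserving (fun q : (ℂ × ℂ) × (Fin n → ℂ) => (q.1.1, (q.1.2, q.2)))
      volume volume :=
    measurePreserving_prodAssoc (volume : Measure ℂ) (volume : Measure ℂ) (volume : Measure (Fin n → ℂ))
  have h4 : MeasurePreserving (fun q : ℂ × (ℂ × (Fin n → ℂ)) => (q.1, ins l q.2.1 q.2.2))
      volume volume :=
    (MeasurePreserving.id (volume : Measure ℂ)).prod (mp_ins l)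
  have h5 := (mp_ins i).comp (h4.comp (h3.comp (h2.comp h1)))
  exact h5

private theorem Pl_int (hM : IsOpen M) (hv : IntegrableOn D M) (i : Fin (n + 2))
    (l : Fin (n + 1)) :
    ∀ᵐ x : Fin n → ℂ, IntegrableOn (fun p => D (pl i l x p)) (MP M i l x) := by
  have h1 : Integrable (M.indicator D) (volume : Measure (Fin (n + 2) → ℂ)) :=
    (integrable_indicator_iff hM.measurableSet).2 hv
  have h2 : Integrable (fun q : (Fin n → ℂ) × (ℂ × ℂ) => M.indicator D (pl i l q.1 q.2))
      ((volume : Measure (Fin n → ℂ)).prod (volume : Measure (ℂ × ℂ))) :=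
    (Pl_mp i l).integrable_comp_of_integrable h1
  have h3 : ∀ᵐ x : Fin n → ℂ, Integrable (fun p : ℂ × ℂ => M.indicator D (pl i l x p)) :=
    h2.prod_right_ae
  filter_upwards [h3] with x hx
  have h4 : (fun p => M.indicator D (pl i l x p))
      = (MP M i l x).indicator (fun p => D (pl i l x p)) := by
    funext p
    by_cases hp : pl i l x p ∈ M
    · rw [indicator_of_mem hp, indicator_of_mem (show p ∈ MP M i l x from hp)]
    · rw [indicator_of_notMem hp, indicator_of_notMem (show p ∉ MP M i l x from hp)]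
  rw [h4] at hx
  exact (integrable_indicator_iff (hM.preimage (Pl_cont i l x)).measurableSet).1 hx

/-- Almost every plane carries plane data. Here the product in the constant is over the remaining
coordinates. -/
theorem NData.plane (P : NData M D G a τ t α β η) (i : Fin (n + 2)) (l : Fin (n + 1)) :
    ∀ᵐ x : Fin n → ℂ, KQ.PlaneData (MP M i l x) (fun p => D (pl i l x p))
      (fun p => G (i.succAbove l) (pl i l x p)) (fun p => G i (pl i l x p)) a
      (τ * ∏ j, t (i.succAbove (l.succAbove j)) (x j)) (t (i.succAbove l)) (t i)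
      (α (i.succAbove l)) (β (i.succAbove l)) (α i) (β i) (fun k p => η k (pl i l x p)) := by
  filter_upwards [Pl_int P.isOpen P.integrable i l] with x hx
  have hcl : IsClosedEmbedding (pl i l x) := by
    refine Function.LeftInverse.isClosedEmbedding
      (f := fun y : Fin (n + 2) → ℂ => (y (i.succAbove l), y i)) ?_ ?_ (Pl_cont i l x)
    · intro p
      simp only [Pl_snd, Pl_same]
    · exact (continuous_apply _).prodMk (continuous_apply _)
  have hprod : ∀ p : ℂ × ℂ, ∏ j, t (i.succAbove (l.succAbove j)) (pl i l x p (i.succAbove (l.succAbove j)))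
      = ∏ j, t (i.succAbove (l.succAbove j)) (x j) := fun p =>
    Finset.prod_congr rfl fun j _ => by rw [Pl_rest]
  exact
  { isOpen := P.isOpen.preimage (Pl_cont i l x)
    a_nonneg := P.a_nonneg
    τ_nonneg := mul_nonneg P.τ_nonneg (Finset.prod_nonneg fun j _ => P.tnonneg _ _)
    ne₁ := P.ne _
    ne₂ := P.ne _
    omit₁ := fun p hp => by
      have h := P.omits _ hp (i.succAbove l)
      rwa [Pl_snd] at h
    omit₂ := fun p hp => by
      have h := P.omits _ hp i
      rwa [Pl_same] at h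
    t₁cont := P.tcont _
    t₂cont := P.tcont _
    t₁nonneg := P.tnonneg _
    t₂nonneg := P.tnonneg _
    Dpos := fun p hp => P.Dpos _ hp
    Dsmooth := P.Dsmooth.comp (Pl_contDiff i l x).contDiffOn (Pl_maps i l x)
    Econt := (P.Gcont _).comp (Pl_cont i l x).continuousOn (Pl_maps i l x)
    Gcont := (P.Gcont _).comp (Pl_cont i l x).continuousOn (Pl_maps i l x)
    Enonneg := fun p hp => P.Gnonneg _ _ hp
    Gnonneg := fun p hp => P.Gnonneg _ _ hp
    GleD := fun p hp => by
      have h := P.GleD i _ hp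
      rw [Pl_p1 i l (fun m => t m (pl i l x p m)), hprod p, Pl_snd] at h
      refine h.trans (le_of_eq ?_)
      ring
    EleD := fun p hp => by
      have h := P.GleD (i.succAbove l) _ hp
      rw [Pl_p1' i l (fun m => t m (pl i l x p m)), hprod p, Pl_same] at h
      refine h.trans (le_of_eq ?_)
      ring
    T11 := fun p hp => by
      rw [TT_plane P.isOpen P.Dsmooth P.Dpos i l x hp 1 1]
      exact P.T i _ hp
    T00 := fun p hp => by
      rw [TT_plane P.isOpen P.Dsmooth P.Dpos i l x hp 0 0]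
      exact P.T (i.succAbove l) _ hp
    integrable := hx
    ηsmooth := fun k => (P.ηsmooth k).comp (Pl_contDiff i l x)
    ηcpt := fun k => (P.ηcpt k).comp_isClosedEmbedding hcl
    ηsub := fun k => by
      intro p hp
      exact P.ηsub k (tsupport_comp_subset_preimage (η k) (Pl_cont i l x) hp)
    ηnonneg := fun k p => P.ηnonneg k _
    ηle_one := fun k p => P.ηle_one k _
    ηone := fun K hK hKM => by
      have h1 : IsCompact (pl i l x '' K) := hK.image (Pl_cont i l x)
      have h2 : pl i l x '' K ⊆ M := by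
        rintro _ ⟨y, hy, rfl⟩
        exact hKM hy
      filter_upwards [P.ηone _ h1 h2] with k hk p hp
      exact hk _ (mem_image_of_mem _ hp)
    ηgrad₁ := fun k p hp v => by
      rw [Pl_fderiv P.ηsmooth, PlL_fst]
      exact P.ηgrad _ k _ hp v
    ηgrad₂ := fun k p hp v => by
      rw [Pl_fderiv P.ηsmooth, PlL_snd]
      exact P.ηgrad _ k _ hp v
    err₁ := fun k p hp => by
      have h := P.err i (i.succAbove l) (Pl_ne i l) k _ hp
      rw [Pl_p2 i l (fun m => t m (pl i l x p m)), hprod p] at h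
      rw [Pl_pdb P.ηsmooth, Pl_pdb P.ηsmooth, TT_plane P.isOpen P.Dsmooth P.Dpos i l x hp 1 0,
        TT_plane P.isOpen P.Dsmooth P.Dpos i l x hp 1 1]
      exact h
    err₂ := fun k p hp => by
      have h := P.err (i.succAbove l) i (Pl_ne i l).symm k _ hp
      rw [Pl_p2' i l (fun m => t m (pl i l x p m)), hprod p] at h
      rw [Pl_pdb P.ηsmooth, Pl_pdb P.ηsmooth, TT_plane P.isOpen P.Dsmooth P.Dpos i l x hp 0 1,
        TT_plane P.isOpen P.Dsmooth P.Dpos i l x hp 0 0]
      exact h }

end KN
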