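import Pool.Agent.Lib_MP_3ea2ac_kn.Boch
import Pool.Agent.Lib_MP_3ea2ac_kq.Rho
import Pool.Agent.Lib_MP_3ea2ac_kq.Core

/-! The integral Schwarz lemma on `M`. -/

open MeasureTheory Complex Set Topology Filter
open scoped ComplexConjugate ContDiff ComplexOrder

namespace KN

variable {n : ℕ} {M : Set (Fin n → ℂ)} {g : (Fin n → ℂ) → Matrix (Fin n) (Fin n) ℂ} {a : ℝ}
  {α β : Fin n → ℂ} {x : Fin n → ℂ} {η : ℕ → (Fin n → ℂ) → ℝ}

/-! ### The operator `cL` -/

private lemma schw_dd_congr {u u' : (Fin n → ℂ) → ℂ} (h : u =ᶠ[𝓝 x] u') (i j : Fin n) :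
    pd i (pdb j u) x = pd i (pdb j u') x :=
  KQ.wd_congr (h.eventuallyEq_nhds.mono fun _ hy => KQ.wdb_congr hy)

private lemma schw_dd_add {u u' : (Fin n → ℂ) → ℂ} (hM : IsOpen M) (hu : ContDiffOn ℝ ∞ u M)
    (hu' : ContDiffOn ℝ ∞ u' M) (hx : x ∈ M) (i j : Fin n) :
    pd i (pdb j (fun y => u y + u' y)) x = pd i (pdb j u) x + pd i (pdb j u') x := by
  have hd : ∀ {f : (Fin n → ℂ) → ℂ}, ContDiffOn ℝ ∞ f M → ∀ y ∈ M, DifferentiableAt ℝ f y :=
    fun hf y hy => (hf.contDiffAt (hM.mem_nhds hy)).differentiableAt (by simp)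
  have h1 : pdb j (fun y => u y + u' y) =ᶠ[𝓝 x] fun y => pdb j u y + pdb j u' y := by
    filter_upwards [hM.mem_nhds hx] with y hy
    exact KQ.wdb_add (hd hu y hy) (hd hu' y hy)
  have h2 : pd i (pdb j (fun y => u y + u' y)) x = pd i (fun y => pdb j u y + pdb j u' y) x :=
    KQ.wd_congr h1
  rw [h2]
  exact KQ.wd_add (hd (KQ.contDiffOn_wdb hM hu) x hx) (hd (KQ.contDiffOn_wdb hM hu') x hx)

private lemma schw_ofReal {u : (Fin n → ℂ) → ℝ} (hu : ContDiffOn ℝ ∞ u M) :
    ContDiffOn ℝ ∞ (fun y => ((u y : ℝ) : ℂ)) M :=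
  Complex.ofRealCLM.contDiff.comp_contDiffOn hu

private lemma schw_cL_add {u u' : (Fin n → ℂ) → ℝ} (hM : IsOpen M) (hu : ContDiffOn ℝ ∞ u M)
    (hu' : ContDiffOn ℝ ∞ u' M) (hx : x ∈ M) :
    cL g (fun y => u y + u' y) x = cL g u x + cL g u' x := by
  have h : ∀ i j : Fin n, pd i (pdb j (fun y => ((u y + u' y : ℝ) : ℂ))) x
      = pd i (pdb j (fun y => ((u y : ℝ) : ℂ))) x + pd i (pdb j (fun y => ((u' y : ℝ) : ℂ))) x := by
    intro i j
    rw [← schw_dd_add hM (schw_ofReal hu) (schw_ofReal hu') hx i j]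
    simp only [ofReal_add]
  unfold cL
  rw [← add_re]
  congr 1
  rw [← Finset.sum_add_distrib]
  refine Finset.sum_congr rfl fun i _ => ?_
  rw [← Finset.sum_add_distrib]
  refine Finset.sum_congr rfl fun j _ => ?_
  rw [h i j]
  ring

private lemma schw_cL_congr {u u' : (Fin n → ℂ) → ℝ} (h : u =ᶠ[𝓝 x] u') : cL g u x = cL g u' x := by
  have h' : (fun y => ((u y : ℝ) : ℂ)) =ᶠ[𝓝 x] fun y => ((u' y : ℝ) : ℂ) :=
    h.mono fun y hy => by simp only [hy]
  unfold cL
  congr 1
  refine Finset.sum_congr rfl fun i _ => Finset.sum_congr rfl fun j _ => ?_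
  rw [schw_dd_congr h' i j]

private lemma schw_fd {f : ℂ → ℂ} {k : Fin n} {y : Fin n → ℂ} (hf : DifferentiableAt ℝ f (y k))
    (e : Fin n → ℂ) : fderiv ℝ (fun z : Fin n → ℂ => f (z k)) y e = fderiv ℝ f (y k) (e k) := by
  have h1 : HasFDerivAt (fun z : Fin n → ℂ => z k)
      (ContinuousLinearMap.proj (R := ℝ) (φ := fun _ : Fin n => ℂ) k) y :=
    (ContinuousLinearMap.proj (R := ℝ) (φ := fun _ : Fin n => ℂ) k).hasFDerivAt
  have h2 : HasFDerivAt (fun z : Fin n → ℂ => f (z k)) _ y := hf.hasFDerivAt.comp y h1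
  rw [h2.fderiv]
  rfl

private lemma schw_pd_coord {f : ℂ → ℂ} {k : Fin n} {y : Fin n → ℂ}
    (hf : DifferentiableAt ℝ f (y k)) (i : Fin n) :
    pd i (fun z : Fin n → ℂ => f (z k)) y = if i = k then KQ.dw f (y k) else 0 := by
  simp only [pd, KQ.wd, schw_fd hf, ux, uy, KQ.dw]
  by_cases h : i = k
  · subst h
    simp
  · rw [if_neg h, Pi.single_eq_of_ne (Ne.symm h), Pi.single_eq_of_ne (Ne.symm h)]
    simp

private lemma schw_pdb_coord {f : ℂ → ℂ} {k : Fin n} {y : Fin n → ℂ}
    (hf : DifferentiableAt ℝ f (y k)) (i : Fin n) :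
    pdb i (fun z : Fin n → ℂ => f (z k)) y = if i = k then KQ.dwb f (y k) else 0 := by
  simp only [pdb, KQ.wdb, schw_fd hf, ux, uy, KQ.dwb]
  by_cases h : i = k
  · subst h
    simp
  · rw [if_neg h, Pi.single_eq_of_ne (Ne.symm h), Pi.single_eq_of_ne (Ne.symm h)]
    simp

private lemma schw_dd_coord {f : ℂ → ℂ} {S : Set ℂ} (hS : IsOpen S) (hf : ContDiffOn ℝ ∞ f S)
    {k : Fin n} (hxS : x k ∈ S) (i j : Fin n) :
    pd i (pdb j (fun z : Fin n → ℂ => f (z k))) x
      = if j = k then (if i = k then KQ.dw (KQ.dwb f) (x k) else 0) else 0 := by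
  have hN : IsOpen {y : Fin n → ℂ | y k ∈ S} := hS.preimage (continuous_apply k)
  have hd : ∀ z ∈ S, DifferentiableAt ℝ f z :=
    fun z hz => (hf.contDiffAt (hS.mem_nhds hz)).differentiableAt (by simp)
  have hd2 : DifferentiableAt ℝ (KQ.dwb f) (x k) :=
    ((KQ.contDiffOn_wdb hS hf).contDiffAt (hS.mem_nhds hxS)).differentiableAt (by simp)
  by_cases hj : j = k
  · rw [if_pos hj]
    have h1 : pdb j (fun z : Fin n → ℂ => f (z k)) =ᶠ[𝓝 x] fun z => KQ.dwb f (z k) := by
      filter_upwards [hN.mem_nhds hxS] with y hy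
      rw [schw_pdb_coord (hd _ hy), if_pos hj]
    have h2 : pd i (pdb j (fun z : Fin n → ℂ => f (z k))) x
        = pd i (fun z : Fin n → ℂ => KQ.dwb f (z k)) x := KQ.wd_congr h1
    rw [h2, schw_pd_coord hd2]
  · rw [if_neg hj]
    have h1 : pdb j (fun z : Fin n → ℂ => f (z k)) =ᶠ[𝓝 x] fun _ => 0 := by
      filter_upwards [hN.mem_nhds hxS] with y hy
      rw [schw_pdb_coord (hd _ hy), if_neg hj]
    have h2 : pd i (pdb j (fun z : Fin n → ℂ => f (z k))) x
        = pd i (fun _ : Fin n → ℂ => 0) x := KQ.wd_congr h1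
    rw [h2]
    exact KQ.wd_const _

private lemma schw_cL_coord (h : IsKahler M g) (hx : x ∈ M) {r : ℂ → ℝ} {S : Set ℂ}
    (hS : IsOpen S) (hr : ContDiffOn ℝ ∞ r S) {k : Fin n} (hxS : x k ∈ S) :
    cL g (fun y => r (y k)) x = gD g x * uK g k x * KQ.lev r (x k) := by
  have hr' : ContDiffOn ℝ ∞ (fun z => ((r z : ℝ) : ℂ)) S :=
    Complex.ofRealCLM.contDiff.comp_contDiffOn hr
  have e : ∑ i, ∑ j, (g x).adjugate j i * pd i (pdb j (fun y => ((r (y k) : ℝ) : ℂ))) x
      = (g x).adjugate k k * KQ.dw (KQ.dwb (fun z => ((r z : ℝ) : ℂ))) (x k) := by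
    have h1 : ∀ i j : Fin n, (g x).adjugate j i * pd i (pdb j (fun y => ((r (y k) : ℝ) : ℂ))) x
        = if j = k then (if i = k then (g x).adjugate k k *
          KQ.dw (KQ.dwb (fun z => ((r z : ℝ) : ℂ))) (x k) else 0) else 0 := by
      intro i j
      rw [schw_dd_coord (f := fun z => ((r z : ℝ) : ℂ)) hS hr' hxS i j]
      by_cases hj : j = k
      · by_cases hi : i = k
        · rw [if_pos hj, if_pos hi, if_pos hj, if_pos hi, hj, hi]
        · rw [if_pos hj, if_neg hi, if_pos hj, if_neg hi, mul_zero]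
      · rw [if_neg hj, if_neg hj, mul_zero]
    simp only [h1, Finset.sum_ite_eq', Finset.mem_univ, if_true]
  unfold cL
  rw [e, adj_eq h hx, inv_self h hx, ← ofReal_mul, re_ofReal_mul]
  rfl

/-! ### The function `t ↦ (t₊)²` -/

private lemma schw_hasDerivAt (c t : ℝ) :
    HasDerivAt (fun s : ℝ => (max (s - c) 0) ^ 2) (2 * max (t - c) 0) t := by
  rcases lt_trichotomy t c with h | h | h
  · have : (fun s : ℝ => (max (s - c) 0) ^ 2) =ᶠ[𝓝 t] fun _ => 0 := by
      filter_upwards [gt_mem_nhds h] with s hs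
      rw [max_eq_right (by linarith)]; norm_num
    rw [max_eq_right (by linarith), mul_zero]
    exact (hasDerivAt_const t (0 : ℝ)).congr_of_eventuallyEq this
  · subst h
    rw [sub_self, max_self, mul_zero, hasDerivAt_iff_isLittleO]
    have h1 : (fun s : ℝ => (s - t) ^ 2) =o[𝓝 t] fun s => s - t := by
      have h0 : Tendsto (fun s : ℝ => s - t) (𝓝 t) (𝓝 0) := by
        have : Continuous fun s : ℝ => s - t := by fun_prop
        simpa using this.tendsto t
      have := (Asymptotics.isLittleO_pow_id (𝕜 := ℝ) (n := 2) (by norm_num)).comp_tendsto h0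
      simpa [Function.comp_def] using this
    refine Asymptotics.IsLittleO.congr' ?_ (EventuallyEq.refl _ _) (EventuallyEq.refl _ _)
    refine (Asymptotics.IsBigO.of_bound 1 (Eventually.of_forall fun s => ?_)).trans_isLittleO h1
    simp only [sub_self, max_self, ne_eq, OfNat.ofNat_ne_zero, not_false_eq_true, zero_pow,
      sub_zero, smul_eq_mul, mul_zero, norm_pow, one_mul]
    refine pow_le_pow_left₀ (norm_nonneg _) ?_ 2
    rw [Real.norm_eq_abs, Real.norm_eq_abs, abs_of_nonneg (le_max_right _ _)]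
    exact max_le (le_abs_self _) (abs_nonneg _)
  · have : (fun s : ℝ => (max (s - c) 0) ^ 2) =ᶠ[𝓝 t] fun s => (s - c) ^ 2 := by
      filter_upwards [lt_mem_nhds h] with s hs
      rw [max_eq_left (by linarith)]
    rw [max_eq_left (by linarith)]
    have h2 : HasDerivAt (fun s : ℝ => (s - c) ^ 2) (2 * (t - c)) t := by
      have := ((hasDerivAt_id' t).sub_const c).fun_pow 2
      simpa using this
    exact h2.congr_of_eventuallyEq this

private lemma schw_contDiff (c : ℝ) : ContDiff ℝ 1 (fun s : ℝ => (max (s - c) 0) ^ 2) := by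
  rw [contDiff_one_iff_deriv]
  refine ⟨fun t => (schw_hasDerivAt c t).differentiableAt, ?_⟩
  have : deriv (fun s : ℝ => (max (s - c) 0) ^ 2) = fun t => 2 * max (t - c) 0 :=
    funext fun t => (schw_hasDerivAt c t).deriv
  rw [this]
  fun_prop

/-! ### Integrability -/

private lemma schw_cont {e u : (Fin n → ℂ) → ℝ} (hM : IsOpen M) (he : Continuous e)
    (hs : tsupport e ⊆ M) (hu : ContinuousOn u M) : Continuous fun y => e y * u y := by
  rw [continuous_iff_continuousAt]
  intro y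
  by_cases hy : y ∈ M
  · exact he.continuousAt.mul (hu.continuousAt (hM.mem_nhds hy))
  · have hy' : y ∉ tsupport e := fun h => hy (hs h)
    have h0 : (fun y => e y * u y) =ᶠ[𝓝 y] fun _ => 0 := by
      filter_upwards [notMem_tsupport_iff_eventuallyEq.1 hy'] with z hz
      rw [hz]; simp
    exact continuousAt_const.congr h0.symm

private lemma schw_int {e u : (Fin n → ℂ) → ℝ} (hM : IsOpen M) (he : Continuous e)
    (hc : HasCompactSupport e) (hs : tsupport e ⊆ M) (hu : ContinuousOn u M) :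
    Integrable fun y => e y * u y := by
  refine (schw_cont hM he hs hu).integrable_of_hasCompactSupport ?_
  refine hc.mono fun y hy => ?_
  intro h0
  exact hy (by simp only [h0, zero_mul])

/-! ### The pointwise inequality -/

private lemma schw_young {e f F V N c D K : ℝ} (he : 0 ≤ e) (hf : 0 ≤ f) (hfF : f ≤ F)
    (hV : 0 ≤ V) (hN : 0 ≤ N) (hND : N ≤ D / K) (hc : c ^ 2 ≤ N * V) :
    -(9 / 2 / K * (e ^ 4 * f ^ 2 * D)) ≤ 6 * e ^ 5 * f ^ 2 * c + 2 * e ^ 6 * f * F * V := by
  set s := Real.sqrt V with hs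
  set t := Real.sqrt N with ht
  have hs2 : s ^ 2 = V := Real.sq_sqrt hV
  have ht2 : t ^ 2 = N := Real.sq_sqrt hN
  have hs0 : 0 ≤ s := Real.sqrt_nonneg _
  have ht0 : 0 ≤ t := Real.sqrt_nonneg _
  have hct : -(t * s) ≤ c := by
    have h1 : c ^ 2 ≤ (t * s) ^ 2 := by rw [mul_pow, hs2, ht2]; exact hc
    exact (abs_le_of_sq_le_sq' h1 (mul_nonneg ht0 hs0)).1
  have hW : 0 ≤ 2 * e ^ 2 * F * V + 6 * e * f * c + 9 / 2 * f * N := by
    have h1 : 6 * e * f * (-(t * s)) ≤ 6 * e * f * c :=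
      mul_le_mul_of_nonneg_left hct (by positivity)
    have h2 : 2 * e ^ 2 * f * V ≤ 2 * e ^ 2 * F * V := by
      have : 0 ≤ 2 * e ^ 2 * V := by positivity
      nlinarith
    have h3 : 0 ≤ f / 2 * (2 * e * s - 3 * t) ^ 2 := by positivity
    rw [← hs2] at h2 ⊢
    rw [← ht2]
    nlinarith
  have hZ : 0 ≤ e ^ 4 * f * (2 * e ^ 2 * F * V + 6 * e * f * c + 9 / 2 * f * N) :=
    mul_nonneg (by positivity) hW
  have h4 : 9 / 2 * (e ^ 4 * f ^ 2) * N ≤ 9 / 2 * (e ^ 4 * f ^ 2) * (D / K) :=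
    mul_le_mul_of_nonneg_left hND (by positivity)
  have h5 : 9 / 2 / K * (e ^ 4 * f ^ 2 * D) = 9 / 2 * (e ^ 4 * f ^ 2) * (D / K) := by ring
  rw [h5]
  nlinarith

/-- The Schwarz lemma `ρ_k(z_k) |dz_k|²_g ≤ 1600 a`. Same proof as `KQ.schwarz` (Schw.lean of
`Lib_MP_3ea2ac_kq`, proved) with `F = ρ_k(z_k) u_k`. -/
theorem schwarz (H : Hyp M g a α β) (hη : Cutoffs M g η) (hx : x ∈ M) (k : Fin n) :
    KQ.rhoPQ (α k) (β k) (1 / 5) (x k) * uK g k x ≤ 1600 * a := by
  have h := H.kahler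
  have hM := H.isOpen
  have ha : 0 ≤ a := a_nonneg H (Fin.pos k)
  set F : (Fin n → ℂ) → ℝ := fun y => KQ.rhoPQ (α k) (β k) (1 / 5) (y k) * uK g k y with hF
  set v : (Fin n → ℂ) → ℝ := fun y => Real.log (F y) with hv
  set S : Set ℂ := {α k, β k}ᶜ with hS
  have hSo : IsOpen S := (Set.toFinite {α k, β k}).isClosed.isOpen_compl
  have hMS : ∀ y ∈ M, y k ∈ S := by
    intro y hy
    have := H.omits y hy k
    simp only [hS, mem_compl_iff, mem_insert_iff, mem_singleton_iff, not_or]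
    exact this
  have hρpos : ∀ y ∈ M, 0 < KQ.rhoPQ (α k) (β k) (1 / 5) (y k) := fun y hy =>
    KQ.rhoPQ_pos (H.ne k) (H.omits y hy k).1 (H.omits y hy k).2
  have hcd : ContDiff ℝ ∞ (fun y : Fin n → ℂ => y k) := contDiff_apply ℝ ℂ k
  have hρs : ContDiffOn ℝ ∞ (fun y : Fin n → ℂ => KQ.rhoPQ (α k) (β k) (1 / 5) (y k)) M :=
    (KQ.rhoPQ_smooth (H.ne k)).comp hcd.contDiffOn hMS
  have hFpos : ∀ y ∈ M, 0 < F y := fun y hy =>
    mul_pos (hρpos y hy) (uK_pos h hy k)
  have hFs : ContDiffOn ℝ ∞ F M :=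
    hρs.mul (uK_smooth h k)
  have hvs : ContDiffOn ℝ ∞ v M := hFs.log fun y hy => (hFpos y hy).ne'
  have hGD : ContDiffOn ℝ ∞ (fun y => Real.log (uK g k y)) M :=
    (uK_smooth h k).log fun y hy => (uK_pos h hy k).ne'
  have hlρ : ContDiffOn ℝ ∞ (fun z : ℂ => Real.log (KQ.rhoPQ (α k) (β k) (1 / 5) z)) S :=
    (KQ.rhoPQ_smooth (H.ne k)).log fun z hz => by
      simp only [hS, mem_compl_iff, mem_insert_iff, mem_singleton_iff, not_or] at hz
      exact (KQ.rhoPQ_pos (H.ne k) hz.1 hz.2).ne'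
  -- the curvature inequality
  have hcurv : ∀ y ∈ M, 1 / 1600 * gD g y * (F y - 1600 * a) ≤ cL g v y := by
    intro y hy
    have e1 : v =ᶠ[𝓝 y] fun z => Real.log (KQ.rhoPQ (α k) (β k) (1 / 5) (z k))
        + Real.log (uK g k z) := by
      filter_upwards [hM.mem_nhds hy] with z hz
      simp only [hv, hF]
      rw [Real.log_mul (hρpos z hz).ne' (uK_pos h hz k).ne']
    have hl1 : ContDiffOn ℝ ∞ (fun z : Fin n → ℂ => Real.log (KQ.rhoPQ (α k) (β k) (1 / 5) (z k))) M :=
      hlρ.comp hcd.contDiffOn hMS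
    rw [schw_cL_congr e1, schw_cL_add hM hl1 hGD hy,
      schw_cL_coord (r := fun z => Real.log (KQ.rhoPQ (α k) (β k) (1 / 5) z)) h hy hSo hlρ (hMS y hy)]
    have h1 := bochner H hy k
    have h2 := KQ.rhoPQ_curv (H.ne k) (s := 1 / 5) (by norm_num) le_rfl (H.omits y hy k).1
      (H.omits y hy k).2
    have h3 := mul_le_mul_of_nonneg_left h2 (mul_pos (gD_pos h hy) (uK_pos h hy k)).le
    have h5 : 1 / 1600 * gD g y * (F y - 1600 * a)
        = gD g y * uK g k y * ((1 / 5) ^ 2 / 64 * KQ.rhoPQ (α k) (β k) (1 / 5) (y k))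
          + -a * gD g y := by
      simp only [hF]
      ring
    rw [h5]
    exact add_le_add h3 h1
  -- continuity
  have hFc : ContinuousOn F M := hFs.continuousOn
  have hDc : ContinuousOn (gD g) M := (gD_smooth h).continuousOn
  have hcLc : ContinuousOn (cL g v) M := by
    have hd : ∀ i j : Fin n, ContinuousOn (pd i (pdb j (fun y => ((v y : ℝ) : ℂ)))) M := fun i j =>
      (KQ.contDiffOn_wd hM (KQ.contDiffOn_wdb hM (schw_ofReal hvs))).continuousOn
    have hsm : MSmooth M g := fun i j => h.smooth i j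
    have hg : ∀ i j : Fin n, ContinuousOn (fun y => (g y).adjugate i j) M := fun i j =>
      (hsm.adjugate i j).continuousOn
    exact Complex.continuous_re.comp_continuousOn
      (continuousOn_finsetSum _ fun i _ => continuousOn_finsetSum _ fun j _ =>
        (hg j i).mul (hd i j))
  have hfc : ContinuousOn (fun y => max (F y - 1600 * a) 0) M :=
    (hFc.sub continuousOn_const).sup continuousOn_const
  have hkey : ∀ y ∈ M, F y ≤ 1600 * a := by
    refine KQ.core volume hM (η := η) (κ := 1 / 1600) (C := 9 / 2) hFc hDc (fun y hy => gD_pos h hy)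
      H.volume (fun k => (hη.smooth k).continuous) hη.cpt hη.sub hη.nonneg hη.le_one hη.one
      (by norm_num) (by norm_num) ?_
    intro m
    have hηc : Continuous (η m) := (hη.smooth m).continuous
    have hηM : ∀ y, y ∉ M → η m =ᶠ[𝓝 y] 0 := fun y hy =>
      notMem_tsupport_iff_eventuallyEq.1 fun h' => hy (hη.sub m h')
    set f : (Fin n → ℂ) → ℝ := fun y => max (F y - 1600 * a) 0 with hf
    set φ : (Fin n → ℂ) → ℝ := fun y => η m y ^ 6 * f y ^ 2 with hφ
    have hφs : Function.support φ ⊆ Function.support (η m) := by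
      intro y hy h0
      exact hy (by simp only [hφ, h0]; ring)
    have hφc : HasCompactSupport φ := (hη.cpt m).mono hφs
    have hφt : tsupport φ ⊆ M := (closure_mono hφs).trans (hη.sub m)
    have hφ1 : ContDiff ℝ 1 φ := by
      rw [contDiff_iff_contDiffAt]
      intro y
      by_cases hy : y ∈ M
      · refine ContDiffAt.mul ?_ ?_
        · exact ((hη.smooth m).contDiffAt.of_le (by simp)).pow 6
        · exact (schw_contDiff (1600 * a)).contDiffAt.comp y
            ((hFs.contDiffAt (hM.mem_nhds hy)).of_le (by simp))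
      · refine contDiffAt_const (c := (0 : ℝ)) |>.congr_of_eventuallyEq ?_
        filter_upwards [hηM y hy] with z hz
        simp only [hφ, hz, Pi.zero_apply]; ring
    have hibp := ibp_cL hM h hφ1 hφc hφt hvs
    -- left side
    have hi1 : Integrable fun y => η m y ^ 6 * f y ^ 3 * gD g y := by
      have := schw_int (e := η m) (u := fun y => η m y ^ 5 * f y ^ 3 * gD g y) hM hηc (hη.cpt m)
        (hη.sub m) (((hηc.continuousOn.pow 5).mul (hfc.pow 3)).mul hDc)
      refine this.congr (ae_of_all _ fun y => ?_)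
      simp only; ring
    have hi2 : Integrable fun y => η m y ^ 4 * f y ^ 2 * gD g y := by
      have := schw_int (e := η m) (u := fun y => η m y ^ 3 * f y ^ 2 * gD g y) hM hηc (hη.cpt m)
        (hη.sub m) (((hηc.continuousOn.pow 3).mul (hfc.pow 2)).mul hDc)
      refine this.congr (ae_of_all _ fun y => ?_)
      simp only; ring
    have hi3 : Integrable fun y => φ y * cL g v y := by
      have := schw_int (e := η m) (u := fun y => η m y ^ 5 * f y ^ 2 * cL g v y) hM hηc (hη.cpt m)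
        (hη.sub m) (((hηc.continuousOn.pow 5).mul (hfc.pow 2)).mul hcLc)
      refine this.congr (ae_of_all _ fun y => ?_)
      simp only [hφ]; ring
    have hL : 1 / 1600 * ∫ y in M, η m y ^ 6 * f y ^ 3 * gD g y ≤ ∫ y in M, φ y * cL g v y := by
      rw [← integral_const_mul]
      refine setIntegral_mono_on (hi1.const_mul _).integrableOn hi3.integrableOn hM.measurableSet ?_
      intro y hy
      have h1 := hcurv y hy
      have h2 : 0 ≤ φ y := by
        simp only [hφ]
        have := hη.nonneg m y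
        positivity
      refine le_trans (le_of_eq ?_) (mul_le_mul_of_nonneg_left h1 h2)
      simp only [hφ]
      have h3 : f y ^ 2 * (F y - 1600 * a) = f y ^ 3 := by
        simp only [hf]
        rcases le_total (F y - 1600 * a) 0 with h' | h'
        · rw [max_eq_right h']; ring
        · rw [max_eq_left h']; ring
      rw [← h3]; ring
    have hB : ∫ y in M, φ y * cL g v y = ∫ y, φ y * cL g v y := by
      refine setIntegral_eq_integral_of_forall_compl_eq_zero fun y hy => ?_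
      have : φ y = 0 := by
        by_contra h0
        exact hy (hφt (subset_tsupport _ h0))
      rw [this, zero_mul]
    set R : (Fin n → ℂ) → ℝ := fun y => (cform (g y) (fun i => pd i (fun y => ((φ y : ℝ) : ℂ)) y)
      (fun i => pd i (fun y => ((v y : ℝ) : ℂ)) y)).re with hR
    have hRM : ∫ y in M, R y = ∫ y, R y := by
      refine setIntegral_eq_integral_of_forall_compl_eq_zero fun y hy => ?_
      have e0 : (fun y => ((φ y : ℝ) : ℂ)) =ᶠ[𝓝 y] fun _ => 0 := by
        filter_upwards [hηM y hy] with z hz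
        simp only [hφ, hz, Pi.zero_apply]; simp
      have e1 : ∀ i, pd i (fun y => ((φ y : ℝ) : ℂ)) y = 0 := fun i => by
        have : pd i (fun y => ((φ y : ℝ) : ℂ)) y = pd i (fun _ => 0) y := KQ.wd_congr e0
        rw [this]; exact KQ.wd_const _
      simp only [hR, e1, cform]
      simp
    have hpt : ∀ y ∈ M, -(9 / 2 / ((m : ℝ) + 1) ^ 2 * (η m y ^ 4 * f y ^ 2 * gD g y)) ≤ R y := by
      intro y hy
      have hFd : DifferentiableAt ℝ F y :=
        (hFs.contDiffAt (hM.mem_nhds hy)).differentiableAt (by simp)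
      have hηd : DifferentiableAt ℝ (η m) y := (hη.smooth m).contDiffAt.differentiableAt (by simp)
      have d1 : ∀ i, pd i (fun y => ((v y : ℝ) : ℂ)) y
          = ((F y)⁻¹ : ℝ) * pd i (fun y => ((F y : ℝ) : ℂ)) y := fun i =>
        KQ.wd_ofReal_comp hFd (Real.hasDerivAt_log (hFpos y hy).ne')
      have d2 : ∀ i, pd i (fun y => (((f y) ^ 2 : ℝ) : ℂ)) y
          = ((2 * f y : ℝ) : ℂ) * pd i (fun y => ((F y : ℝ) : ℂ)) y := fun i =>
        KQ.wd_ofReal_comp (φ := fun s => (max (s - 1600 * a) 0) ^ 2) hFd (schw_hasDerivAt _ _)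
      have d3 : ∀ i, pd i (fun y => (((η m y) ^ 6 : ℝ) : ℂ)) y
          = ((6 * η m y ^ 5 : ℝ) : ℂ) * pd i (fun y => ((η m y : ℝ) : ℂ)) y := fun i =>
        KQ.wd_ofReal_comp (φ := fun s => s ^ 6) hηd (by simpa using hasDerivAt_pow 6 (η m y))
      have hf2d : DifferentiableAt ℝ (fun y => (((f y) ^ 2 : ℝ) : ℂ)) y := by
        have h1 : DifferentiableAt ℝ (fun y => (f y) ^ 2) y :=
          (schw_hasDerivAt (1600 * a) (F y)).differentiableAt.comp y hFd
        exact Complex.ofRealCLM.differentiableAt.comp y h1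
      have hη6d : DifferentiableAt ℝ (fun y => (((η m y) ^ 6 : ℝ) : ℂ)) y := by
        have h1 : DifferentiableAt ℝ (fun y => (η m y) ^ 6) y := hηd.pow 6
        exact Complex.ofRealCLM.differentiableAt.comp y h1
      have d4 : ∀ i, pd i (fun y => ((φ y : ℝ) : ℂ)) y
          = ((6 * η m y ^ 5 * f y ^ 2 : ℝ) : ℂ) * pd i (fun y => ((η m y : ℝ) : ℂ)) y
            + ((2 * η m y ^ 6 * f y * F y : ℝ) : ℂ) * pd i (fun y => ((v y : ℝ) : ℂ)) y := by
        intro i
        have h1 : pd i (fun y => ((φ y : ℝ) : ℂ)) y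
            = pd i (fun y => (((η m y) ^ 6 : ℝ) : ℂ)) y * (((f y) ^ 2 : ℝ) : ℂ)
              + (((η m y) ^ 6 : ℝ) : ℂ) * pd i (fun y => (((f y) ^ 2 : ℝ) : ℂ)) y := by
          rw [show (fun y => ((φ y : ℝ) : ℂ))
            = fun y => (((η m y) ^ 6 : ℝ) : ℂ) * (((f y) ^ 2 : ℝ) : ℂ) from
            funext fun z => by simp only [hφ, ofReal_mul]]
          exact KQ.wd_mul hη6d hf2d
        rw [h1, d2, d3, d1]
        have hne : (F y : ℂ) ≠ 0 := by exact_mod_cast (hFpos y hy).ne'
        push_cast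
        field_simp
      set p : Fin n → ℂ := fun i => pd i (fun y => ((η m y : ℝ) : ℂ)) y with hp
      set q : Fin n → ℂ := fun i => pd i (fun y => ((v y : ℝ) : ℂ)) y with hq
      have hRy : R y = 6 * η m y ^ 5 * f y ^ 2 * (cform (g y) p q).re
          + 2 * η m y ^ 6 * f y * F y * (cform (g y) q q).re := by
        have h1 : cform (g y) (fun i => pd i (fun y => ((φ y : ℝ) : ℂ)) y) q
            = ((6 * η m y ^ 5 * f y ^ 2 : ℝ) : ℂ) * cform (g y) p q
              + ((2 * η m y ^ 6 * f y * F y : ℝ) : ℂ) * cform (g y) q q := by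
          simp only [cform, d4, Finset.mul_sum, ← Finset.sum_add_distrib]
          refine Finset.sum_congr rfl fun i _ => Finset.sum_congr rfl fun j _ => ?_
          simp only [hp, hq]
          ring
        have h2 : R y = (cform (g y) (fun i => pd i (fun y => ((φ y : ℝ) : ℂ)) y) q).re := rfl
        rw [h2, h1, add_re, re_ofReal_mul, re_ofReal_mul]
      rw [hRy]
      have hN := cform_self h hy p
      have hV := cform_self h hy q
      refine schw_young (hη.nonneg m y) (le_max_right _ _) ?_ hV.1 hN.1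
        (cform_cutoff h hη hy m) ?_
      · exact max_le (by linarith) (hFpos y hy).le
      · refine le_trans ?_ (cform_cs h hy p q)
        rw [← sq_abs]
        exact pow_le_pow_left₀ (abs_nonneg _) (Complex.abs_re_le_norm _) 2
    have hU : - ∫ y in M, R y ≤ 9 / 2 / ((m : ℝ) + 1) ^ 2 * ∫ y in M, η m y ^ 4 * f y ^ 2 * gD g y := by
      rw [← integral_const_mul]
      by_cases hRi : IntegrableOn R M
      · rw [← integral_neg]
        refine setIntegral_mono_on hRi.neg (hi2.const_mul _).integrableOn hM.measurableSet ?_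
        intro y hy
        have := hpt y hy
        linarith
      · rw [integral_undef hRi, neg_zero]
        refine setIntegral_nonneg hM.measurableSet fun y hy => ?_
        have h1 := hη.nonneg m y
        have h2 := (gD_pos h hy).le
        positivity
    calc 1 / 1600 * ∫ y in M, η m y ^ 6 * f y ^ 3 * gD g y
        ≤ ∫ y in M, φ y * cL g v y := hL
      _ = ∫ y, φ y * cL g v y := hB
      _ = - ∫ y, R y := hibp
      _ = - ∫ y in M, R y := by rw [hRM]
      _ ≤ _ := hU
  exact hkey x hx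

end KN
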