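import Pool.Agent.Lib_MP_3ea2ac_kn.Ins
import Pool.Agent.Lib_MP_3ea2ac_kq.SD4
import Pool.Agent.Lib_MP_3ea2ac_kq.PD

/-! The hypotheses as one structure; cutoffs; the abstract data `NData` of the slice analysis. -/

open MeasureTheory Complex Set Topology Filter
open scoped ComplexConjugate ContDiff ComplexOrder

namespace KN

variable {n : ℕ}

/-- `D = det g`. -/
noncomputable def gD (g : (Fin n → ℂ) → Matrix (Fin n) (Fin n) ℂ) (x : Fin n → ℂ) : ℝ :=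
  (g x).det.re

/-- `g_{i\bar i}`. -/
noncomputable def gd (g : (Fin n → ℂ) → Matrix (Fin n) (Fin n) ℂ) (i : Fin n) (x : Fin n → ℂ) :
    ℝ := (g x i i).re

/-- `T_{i\bar j} = ∂_i ∂_{\bar j} log D`. -/
noncomputable def TN (D : (Fin n → ℂ) → ℝ) (i j : Fin n) (x : Fin n → ℂ) : ℂ :=
  pd i (pdb j (fun y => ((Real.log (D y) : ℝ) : ℂ))) x

/-- The complex-valued cutoff. -/
noncomputable def ce (η : ℕ → (Fin n → ℂ) → ℝ) (k : ℕ) (y : Fin n → ℂ) : ℂ := ((η k y : ℝ) : ℂ)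

/-- All hypotheses of the theorem. -/
structure Hyp (M : Set (Fin n → ℂ)) (g : (Fin n → ℂ) → Matrix (Fin n) (Fin n) ℂ) (a : ℝ)
    (α β : Fin n → ℂ) : Prop where
  isOpen : IsOpen M
  conn : IsConnected M
  ne : ∀ i, α i ≠ β i
  omits : ∀ x ∈ M, ∀ i, x i ≠ α i ∧ x i ≠ β i
  kahler : IsKahler M g
  complete : IsComplete M g
  ricci : ∀ x ∈ M, ∀ v, - a * hq (g x) v ≤ hq (ric g x) v ∧ hq (ric g x) v ≤ 0
  volume : IntegrableOn (gD g) M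

/-- Cutoff functions of a complete metric. -/
structure Cutoffs (M : Set (Fin n → ℂ)) (g : (Fin n → ℂ) → Matrix (Fin n) (Fin n) ℂ)
    (η : ℕ → (Fin n → ℂ) → ℝ) : Prop where
  smooth : ∀ k, ContDiff ℝ ∞ (η k)
  cpt : ∀ k, HasCompactSupport (η k)
  sub : ∀ k, tsupport (η k) ⊆ M
  nonneg : ∀ k x, 0 ≤ η k x
  le_one : ∀ k x, η k x ≤ 1
  one : ∀ K : Set (Fin n → ℂ), IsCompact K → K ⊆ M → ∀ᶠ k in atTop, ∀ x ∈ K, η k x = 1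
  grad : ∀ k, ∀ x ∈ M, ∀ v, (fderiv ℝ (η k) x v) ^ 2 ≤ hq (g x) v / ((k : ℝ) + 1) ^ 2

/-- What the slice analysis needs to know about `M`; it passes to almost all coordinate slices.
`G i` is the squared length of `∂/∂z_i`, `D` the density, `t i` the constant of the Schwarz lemma in
the `i`-th coordinate. -/
structure NData (M : Set (Fin n → ℂ)) (D : (Fin n → ℂ) → ℝ) (G : Fin n → (Fin n → ℂ) → ℝ)
    (a τ : ℝ) (t : Fin n → ℂ → ℝ) (α β : Fin n → ℂ) (η : ℕ → (Fin n → ℂ) → ℝ) : Prop where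
  isOpen : IsOpen M
  a_nonneg : 0 ≤ a
  τ_nonneg : 0 ≤ τ
  ne : ∀ i, α i ≠ β i
  omits : ∀ x ∈ M, ∀ i, x i ≠ α i ∧ x i ≠ β i
  tcont : ∀ i, ContinuousOn (t i) ({α i, β i}ᶜ : Set ℂ)
  tnonneg : ∀ i z, 0 ≤ t i z
  tgrowth : ∀ i, ∃ K, ∀ z, z ≠ α i → z ≠ β i → t i z ≤ K * (1 + ‖z‖) ^ 4
  Dpos : ∀ x ∈ M, 0 < D x
  Dsmooth : ContDiffOn ℝ ∞ D M
  Gcont : ∀ i, ContinuousOn (G i) M
  Gnonneg : ∀ i, ∀ x ∈ M, 0 ≤ G i x
  GleD : ∀ i, ∀ x ∈ M, G i x ≤ τ * (∏ l ∈ Finset.univ.erase i, t l (x l)) * D x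
  T : ∀ i, ∀ x ∈ M, 0 ≤ (TN D i i x).re ∧ (TN D i i x).re ≤ a * G i x
  integrable : IntegrableOn D M
  ηsmooth : ∀ k, ContDiff ℝ ∞ (η k)
  ηcpt : ∀ k, HasCompactSupport (η k)
  ηsub : ∀ k, tsupport (η k) ⊆ M
  ηnonneg : ∀ k x, 0 ≤ η k x
  ηle_one : ∀ k x, η k x ≤ 1
  ηone : ∀ K : Set (Fin n → ℂ), IsCompact K → K ⊆ M → ∀ᶠ k in atTop, ∀ x ∈ K, η k x = 1
  ηgrad : ∀ i k, ∀ x ∈ M, ∀ v : ℂ,
    (fderiv ℝ (η k) x (Pi.single i v)) ^ 2 ≤ G i x * ‖v‖ ^ 2 / ((k : ℝ) + 1) ^ 2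
  err : ∀ i j, i ≠ j → ∀ k, ∀ x ∈ M,
    ‖pdb i (ce η k) x * TN D i j x - pdb j (ce η k) x * TN D i i x‖
      ≤ a / ((k : ℝ) + 1) *
        Real.sqrt (τ * (∏ l ∈ (Finset.univ.erase i).erase j, t l (x l)) * G i x * D x)

end KN
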