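import Pool.Agent.Lib_MP_3ea2ac_kn.Setup

/-! Coordinate slices of `NData`: hyperplanes, lines. -/

open MeasureTheory Complex Set Topology Filter
open scoped ComplexConjugate ContDiff ComplexOrder

namespace KN

variable {n : ℕ} {M : Set (Fin (n + 1) → ℂ)} {D : (Fin (n + 1) → ℂ) → ℝ}
  {G : Fin (n + 1) → (Fin (n + 1) → ℂ) → ℝ} {a τ : ℝ} {t : Fin (n + 1) → ℂ → ℝ}
  {α β : Fin (n + 1) → ℂ} {η : ℕ → (Fin (n + 1) → ℂ) → ℝ}

/-- the linear part of `y ↦ ins i w y` -/
private noncomputable def Sl_H (i : Fin (n + 1)) : (Fin n → ℂ) →L[ℝ] (Fin (n + 1) → ℂ) :=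
  (((insL i : (ℂ × (Fin n → ℂ)) →L[ℂ] (Fin (n + 1) → ℂ)).comp
    (ContinuousLinearMap.inr ℂ ℂ (Fin n → ℂ))).restrictScalars ℝ)

/-- the linear part of `w ↦ ins i w x` -/
private noncomputable def Sl_L (i : Fin (n + 1)) : ℂ →L[ℝ] (Fin (n + 1) → ℂ) :=
  (((insL i : (ℂ × (Fin n → ℂ)) →L[ℂ] (Fin (n + 1) → ℂ)).comp
    (ContinuousLinearMap.inl ℂ ℂ (Fin n → ℂ))).restrictScalars ℝ)

private theorem Sl_H_apply (i : Fin (n + 1)) (y : Fin n → ℂ) : Sl_H i y = ins i 0 y := rfl

private theorem Sl_L_apply (i : Fin (n + 1)) (w : ℂ) : Sl_L i w = ins (n := n) i w 0 := rfl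

private theorem Sl_H_add (i : Fin (n + 1)) (w : ℂ) (y : Fin n → ℂ) :
    Sl_H i y + ins i w 0 = ins i w y := by
  funext m
  rcases Fin.eq_self_or_eq_succAbove i m with h | ⟨k, h⟩
  · subst h; simp [Sl_H_apply]
  · subst h; simp [Sl_H_apply]

private theorem Sl_L_add (i : Fin (n + 1)) (w : ℂ) (y : Fin n → ℂ) :
    Sl_L i w + ins i 0 y = ins i w y := by
  funext m
  rcases Fin.eq_self_or_eq_succAbove i m with h | ⟨k, h⟩
  · subst h; simp [Sl_L_apply]
  · subst h; simp [Sl_L_apply]

private theorem Sl_H_single (i : Fin (n + 1)) (j : Fin n) (v : ℂ) :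
    Sl_H i (Pi.single j v) = Pi.single (i.succAbove j) v := by
  funext m
  rcases Fin.eq_self_or_eq_succAbove i m with h | ⟨k, h⟩
  · subst h
    rw [Sl_H_apply, ins_same, Pi.single_eq_of_ne (Fin.succAbove_ne m j).symm]
  · subst h
    rw [Sl_H_apply, ins_succAbove]
    by_cases hk : k = j
    · subst hk; simp
    · rw [Pi.single_eq_of_ne hk, Pi.single_eq_of_ne]
      intro h
      exact hk (Fin.succAbove_right_injective h)

private theorem Sl_L_single (i : Fin (n + 1)) (v : ℂ) :
    Sl_L i v = (Pi.single i v : Fin (n + 1) → ℂ) := by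
  funext m
  rcases Fin.eq_self_or_eq_succAbove i m with h | ⟨k, h⟩
  · subst h
    rw [Sl_L_apply, ins_same, Pi.single_eq_same]
  · subst h
    rw [Sl_L_apply, ins_succAbove, Pi.single_eq_of_ne (Fin.succAbove_ne i k)]
    rfl

private theorem Sl_H_cd (i : Fin (n + 1)) (w : ℂ) : ContDiff ℝ ∞ (fun y : Fin n → ℂ => ins i w y) := by
  have : (fun y : Fin n → ℂ => ins i w y) = fun y => Sl_H i y + ins i w 0 := by
    funext y; rw [Sl_H_add]
  rw [this]
  exact (Sl_H i).contDiff.add contDiff_const

private theorem Sl_L_cd (i : Fin (n + 1)) (x : Fin n → ℂ) : ContDiff ℝ ∞ (fun w : ℂ => ins i w x) := by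
  have : (fun w : ℂ => ins i w x) = fun w => Sl_L i w + ins i 0 x := by
    funext y; rw [Sl_L_add]
  rw [this]
  exact (Sl_L i).contDiff.add contDiff_const

private theorem Sl_H_fderiv {f : (Fin (n + 1) → ℂ) → ℝ} (hf : ContDiff ℝ ∞ f) (i : Fin (n + 1))
    (w : ℂ) (x v : Fin n → ℂ) :
    fderiv ℝ (fun y => f (ins i w y)) x v = fderiv ℝ f (ins i w x) (Sl_H i v) := by
  have h1 : HasFDerivAt f (fderiv ℝ f (ins i w x)) (ins i w x) :=
    (hf.differentiable (by simp)).differentiableAt.hasFDerivAt
  have h2 : HasFDerivAt (fun y : Fin n → ℂ => ins i w y) (Sl_H i) x := by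
    have : (fun y : Fin n → ℂ => ins i w y) = fun y => Sl_H i y + ins i w 0 := by
      funext y; rw [Sl_H_add]
    rw [this]
    exact (Sl_H i).hasFDerivAt.add_const _
  have h3 := h1.comp x h2
  have h4 : fderiv ℝ (fun y => f (ins i w y)) x = (fderiv ℝ f (ins i w x)).comp (Sl_H i) :=
    h3.fderiv
  rw [h4]
  rfl

private theorem Sl_L_fderiv {f : (Fin (n + 1) → ℂ) → ℝ} (hf : ContDiff ℝ ∞ f) (i : Fin (n + 1))
    (w : ℂ) (x : Fin n → ℂ) (v : ℂ) :
    fderiv ℝ (fun y => f (ins i y x)) w v = fderiv ℝ f (ins i w x) (Pi.single i v) := by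
  have h1 : HasFDerivAt f (fderiv ℝ f (ins i w x)) (ins i w x) :=
    (hf.differentiable (by simp)).differentiableAt.hasFDerivAt
  have h2 : HasFDerivAt (fun y : ℂ => ins i y x) (Sl_L i) w := by
    have : (fun y : ℂ => ins i y x) = fun y => Sl_L i y + ins i 0 x := by
      funext y; rw [Sl_L_add]
    rw [this]
    exact (Sl_L i).hasFDerivAt.add_const _
  have h3 := h1.comp w h2
  have h4 : fderiv ℝ (fun y => f (ins i y x)) w = (fderiv ℝ f (ins i w x)).comp (Sl_L i) :=
    h3.fderiv
  rw [h4, ← Sl_L_single]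
  rfl

private theorem Sl_log (hD : ContDiffOn ℝ ∞ D M) (hpos : ∀ x ∈ M, 0 < D x) :
    ContDiffOn ℝ ∞ (fun x => Real.log (D x)) M :=
  hD.log (fun x hx => (hpos x hx).ne')

private theorem Sl_logc (hD : ContDiffOn ℝ ∞ D M) (hpos : ∀ x ∈ M, 0 < D x) :
    ContDiffOn ℝ ∞ (fun x => ((Real.log (D x) : ℝ) : ℂ)) M :=
  Complex.ofRealCLM.contDiff.comp_contDiffOn (Sl_log hD hpos)

/-- `T` of the restriction to a hyperplane. -/
theorem TN_hyper (hM : IsOpen M) (hD : ContDiffOn ℝ ∞ D M) (hpos : ∀ x ∈ M, 0 < D x)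
    (i : Fin (n + 1)) {w : ℂ} {x : Fin n → ℂ} (hx : ins i w x ∈ M) (j l : Fin n) :
    TN (fun y => D (ins i w y)) j l x = TN D (i.succAbove j) (i.succAbove l) (ins i w x) := by
  have h := wd_wdb_affine (Sl_H i) (ins i w 0) (f := fun x => ((Real.log (D x) : ℝ) : ℂ)) hM
    (Sl_logc hD hpos) (x := x) (by rw [Sl_H_add]; exact hx) (ux j) (uy j) (ux l) (uy l)
  simp only [Sl_H_add] at h
  have e1 : ∀ j : Fin n, Sl_H i (ux j) = ux (i.succAbove j) := fun j => Sl_H_single i j 1
  have e2 : ∀ j : Fin n, Sl_H i (uy j) = uy (i.succAbove j) := fun j => Sl_H_single i j I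
  rw [e1, e2, e1, e2] at h
  exact h

/-- `T_{i\bar i}` on a line. -/
theorem lev_line (hM : IsOpen M) (hD : ContDiffOn ℝ ∞ D M) (hpos : ∀ x ∈ M, 0 < D x)
    (i : Fin (n + 1)) {w : ℂ} {x : Fin n → ℂ} (hx : ins i w x ∈ M) :
    ((KQ.lev (fun z => Real.log (D (ins i z x))) w : ℝ) : ℂ) = TN D i i (ins i w x) := by
  have h := wd_wdb_affine (Sl_L i) (ins i 0 x) (f := fun x => ((Real.log (D x) : ℝ) : ℂ)) hM
    (Sl_logc hD hpos) (x := w) (by rw [Sl_L_add]; exact hx) (1 : ℂ) I 1 I
  simp only [Sl_L_add] at h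
  rw [Sl_L_single, Sl_L_single] at h
  have hs : ContDiffOn ℝ ∞ (fun z => Real.log (D (ins i z x))) (ML M i x) :=
    (Sl_log hD hpos).comp (Sl_L_cd i x).contDiffOn (fun _ hz => hz)
  rw [KQ.lev_coe (isOpen_ML hM i x) hs (show w ∈ ML M i x from hx)]
  exact h

private theorem Sl_prod1 (i : Fin (n + 1)) (j : Fin n) (f : Fin (n + 1) → ℝ) :
    ∏ l ∈ Finset.univ.erase (i.succAbove j), f l =
      f i * ∏ l ∈ Finset.univ.erase j, f (i.succAbove l) := by
  classical
  have h1 : (Finset.univ.erase (i.succAbove j) : Finset (Fin (n + 1))) =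
      insert i ((Finset.univ.erase j).image i.succAbove) := by
    ext m
    rcases Fin.eq_self_or_eq_succAbove i m with h | ⟨k, h⟩
    · subst h
      simp [(Fin.succAbove_ne m j).symm]
    · subst h
      simp [Fin.succAbove_ne i k]
  rw [h1, Finset.prod_insert, Finset.prod_image]
  · intro x _ y _ h
    exact Fin.succAbove_right_injective h
  · simp only [Finset.mem_image, not_exists, not_and]
    intro k _ h
    exact Fin.succAbove_ne i k h

private theorem Sl_prod2 (i : Fin (n + 1)) (j k : Fin n) (f : Fin (n + 1) → ℝ) :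
    ∏ l ∈ (Finset.univ.erase (i.succAbove j)).erase (i.succAbove k), f l =
      f i * ∏ l ∈ (Finset.univ.erase j).erase k, f (i.succAbove l) := by
  classical
  have h1 : ((Finset.univ.erase (i.succAbove j)).erase (i.succAbove k) : Finset (Fin (n + 1))) =
      insert i (((Finset.univ.erase j).erase k).image i.succAbove) := by
    ext m
    rcases Fin.eq_self_or_eq_succAbove i m with h | ⟨k, h⟩
    · subst h
      simp [(Fin.succAbove_ne m _).symm]
    · subst h
      simp [Fin.succAbove_ne i k]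
  rw [h1, Finset.prod_insert, Finset.prod_image]
  · intro x _ y _ h
    exact Fin.succAbove_right_injective h
  · simp only [Finset.mem_image, not_exists, not_and]
    intro k _ h
    exact Fin.succAbove_ne i k h

private theorem Sl_prod0 (i : Fin (n + 1)) (f : Fin (n + 1) → ℝ) :
    ∏ l ∈ Finset.univ.erase i, f l = ∏ l, f (i.succAbove l) := by
  classical
  have h1 : (Finset.univ.erase i : Finset (Fin (n + 1))) =
      Finset.univ.image i.succAbove := by
    ext m
    rcases Fin.eq_self_or_eq_succAbove i m with h | ⟨k, h⟩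
    · subst h
      simp
    · subst h
      simp [Fin.succAbove_ne i k]
  rw [h1, Finset.prod_image]
  intro x _ y _ h
  exact Fin.succAbove_right_injective h

private theorem Sl_pdb_ce (hη : ∀ k, ContDiff ℝ ∞ (η k)) (i : Fin (n + 1)) (w : ℂ) (k : ℕ)
    (j : Fin n) (x : Fin n → ℂ) :
    pdb j (ce (fun k x => η k (ins i w x)) k) x = pdb (i.succAbove j) (ce η k) (ins i w x) := by
  have hd : DifferentiableAt ℝ (ce η k) (Sl_H i x + ins i w 0) := by
    have : ContDiff ℝ ∞ (ce η k) := Complex.ofRealCLM.contDiff.comp (hη k)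
    exact (this.differentiable (by simp)).differentiableAt
  have h := wdb_affine (Sl_H i) (ins i w 0) hd (ux j) (uy j)
  simp only [Sl_H_add] at h
  have e1 : ∀ j : Fin n, Sl_H i (ux j) = ux (i.succAbove j) := fun j => Sl_H_single i j 1
  have e2 : ∀ j : Fin n, Sl_H i (uy j) = uy (i.succAbove j) := fun j => Sl_H_single i j I
  rw [e1, e2] at h
  exact h

private theorem Sl_intH (hM : IsOpen M) (hv : IntegrableOn D M) (i : Fin (n + 1)) :
    ∀ᵐ w : ℂ, IntegrableOn (fun x => D (ins i w x)) (MH M i w) := by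
  have h1 : Integrable (M.indicator D) := (integrable_indicator_iff hM.measurableSet).2 hv
  filter_upwards [(integrable_hyper i h1).1] with w hw
  have h3 : (fun x => M.indicator D (ins i w x))
      = (MH M i w).indicator (fun x => D (ins i w x)) := by
    funext x
    by_cases hx : ins i w x ∈ M
    · rw [indicator_of_mem hx, indicator_of_mem (show x ∈ MH M i w from hx)]
    · rw [indicator_of_notMem hx, indicator_of_notMem (show x ∉ MH M i w from hx)]
  rw [h3] at hw
  exact (integrable_indicator_iff (isOpen_MH hM i w).measurableSet).1 hw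

private theorem Sl_intL (hM : IsOpen M) (hv : IntegrableOn D M) (i : Fin (n + 1)) :
    ∀ᵐ x : Fin n → ℂ, IntegrableOn (fun w => D (ins i w x)) (ML M i x) := by
  have h1 : Integrable (M.indicator D) := (integrable_indicator_iff hM.measurableSet).2 hv
  filter_upwards [(integrable_line i h1).1] with x hx
  have h3 : (fun w => M.indicator D (ins i w x))
      = (ML M i x).indicator (fun w => D (ins i w x)) := by
    funext w
    by_cases hw : ins i w x ∈ M
    · rw [indicator_of_mem hw, indicator_of_mem (show w ∈ ML M i x from hw)]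
    · rw [indicator_of_notMem hw, indicator_of_notMem (show w ∉ ML M i x from hw)]
  rw [h3] at hx
  exact (integrable_indicator_iff (isOpen_ML hM i x).measurableSet).1 hx

private theorem Sl_clH (i : Fin (n + 1)) (w : ℂ) :
    IsClosedEmbedding (fun x : Fin n → ℂ => ins i w x) := by
  have h1 : Topology.IsClosedEmbedding (fun x : Fin n → ℂ => ((w, x) : ℂ × (Fin n → ℂ))) := by
    refine IsClosedEmbedding.of_continuous_injective_isClosedMap
      (continuous_const.prodMk continuous_id) ?_ ?_
    · intro x y hxy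
      exact (Prod.mk.inj hxy).2
    · intro C hC
      have : (fun x : Fin n → ℂ => ((w, x) : ℂ × (Fin n → ℂ))) '' C = ({w} : Set ℂ) ×ˢ C := by
        ext ⟨x, y⟩
        simp [Prod.ext_iff, and_comm, eq_comm]
      rw [this]
      exact isClosed_singleton.prod hC
  exact (insL i).toHomeomorph.isClosedEmbedding.comp h1

private theorem Sl_clL (i : Fin (n + 1)) (x : Fin n → ℂ) :
    IsClosedEmbedding (fun w : ℂ => ins i w x) := by
  have h1 : Topology.IsClosedEmbedding (fun w : ℂ => ((w, x) : ℂ × (Fin n → ℂ))) := by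
    refine IsClosedEmbedding.of_continuous_injective_isClosedMap
      (continuous_id.prodMk continuous_const) ?_ ?_
    · intro x y hxy
      exact (Prod.mk.inj hxy).1
    · intro C hC
      have : (fun w : ℂ => ((w, x) : ℂ × (Fin n → ℂ))) '' C = C ×ˢ ({x} : Set (Fin n → ℂ)) := by
        ext ⟨u, y⟩
        simp [Prod.ext_iff, eq_comm]
      rw [this]
      exact hC.prod isClosed_singleton
  exact (insL i).toHomeomorph.isClosedEmbedding.comp h1

/-- Almost every hyperplane slice carries the same data. -/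
theorem NData.hyper (P : NData M D G a τ t α β η) (i : Fin (n + 1)) :
    ∀ᵐ w : ℂ, NData (MH M i w) (fun x => D (ins i w x))
      (fun j x => G (i.succAbove j) (ins i w x)) a (τ * t i w) (fun j => t (i.succAbove j))
      (del i α) (del i β) (fun k x => η k (ins i w x)) := by
  filter_upwards [Sl_intH P.isOpen P.integrable i] with w hw
  have hmaps : MapsTo (fun x : Fin n → ℂ => ins i w x) (MH M i w) M := fun x hx => hx
  have hcd := Sl_H_cd i w
  exact
  { isOpen := isOpen_MH P.isOpen i w
    a_nonneg := P.a_nonneg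
    τ_nonneg := mul_nonneg P.τ_nonneg (P.tnonneg i w)
    ne := fun j => P.ne (i.succAbove j)
    omits := fun x hx j => by
      have h := P.omits _ (hmaps hx) (i.succAbove j)
      simp only [ins_succAbove] at h
      exact h
    tcont := fun j => P.tcont (i.succAbove j)
    tnonneg := fun j z => P.tnonneg (i.succAbove j) z
    tgrowth := fun j => P.tgrowth (i.succAbove j)
    Dpos := fun x hx => P.Dpos _ (hmaps hx)
    Dsmooth := P.Dsmooth.comp hcd.contDiffOn hmaps
    Gcont := fun j => (P.Gcont (i.succAbove j)).comp hcd.continuous.continuousOn hmaps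
    Gnonneg := fun j x hx => P.Gnonneg (i.succAbove j) _ (hmaps hx)
    GleD := fun j x hx => by
      have h := P.GleD (i.succAbove j) _ (hmaps hx)
      simp only at h
      rw [Sl_prod1 i j (fun l => t l (ins i w x l))] at h
      simp only [ins_same, ins_succAbove] at h
      rw [← mul_assoc] at h
      exact h
    T := fun j x hx => by
      rw [TN_hyper P.isOpen P.Dsmooth P.Dpos i (hmaps hx)]
      exact P.T (i.succAbove j) _ (hmaps hx)
    integrable := hw
    ηsmooth := fun k => (P.ηsmooth k).comp hcd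
    ηcpt := fun k => (P.ηcpt k).comp_isClosedEmbedding (Sl_clH i w)
    ηsub := fun k x hx => P.ηsub k (tsupport_comp_subset_preimage (η k) hcd.continuous hx)
    ηnonneg := fun k x => P.ηnonneg k _
    ηle_one := fun k x => P.ηle_one k _
    ηone := fun K hK1 hK2 => by
      have h1 : IsCompact ((fun x : Fin n → ℂ => ins i w x) '' K) := hK1.image hcd.continuous
      have h2 : (fun x : Fin n → ℂ => ins i w x) '' K ⊆ M := by
        rintro _ ⟨x, hx, rfl⟩
        exact hK2 hx
      filter_upwards [P.ηone _ h1 h2] with k hk x hx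
      exact hk _ ⟨x, hx, rfl⟩
    ηgrad := fun j k x hx v => by
      have h1 := P.ηgrad (i.succAbove j) k _ (hmaps hx) v
      rw [Sl_H_fderiv (P.ηsmooth k), Sl_H_single]
      exact h1
    err := fun j l hjl k x hx => by
      have h1 := P.err (i.succAbove j) (i.succAbove l)
        (fun h => hjl (Fin.succAbove_right_injective h)) k _ (hmaps hx)
      simp only at h1
      rw [Sl_prod2 i j l (fun l => t l (ins i w x l))] at h1
      simp only [ins_same, ins_succAbove] at h1
      rw [← mul_assoc τ] at h1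
      rw [Sl_pdb_ce P.ηsmooth, Sl_pdb_ce P.ηsmooth, TN_hyper P.isOpen P.Dsmooth P.Dpos i (hmaps hx),
        TN_hyper P.isOpen P.Dsmooth P.Dpos i (hmaps hx)]
      exact h1 }

/-- Almost every line slice carries slice data. -/
theorem NData.line (P : NData M D G a τ t α β η) (i : Fin (n + 1)) :
    ∀ᵐ x : Fin n → ℂ, (ML M i x).Nonempty →
      KQ.SliceData (ML M i x) (fun w => D (ins i w x)) (fun w => G i (ins i w x)) a
        (τ * ∏ j, t (i.succAbove j) (x j)) (fun k w => η k (ins i w x)) := by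
  filter_upwards [Sl_intL P.isOpen P.integrable i] with x hx hne
  have hmaps : MapsTo (fun w : ℂ => ins i w x) (ML M i x) M := fun w hw => hw
  have hcd := Sl_L_cd i x
  have hlev : ∀ w ∈ ML M i x, 0 ≤ KQ.lev (fun z => Real.log (D (ins i z x))) w ∧
      KQ.lev (fun z => Real.log (D (ins i z x))) w ≤ a * G i (ins i w x) := by
    intro w hw
    have h1 := lev_line P.isOpen P.Dsmooth P.Dpos i (hmaps hw)
    have h2 := P.T i _ (hmaps hw)
    simp only at h1 h2
    rw [← h1, Complex.ofReal_re] at h2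
    exact h2
  exact
  { isOpen := isOpen_ML P.isOpen i x
    nonempty := hne
    a_nonneg := P.a_nonneg
    C_nonneg := mul_nonneg P.τ_nonneg (Finset.prod_nonneg fun j _ => P.tnonneg _ _)
    Dpos := fun w hw => P.Dpos _ (hmaps hw)
    Dsmooth := P.Dsmooth.comp hcd.contDiffOn hmaps
    Gcont := (P.Gcont i).comp hcd.continuous.continuousOn hmaps
    Gnonneg := fun w hw => P.Gnonneg i _ (hmaps hw)
    GleD := fun w hw => by
      have h := P.GleD i _ (hmaps hw)
      simp only at h
      rw [Sl_prod0 i (fun l => t l (ins i w x l))] at h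
      simp only [ins_succAbove] at h
      exact h
    lev_nonneg := fun w hw => (hlev w hw).1
    lev_le := fun w hw => (hlev w hw).2
    integrable := hx
    ηsmooth := fun k => (P.ηsmooth k).comp hcd
    ηcpt := fun k => (P.ηcpt k).comp_isClosedEmbedding (Sl_clL i x)
    ηsub := fun k w hw => P.ηsub k (tsupport_comp_subset_preimage (η k) hcd.continuous hw)
    ηnonneg := fun k w => P.ηnonneg k _
    ηle_one := fun k w => P.ηle_one k _
    ηone := fun K hK1 hK2 => by
      have h1 : IsCompact ((fun w : ℂ => ins i w x) '' K) := hK1.image hcd.continuous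
      have h2 : (fun w : ℂ => ins i w x) '' K ⊆ M := by
        rintro _ ⟨w, hw, rfl⟩
        exact hK2 hw
      filter_upwards [P.ηone _ h1 h2] with k hk w hw
      exact hk _ ⟨w, hw, rfl⟩
    ηgrad := fun k w hw v => by
      have h1 := P.ηgrad i k _ (hmaps hw) v
      rw [Sl_L_fderiv (P.ηsmooth k)]
      exact h1 }

end KN
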